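import Pool.Agent.H488R3.UC.Dtc

/-!
The mutual information of the two halves of a uniform point of a finite set, averaged over
all bipartitions of the coordinates, and its variational lower bound.
-/

namespace Pool.Agent.H488R3.UC

open Finset

variable {n : ℕ}

/-- the crossing: `x` on `A`, `y` off `A` -/
def cr (A : Finset (Fin n)) (x y : Fin n → ℤ) : Fin n → ℤ := fun i => if i ∈ A then x i else y i

/-- `|S|` times the mutual information of the two parts -/
noncomputable def IAN (S : Finset (Fin n → ℤ)) (A : Finset (Fin n)) : ℝ :=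
  hN S A + hN S Aᶜ - hN S univ

/-- the average over all bipartitions -/
noncomputable def PhN (S : Finset (Fin n → ℤ)) : ℝ :=
  (∑ A : Finset (Fin n), IAN S A) / 2 ^ n

theorem hN_univ (S : Finset (Fin n → ℤ)) : hN S univ = S.card * Real.log S.card := by
  unfold hN
  have : ∀ x ∈ S, Real.log (fc univ S x) = 0 := by
    intro x hx
    have : fc univ S x = 1 := by
      unfold fc
      rw [card_eq_one]
      refine ⟨x, ?_⟩
      ext y
      rw [mem_filter, mem_singleton]
      constructor
      · rintro ⟨_, h⟩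
        funext i
        exact (h i (mem_univ i)).symm
      · rintro rfl
        exact ⟨hx, fun _ _ => rfl⟩
    rw [this]; simp
  rw [sum_congr rfl this, sum_const_zero, sub_zero]

/-- pairs whose crossing is in `T` -/
def qc (S : Finset (Fin n → ℤ)) (A : Finset (Fin n)) (T : Finset (Fin n → ℤ)) : ℕ :=
  ((S ×ˢ S).filter (fun p => cr A p.1 p.2 ∈ T)).card

/-- pairs whose crossing is not in `S` -/
def nc (S : Finset (Fin n → ℤ)) (A : Finset (Fin n)) : ℕ :=
  ((S ×ˢ S).filter (fun p => cr A p.1 p.2 ∉ S)).card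

theorem cr_eq_iff (A : Finset (Fin n)) (x y z : Fin n → ℤ) :
    cr A x y = z ↔ Agr A z x ∧ Agr Aᶜ z y := by
  constructor
  · rintro rfl
    constructor
    · intro i hi; simp [cr, hi]
    · intro i hi
      have : i ∉ A := by simpa using hi
      simp [cr, this]
  · rintro ⟨h1, h2⟩
    funext i
    by_cases hi : i ∈ A
    · simp only [cr, hi, if_true]; exact (h1 i hi).symm
    · simp only [cr, hi, if_false]; exact (h2 i (by simpa using hi)).symm

theorem fc_mul_fc (S : Finset (Fin n → ℤ)) (A : Finset (Fin n)) (z : Fin n → ℤ) :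
    fc A S z * fc Aᶜ S z = ((S ×ˢ S).filter (fun p => cr A p.1 p.2 = z)).card := by
  unfold fc
  rw [← card_product]
  congr 1
  ext p
  simp only [mem_product, mem_filter, cr_eq_iff]
  tauto

theorem sum_fc_mul (S T : Finset (Fin n → ℤ)) (A : Finset (Fin n)) :
    ∑ z ∈ T, ((fc A S z : ℝ) * fc Aᶜ S z) = qc S A T := by
  have h1 : ∀ z ∈ T, ((fc A S z : ℝ) * fc Aᶜ S z)
      = (((S ×ˢ S).filter (fun p => cr A p.1 p.2 = z)).card : ℝ) := by
    intro z _
    rw [← fc_mul_fc]; push_cast; rfl
  rw [sum_congr rfl h1, ← Nat.cast_sum]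
  congr 1
  unfold qc
  have h2 := card_eq_sum_card_fiberwise (s := (S ×ˢ S).filter (fun p => cr A p.1 p.2 ∈ T))
    (f := fun p => cr A p.1 p.2) (t := T) (fun p hp => (mem_filter.mp hp).2)
  rw [h2]
  apply sum_congr rfl
  intro z hz
  congr 1
  ext p
  simp only [mem_filter]
  constructor
  · rintro ⟨h3, h4⟩
    exact ⟨⟨h3, h4 ▸ hz⟩, h4⟩
  · rintro ⟨⟨h3, _⟩, h5⟩
    exact ⟨h3, h5⟩

theorem qc_add_nc (S : Finset (Fin n → ℤ)) (A : Finset (Fin n)) :
    (qc S A S : ℝ) + nc S A = (S.card : ℝ) * S.card := by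
  unfold qc nc
  have := card_filter_add_card_filter_not (s := S ×ˢ S) (fun p => cr A p.1 p.2 ∈ S)
  rw [card_product] at this
  exact_mod_cast this

theorem qc_split (S O : Finset (Fin n → ℤ)) (hO : O ⊆ S) (A : Finset (Fin n)) :
    (qc S A O : ℝ) + qc S A (S \ O) = qc S A S := by
  rw [← sum_fc_mul, ← sum_fc_mul, ← sum_fc_mul, add_comm, sum_sdiff hO]

/-- the variational bound -/
theorem dv (S : Finset (Fin n → ℤ)) (hS : S.Nonempty) (A : Finset (Fin n))
    (O : Finset (Fin n → ℤ)) (hO : O ⊆ S) (l : ℝ) :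
    l * O.card - (Real.exp l - 1) * qc S A O / S.card + nc S A / S.card ≤ IAN S A := by
  classical
  have hN0 : (0 : ℝ) < S.card := by exact_mod_cast card_pos.mpr hS
  have e1 : IAN S A = ∑ z ∈ S, (Real.log S.card
      - (Real.log (fc A S z) + Real.log (fc Aᶜ S z))) := by
    unfold IAN
    rw [hN_univ]
    unfold hN
    rw [sum_sub_distrib, sum_add_distrib, sum_const, nsmul_eq_mul]
    ring
  have h1 : ∀ z ∈ S, (if z ∈ O then l else 0) + 1
      - ((fc A S z : ℝ) * fc Aᶜ S z) / S.card * Real.exp (if z ∈ O then l else 0)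
      ≤ Real.log S.card - (Real.log (fc A S z) + Real.log (fc Aᶜ S z)) := by
    intro z hz
    set φ : ℝ := if z ∈ O then l else 0
    have a1 : (0 : ℝ) < fc A S z := by exact_mod_cast fc_pos hz
    have a2 : (0 : ℝ) < fc Aᶜ S z := by exact_mod_cast fc_pos hz
    have h2 := Real.log_le_sub_one_of_pos
      (mul_pos (div_pos (mul_pos a1 a2) hN0) (Real.exp_pos φ))
    rw [Real.log_mul (div_pos (mul_pos a1 a2) hN0).ne' (Real.exp_pos φ).ne', Real.log_exp,
      Real.log_div (mul_pos a1 a2).ne' hN0.ne', Real.log_mul a1.ne' a2.ne'] at h2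
    linarith
  have h2 := sum_le_sum h1
  rw [← e1] at h2
  refine le_trans (le_of_eq ?_) h2
  rw [sum_sub_distrib, sum_add_distrib, sum_const, nsmul_eq_mul, mul_one]
  have e2 : ∑ z ∈ S, (if z ∈ O then l else 0) = l * O.card := by
    rw [← sum_filter, sum_const, nsmul_eq_mul, filter_mem_eq_inter, inter_eq_right.mpr hO,
      mul_comm]
  have e3 : ∑ z ∈ S, ((fc A S z : ℝ) * fc Aᶜ S z) / S.card
      * Real.exp (if z ∈ O then l else 0)
      = (qc S A (S \ O) + Real.exp l * qc S A O) / S.card := by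
    rw [← sum_sdiff hO, ← sum_fc_mul, ← sum_fc_mul, add_div]
    congr 1
    · rw [sum_div]
      apply sum_congr rfl
      intro z hz
      rw [if_neg (mem_sdiff.mp hz).2, Real.exp_zero, mul_one]
    · rw [mul_sum, sum_div]
      apply sum_congr rfl
      intro z hz
      rw [if_pos hz]; ring
  rw [e2, e3]
  have h3 := qc_add_nc S A
  have h4 := qc_split S O hO A
  have h5 : (qc S A (S \ O) : ℝ) = (S.card : ℝ) * S.card - nc S A - qc S A O := by linarith
  rw [h5]
  field_simp
  ring

theorem IAN_nonneg (S : Finset (Fin n → ℤ)) (A : Finset (Fin n)) : 0 ≤ IAN S A := by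
  unfold IAN
  have h1 := hN_submod S A Aᶜ
  have h2 : A ∪ Aᶜ = univ := union_compl A
  have h3 : A ∩ Aᶜ = ∅ := inter_compl A
  rw [h2, h3, hN_empty] at h1
  linarith

theorem IAN_compl (S : Finset (Fin n → ℤ)) (A : Finset (Fin n)) : IAN S Aᶜ = IAN S A := by
  unfold IAN
  rw [compl_compl]; ring

theorem PhN_nonneg (S : Finset (Fin n → ℤ)) : 0 ≤ PhN S :=
  div_nonneg (sum_nonneg (fun A _ => IAN_nonneg S A)) (by positivity)

end Pool.Agent.H488R3.UC
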