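import Pool.Agent.H488R3.UC.BT1

/-!
The recursion of the averaged functional over the slices.
-/

namespace Pool.Agent.H488R3.UC

open Finset

variable {n : ℕ}

/-- the copy of `B` among the first `n` coordinates -/
def mp (B : Finset (Fin n)) : Finset (Fin (n + 1)) := B.map Fin.castSuccEmb

theorem castSucc_mem_mp {B : Finset (Fin n)} {i : Fin n} : i.castSucc ∈ mp B ↔ i ∈ B := by
  simp [mp]

theorem last_not_mem_mp {B : Finset (Fin n)} : Fin.last n ∉ mp B := by
  simp only [mp, mem_map, not_exists, not_and]
  intro i _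
  exact (Fin.castSucc_lt_last i).ne

theorem mp_tr {A : Finset (Fin (n + 1))} (h : Fin.last n ∉ A) : mp (tr A) = A := by
  ext i
  refine Fin.lastCases ?_ (fun k => ?_) i
  · exact ⟨fun h' => absurd h' last_not_mem_mp, fun h' => absurd h' h⟩
  · rw [castSucc_mem_mp, mem_tr]

theorem tr_mp (B : Finset (Fin n)) : tr (mp B) = B := by
  ext i; rw [mem_tr, castSucc_mem_mp]

theorem mp_injective : Function.Injective (mp : Finset (Fin n) → Finset (Fin (n + 1))) :=
  fun A B h => by rw [← tr_mp A, ← tr_mp B, h]

theorem sum_succ {β : Type*} [AddCommMonoid β] (f : Finset (Fin (n + 1)) → β) :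
    ∑ A, f A = ∑ B : Finset (Fin n), f (mp B)
      + ∑ B : Finset (Fin n), f (insert (Fin.last n) (mp B)) := by
  classical
  rw [← sum_filter_add_sum_filter_not univ (fun A : Finset (Fin (n + 1)) => Fin.last n ∉ A)]
  congr 1
  · have : univ.filter (fun A : Finset (Fin (n + 1)) => Fin.last n ∉ A)
        = (univ : Finset (Finset (Fin n))).image mp := by
      ext A
      simp only [mem_filter, mem_univ, true_and, mem_image]
      constructor
      · intro h; exact ⟨tr A, mp_tr h⟩
      · rintro ⟨B, rfl⟩; exact last_not_mem_mp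
    rw [this, sum_image (fun a _ b _ h => mp_injective h)]
  · have : univ.filter (fun A : Finset (Fin (n + 1)) => ¬ Fin.last n ∉ A)
        = (univ : Finset (Finset (Fin n))).image (fun B => insert (Fin.last n) (mp B)) := by
      ext A
      simp only [mem_filter, mem_univ, true_and, mem_image, not_not]
      constructor
      · intro h
        refine ⟨tr A, ?_⟩
        ext i
        refine Fin.lastCases ?_ (fun k => ?_) i
        · simp [h]
        · rw [mem_insert, castSucc_mem_mp, mem_tr]
          constructor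
          · rintro (h' | h')
            · exact absurd h' (Fin.castSucc_lt_last k).ne
            · exact h'
          · intro h'; exact Or.inr h'
      · rintro ⟨B, rfl⟩; exact mem_insert_self _ _
    rw [this, sum_image]
    intro a _ b _ h
    have h' : insert (Fin.last n) (mp a) = insert (Fin.last n) (mp b) := h
    apply mp_injective
    rw [← erase_insert (last_not_mem_mp (B := a)), h', erase_insert (last_not_mem_mp (B := b))]

theorem compl_mp (B : Finset (Fin n)) : (mp B)ᶜ = insert (Fin.last n) (mp Bᶜ) := by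
  ext i
  refine Fin.lastCases ?_ (fun k => ?_) i
  · simp [last_not_mem_mp]
  · rw [mem_compl, castSucc_mem_mp, mem_insert, castSucc_mem_mp, mem_compl]
    constructor
    · intro h; exact Or.inr h
    · rintro (h | h)
      · exact absurd h (Fin.castSucc_lt_last k).ne
      · exact h

theorem univ_eq : (univ : Finset (Fin (n + 1))) = insert (Fin.last n) (mp univ) := by
  ext i
  refine Fin.lastCases ?_ (fun k => ?_) i
  · simp
  · simp [castSucc_mem_mp]

theorem agr_mp {B : Finset (Fin n)} {y : Fin n → ℤ} {a : ℤ} {x : Fin (n + 1) → ℤ} :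
    Agr (mp B) (app y a) x ↔ Agr B y (ini x) := by
  constructor
  · intro h i hi
    have := h i.castSucc (castSucc_mem_mp.mpr hi)
    rwa [app_castSucc] at this
  · intro h i hi
    obtain ⟨k, hk, rfl⟩ := mem_map.mp hi
    have := h k hk
    change app y a k.castSucc = x k.castSucc
    rw [app_castSucc]
    exact this

theorem agr_insert {B : Finset (Fin n)} {y : Fin n → ℤ} {a : ℤ} {x : Fin (n + 1) → ℤ} :
    Agr (insert (Fin.last n) (mp B)) (app y a) x ↔ x (Fin.last n) = a ∧ Agr B y (ini x) := by
  rw [← agr_mp (a := a)]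
  constructor
  · intro h
    refine ⟨?_, h.mono (subset_insert _ _)⟩
    have := h (Fin.last n) (mem_insert_self _ _)
    rw [app_last] at this
    exact this.symm
  · rintro ⟨h1, h2⟩ i hi
    rcases mem_insert.mp hi with h | h
    · subst h; rw [app_last]; exact h1.symm
    · exact h2 i h

theorem fc_insert (S : Finset (Fin (n + 1) → ℤ)) (B : Finset (Fin n)) (y : Fin n → ℤ) (a : ℤ) :
    fc (insert (Fin.last n) (mp B)) S (app y a) = fc B (slice a S) y := by
  unfold fc
  have himg : (slice a S).filter (fun z => Agr B y z)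
      = (S.filter (fun x => Agr (insert (Fin.last n) (mp B)) (app y a) x)).image ini := by
    ext z
    simp only [mem_filter, mem_image, agr_insert, mem_slice]
    constructor
    · rintro ⟨⟨x, hx, hxa, rfl⟩, h⟩
      exact ⟨x, ⟨hx, hxa, h⟩, rfl⟩
    · rintro ⟨x, ⟨hx, hxa, h⟩, rfl⟩
      exact ⟨⟨x, hx, hxa, rfl⟩, h⟩
  rw [himg]
  symm
  apply card_image_of_injOn
  intro x hx z hz hxz
  simp only [coe_filter, Set.mem_ofPred_eq, agr_insert] at hx hz
  exact ext_last hxz (hx.2.1.trans hz.2.1.symm)

/-- the number of points of `S` whose first coordinates agree with `y` on `B` -/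
def FB (B : Finset (Fin n)) (S : Finset (Fin (n + 1) → ℤ)) (y : Fin n → ℤ) : ℕ :=
  (S.filter (fun x => Agr B y (ini x))).card

theorem fc_mp (S : Finset (Fin (n + 1) → ℤ)) (B : Finset (Fin n)) (y : Fin n → ℤ) (a : ℤ) :
    fc (mp B) S (app y a) = FB B S y := by
  unfold fc FB
  congr 1
  apply filter_congr
  intro x _
  exact agr_mp

/-- the scaled entropy of the last coordinate -/
noncomputable def Hent (S : Finset (Fin (n + 1) → ℤ)) : ℝ :=
  S.card * Real.log S.card - ∑ a ∈ vals S, ((slice a S).card : ℝ) * Real.log (slice a S).card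

theorem hN_insert (S : Finset (Fin (n + 1) → ℤ)) (B : Finset (Fin n)) :
    hN S (insert (Fin.last n) (mp B)) = Hent S + ∑ a ∈ vals S, hN (slice a S) B := by
  unfold hN Hent
  rw [sum_slices, sum_sub_distrib]
  simp only [fc_insert]
  ring

/-- the gain of a slice for the coordinates in `B` -/
noncomputable def Gm (S : Finset (Fin (n + 1) → ℤ)) (a : ℤ) (B : Finset (Fin n)) : ℝ :=
  ∑ y ∈ slice a S, (Real.log S.card - Real.log (slice a S).card - Real.log (FB B S y)
    + Real.log (fc B (slice a S) y))

theorem hN_mp (S : Finset (Fin (n + 1) → ℤ)) (B : Finset (Fin n)) :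
    hN S (mp B) = ∑ a ∈ vals S, hN (slice a S) B + ∑ a ∈ vals S, Gm S a B := by
  have e1 : hN S (mp B) = ∑ a ∈ vals S, ∑ y ∈ slice a S,
      (Real.log S.card - Real.log (FB B S y)) := by
    unfold hN
    have : (S.card : ℝ) * Real.log S.card = ∑ x ∈ S, Real.log S.card := by
      rw [sum_const, nsmul_eq_mul]
    rw [this, ← sum_sub_distrib, sum_slices]
    simp only [fc_mp]
  rw [e1, ← sum_add_distrib]
  apply sum_congr rfl
  intro a _
  unfold hN Gm
  have : ((slice a S).card : ℝ) * Real.log (slice a S).card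
      = ∑ y ∈ slice a S, Real.log (slice a S).card := by
    rw [sum_const, nsmul_eq_mul]
  rw [this, ← sum_sub_distrib, ← sum_add_distrib]
  apply sum_congr rfl
  intro y _
  ring

theorem IAN_mp (S : Finset (Fin (n + 1) → ℤ)) (B : Finset (Fin n)) :
    IAN S (mp B) = ∑ a ∈ vals S, IAN (slice a S) B + ∑ a ∈ vals S, Gm S a B := by
  unfold IAN
  rw [compl_mp, univ_eq, hN_insert, hN_insert, hN_mp, sum_sub_distrib, sum_add_distrib]
  ring

/-- the averaged gain of a slice -/
noncomputable def Gam (S : Finset (Fin (n + 1) → ℤ)) (a : ℤ) : ℝ :=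
  (∑ B : Finset (Fin n), Gm S a B) / 2 ^ n

theorem sum_IAN_insert (S : Finset (Fin (n + 1) → ℤ)) :
    ∑ B : Finset (Fin n), IAN S (insert (Fin.last n) (mp B))
      = ∑ B : Finset (Fin n), IAN S (mp B) := by
  have h1 : ∀ B : Finset (Fin n), IAN S (insert (Fin.last n) (mp B)) = IAN S (mp Bᶜ) := by
    intro B
    have := compl_mp Bᶜ
    rw [compl_compl] at this
    rw [← this, IAN_compl]
  simp only [h1]
  exact Fintype.sum_bijective compl compl_bijective _ _ (fun B => rfl)

theorem PhN_eq (S : Finset (Fin (n + 1) → ℤ)) :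
    PhN S = (∑ B : Finset (Fin n), IAN S (mp B)) / 2 ^ n := by
  unfold PhN
  rw [sum_succ, sum_IAN_insert, pow_succ]
  field_simp
  ring

theorem PhN_rec (S : Finset (Fin (n + 1) → ℤ)) :
    PhN S = ∑ a ∈ vals S, PhN (slice a S) + ∑ a ∈ vals S, Gam S a := by
  rw [PhN_eq]
  unfold PhN Gam
  simp only [IAN_mp]
  rw [sum_add_distrib, add_div, sum_comm (s := univ) (t := vals S),
    sum_comm (s := univ) (t := vals S), sum_div, sum_div]

theorem dvG (S : Finset (Fin (n + 1) → ℤ)) (hS : S.Nonempty) (a : ℤ) (B : Finset (Fin n))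
    (E : (Fin n → ℤ) → Prop) [DecidablePred E] (hE : ∀ y y', Agr B y y' → (E y ↔ E y'))
    (l : ℝ) :
    l * ((slice a S).filter E).card - (Real.exp l - 1) * (((slice a S).card : ℝ) / S.card)
      * (S.filter (fun x => E (ini x))).card ≤ Gm S a B := by
  classical
  have hN0 : (0 : ℝ) < S.card := by exact_mod_cast card_pos.mpr hS
  rcases (slice a S).eq_empty_or_nonempty with hne | hne
  · unfold Gm; rw [hne]; simp
  have hNa : (0 : ℝ) < (slice a S).card := by exact_mod_cast card_pos.mpr hne
  set φ : (Fin n → ℤ) → ℝ := fun y => if E y then l else 0 with hφ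
  have hφc : ∀ y y', Agr B y y' → φ y = φ y' := by
    intro y y' h
    simp only [hφ, hE y y' h]
  have hF : ∀ y ∈ slice a S, (0 : ℝ) < FB B S y := by
    intro y hy
    obtain ⟨x, hx, _, rfl⟩ := mem_slice.mp hy
    have : 0 < FB B S (ini x) := card_pos.mpr ⟨x, mem_filter.mpr ⟨hx, fun _ _ => rfl⟩⟩
    exact_mod_cast this
  have h1 : ∀ y ∈ slice a S, φ y + 1 - ((slice a S).card / S.card)
      * ((FB B S y : ℝ) / fc B (slice a S) y * Real.exp (φ y))
      ≤ Real.log S.card - Real.log (slice a S).card - Real.log (FB B S y)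
        + Real.log (fc B (slice a S) y) := by
    intro y hy
    have a1 := hF y hy
    have a2 : (0 : ℝ) < fc B (slice a S) y := by exact_mod_cast fc_pos hy
    have h2 := Real.log_le_sub_one_of_pos
      (mul_pos (div_pos hNa hN0) (mul_pos (div_pos a1 a2) (Real.exp_pos (φ y))))
    rw [Real.log_mul (div_pos hNa hN0).ne' (mul_pos (div_pos a1 a2) (Real.exp_pos (φ y))).ne',
      Real.log_mul (div_pos a1 a2).ne' (Real.exp_pos (φ y)).ne', Real.log_exp,
      Real.log_div hNa.ne' hN0.ne', Real.log_div a1.ne' a2.ne'] at h2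
    linarith
  have h2 := sum_le_sum h1
  refine le_trans ?_ h2
  rw [sum_sub_distrib, sum_add_distrib, sum_const, nsmul_eq_mul, mul_one, ← mul_sum]
  have e1 : ∑ y ∈ slice a S, φ y = l * ((slice a S).filter E).card := by
    simp only [hφ]
    rw [← sum_filter, sum_const, nsmul_eq_mul, mul_comm]
  have h3 : ∑ y ∈ slice a S, (FB B S y : ℝ) / fc B (slice a S) y * Real.exp (φ y)
      ≤ ∑ x ∈ S, Real.exp (φ (ini x)) := by
    have e2 : ∀ y ∈ slice a S, (FB B S y : ℝ) / fc B (slice a S) y * Real.exp (φ y)
        = ∑ x ∈ S, (if Agr B y (ini x) then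
          1 / (fc B (slice a S) y : ℝ) * Real.exp (φ y) else 0) := by
      intro y _
      rw [← sum_filter, sum_const, nsmul_eq_mul]
      have : ((S.filter (fun x => Agr B y (ini x))).card : ℝ) = FB B S y := rfl
      rw [this]; ring
    rw [sum_congr rfl e2, sum_comm]
    apply sum_le_sum
    intro x _
    rw [← sum_filter]
    rcases ((slice a S).filter (fun y => Agr B y (ini x))).eq_empty_or_nonempty with hem | hnem
    · rw [hem, sum_empty]; exact (Real.exp_pos _).le
    · obtain ⟨y0, hy0⟩ := hnem
      have hy0' := mem_filter.mp hy0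
      have h4 : ∀ y ∈ (slice a S).filter (fun y => Agr B y (ini x)),
          1 / (fc B (slice a S) y : ℝ) * Real.exp (φ y)
          = 1 / (fc B (slice a S) y0 : ℝ) * Real.exp (φ (ini x)) := by
        intro y hy
        have hy' := mem_filter.mp hy
        rw [hφc y (ini x) hy'.2, fc_congr (S := slice a S) (hy'.2.trans hy0'.2.symm)]
      rw [sum_congr rfl h4, sum_const, nsmul_eq_mul]
      have h5 : (slice a S).filter (fun y => Agr B y (ini x))
          = (slice a S).filter (fun y => Agr B y0 y) := by
        apply filter_congr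
        intro y _
        exact ⟨fun h => hy0'.2.trans h.symm, fun h => h.symm.trans hy0'.2⟩
      have h6 : (((slice a S).filter (fun y => Agr B y0 y)).card : ℝ)
          = fc B (slice a S) y0 := rfl
      have h7 : (0 : ℝ) < fc B (slice a S) y0 := by exact_mod_cast fc_pos hy0'.1
      rw [h5, h6]
      apply le_of_eq
      field_simp
  have e3 : ∑ x ∈ S, Real.exp (φ (ini x)) = S.card
      + (Real.exp l - 1) * (S.filter (fun x => E (ini x))).card := by
    have : ∀ x ∈ S, Real.exp (φ (ini x))
        = 1 + (if E (ini x) then (Real.exp l - 1) else 0) := by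
      intro x _
      simp only [hφ]
      split_ifs <;> simp
    rw [sum_congr rfl this, sum_add_distrib, ← sum_filter, sum_const, sum_const, nsmul_eq_mul,
      nsmul_eq_mul]
    ring
  rw [e1]
  have h4 : ((slice a S).card : ℝ) / S.card
      * ∑ y ∈ slice a S, (FB B S y : ℝ) / fc B (slice a S) y * Real.exp (φ y)
      ≤ ((slice a S).card : ℝ) / S.card * (S.card
        + (Real.exp l - 1) * (S.filter (fun x => E (ini x))).card) :=
    mul_le_mul_of_nonneg_left (h3.trans (le_of_eq e3)) (div_pos hNa hN0).le
  have h5 : ((slice a S).card : ℝ) / S.card * (S.card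
        + (Real.exp l - 1) * (S.filter (fun x => E (ini x))).card)
      = (slice a S).card + (Real.exp l - 1) * (((slice a S).card : ℝ) / S.card)
        * (S.filter (fun x => E (ini x))).card := by
    field_simp
  linarith

theorem Gm_nonneg (S : Finset (Fin (n + 1) → ℤ)) (hS : S.Nonempty) (a : ℤ)
    (B : Finset (Fin n)) : 0 ≤ Gm S a B := by
  have := dvG S hS a B (fun _ => False) (fun _ _ _ => Iff.rfl) 0
  simpa using this

theorem Gam_nonneg (S : Finset (Fin (n + 1) → ℤ)) (hS : S.Nonempty) (a : ℤ) : 0 ≤ Gam S a :=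
  div_nonneg (sum_nonneg (fun B _ => Gm_nonneg S hS a B)) (by positivity)

end Pool.Agent.H488R3.UC
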