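import Pool.Agent.H488R3.UC.BT2

/-!
Second moment inequalities for the random crossing on a box.
-/

namespace Pool.Agent.H488R3.UC

open Finset

variable {n : ℕ}

theorem pol {α : Type*} (V : Finset α) (a c : α → ℝ) :
    (V.card : ℝ) * ∑ v ∈ V, a v * c v - (∑ v ∈ V, a v) * ∑ v ∈ V, c v
      = 1 / 2 * ∑ v ∈ V, ∑ w ∈ V, (a v - a w) * (c v - c w) := by
  have h1 : ∀ v ∈ V, ∑ w ∈ V, (a v - a w) * (c v - c w)
      = (V.card : ℝ) * (a v * c v) - a v * ∑ w ∈ V, c w - (∑ w ∈ V, a w) * c v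
        + ∑ w ∈ V, a w * c w := by
    intro v _
    have : ∀ w ∈ V, (a v - a w) * (c v - c w)
        = a v * c v - a v * c w - a w * c v + a w * c w := by
      intro w _; ring
    rw [sum_congr rfl this, sum_add_distrib, sum_sub_distrib, sum_sub_distrib, sum_const,
      nsmul_eq_mul, ← mul_sum, ← sum_mul]
  rw [sum_congr rfl h1, sum_add_distrib, sum_sub_distrib, sum_sub_distrib, sum_const,
    nsmul_eq_mul, ← mul_sum, ← sum_mul, ← mul_sum]
  ring

/-- the sides of the first `n` coordinates -/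
def bi (B : Fin (n + 1) → Finset ℤ) : Fin n → Finset ℤ := fun i => B i.castSucc

theorem app_mem {B : Fin (n + 1) → Finset ℤ} {y : Fin n → ℤ} {v : ℤ} :
    app y v ∈ Fintype.piFinset B ↔ v ∈ B (Fin.last n) ∧ y ∈ Fintype.piFinset (bi B) := by
  rw [Fintype.mem_piFinset, Fintype.mem_piFinset, Fin.forall_fin_succ']
  simp only [app_last, app_castSucc, bi]
  tauto

theorem sum_pi (B : Fin (n + 1) → Finset ℤ) (F : (Fin (n + 1) → ℤ) → ℝ) :
    ∑ x ∈ Fintype.piFinset B, F x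
      = ∑ v ∈ B (Fin.last n), ∑ y ∈ Fintype.piFinset (bi B), F (app y v) := by
  rw [← sum_product']
  symm
  refine sum_bij' (fun p _ => app p.2 p.1) (fun x _ => (x (Fin.last n), ini x)) ?_ ?_ ?_ ?_ ?_
  · intro p hp
    exact app_mem.mpr (mem_product.mp hp)
  · intro x hx
    rw [mem_product]
    have : app (ini x) (x (Fin.last n)) ∈ Fintype.piFinset B := by rw [app_ini]; exact hx
    exact app_mem.mp this
  · intro p _; simp
  · intro x _; exact app_ini x
  · intro p _; rfl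

theorem card_pi (B : Fin (n + 1) → Finset ℤ) :
    ((Fintype.piFinset B).card : ℝ)
      = (B (Fin.last n)).card * (Fintype.piFinset (bi B)).card := by
  have := sum_pi B (fun _ => (1 : ℝ))
  simpa using this

def s1 (B : Fin n → Finset ℤ) (F : (Fin n → ℤ) → ℝ) : ℝ := ∑ x ∈ Fintype.piFinset B, F x

def s2 (B : Fin n → Finset ℤ) (F : (Fin n → ℤ) → ℝ) : ℝ := ∑ x ∈ Fintype.piFinset B, F x ^ 2

def st (B : Fin n → Finset ℤ) (F : (Fin n → ℤ) → ℝ) : ℝ :=
  ∑ A : Finset (Fin n), ∑ x ∈ Fintype.piFinset B, ∑ y ∈ Fintype.piFinset B,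
    F x * F (cr A x y)

def Fs (F : (Fin (n + 1) → ℤ) → ℝ) (v : ℤ) : (Fin n → ℤ) → ℝ := fun y => F (app y v)

def Fh (B : Fin (n + 1) → Finset ℤ) (F : (Fin (n + 1) → ℤ) → ℝ) : (Fin n → ℤ) → ℝ :=
  fun y => ∑ v ∈ B (Fin.last n), Fs F v y

theorem s1_succ (B : Fin (n + 1) → Finset ℤ) (F : (Fin (n + 1) → ℤ) → ℝ) :
    s1 B F = ∑ v ∈ B (Fin.last n), s1 (bi B) (Fs F v) := sum_pi B F

theorem s1_succ' (B : Fin (n + 1) → Finset ℤ) (F : (Fin (n + 1) → ℤ) → ℝ) :
    s1 B F = s1 (bi B) (Fh B F) := by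
  rw [s1_succ]; unfold s1 Fh; exact sum_comm

theorem s2_succ (B : Fin (n + 1) → Finset ℤ) (F : (Fin (n + 1) → ℤ) → ℝ) :
    s2 B F = ∑ v ∈ B (Fin.last n), s2 (bi B) (Fs F v) := sum_pi B (fun x => F x ^ 2)

theorem cr_mp (A : Finset (Fin n)) (x y : Fin n → ℤ) (v w : ℤ) :
    cr (mp A) (app x v) (app y w) = app (cr A x y) w := by
  funext i
  refine Fin.lastCases ?_ (fun k => ?_) i
  · simp [cr, last_not_mem_mp]
  · simp [cr, castSucc_mem_mp]

theorem cr_insert (A : Finset (Fin n)) (x y : Fin n → ℤ) (v w : ℤ) :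
    cr (insert (Fin.last n) (mp A)) (app x v) (app y w) = app (cr A x y) v := by
  funext i
  refine Fin.lastCases ?_ (fun k => ?_) i
  · simp [cr]
  · have : k.castSucc ≠ Fin.last n := (Fin.castSucc_lt_last k).ne
    simp [cr, castSucc_mem_mp, this]

theorem st_succ (B : Fin (n + 1) → Finset ℤ) (F : (Fin (n + 1) → ℤ) → ℝ) :
    st B F = st (bi B) (Fh B F)
      + (B (Fin.last n)).card * ∑ v ∈ B (Fin.last n), st (bi B) (Fs F v) := by
  have h1 : ∀ A : Finset (Fin n), ∑ x ∈ Fintype.piFinset B, ∑ y ∈ Fintype.piFinset B,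
      F x * F (cr (mp A) x y) = ∑ x ∈ Fintype.piFinset (bi B), ∑ y ∈ Fintype.piFinset (bi B),
        Fh B F x * Fh B F (cr A x y) := by
    intro A
    rw [sum_pi]
    simp only [sum_pi, cr_mp]
    rw [sum_comm]
    apply sum_congr rfl
    intro x _
    have : ∀ v ∈ B (Fin.last n), ∑ w ∈ B (Fin.last n), ∑ y ∈ Fintype.piFinset (bi B),
        F (app x v) * F (app (cr A x y) w)
        = ∑ y ∈ Fintype.piFinset (bi B), F (app x v) * Fh B F (cr A x y) := by
      intro v _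
      rw [sum_comm]
      apply sum_congr rfl
      intro y _
      unfold Fh Fs
      rw [mul_sum]
    rw [sum_congr rfl this, sum_comm]
    apply sum_congr rfl
    intro y _
    rw [← sum_mul]; rfl
  have h2 : ∀ A : Finset (Fin n), ∑ x ∈ Fintype.piFinset B, ∑ y ∈ Fintype.piFinset B,
      F x * F (cr (insert (Fin.last n) (mp A)) x y)
      = (B (Fin.last n)).card * ∑ v ∈ B (Fin.last n), ∑ x ∈ Fintype.piFinset (bi B),
        ∑ y ∈ Fintype.piFinset (bi B), Fs F v x * Fs F v (cr A x y) := by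
    intro A
    rw [sum_pi]
    simp only [sum_pi, cr_insert, sum_const, nsmul_eq_mul]
    rw [mul_sum]
    apply sum_congr rfl
    intro v _
    rw [mul_sum]; rfl
  unfold st
  rw [sum_succ]
  simp only [h1, h2]
  congr 1
  rw [← mul_sum, sum_comm]

theorem st_pol (B : Fin n → Finset ℤ) (V : Finset ℤ) (F : ℤ → (Fin n → ℤ) → ℝ) :
    (V.card : ℝ) * ∑ v ∈ V, st B (F v) - st B (fun y => ∑ v ∈ V, F v y)
      = 1 / 2 * ∑ v ∈ V, ∑ w ∈ V, st B (fun y => F v y - F w y) := by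
  have e1 : (V.card : ℝ) * ∑ v ∈ V, st B (F v) - st B (fun y => ∑ v ∈ V, F v y)
      = ∑ A : Finset (Fin n), ∑ x ∈ Fintype.piFinset B, ∑ y ∈ Fintype.piFinset B,
        ((V.card : ℝ) * ∑ v ∈ V, F v x * F v (cr A x y)
          - (∑ v ∈ V, F v x) * ∑ v ∈ V, F v (cr A x y)) := by
    unfold st
    simp only [sum_sub_distrib]
    congr 1
    rw [mul_sum]
    simp only [mul_sum]
    rw [sum_comm]
    apply sum_congr rfl
    intro A _
    rw [sum_comm]
    apply sum_congr rfl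
    intro x _
    rw [sum_comm]
  have e2 : 1 / 2 * ∑ v ∈ V, ∑ w ∈ V, st B (fun y => F v y - F w y)
      = ∑ A : Finset (Fin n), ∑ x ∈ Fintype.piFinset B, ∑ y ∈ Fintype.piFinset B,
        (1 / 2 * ∑ v ∈ V, ∑ w ∈ V, (F v x - F w x) * (F v (cr A x y) - F w (cr A x y))) := by
    unfold st
    simp only [mul_sum]
    have : ∀ v ∈ V, ∑ w ∈ V, ∑ A : Finset (Fin n), ∑ x ∈ Fintype.piFinset B,
        ∑ y ∈ Fintype.piFinset B, 1 / 2 * ((F v x - F w x) * (F v (cr A x y) - F w (cr A x y)))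
        = ∑ A : Finset (Fin n), ∑ x ∈ Fintype.piFinset B,
        ∑ y ∈ Fintype.piFinset B, ∑ w ∈ V,
          1 / 2 * ((F v x - F w x) * (F v (cr A x y) - F w (cr A x y))) := by
      intro v _
      rw [sum_comm]
      apply sum_congr rfl
      intro A _
      rw [sum_comm]
      apply sum_congr rfl
      intro x _
      rw [sum_comm]
    rw [sum_congr rfl this, sum_comm]
    apply sum_congr rfl
    intro A _
    rw [sum_comm]
    apply sum_congr rfl
    intro x _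
    rw [sum_comm]
  rw [e1, e2]
  apply sum_congr rfl
  intro A _
  apply sum_congr rfl
  intro x _
  apply sum_congr rfl
  intro y _
  exact pol V (fun v => F v x) (fun v => F v (cr A x y))

theorem s2_pol (B : Fin n → Finset ℤ) (V : Finset ℤ) (F : ℤ → (Fin n → ℤ) → ℝ) :
    (V.card : ℝ) * ∑ v ∈ V, s2 B (F v) - s2 B (fun y => ∑ v ∈ V, F v y)
      = 1 / 2 * ∑ v ∈ V, ∑ w ∈ V, s2 B (fun y => F v y - F w y) := by
  have e1 : (V.card : ℝ) * ∑ v ∈ V, s2 B (F v) - s2 B (fun y => ∑ v ∈ V, F v y)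
      = ∑ x ∈ Fintype.piFinset B, ((V.card : ℝ) * ∑ v ∈ V, F v x * F v x
          - (∑ v ∈ V, F v x) * ∑ v ∈ V, F v x) := by
    unfold s2
    simp only [sum_sub_distrib, pow_two]
    congr 1
    simp only [mul_sum]
    rw [sum_comm]
  have e2 : 1 / 2 * ∑ v ∈ V, ∑ w ∈ V, s2 B (fun y => F v y - F w y)
      = ∑ x ∈ Fintype.piFinset B,
        (1 / 2 * ∑ v ∈ V, ∑ w ∈ V, (F v x - F w x) * (F v x - F w x)) := by
    unfold s2
    simp only [mul_sum, pow_two]
    have : ∀ v ∈ V, ∑ w ∈ V, ∑ x ∈ Fintype.piFinset B,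
        1 / 2 * ((F v x - F w x) * (F v x - F w x))
        = ∑ x ∈ Fintype.piFinset B, ∑ w ∈ V,
          1 / 2 * ((F v x - F w x) * (F v x - F w x)) := by
      intro v _
      rw [sum_comm]
    rw [sum_congr rfl this, sum_comm]
  rw [e1, e2]
  apply sum_congr rfl
  intro x _
  exact pol V (fun v => F v x) (fun v => F v x)

theorem s1_pol (B : Fin n → Finset ℤ) (V : Finset ℤ) (F : ℤ → (Fin n → ℤ) → ℝ) :
    (V.card : ℝ) * ∑ v ∈ V, s1 B (F v) ^ 2 - (∑ v ∈ V, s1 B (F v)) ^ 2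
      = 1 / 2 * ∑ v ∈ V, ∑ w ∈ V, s1 B (fun y => F v y - F w y) ^ 2 := by
  have h := pol V (fun v => s1 B (F v)) (fun v => s1 B (F v))
  have h1 : ∀ v w, s1 B (fun y => F v y - F w y) = s1 B (F v) - s1 B (F w) := by
    intro v w; unfold s1; rw [sum_sub_distrib]
  simp only [h1, pow_two]
  exact h

/-- the variance form -/
theorem var_conv (B : Fin n → Finset ℤ) (V : Finset ℤ) (F : ℤ → (Fin n → ℤ) → ℝ) :
    ((Fintype.piFinset B).card : ℝ) * s2 B (fun y => ∑ v ∈ V, F v y)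
        - s1 B (fun y => ∑ v ∈ V, F v y) ^ 2
      ≤ V.card * ∑ v ∈ V, (((Fintype.piFinset B).card : ℝ) * s2 B (F v) - s1 B (F v) ^ 2) := by
  have h1 : ∀ G : (Fin n → ℤ) → ℝ, ((Fintype.piFinset B).card : ℝ) * s2 B G - s1 B G ^ 2
      = 1 / 2 * ∑ x ∈ Fintype.piFinset B, ∑ y ∈ Fintype.piFinset B, (G x - G y) ^ 2 := by
    intro G
    have := pol (Fintype.piFinset B) G G
    unfold s2 s1
    simp only [pow_two]
    exact this
  rw [h1]
  simp only [h1]
  rw [← mul_sum]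
  have h2 : ∑ x ∈ Fintype.piFinset B, ∑ y ∈ Fintype.piFinset B,
      ((∑ v ∈ V, F v x) - (∑ v ∈ V, F v y)) ^ 2
      ≤ ∑ x ∈ Fintype.piFinset B, ∑ y ∈ Fintype.piFinset B,
        ((V.card : ℝ) * ∑ v ∈ V, (F v x - F v y) ^ 2) := by
    apply sum_le_sum
    intro x _
    apply sum_le_sum
    intro y _
    rw [← sum_sub_distrib]
    exact sq_sum_le_card_mul_sum_sq
  have h3 : ∑ x ∈ Fintype.piFinset B, ∑ y ∈ Fintype.piFinset B,
        ((V.card : ℝ) * ∑ v ∈ V, (F v x - F v y) ^ 2)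
      = V.card * ∑ v ∈ V, ∑ x ∈ Fintype.piFinset B, ∑ y ∈ Fintype.piFinset B,
        (F v x - F v y) ^ 2 := by
    simp only [← mul_sum]
    congr 1
    rw [sum_comm (s := V)]
    apply sum_congr rfl
    intro x _
    rw [sum_comm]
  rw [h3] at h2
  linarith

theorem st_a : ∀ (n : ℕ) (B : Fin n → Finset ℤ) (F : (Fin n → ℤ) → ℝ),
    2 * st B F ≤ 2 ^ n * (((Fintype.piFinset B).card : ℝ) * s2 B F + s1 B F ^ 2) := by
  intro n
  induction n with
  | zero =>
    intro B F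
    have hF : ∀ x : Fin 0 → ℤ, F x = F default := fun x => by rw [Subsingleton.elim x default]
    have hR : (Fintype.piFinset B) = {default} := by
      ext x
      rw [Fintype.mem_piFinset, mem_singleton]
      exact ⟨fun _ => Subsingleton.elim _ _, fun _ i => i.elim0⟩
    unfold st s2 s1
    rw [hR]
    simp only [sum_singleton, card_singleton]
    rw [Fintype.sum_unique, hF (cr _ _ _)]
    apply le_of_eq
    push_cast
    ring
  | succ n ih =>
    intro B F
    set V := B (Fin.last n) with hV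
    have h1 := st_succ B F
    have h2 := ih (bi B) (Fh B F)
    have h3 : (V.card : ℝ) * ∑ v ∈ V, (2 * st (bi B) (Fs F v))
        ≤ V.card * ∑ v ∈ V, (2 ^ n * (((Fintype.piFinset (bi B)).card : ℝ) * s2 (bi B) (Fs F v)
          + s1 (bi B) (Fs F v) ^ 2)) :=
      mul_le_mul_of_nonneg_left (sum_le_sum (fun v _ => ih (bi B) (Fs F v))) (by positivity)
    have h4 := var_conv (bi B) V (Fs F)
    have e1 : (fun y => ∑ v ∈ V, Fs F v y) = Fh B F := rfl
    rw [e1] at h4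
    rw [← s1_succ'] at h2 h4
    rw [← mul_sum, ← mul_sum] at h3
    rw [sum_add_distrib, ← mul_sum, ← s2_succ] at h3
    rw [sum_sub_distrib, ← mul_sum, ← s2_succ] at h4
    rw [h1, card_pi]
    have h5 : (0 : ℝ) < 2 ^ n := by positivity
    have h6 := mul_le_mul_of_nonneg_left h4 h5.le
    rw [pow_succ]
    nlinarith

end Pool.Agent.H488R3.UC
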