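import Pool.Agent.H488R3.UC.BT3

/-!
The sharper second moment inequality, with the level one weight separated, and a fourth moment
bound for the level one weight.
-/

namespace Pool.Agent.H488R3.UC

open Finset

variable {n : ℕ}

/-- the sum of `F` over a slab of the box -/
def sm (B : Fin n → Finset ℤ) (F : (Fin n → ℤ) → ℝ) (i : Fin n) (u : ℤ) : ℝ :=
  ∑ x ∈ Fintype.piFinset B, if x i = u then F x else 0

/-- the level one weight -/
def w1 (B : Fin n → Finset ℤ) (F : (Fin n → ℤ) → ℝ) : ℝ :=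
  ∑ i, ((B i).card * ∑ u ∈ B i, sm B F i u ^ 2 - s1 B F ^ 2)

theorem sm_castSucc (B : Fin (n + 1) → Finset ℤ) (F : (Fin (n + 1) → ℤ) → ℝ) (k : Fin n)
    (u : ℤ) : sm B F k.castSucc u = sm (bi B) (Fh B F) k u := by
  unfold sm
  rw [sum_pi, sum_comm]
  apply sum_congr rfl
  intro y _
  simp only [app_castSucc]
  unfold Fh Fs
  split_ifs
  · rfl
  · simp

theorem sm_last (B : Fin (n + 1) → Finset ℤ) (F : (Fin (n + 1) → ℤ) → ℝ)
    (u : ℤ) (hu : u ∈ B (Fin.last n)) : sm B F (Fin.last n) u = s1 (bi B) (Fs F u) := by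
  unfold sm
  rw [sum_pi]
  simp only [app_last]
  rw [sum_eq_single u]
  · simp [s1, Fs]
  · intro v _ hv
    simp [hv]
  · intro h; exact absurd hu h

theorem w1_succ (B : Fin (n + 1) → Finset ℤ) (F : (Fin (n + 1) → ℤ) → ℝ) :
    w1 B F = w1 (bi B) (Fh B F) + ((B (Fin.last n)).card
      * ∑ v ∈ B (Fin.last n), s1 (bi B) (Fs F v) ^ 2 - s1 B F ^ 2) := by
  unfold w1
  rw [Fin.sum_univ_castSucc]
  congr 1
  · apply sum_congr rfl
    intro k _
    rw [← s1_succ']
    simp only [sm_castSucc]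
    rfl
  · congr 2
    apply sum_congr rfl
    intro u hu
    rw [sm_last B F u hu]

theorem st_b : ∀ (n : ℕ) (B : Fin n → Finset ℤ) (F : (Fin n → ℤ) → ℝ),
    4 * st B F ≤ 2 ^ n * (((Fintype.piFinset B).card : ℝ) * s2 B F + w1 B F
      + 3 * s1 B F ^ 2) := by
  intro n
  induction n with
  | zero =>
    intro B F
    have hF : ∀ x : Fin 0 → ℤ, F x = F default := fun x => by rw [Subsingleton.elim x default]
    have hR : (Fintype.piFinset B) = {default} := by
      ext x
      rw [Fintype.mem_piFinset, mem_singleton]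
      exact ⟨fun _ => Subsingleton.elim _ _, fun _ i => i.elim0⟩
    unfold st s2 s1 w1
    rw [hR]
    simp only [sum_singleton, card_singleton]
    rw [Fintype.sum_unique, hF (cr _ _ _)]
    apply le_of_eq
    simp
    ring
  | succ n ih =>
    intro B F
    set V := B (Fin.last n) with hV
    have h1 := st_succ B F
    have h2 := ih (bi B) (Fh B F)
    have h3 := st_pol (bi B) V (Fs F)
    have e1 : (fun y => ∑ v ∈ V, Fs F v y) = Fh B F := rfl
    rw [e1] at h3
    have h4 : ∑ v ∈ V, ∑ w ∈ V, (2 * st (bi B) (fun y => Fs F v y - Fs F w y))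
        ≤ ∑ v ∈ V, ∑ w ∈ V, (2 ^ n * (((Fintype.piFinset (bi B)).card : ℝ)
          * s2 (bi B) (fun y => Fs F v y - Fs F w y)
          + s1 (bi B) (fun y => Fs F v y - Fs F w y) ^ 2)) :=
      sum_le_sum (fun v _ => sum_le_sum (fun w _ => st_a n (bi B) _))
    have h5 := s2_pol (bi B) V (Fs F)
    rw [e1] at h5
    have h6 := s1_pol (bi B) V (Fs F)
    have e2 : ∑ v ∈ V, ∑ w ∈ V, (2 ^ n * (((Fintype.piFinset (bi B)).card : ℝ)
          * s2 (bi B) (fun y => Fs F v y - Fs F w y)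
          + s1 (bi B) (fun y => Fs F v y - Fs F w y) ^ 2))
        = 2 ^ n * (((Fintype.piFinset (bi B)).card : ℝ)
          * (2 * ((V.card : ℝ) * ∑ v ∈ V, s2 (bi B) (Fs F v) - s2 (bi B) (Fh B F)))
          + 2 * ((V.card : ℝ) * ∑ v ∈ V, s1 (bi B) (Fs F v) ^ 2
            - (∑ v ∈ V, s1 (bi B) (Fs F v)) ^ 2)) := by
      rw [h5, h6]
      simp only [← mul_sum, sum_add_distrib]
      ring
    rw [e2] at h4
    simp only [← mul_sum] at h4
    rw [← s1_succ'] at h2
    rw [← s2_succ, ← s1_succ] at h4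
    have h7 : ∑ v ∈ V, ∑ w ∈ V, st (bi B) (fun y => Fs F v y - Fs F w y)
        = 2 * ((V.card : ℝ) * ∑ v ∈ V, st (bi B) (Fs F v) - st (bi B) (Fh B F)) := by
      rw [h3]; ring
    rw [h7] at h4
    rw [h1, card_pi, w1_succ, pow_succ]
    linarith

/-- the linear statistic -/
def Ls (α : Fin n → ℤ → ℝ) (x : Fin n → ℤ) : ℝ := ∑ i, α i (x i)

noncomputable def Wt (B : Fin n → Finset ℤ) (α : Fin n → ℤ → ℝ) : ℝ :=
  ∑ i, (∑ u ∈ B i, α i u ^ 2) / (B i).card

theorem moments : ∀ (n : ℕ) (B : Fin n → Finset ℤ) (α : Fin n → ℤ → ℝ)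
    (_ : ∀ i, (B i).Nonempty) (_ : ∀ i, ∑ u ∈ B i, α i u = 0)
    (_ : ∀ i, ∀ u ∈ B i, α i u ^ 2 ≤ 1 / 4),
    ∑ x ∈ Fintype.piFinset B, Ls α x = 0 ∧
    ∑ x ∈ Fintype.piFinset B, Ls α x ^ 2 = (Fintype.piFinset B).card * Wt B α ∧
    ∑ x ∈ Fintype.piFinset B, Ls α x ^ 4
      ≤ (Fintype.piFinset B).card * (Wt B α / 4 + 3 * Wt B α ^ 2) := by
  intro n
  induction n with
  | zero =>
    intro B α _ _ _
    have h : ∀ x : Fin 0 → ℤ, Ls α x = 0 := fun x => by simp [Ls]
    simp [h, Wt]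
  | succ n ih =>
    intro B α hne hz hb
    obtain ⟨i1, i2, i4⟩ := ih (bi B) (fun i => α i.castSucc) (fun i => hne i.castSucc)
      (fun i => hz i.castSucc) (fun i => hb i.castSucc)
    set V := B (Fin.last n) with hV
    set g := α (Fin.last n) with hg
    set R' := Fintype.piFinset (bi B) with hR'
    set L' : (Fin n → ℤ) → ℝ := Ls (fun i => α i.castSucc) with hL'
    have hVc : (0 : ℝ) < V.card := by exact_mod_cast card_pos.mpr (hne (Fin.last n))
    have hL : ∀ v y, Ls α (app y v) = L' y + g v := by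
      intro v y
      simp only [Ls, Fin.sum_univ_castSucc, app_castSucc, app_last, hL', hg]
    have hgz : ∑ v ∈ V, g v = 0 := hz (Fin.last n)
    set W' := Wt (bi B) (fun i => α i.castSucc) with hW'
    set T := ∑ v ∈ V, g v ^ 2 with hT
    have hW : Wt B α = W' + T / V.card := by
      unfold Wt
      rw [Fin.sum_univ_castSucc]
      rfl
    have hT0 : 0 ≤ T := sum_nonneg (fun v _ => sq_nonneg _)
    have hR0 : (0 : ℝ) ≤ R'.card := by positivity
    have hW0 : 0 ≤ W' := sum_nonneg (fun i _ =>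
      div_nonneg (sum_nonneg (fun v _ => sq_nonneg _)) (by positivity))
    refine ⟨?_, ?_, ?_⟩
    · rw [sum_pi]
      simp only [hL]
      have : ∀ v ∈ V, ∑ y ∈ R', (L' y + g v) = R'.card * g v := by
        intro v _
        rw [sum_add_distrib, i1, sum_const, nsmul_eq_mul, zero_add]
      rw [sum_congr rfl this, ← mul_sum, hgz, mul_zero]
    · rw [sum_pi]
      simp only [hL]
      have : ∀ v ∈ V, ∑ y ∈ R', (L' y + g v) ^ 2
          = R'.card * W' + R'.card * g v ^ 2 := by
        intro v _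
        have : ∀ y ∈ R', (L' y + g v) ^ 2 = L' y ^ 2 + 2 * g v * L' y + g v ^ 2 := by
          intro y _; ring
        rw [sum_congr rfl this, sum_add_distrib, sum_add_distrib, i2, ← mul_sum, i1, sum_const,
          nsmul_eq_mul]
        ring
      rw [sum_congr rfl this, sum_add_distrib, sum_const, nsmul_eq_mul, ← mul_sum, card_pi, hW]
      change (V.card : ℝ) * (R'.card * W') + R'.card * T = V.card * R'.card * (W' + T / V.card)
      field_simp
    · rw [sum_pi]
      simp only [hL]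
      have h1 : ∀ v ∈ V, ∑ y ∈ R', (L' y + g v) ^ 4
          ≤ R'.card * (W' / 4 + 3 * W' ^ 2) + 4 * g v * ∑ y ∈ R', L' y ^ 3
            + 6 * (R'.card * W') * g v ^ 2 + R'.card * (1 / 4) * g v ^ 2 := by
        intro v hv
        have : ∀ y ∈ R', (L' y + g v) ^ 4 = L' y ^ 4 + 4 * g v * L' y ^ 3
            + 6 * g v ^ 2 * L' y ^ 2 + 4 * g v ^ 3 * L' y + g v ^ 4 := by
          intro y _; ring
        rw [sum_congr rfl this, sum_add_distrib, sum_add_distrib, sum_add_distrib,
          sum_add_distrib, ← mul_sum, ← mul_sum, ← mul_sum, i1, i2, sum_const, nsmul_eq_mul]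
        have h2 : g v ^ 4 ≤ 1 / 4 * g v ^ 2 := by
          have h3 := hb (Fin.last n) v hv
          have h4 : g v ^ 4 = g v ^ 2 * g v ^ 2 := by ring
          rw [h4]
          exact mul_le_mul_of_nonneg_right h3 (sq_nonneg _)
        have h5 : (R'.card : ℝ) * g v ^ 4 ≤ R'.card * (1 / 4 * g v ^ 2) :=
          mul_le_mul_of_nonneg_left h2 hR0
        linarith
      refine (sum_le_sum h1).trans ?_
      rw [sum_add_distrib, sum_add_distrib, sum_add_distrib, sum_const, nsmul_eq_mul,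
        ← sum_mul, ← mul_sum, ← mul_sum, ← mul_sum, hgz, card_pi, hW]
      change (V.card : ℝ) * (R'.card * (W' / 4 + 3 * W' ^ 2))
        + 4 * 0 * ∑ y ∈ R', L' y ^ 3 + 6 * (R'.card * W') * T + R'.card * (1 / 4) * T
        ≤ V.card * R'.card * ((W' + T / V.card) / 4 + 3 * (W' + T / V.card) ^ 2)
      have e : (V.card : ℝ) * R'.card * ((W' + T / V.card) / 4 + 3 * (W' + T / V.card) ^ 2)
          = (V.card : ℝ) * (R'.card * (W' / 4 + 3 * W' ^ 2)) + 6 * (R'.card * W') * T
            + R'.card * (1 / 4) * T + 3 * R'.card * T ^ 2 / V.card := by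
        field_simp
        ring
      rw [e]
      have : 0 ≤ 3 * (R'.card : ℝ) * T ^ 2 / V.card := by positivity
      linarith

end Pool.Agent.H488R3.UC
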