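import Pool.Agent.H488R3.UC.BT3b

/-!
Sparse subsets of a box without a half-full slab are not closed under random crossing.
-/

namespace Pool.Agent.H488R3.UC

open Finset

variable {n : ℕ}

/-- the indicator -/
def ind (M : Finset (Fin n → ℤ)) : (Fin n → ℤ) → ℝ := fun x => if x ∈ M then 1 else 0

theorem s1_ind (B : Fin n → Finset ℤ) (M : Finset (Fin n → ℤ)) (hM : M ⊆ Fintype.piFinset B) :
    s1 B (ind M) = M.card := by
  unfold s1 ind
  rw [← sum_filter, sum_const, nsmul_eq_mul, mul_one, filter_mem_eq_inter,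
    inter_eq_right.mpr hM]

theorem s2_ind (B : Fin n → Finset ℤ) (M : Finset (Fin n → ℤ)) (hM : M ⊆ Fintype.piFinset B) :
    s2 B (ind M) = M.card := by
  rw [← s1_ind B M hM]
  unfold s2 s1 ind
  apply sum_congr rfl
  intro x _
  split_ifs <;> simp

theorem sm_ind (B : Fin n → Finset ℤ) (M : Finset (Fin n → ℤ)) (hM : M ⊆ Fintype.piFinset B)
    (i : Fin n) (u : ℤ) : sm B (ind M) i u = (M.filter (fun x => x i = u)).card := by
  have h1 : ∀ x ∈ Fintype.piFinset B, (if x i = u then ind M x else 0)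
      = ind (M.filter (fun x => x i = u)) x := by
    intro x _
    unfold ind
    simp only [mem_filter]
    by_cases h2 : x i = u
    · simp [h2]
    · simp [h2]
  unfold sm
  rw [sum_congr rfl h1]
  exact s1_ind B _ ((filter_subset _ _).trans hM)

theorem level1 (B : Fin n → Finset ℤ) (hne : ∀ i, (B i).Nonempty) (M : Finset (Fin n → ℤ))
    (hM : M ⊆ Fintype.piFinset B)
    (hslab : ∀ i, ∀ u ∈ B i, 2 * ((B i).card : ℝ) * (M.filter (fun x => x i = u)).card
      ≤ (Fintype.piFinset B).card)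
    (hsmall : 50 * (M.card : ℝ) ≤ (Fintype.piFinset B).card) :
    w1 B (ind M) ≤ 7 / 10 * (Fintype.piFinset B).card * M.card := by
  set b : ℝ := ((Fintype.piFinset B).card : ℝ) with hb
  have hb0 : 0 < b := by
    rw [hb]
    have : (Fintype.piFinset B).Nonempty := Fintype.piFinset_nonempty.mpr hne
    exact_mod_cast card_pos.mpr this
  have hc : ∀ i, (0 : ℝ) < (B i).card := fun i => by exact_mod_cast card_pos.mpr (hne i)
  set m : Fin n → ℤ → ℝ := fun i u => ((M.filter (fun x => x i = u)).card : ℝ) with hm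
  set μ : ℝ := (M.card : ℝ) with hμ
  have hμ0 : 0 ≤ μ := by rw [hμ]; positivity
  have hm0 : ∀ i u, 0 ≤ m i u := fun i u => by simp only [hm]; positivity
  have hsum : ∀ i, ∑ u ∈ B i, m i u = μ := by
    intro i
    have h1 : ∀ x ∈ M, x i ∈ B i := fun x hx => Fintype.mem_piFinset.mp (hM hx) i
    have := card_eq_sum_card_fiberwise (f := fun x : Fin n → ℤ => x i) (s := M) (t := B i) h1
    rw [hμ, this]
    simp only [hm]
    push_cast
    rfl
  set α : Fin n → ℤ → ℝ := fun i u => (B i).card * m i u / b - μ / b with hα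
  have hz : ∀ i, ∑ u ∈ B i, α i u = 0 := by
    intro i
    simp only [hα]
    rw [sum_sub_distrib, ← sum_div, ← mul_sum, hsum, sum_const, nsmul_eq_mul]
    ring
  have hμb : μ / b ≤ 1 / 50 := by
    rw [div_le_iff₀ hb0]; linarith
  have hμb0 : 0 ≤ μ / b := div_nonneg hμ0 hb0.le
  have hαb : ∀ i, ∀ u ∈ B i, α i u ^ 2 ≤ 1 / 4 := by
    intro i u hu
    have h1 : (B i).card * m i u / b ≤ 1 / 2 := by
      rw [div_le_iff₀ hb0]
      have := hslab i u hu
      simp only [hm]
      linarith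
    have h2 : 0 ≤ (B i).card * m i u / b := div_nonneg (mul_nonneg (hc i).le (hm0 i u)) hb0.le
    simp only [hα]
    nlinarith
  obtain ⟨_, hL2, hL4⟩ := moments n B α hne hz hαb
  set W := Wt B α with hW
  have hW0 : 0 ≤ W := sum_nonneg (fun i _ =>
      div_nonneg (sum_nonneg (fun v _ => sq_nonneg _)) (by positivity))
  have hmα : ∀ i u, m i u = b / (B i).card * (α i u + μ / b) := by
    intro i u
    have := hc i
    simp only [hα]
    field_simp
    ring
  have hML : ∑ x ∈ M, Ls α x = b * W := by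
    unfold Ls
    rw [sum_comm, hW]
    unfold Wt
    rw [mul_sum]
    apply sum_congr rfl
    intro i _
    have h1 : ∀ x ∈ M, x i ∈ B i := fun x hx => Fintype.mem_piFinset.mp (hM hx) i
    rw [← sum_fiberwise_of_maps_to (g := fun x : Fin n → ℤ => x i) h1]
    have h2 : ∀ u ∈ B i, ∑ x ∈ M.filter (fun x => x i = u), α i (x i) = m i u * α i u := by
      intro u _
      have : ∀ x ∈ M.filter (fun x => x i = u), α i (x i) = α i u := by
        intro x hx; rw [(mem_filter.mp hx).2]
      rw [sum_congr rfl this, sum_const, nsmul_eq_mul]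
    rw [sum_congr rfl h2]
    have h3 : ∀ u ∈ B i, m i u * α i u
        = b / (B i).card * α i u ^ 2 + μ / (B i).card * α i u := by
      intro u _
      rw [hmα]
      have hci := hc i
      clear_value α
      generalize α i u = a
      generalize ((B i).card : ℝ) = c at hci ⊢
      field_simp
    rw [sum_congr rfl h3, sum_add_distrib, ← mul_sum, ← mul_sum, hz]
    ring
  have hw : w1 B (ind M) = b ^ 2 * W := by
    unfold w1
    rw [hW]
    unfold Wt
    rw [mul_sum]
    apply sum_congr rfl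
    intro i _
    rw [s1_ind B M hM]
    simp only [sm_ind B M hM]
    change ((B i).card : ℝ) * ∑ u ∈ B i, m i u ^ 2 - μ ^ 2 = _
    have h3 : ∀ u ∈ B i, m i u ^ 2
        = (b / (B i).card) ^ 2 * α i u ^ 2 + 2 * b * μ / (B i).card ^ 2 * α i u
          + μ ^ 2 / (B i).card ^ 2 := by
      intro u _
      rw [hmα]
      have hci := hc i
      clear_value α
      generalize α i u = a
      generalize ((B i).card : ℝ) = c at hci ⊢
      field_simp
      ring
    rw [sum_congr rfl h3, sum_add_distrib, sum_add_distrib, ← mul_sum, ← mul_sum, hz, sum_const,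
      nsmul_eq_mul]
    have hci := hc i
    generalize ∑ u ∈ B i, α i u ^ 2 = a
    generalize ((B i).card : ℝ) = c at hci ⊢
    field_simp
    ring
  -- the inequalities
  have hsub : ∀ k : ℕ, Even k → ∑ x ∈ M, Ls α x ^ k ≤ ∑ x ∈ Fintype.piFinset B, Ls α x ^ k :=
    fun k hk => sum_le_sum_of_subset_of_nonneg hM (fun x _ _ => hk.pow_nonneg _)
  have hq : (b * W) ^ 2 ≤ μ * (b * W) := by
    rw [← hML]
    have h1 : (∑ x ∈ M, Ls α x) ^ 2 ≤ M.card * ∑ x ∈ M, Ls α x ^ 2 := sq_sum_le_card_mul_sum_sq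
    have h2 := hsub 2 (by decide)
    rw [hL2] at h2
    rw [hML]
    rw [hML] at h1
    exact h1.trans (mul_le_mul_of_nonneg_left h2 hμ0)
  have hbW : 0 ≤ b * W := mul_nonneg hb0.le hW0
  have hWμ : b * W ≤ μ := by
    rcases hbW.eq_or_lt with h | h
    · rw [← h]; exact hμ0
    · have : (b * W) * (b * W) ≤ μ * (b * W) := by rw [← pow_two]; exact hq
      exact le_of_mul_le_mul_right this h
  have hyoung : ∀ t : ℝ, t ≤ 1 / 2 + 27 / 32 * t ^ 4 := by
    intro t
    have : 0 ≤ 27 / 32 * ((t - 2 / 3) ^ 2 * ((t + 2 / 3) ^ 2 + 8 / 9)) := by positivity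
    nlinarith
  have h1 : b * W ≤ μ / 2 + 27 / 32 * (b * (W / 4 + 3 * W ^ 2)) := by
    rw [← hML]
    calc ∑ x ∈ M, Ls α x ≤ ∑ x ∈ M, (1 / 2 + 27 / 32 * Ls α x ^ 4) :=
          sum_le_sum (fun x _ => hyoung _)
      _ = μ / 2 + 27 / 32 * ∑ x ∈ M, Ls α x ^ 4 := by
          rw [sum_add_distrib, sum_const, nsmul_eq_mul, ← mul_sum]; ring
      _ ≤ μ / 2 + 27 / 32 * (b * (W / 4 + 3 * W ^ 2)) := by
          have := (hsub 4 (by decide)).trans hL4
          linarith
  have h2 : b * W ^ 2 ≤ 1 / 50 * (b * W) := by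
    have : W ≤ 1 / 50 := by
      have h3 : W ≤ μ / b := by rw [le_div_iff₀ hb0]; linarith
      linarith
    nlinarith
  have h3 : b * W ≤ 7 / 10 * μ := by nlinarith
  rw [hw]
  nlinarith

theorem cr_cr (A : Finset (Fin n)) (x y : Fin n → ℤ) :
    cr A (cr A x y) (cr A y x) = x := by
  funext i
  by_cases h : i ∈ A <;> simp [cr, h]

theorem cr_compl (A : Finset (Fin n)) (x y : Fin n → ℤ) : cr Aᶜ x y = cr A y x := by
  funext i
  by_cases h : i ∈ A <;> simp [cr, h]

theorem cr_mem (B : Fin n → Finset ℤ) {A : Finset (Fin n)} {x y : Fin n → ℤ}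
    (hx : x ∈ Fintype.piFinset B) (hy : y ∈ Fintype.piFinset B) :
    cr A x y ∈ Fintype.piFinset B := by
  rw [Fintype.mem_piFinset] at hx hy ⊢
  intro i
  unfold cr
  split_ifs
  · exact hx i
  · exact hy i

theorem sum_cr (B : Fin n → Finset ℤ) (A : Finset (Fin n)) (F : (Fin n → ℤ) → ℝ) :
    ∑ x ∈ Fintype.piFinset B, ∑ y ∈ Fintype.piFinset B, F (cr A x y)
      = (Fintype.piFinset B).card * ∑ x ∈ Fintype.piFinset B, F x := by
  rw [← sum_product']
  have h1 : ∑ p ∈ Fintype.piFinset B ×ˢ Fintype.piFinset B, F (cr A p.1 p.2)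
      = ∑ p ∈ Fintype.piFinset B ×ˢ Fintype.piFinset B, F p.1 := by
    refine sum_bij' (fun p _ => (cr A p.1 p.2, cr A p.2 p.1))
      (fun p _ => (cr A p.1 p.2, cr A p.2 p.1)) ?_ ?_ ?_ ?_ ?_
    · intro p hp
      have hp' := mem_product.mp hp
      exact mem_product.mpr ⟨cr_mem B hp'.1 hp'.2, cr_mem B hp'.2 hp'.1⟩
    · intro p hp
      have hp' := mem_product.mp hp
      exact mem_product.mpr ⟨cr_mem B hp'.1 hp'.2, cr_mem B hp'.2 hp'.1⟩
    · intro p _; simp only [cr_cr]
    · intro p _; simp only [cr_cr]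
    · intro p _; rfl
  rw [h1, sum_product]
  simp only [sum_const, nsmul_eq_mul]
  rw [mul_sum]

theorem missing (B : Fin n → Finset ℤ) (hne : ∀ i, (B i).Nonempty) (M : Finset (Fin n → ℤ))
    (hM : M ⊆ Fintype.piFinset B)
    (hslab : ∀ i, ∀ u ∈ B i, 2 * ((B i).card : ℝ) * (M.filter (fun x => x i = u)).card
      ≤ (Fintype.piFinset B).card)
    (hsmall : 50 * (M.card : ℝ) ≤ (Fintype.piFinset B).card) :
    12 / 100 * (2 ^ n * ((Fintype.piFinset B).card * M.card))
      ≤ ∑ A : Finset (Fin n), ∑ x ∈ Fintype.piFinset B, ∑ y ∈ Fintype.piFinset B,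
        (1 - ind M x) * (1 - ind M y) * ind M (cr A x y) := by
  have h1 := st_b n B (ind M)
  have h2 := level1 B hne M hM hslab hsmall
  rw [s1_ind B M hM, s2_ind B M hM] at h1
  have hF : ∀ x, 0 ≤ ind M x := by intro x; unfold ind; split_ifs <;> norm_num
  have h3 : ∑ A : Finset (Fin n), ∑ x ∈ Fintype.piFinset B, ∑ y ∈ Fintype.piFinset B,
      (ind M (cr A x y) - ind M x * ind M (cr A x y) - ind M y * ind M (cr A x y))
      ≤ ∑ A : Finset (Fin n), ∑ x ∈ Fintype.piFinset B, ∑ y ∈ Fintype.piFinset B,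
        (1 - ind M x) * (1 - ind M y) * ind M (cr A x y) := by
    apply sum_le_sum; intro A _
    apply sum_le_sum; intro x _
    apply sum_le_sum; intro y _
    have := mul_nonneg (mul_nonneg (hF x) (hF y)) (hF (cr A x y))
    nlinarith
  refine le_trans ?_ h3
  simp only [sum_sub_distrib, sum_cr]
  have e1 : ∑ A : Finset (Fin n), ∑ x ∈ Fintype.piFinset B, ∑ y ∈ Fintype.piFinset B,
      ind M x * ind M (cr A x y) = st B (ind M) := rfl
  have e2 : ∑ A : Finset (Fin n), ∑ x ∈ Fintype.piFinset B, ∑ y ∈ Fintype.piFinset B,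
      ind M y * ind M (cr A x y) = st B (ind M) := by
    unfold st
    refine Fintype.sum_bijective compl compl_bijective _ _ (fun A => ?_)
    rw [sum_comm]
    simp only [cr_compl]
  have e3 : ∑ x ∈ Fintype.piFinset B, ind M x = M.card := s1_ind B M hM
  have e4 : (∑ _A : Finset (Fin n), ((Fintype.piFinset B).card : ℝ) * (M.card : ℝ))
      = 2 ^ n * ((Fintype.piFinset B).card * M.card) := by
    rw [sum_const, nsmul_eq_mul, card_univ, Fintype.card_finset, Fintype.card_fin]
    push_cast; rfl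
  rw [e1, e2, e3, e4]
  have h5 : (0 : ℝ) < 2 ^ n := by positivity
  have h6 : (M.card : ℝ) * M.card ≤ 1 / 50 * ((Fintype.piFinset B).card * M.card) := by
    have : (0 : ℝ) ≤ M.card := by positivity
    nlinarith
  have h7 : (2 : ℝ) ^ n * (((Fintype.piFinset B).card : ℝ) * M.card + w1 B (ind M)
      + 3 * (M.card : ℝ) ^ 2)
      ≤ 2 ^ n * (176 / 100 * ((Fintype.piFinset B).card * M.card)) := by
    apply mul_le_mul_of_nonneg_left _ h5.le
    rw [pow_two]
    linarith
  linarith

end Pool.Agent.H488R3.UC
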