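import Pool.Agent.H488R3.UC.BT3c

/-!
Boxes which differ in one side, and the optimality of a box.
-/

namespace Pool.Agent.H488R3.UC

open Finset

variable {n : ℕ}

/-- the box with the side `i` replaced by `T` -/
def bu (B : Fin n → Finset ℤ) (i : Fin n) (T : Finset ℤ) : Fin n → Finset ℤ :=
  Function.update B i T

theorem mem_bu {B : Fin n → Finset ℤ} {i : Fin n} {T : Finset ℤ} {x : Fin n → ℤ} :
    x ∈ Fintype.piFinset (bu B i T) ↔ x i ∈ T ∧ ∀ j, j ≠ i → x j ∈ B j := by
  rw [Fintype.mem_piFinset]
  unfold bu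
  constructor
  · intro h
    refine ⟨by simpa using h i, fun j hj => ?_⟩
    have := h j
    rwa [Function.update_of_ne hj] at this
  · rintro ⟨h1, h2⟩ j
    by_cases hj : j = i
    · subst hj; simpa using h1
    · rw [Function.update_of_ne hj]; exact h2 j hj

theorem sum_upd (B : Fin n → Finset ℤ) (i : Fin n) (v : ℤ) (G : (Fin n → ℤ) → ℝ) :
    ∑ y ∈ Fintype.piFinset B, G (Function.update y i v)
      = (B i).card * ∑ y ∈ Fintype.piFinset (bu B i {v}), G y := by
  have h1 : ∑ y ∈ Fintype.piFinset B, G (Function.update y i v)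
      = ∑ p ∈ B i ×ˢ Fintype.piFinset (bu B i {v}), G p.2 := by
    refine sum_bij' (fun y _ => (y i, Function.update y i v))
      (fun p _ => Function.update p.2 i p.1) ?_ ?_ ?_ ?_ ?_
    · intro y hy
      have hy' := Fintype.mem_piFinset.mp hy
      rw [mem_product]
      refine ⟨hy' i, mem_bu.mpr ⟨by simp, fun j hj => ?_⟩⟩
      simp only
      rw [Function.update_of_ne hj]
      exact hy' j
    · intro p hp
      obtain ⟨h1, h2⟩ := mem_product.mp hp
      have h2' := mem_bu.mp h2
      rw [Fintype.mem_piFinset]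
      intro j
      by_cases hj : j = i
      · subst hj; simpa using h1
      · rw [Function.update_of_ne hj]; exact h2'.2 j hj
    · intro y _; simp
    · intro p hp
      obtain ⟨h1, h2⟩ := mem_product.mp hp
      have h2' := (mem_bu.mp h2).1
      rw [mem_singleton] at h2'
      apply Prod.ext
      · simp
      · simp only [Function.update_idem]
        rw [← h2']; simp
    · intro y _; rfl
  rw [h1, sum_product]
  simp

theorem card_bu (B : Fin n → Finset ℤ) (i : Fin n) (v : ℤ) :
    ((B i).card : ℝ) * (Fintype.piFinset (bu B i {v})).card = (Fintype.piFinset B).card := by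
  have := sum_upd B i v (fun _ => (1 : ℝ))
  simpa using this.symm

theorem symmDiff_union_card (S R P : Finset (Fin n → ℤ)) (h : Disjoint R P) :
    (symmDiff S (R ∪ P)).card + (S ∩ P).card = (symmDiff S R).card + (P \ S).card := by
  classical
  have h1 : ∀ A B : Finset (Fin n → ℤ), (symmDiff A B).card = (A \ B).card + (B \ A).card := by
    intro A B
    have : symmDiff A B = (A \ B) ∪ (B \ A) := rfl
    rw [this, card_union_of_disjoint disjoint_sdiff_sdiff]
  rw [h1, h1]
  have h2 : ((R ∪ P) \ S).card = (R \ S).card + (P \ S).card := by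
    rw [union_sdiff_distrib, card_union_of_disjoint]
    exact disjoint_of_subset_left sdiff_subset (disjoint_of_subset_right sdiff_subset h)
  have h3 : (S \ (R ∪ P)).card + (S ∩ P).card = (S \ R).card := by
    rw [← card_union_of_disjoint]
    · congr 1
      ext x
      simp only [mem_union, mem_sdiff, mem_inter]
      constructor
      · rintro (⟨h4, h5⟩ | ⟨h4, h5⟩)
        · exact ⟨h4, fun h6 => h5 (Or.inl h6)⟩
        · exact ⟨h4, fun h6 => (disjoint_left.mp h h6) h5⟩
      · rintro ⟨h4, h5⟩
        by_cases h6 : x ∈ P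
        · exact Or.inr ⟨h4, h6⟩
        · exact Or.inl ⟨h4, fun h7 => h7.elim h5 h6⟩
    · rw [disjoint_left]
      intro x hx hx'
      simp only [mem_sdiff, mem_union, mem_inter] at hx hx'
      exact hx.2 (Or.inr hx'.2)
  omega

/-- the box with sides `B` is a closest box to `S` -/
def Opt (S : Finset (Fin n → ℤ)) (B : Fin n → Finset ℤ) : Prop :=
  ∀ B' : Fin n → Finset ℤ,
    (symmDiff S (Fintype.piFinset B)).card ≤ (symmDiff S (Fintype.piFinset B')).card

theorem exists_opt (S : Finset (Fin n → ℤ)) : ∃ B, Opt S B := by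
  have h : ∃ k : ℕ, ∃ B : Fin n → Finset ℤ, (symmDiff S (Fintype.piFinset B)).card = k :=
    ⟨_, fun _ => ∅, rfl⟩
  classical
  obtain ⟨B, hB⟩ := Nat.find_spec h
  refine ⟨B, fun B' => ?_⟩
  rw [hB]
  exact Nat.find_min' h ⟨B', rfl⟩

theorem opt_out {S : Finset (Fin n → ℤ)} {B : Fin n → Finset ℤ} (h : Opt S B) (i : Fin n)
    (v : ℤ) (hv : v ∉ B i) : 2 * (S ∩ Fintype.piFinset (bu B i {v})).card
      ≤ (Fintype.piFinset (bu B i {v})).card := by
  classical
  set P := Fintype.piFinset (bu B i {v}) with hP
  have h1 : Fintype.piFinset (bu B i (insert v (B i))) = Fintype.piFinset B ∪ P := by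
    ext x
    rw [mem_union, hP, mem_bu, mem_bu, Fintype.mem_piFinset, mem_insert, mem_singleton]
    constructor
    · rintro ⟨h1 | h1, h2⟩
      · exact Or.inr ⟨h1, h2⟩
      · left; intro j
        by_cases hj : j = i
        · subst hj; exact h1
        · exact h2 j hj
    · rintro (h1 | ⟨h1, h2⟩)
      · exact ⟨Or.inr (h1 i), fun j _ => h1 j⟩
      · exact ⟨Or.inl h1, h2⟩
  have h2 : Disjoint (Fintype.piFinset B) P := by
    rw [disjoint_left]
    intro x hx hx'
    have := (mem_bu.mp hx').1
    rw [mem_singleton] at this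
    exact hv (this ▸ Fintype.mem_piFinset.mp hx i)
  have h3 := symmDiff_union_card S _ P h2
  have h4 := h (bu B i (insert v (B i)))
  rw [h1] at h4
  have h5 : (P \ S).card + (S ∩ P).card = P.card := by
    rw [inter_comm]; exact card_sdiff_add_card_inter P S
  omega

theorem opt_in {S : Finset (Fin n → ℤ)} {B : Fin n → Finset ℤ} (h : Opt S B) (i : Fin n)
    (u : ℤ) (hu : u ∈ B i) :
    2 * ((B i).card : ℝ) * ((Fintype.piFinset B \ S).filter (fun x => x i = u)).card
      ≤ (Fintype.piFinset B).card := by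
  classical
  set P := Fintype.piFinset (bu B i {u}) with hP
  have h1 : Fintype.piFinset B = Fintype.piFinset (bu B i ((B i).erase u)) ∪ P := by
    ext x
    rw [mem_union, hP, mem_bu, mem_bu, Fintype.mem_piFinset, mem_erase, mem_singleton]
    constructor
    · intro h1
      by_cases hx : x i = u
      · exact Or.inr ⟨hx, fun j _ => h1 j⟩
      · exact Or.inl ⟨⟨hx, h1 i⟩, fun j _ => h1 j⟩
    · rintro (⟨⟨_, h1⟩, h2⟩ | ⟨h1, h2⟩) j
      · by_cases hj : j = i
        · subst hj; exact h1
        · exact h2 j hj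
      · by_cases hj : j = i
        · subst hj; rw [h1]; exact hu
        · exact h2 j hj
  have h2 : Disjoint (Fintype.piFinset (bu B i ((B i).erase u))) P := by
    rw [disjoint_left]
    intro x hx hx'
    have h3 := (mem_bu.mp hx').1
    have h4 := (mem_bu.mp hx).1
    rw [mem_singleton] at h3
    rw [h3] at h4
    exact notMem_erase u (B i) h4
  have h3 := symmDiff_union_card S _ P h2
  rw [← h1] at h3
  have h4 := h (bu B i ((B i).erase u))
  have h5 : (P \ S).card + (S ∩ P).card = P.card := by
    rw [inter_comm]; exact card_sdiff_add_card_inter P S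
  have h6 : (Fintype.piFinset B \ S).filter (fun x => x i = u) = P \ S := by
    ext x
    rw [mem_filter, mem_sdiff, mem_sdiff, hP, mem_bu, mem_singleton, Fintype.mem_piFinset]
    constructor
    · rintro ⟨⟨h7, h8⟩, h9⟩
      exact ⟨⟨h9, fun j _ => h7 j⟩, h8⟩
    · rintro ⟨⟨h7, h8⟩, h9⟩
      refine ⟨⟨fun j => ?_, h9⟩, h7⟩
      by_cases hj : j = i
      · subst hj; rw [h7]; exact hu
      · exact h8 j hj
  rw [h6, ← card_bu B i u, ← hP]
  have h7 : 2 * (P \ S).card ≤ P.card := by omega
  have h8 : (2 : ℝ) * (P \ S).card ≤ P.card := by exact_mod_cast h7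
  have h9 := mul_le_mul_of_nonneg_left h8 (show (0 : ℝ) ≤ (B i).card by positivity)
  linarith

end Pool.Agent.H488R3.UC
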