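import Pool.Agent.H488R3.UC.BT4a

/-!
Counting the crossings which leave, or stay among, the points outside a closest box.
-/

namespace Pool.Agent.H488R3.UC

open Finset

variable {n : ℕ}

theorem dsum {α β : Type*} (S : Finset α) (T : Finset β) (P : α × β → Prop) [DecidablePred P] :
    (((S ×ˢ T).filter P).card : ℝ) = ∑ x ∈ S, ∑ y ∈ T, if P (x, y) then (1 : ℝ) else 0 := by
  rw [card_filter, sum_product]
  push_cast
  rfl

/-- the coordinates of `x` outside the box -/
def bad (B : Fin n → Finset ℤ) (x : Fin n → ℤ) : Finset (Fin n) :=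
  univ.filter (fun i => x i ∉ B i)

theorem mem_bad {B : Fin n → Finset ℤ} {x : Fin n → ℤ} {i : Fin n} :
    i ∈ bad B x ↔ x i ∉ B i := by simp [bad]

theorem bad_empty {B : Fin n → Finset ℤ} {x : Fin n → ℤ} :
    bad B x = ∅ ↔ x ∈ Fintype.piFinset B := by
  rw [Fintype.mem_piFinset, eq_empty_iff_forall_notMem]
  simp only [mem_bad, not_not]

/-- number of `A` meeting `I` -/
def hit (I : Finset (Fin n)) : ℕ :=
  (univ.filter (fun A : Finset (Fin n) => ∃ i ∈ I, i ∈ A)).card

theorem card_all : ((univ : Finset (Finset (Fin n))).card : ℝ) = 2 ^ n := by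
  rw [card_univ, Fintype.card_finset, Fintype.card_fin]; push_cast; rfl

theorem sum_mem_half (i : Fin n) (g : Finset (Fin n) → ℝ)
    (hg : ∀ A, g (symmDiff A {i}) = g A) :
    ∑ A, (if i ∈ A then g A else 0) = 1 / 2 * ∑ A, g A := by
  have h1 : ∑ A, (if i ∈ A then g A else 0) = ∑ A, (if i ∉ A then g A else 0) := by
    refine Fintype.sum_bijective (fun A => symmDiff A {i}) ?_ _ _ (fun A => ?_)
    · exact (symmDiff_left_involutive ({i} : Finset (Fin n))).bijective
    · rw [hg]
      have : i ∉ symmDiff A {i} ↔ i ∈ A := by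
        rw [mem_symmDiff]; simp
      simp only [this]
  have h2 : ∑ A, g A = ∑ A, (if i ∈ A then g A else 0) + ∑ A, (if i ∉ A then g A else 0) := by
    rw [← sum_add_distrib]
    apply sum_congr rfl
    intro A _
    by_cases h : i ∈ A <;> simp [h]
  linarith

theorem hit_one {I : Finset (Fin n)} (h : I.Nonempty) : (1 : ℝ) / 2 * 2 ^ n ≤ hit I := by
  obtain ⟨i, hi⟩ := h
  have h1 := sum_mem_half i (fun _ => (1 : ℝ)) (fun _ => rfl)
  rw [sum_const, nsmul_eq_mul, card_all, mul_one, ← sum_filter, sum_const, nsmul_eq_mul,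
    mul_one] at h1
  rw [← h1]
  unfold hit
  exact_mod_cast card_le_card (fun A hA => by
    rw [mem_filter] at hA ⊢
    exact ⟨hA.1, i, hi, hA.2⟩)

theorem hit_two {I : Finset (Fin n)} (h : 2 ≤ I.card) : (3 : ℝ) / 4 * 2 ^ n ≤ hit I := by
  classical
  obtain ⟨i, hi, j, hj, hij⟩ := one_lt_card.mp (by omega : 1 < I.card)
  have h1 := sum_mem_half i (fun _ => (1 : ℝ)) (fun _ => rfl)
  rw [sum_const, nsmul_eq_mul, card_all, mul_one] at h1
  have h2 := sum_mem_half i (fun A => if j ∈ A then (1 : ℝ) else 0) (fun A => by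
    have : j ∈ symmDiff A {i} ↔ j ∈ A := by
      rw [mem_symmDiff, mem_singleton]
      have := hij.symm
      tauto
    simp only [this])
  have h3 := sum_mem_half j (fun _ => (1 : ℝ)) (fun _ => rfl)
  rw [sum_const, nsmul_eq_mul, card_all, mul_one] at h3
  rw [h3] at h2
  have h4 : ∑ A : Finset (Fin n), ((if i ∈ A then (1 : ℝ) else 0) + (if j ∈ A then 1 else 0)
      - (if i ∈ A then (if j ∈ A then 1 else 0) else 0))
      ≤ ∑ A : Finset (Fin n), (if ∃ i ∈ I, i ∈ A then (1 : ℝ) else 0) := by
    apply sum_le_sum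
    intro A _
    by_cases h5 : i ∈ A
    · have : ∃ i ∈ I, i ∈ A := ⟨i, hi, h5⟩
      simp only [h5, this, if_true]; simp
    · by_cases h6 : j ∈ A
      · have : ∃ i ∈ I, i ∈ A := ⟨j, hj, h6⟩
        simp [h5, h6, this]
      · simp only [h5, h6, if_false]
        split_ifs <;> norm_num
  rw [sum_sub_distrib, sum_add_distrib, h1, h2, h3] at h4
  have h5 : ∑ A : Finset (Fin n), (if ∃ i ∈ I, i ∈ A then (1 : ℝ) else 0) = hit I := by
    rw [← sum_filter, sum_const, nsmul_eq_mul, mul_one]; rfl
  rw [h5] at h4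
  linarith

/-- lower bound for the number of crossings outside the box -/
theorem lower (S : Finset (Fin n → ℤ)) (B : Fin n → Finset ℤ) :
    2 * ((S ∩ Fintype.piFinset B).card : ℝ) * ∑ x ∈ S \ Fintype.piFinset B, (hit (bad B x) : ℝ)
      ≤ ∑ A : Finset (Fin n), ((qc S A (S \ Fintype.piFinset B) : ℝ) + nc S A) := by
  classical
  set R := Fintype.piFinset B with hR
  have h1 : ∀ A : Finset (Fin n),
      ∑ x ∈ S \ R, ∑ _y ∈ S ∩ R, (if ∃ i ∈ bad B x, i ∈ A then (1 : ℝ) else 0)
      + ∑ x ∈ S ∩ R, ∑ y ∈ S \ R, (if ∃ i ∈ bad B y, i ∉ A then (1 : ℝ) else 0)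
      ≤ (qc S A (S \ R) : ℝ) + nc S A := by
    intro A
    have e1 : ∑ x ∈ S \ R, ∑ _y ∈ S ∩ R, (if ∃ i ∈ bad B x, i ∈ A then (1 : ℝ) else 0)
        = (((S \ R) ×ˢ (S ∩ R)).filter (fun p => ∃ i ∈ bad B p.1, i ∈ A)).card := by
      rw [dsum]
    have e2 : ∑ x ∈ S ∩ R, ∑ y ∈ S \ R, (if ∃ i ∈ bad B y, i ∉ A then (1 : ℝ) else 0)
        = (((S ∩ R) ×ˢ (S \ R)).filter (fun p => ∃ i ∈ bad B p.2, i ∉ A)).card := by
      rw [dsum]
    rw [e1, e2]
    unfold qc nc
    have h2 : (((S \ R) ×ˢ (S ∩ R)).filter (fun p => ∃ i ∈ bad B p.1, i ∈ A)).card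
        + (((S ∩ R) ×ˢ (S \ R)).filter (fun p => ∃ i ∈ bad B p.2, i ∉ A)).card
        ≤ ((S ×ˢ S).filter (fun p => cr A p.1 p.2 ∈ S \ R)).card
          + ((S ×ˢ S).filter (fun p => cr A p.1 p.2 ∉ S)).card := by
      rw [← card_union_of_disjoint, ← card_union_of_disjoint]
      · apply card_le_card
        intro p hp
        have h3 : p ∈ S ×ˢ S ∧ cr A p.1 p.2 ∉ R := by
          rcases mem_union.mp hp with h | h
          · obtain ⟨h4, i, hi, hiA⟩ := mem_filter.mp h
            obtain ⟨h5, h6⟩ := mem_product.mp h4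
            refine ⟨mem_product.mpr ⟨(mem_sdiff.mp h5).1, (mem_inter.mp h6).1⟩, fun h7 => ?_⟩
            have h8 := Fintype.mem_piFinset.mp h7 i
            simp only [cr, hiA, if_true] at h8
            exact mem_bad.mp hi h8
          · obtain ⟨h4, i, hi, hiA⟩ := mem_filter.mp h
            obtain ⟨h5, h6⟩ := mem_product.mp h4
            refine ⟨mem_product.mpr ⟨(mem_inter.mp h5).1, (mem_sdiff.mp h6).1⟩, fun h7 => ?_⟩
            have h8 := Fintype.mem_piFinset.mp h7 i
            simp only [cr, hiA, if_false] at h8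
            exact mem_bad.mp hi h8
        rw [mem_union, mem_filter, mem_filter, mem_sdiff]
        by_cases h9 : cr A p.1 p.2 ∈ S
        · exact Or.inl ⟨h3.1, h9, h3.2⟩
        · exact Or.inr ⟨h3.1, h9⟩
      · rw [disjoint_left]
        intro p hp hp'
        exact (mem_filter.mp hp').2 (mem_sdiff.mp (mem_filter.mp hp).2).1
      · rw [disjoint_left]
        intro p hp hp'
        have h5 := (mem_product.mp (mem_filter.mp hp).1).1
        have h6 := (mem_product.mp (mem_filter.mp hp').1).1
        exact (mem_sdiff.mp h5).2 (mem_inter.mp h6).2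
    exact_mod_cast h2
  refine le_trans (le_of_eq ?_) (sum_le_sum (fun A _ => h1 A))
  rw [sum_add_distrib]
  have h4 : ∀ x : Fin n → ℤ, ∑ A : Finset (Fin n),
      (if ∃ i ∈ bad B x, i ∈ A then (1 : ℝ) else 0) = hit (bad B x) := by
    intro x
    rw [← sum_filter, sum_const, nsmul_eq_mul, mul_one]; rfl
  have h5 : ∀ x : Fin n → ℤ, ∑ A : Finset (Fin n),
      (if ∃ i ∈ bad B x, i ∉ A then (1 : ℝ) else 0) = hit (bad B x) := by
    intro x
    rw [← h4]
    refine Fintype.sum_bijective compl compl_bijective _ _ (fun A => ?_)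
    simp only [mem_compl]
  have e3 : ∑ A : Finset (Fin n), ∑ x ∈ S \ R, ∑ _y ∈ S ∩ R,
      (if ∃ i ∈ bad B x, i ∈ A then (1 : ℝ) else 0)
      = (S ∩ R).card * ∑ x ∈ S \ R, (hit (bad B x) : ℝ) := by
    simp only [sum_const, nsmul_eq_mul]
    rw [sum_comm, mul_sum]
    apply sum_congr rfl
    intro x _
    rw [← mul_sum, h4]
  have e4 : ∑ A : Finset (Fin n), ∑ x ∈ S ∩ R, ∑ y ∈ S \ R,
      (if ∃ i ∈ bad B y, i ∉ A then (1 : ℝ) else 0)
      = (S ∩ R).card * ∑ x ∈ S \ R, (hit (bad B x) : ℝ) := by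
    simp only [sum_const, nsmul_eq_mul]
    rw [← mul_sum, sum_comm]
    congr 1
    apply sum_congr rfl
    intro x _
    rw [h5]
  rw [e3, e4]; ring

/-- the crossings of one slab outside the box which stay in it -/
theorem slab_stay (S : Finset (Fin n → ℤ)) (B : Fin n → Finset ℤ) (hopt : Opt S B) (i : Fin n)
    (v : ℤ) (hv : v ∉ B i) :
    ∑ A : Finset (Fin n), ∑ x ∈ S ∩ Fintype.piFinset (bu B i {v}),
      ∑ y ∈ Fintype.piFinset B, (if cr A x y ∈ S \ Fintype.piFinset B then (1 : ℝ) else 0)
      ≤ 3 / 8 * 2 ^ n * ((Fintype.piFinset B).card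
        * (S ∩ Fintype.piFinset (bu B i {v})).card) := by
  classical
  set R := Fintype.piFinset B with hR
  set P := Fintype.piFinset (bu B i {v}) with hP
  set F := S ∩ P with hF
  have hFP : F ⊆ P := inter_subset_right
  set g : Finset (Fin n) → ℝ := fun A => ∑ x ∈ P, ∑ y ∈ P, ind F x * ind F (cr A x y) with hg
  have hgs : ∀ A, g (symmDiff A {i}) = g A := by
    intro A
    simp only [hg]
    apply sum_congr rfl
    intro x hx
    apply sum_congr rfl
    intro y hy
    have h1 := (mem_bu.mp hx).1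
    have h2 := (mem_bu.mp hy).1
    rw [mem_singleton] at h1 h2
    have : cr (symmDiff A {i}) x y = cr A x y := by
      funext j
      unfold cr
      by_cases hj : j = i
      · subst hj; rw [h1, h2]; simp
      · have : j ∈ symmDiff A {i} ↔ j ∈ A := by
          rw [mem_symmDiff, mem_singleton]; tauto
        simp only [this]
    rw [this]
  have h1 : ∀ A : Finset (Fin n), ∑ x ∈ F, ∑ y ∈ R,
      (if cr A x y ∈ S \ R then (1 : ℝ) else 0) ≤ if i ∈ A then (B i).card * g A else 0 := by
    intro A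
    by_cases hA : i ∈ A
    · rw [if_pos hA]
      have h2 : ∀ x ∈ F, ∑ y ∈ R, (if cr A x y ∈ S \ R then (1 : ℝ) else 0)
          ≤ (B i).card * ∑ y ∈ P, ind F (cr A x y) := by
        intro x hx
        have hxP := mem_bu.mp (hFP hx)
        have hxi : x i = v := by simpa using hxP.1
        rw [hP, ← sum_upd B i v (fun y => ind F (cr A x y))]
        apply sum_le_sum
        intro y hy
        have hcr : cr A x (Function.update y i v) = cr A x y := by
          funext j
          unfold cr
          by_cases hj : j = i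
          · subst hj; simp [hA]
          · rw [Function.update_of_ne hj]
        rw [hcr]
        split_ifs with h3
        · have h4 : cr A x y ∈ F := by
            rw [hF, mem_inter]
            refine ⟨(mem_sdiff.mp h3).1, ?_⟩
            rw [hP, mem_bu]
            refine ⟨by simp [cr, hA, hxi], fun j hj => ?_⟩
            unfold cr
            split_ifs
            · exact hxP.2 j hj
            · exact Fintype.mem_piFinset.mp hy j
          unfold ind
          rw [if_pos h4]
        · unfold ind; split_ifs <;> norm_num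
      refine (sum_le_sum h2).trans (le_of_eq ?_)
      rw [← mul_sum]
      congr 1
      simp only [hg]
      rw [← sum_subset hFP]
      · apply sum_congr rfl
        intro x hx
        apply sum_congr rfl
        intro y _
        have : ind F x = 1 := by unfold ind; rw [if_pos hx]
        rw [this, one_mul]
      · intro x _ hx
        apply sum_eq_zero
        intro y _
        have : ind F x = 0 := by unfold ind; rw [if_neg hx]
        rw [this, zero_mul]
    · rw [if_neg hA]
      apply le_of_eq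
      apply sum_eq_zero
      intro x hx
      apply sum_eq_zero
      intro y hy
      rw [if_neg]
      intro h3
      apply (mem_sdiff.mp h3).2
      rw [hR, Fintype.mem_piFinset]
      have hxP := mem_bu.mp (hFP hx)
      intro j
      unfold cr
      by_cases hj : j = i
      · subst hj; rw [if_neg hA]; exact Fintype.mem_piFinset.mp hy j
      · split_ifs
        · exact hxP.2 j hj
        · exact Fintype.mem_piFinset.mp hy j
  refine (sum_le_sum (fun A _ => h1 A)).trans ?_
  have h2 := sum_mem_half i (fun A => ((B i).card : ℝ) * g A) (fun A => by rw [hgs])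
  rw [h2, ← mul_sum]
  have h3 : ∑ A, g A = st (bu B i {v}) (ind F) := rfl
  have h4 := st_a n (bu B i {v}) (ind F)
  rw [s1_ind _ F hFP, s2_ind _ F hFP, ← hP] at h4
  have h5 : 2 * (F.card : ℝ) ≤ P.card := by exact_mod_cast opt_out hopt i v hv
  have h6 : ((B i).card : ℝ) * P.card = R.card := card_bu B i v
  have h7 : (0 : ℝ) < 2 ^ n := by positivity
  have h8 : (F.card : ℝ) ^ 2 ≤ 1 / 2 * (P.card * F.card) := by
    have : (0 : ℝ) ≤ F.card := by positivity
    nlinarith
  have h9 : 2 * st (bu B i {v}) (ind F) ≤ 2 ^ n * (3 / 2 * (P.card * F.card)) := by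
    refine h4.trans (mul_le_mul_of_nonneg_left ?_ h7.le)
    linarith
  rw [h3]
  have h10 := mul_le_mul_of_nonneg_left h9 (show (0 : ℝ) ≤ (B i).card by positivity)
  have h11 : ((B i).card : ℝ) * (2 ^ n * (3 / 2 * (P.card * F.card)))
      = 2 ^ n * (3 / 2) * (R.card * F.card) := by rw [← h6]; ring
  rw [h11] at h10
  linarith

end Pool.Agent.H488R3.UC
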