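import Mathlib

/-!
A polymatroid inequality: covers by sets of small co-size against the cover by the
complements of points.
-/

namespace Pool.Agent.H488R3.UC

open Finset

variable {d : ℕ}

def up (k : ℕ) : Finset (Fin d) := univ.filter (fun i : Fin d => k ≤ i.val)

def inc (h : Finset (Fin d) → ℝ) (A : Finset (Fin d)) (i : Fin d) : ℝ :=
  h (A ∩ up i.val) - h (A ∩ up (i.val + 1))

theorem sum_inc (h : Finset (Fin d) → ℝ) (h0 : h ∅ = 0) (A : Finset (Fin d)) :
    ∑ i, inc h A i = h A := by
  unfold inc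
  rw [Fin.sum_univ_eq_sum_range (fun k => h (A ∩ up k) - h (A ∩ up (k + 1))) d,
    sum_range_sub']
  have h1 : A ∩ (up 0 : Finset (Fin d)) = A := by
    ext i; simp [up]
  have h2 : A ∩ (up d : Finset (Fin d)) = ∅ := by
    ext i; simp [up]
  rw [h1, h2, h0, sub_zero]

theorem inc_not_mem (h : Finset (Fin d) → ℝ) {A : Finset (Fin d)} {i : Fin d} (hi : i ∉ A) :
    inc h A i = 0 := by
  unfold inc
  have : A ∩ up i.val = A ∩ up (i.val + 1) := by
    ext j
    simp only [up, mem_inter, mem_filter, mem_univ, true_and]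
    constructor
    · rintro ⟨hj, hij⟩
      refine ⟨hj, ?_⟩
      have : j ≠ i := fun e => hi (e ▸ hj)
      have : j.val ≠ i.val := fun e => this (Fin.ext e)
      omega
    · rintro ⟨hj, hij⟩
      exact ⟨hj, by omega⟩
  rw [this, sub_self]

theorem inc_anti (h : Finset (Fin d) → ℝ) (hsub : ∀ A B, h (A ∪ B) + h (A ∩ B) ≤ h A + h B)
    {A B : Finset (Fin d)} (hAB : A ⊆ B) {i : Fin d} (hi : i ∈ A) :
    inc h B i ≤ inc h A i := by
  unfold inc
  have h1 := hsub (A ∩ up i.val) (B ∩ up (i.val + 1))
  have e1 : (A ∩ up i.val) ∪ (B ∩ up (i.val + 1)) = B ∩ up i.val := by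
    ext j
    simp only [up, mem_inter, mem_union, mem_filter, mem_univ, true_and]
    constructor
    · rintro (⟨hj, hij⟩ | ⟨hj, hij⟩)
      · exact ⟨hAB hj, hij⟩
      · exact ⟨hj, by omega⟩
    · rintro ⟨hj, hij⟩
      by_cases e : j = i
      · left; exact ⟨e ▸ hi, hij⟩
      · right
        have : j.val ≠ i.val := fun e' => e (Fin.ext e')
        exact ⟨hj, by omega⟩
  have e2 : (A ∩ up i.val) ∩ (B ∩ up (i.val + 1)) = A ∩ up (i.val + 1) := by
    ext j
    simp only [up, mem_inter, mem_filter, mem_univ, true_and]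
    constructor
    · rintro ⟨⟨hj, hij⟩, ⟨_, hij'⟩⟩
      exact ⟨hj, hij'⟩
    · rintro ⟨hj, hij⟩
      exact ⟨⟨hj, by omega⟩, ⟨hAB hj, hij⟩⟩
  rw [e1, e2] at h1
  linarith

theorem poly {ι : Type*} [Fintype ι] (h : Finset (Fin d) → ℝ) (h0 : h ∅ = 0)
    (hmono : ∀ A B, A ⊆ B → h A ≤ h B)
    (hsub : ∀ A B, h (A ∪ B) + h (A ∩ B) ≤ h A + h B)
    (g : ι → Finset (Fin d)) (m s t : ℕ)
    (hm : ∀ i, m ≤ (univ.filter (fun k => i ∈ g k)).card)
    (hs : ∀ i j, i ≠ j → s ≤ (univ.filter (fun k => i ∈ g k ∧ j ∉ g k)).card)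
    (ht : ∀ k, (g k).Nonempty → (univ \ g k).card ≤ t) :
    (s : ℝ) * (∑ c, h (univ.erase c) - (d - 1) * h univ)
      ≤ t * (∑ k, h (g k) - m * h univ) := by
  classical
  set a : Fin d → ℝ := fun i => inc h univ i with ha
  set b : Fin d → Fin d → ℝ := fun i c => inc h (univ.erase c) i - inc h univ i with hb
  have ha0 : ∀ i, 0 ≤ a i := by
    intro i
    simp only [ha, inc]
    have := hmono (univ ∩ up (i.val + 1)) (univ ∩ up i.val) (by
      intro j hj
      simp only [up, mem_inter, mem_filter, mem_univ, true_and] at hj ⊢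
      omega)
    linarith
  have hb0 : ∀ i c, i ≠ c → 0 ≤ b i c := by
    intro i c hic
    have := inc_anti h hsub (A := univ.erase c) (B := univ) (erase_subset _ _) (i := i)
      (mem_erase.mpr ⟨hic, mem_univ i⟩)
    simp only [hb]; linarith
  have hsa : ∑ i, a i = h univ := sum_inc h h0 univ
  have hsb : ∀ c, ∑ i ∈ univ.erase c, b i c = h (univ.erase c) - h univ + a c := by
    intro c
    have h1 : ∑ i, b i c = h (univ.erase c) - h univ := by
      simp only [hb]
      rw [sum_sub_distrib, sum_inc h h0, sum_inc h h0]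
    have h2 : b c c = - a c := by
      simp only [hb, ha]
      rw [inc_not_mem h (notMem_erase c univ)]; ring
    rw [← add_sum_erase univ (fun i => b i c) (mem_univ c)] at h1
    linarith
  -- one member of the family
  have hk : ∀ k, ∑ i ∈ g k, ((t : ℝ) * a i + ∑ c ∈ univ \ g k, b i c) ≤ t * h (g k) := by
    intro k
    by_cases hne : (g k).Nonempty
    · have hinc : h (g k) = ∑ i ∈ g k, inc h (g k) i := by
        rw [← sum_inc h h0 (g k)]
        symm
        apply sum_subset (subset_univ _)
        intro i _ hi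
        exact inc_not_mem h hi
      rw [hinc, mul_sum]
      apply sum_le_sum
      intro i hi
      have h1 : ∀ c ∈ univ \ g k, b i c ≤ inc h (g k) i - a i := by
        intro c hc
        have hc' : c ∉ g k := (mem_sdiff.mp hc).2
        have := inc_anti h hsub (A := g k) (B := univ.erase c)
          (fun j hj => mem_erase.mpr ⟨fun e => hc' (e ▸ hj), mem_univ j⟩) hi
        simp only [hb, ha]; linarith
      have h2 := sum_le_card_nsmul _ _ _ h1
      rw [nsmul_eq_mul] at h2
      have h3 : 0 ≤ inc h (g k) i - a i := by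
        have := inc_anti h hsub (A := g k) (B := univ) (subset_univ _) hi
        simp only [ha]; linarith
      have h4 : ((univ \ g k).card : ℝ) * (inc h (g k) i - a i)
          ≤ t * (inc h (g k) i - a i) :=
        mul_le_mul_of_nonneg_right (by exact_mod_cast ht k hne) h3
      linarith
    · rw [not_nonempty_iff_eq_empty] at hne
      rw [hne, h0]; simp
  have hsum := sum_le_sum (fun k (_ : k ∈ (univ : Finset ι)) => hk k)
  rw [← mul_sum] at hsum
  -- rewrite the left side
  have e1 : ∑ k, ∑ i ∈ g k, ((t : ℝ) * a i + ∑ c ∈ univ \ g k, b i c)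
      = ∑ i, ((univ.filter (fun k => i ∈ g k)).card * ((t : ℝ) * a i)
        + ∑ c, (univ.filter (fun k => i ∈ g k ∧ c ∉ g k)).card * b i c) := by
    have e2 : ∀ k, ∑ i ∈ g k, ((t : ℝ) * a i + ∑ c ∈ univ \ g k, b i c)
        = ∑ i, ((if i ∈ g k then (t : ℝ) * a i else 0)
          + ∑ c, (if i ∈ g k ∧ c ∉ g k then b i c else 0)) := by
      intro k
      rw [← sum_filter_add_sum_filter_not univ (fun i => i ∈ g k)
        (fun i => ((if i ∈ g k then (t : ℝ) * a i else 0)
          + ∑ c, (if i ∈ g k ∧ c ∉ g k then b i c else 0)))]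
      have e3 : ∑ i ∈ univ.filter (fun i => ¬ i ∈ g k),
          ((if i ∈ g k then (t : ℝ) * a i else 0)
          + ∑ c, (if i ∈ g k ∧ c ∉ g k then b i c else 0)) = 0 := by
        apply sum_eq_zero
        intro i hi
        have hi' := (mem_filter.mp hi).2
        rw [if_neg hi', zero_add]
        apply sum_eq_zero
        intro c _
        rw [if_neg (fun h : i ∈ g k ∧ c ∉ g k => hi' h.1)]
      rw [e3, add_zero]
      have e4 : univ.filter (fun i => i ∈ g k) = g k := by ext i; simp
      rw [e4]
      apply sum_congr rfl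
      intro i hi
      rw [if_pos hi]
      congr 1
      rw [← sum_filter]
      apply sum_congr _ (fun _ _ => rfl)
      ext c
      simp [hi]
    simp only [e2]
    rw [sum_comm]
    apply sum_congr rfl
    intro i _
    rw [sum_add_distrib]
    congr 1
    · rw [← sum_filter, sum_const, nsmul_eq_mul]
    · rw [sum_comm]
      apply sum_congr rfl
      intro c _
      rw [← sum_filter, sum_const, nsmul_eq_mul]
  rw [e1, sum_add_distrib] at hsum
  have l1 : (t : ℝ) * (m * h univ) ≤ ∑ i, ((univ.filter (fun k => i ∈ g k)).card : ℝ) *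
      ((t : ℝ) * a i) := by
    rw [← hsa, mul_sum, mul_sum]
    apply sum_le_sum
    intro i _
    have : (m : ℝ) * (t * a i) ≤ (univ.filter (fun k => i ∈ g k)).card * ((t : ℝ) * a i) :=
      mul_le_mul_of_nonneg_right (by exact_mod_cast hm i) (mul_nonneg (by positivity) (ha0 i))
    linarith
  have l2 : (s : ℝ) * (∑ c, h (univ.erase c) - (d - 1) * h univ)
      ≤ ∑ i, ∑ c, ((univ.filter (fun k => i ∈ g k ∧ c ∉ g k)).card : ℝ) * b i c := by
    have e5 : ∑ c, h (univ.erase c) - (d - 1) * h univ
        = ∑ c, ∑ i ∈ univ.erase c, b i c := by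
      simp only [hsb]
      rw [sum_add_distrib, sum_sub_distrib, hsa, sum_const, card_univ, Fintype.card_fin,
        nsmul_eq_mul]
      ring
    rw [e5, mul_sum, sum_comm (s := univ) (t := univ)]
    apply sum_le_sum
    intro c _
    rw [mul_sum]
    refine le_trans ?_ (sum_le_sum_of_subset_of_nonneg (erase_subset c univ) ?_)
    · apply sum_le_sum
      intro i hi
      exact mul_le_mul_of_nonneg_right (by exact_mod_cast hs i c (mem_erase.mp hi).1)
        (hb0 i c (mem_erase.mp hi).1)
    · intro i _ hi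
      have hic : i = c := by
        by_contra hne
        exact hi (mem_erase.mpr ⟨hne, mem_univ i⟩)
      subst hic
      have : (univ.filter (fun k => i ∈ g k ∧ i ∉ g k)).card = 0 := by
        rw [card_eq_zero]
        ext k; simp
      rw [this]; simp
  linarith

end Pool.Agent.H488R3.UC
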