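import Pool.Agent.H488R3.UC.Dtc
import Pool.Agent.H488R3.UC.Poly

/-!
A finite set is close to a box in terms of the dual total correlation of a uniform point.
-/

namespace Pool.Agent.H488R3.UC

open Finset

variable {n : ℕ}

theorem card_sdiff_add (A B : Finset (Fin n → ℤ)) :
    ((A \ B).card : ℝ) + (A ∩ B).card = A.card := by
  exact_mod_cast card_sdiff_add_card_inter A B

theorem card_symmDiff_eq (A B : Finset (Fin n → ℤ)) :
    ((symmDiff A B).card : ℝ) = (A \ B).card + (B \ A).card := by
  have : symmDiff A B = (A \ B) ∪ (B \ A) := rfl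
  rw [this, card_union_of_disjoint disjoint_sdiff_sdiff]
  push_cast; rfl

theorem step2 (S : Finset (Fin (n + 1) → ℤ)) (hS : S.Nonempty) (q : ℤ → ℝ)
    (R : ℤ → (Fin n → Finset ℤ))
    (hR : ∀ a ∈ vals S, ((symmDiff (slice a S) (Fintype.piFinset (R a))).card : ℝ) ≤ q a)
    (Δ : ℝ)
    (hΔ : ∑ a ∈ vals S, q a
      + 6 * (S.card - (∑ a ∈ vals S, ∑ b ∈ vals S,
        ((slice a S).card : ℝ) * (slice a S ∩ slice b S).card) / S.card) ≤ Δ) :
    ∃ B : Fin (n + 1) → Finset ℤ, ((symmDiff S (Fintype.piFinset B)).card : ℝ) ≤ Δ := by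
  classical
  by_cases h4 : (S.card : ℝ) ≤ Δ
  · refine ⟨fun _ => ∅, ?_⟩
    rw [Fintype.piFinset_empty, ← bot_eq_empty, symmDiff_bot]
    exact h4
  have h4' : Δ < S.card := not_le.mp h4
  have hN0 : (0 : ℝ) < S.card := by exact_mod_cast card_pos.mpr hS
  have hNS : (S.card : ℝ) = ∑ a ∈ vals S, ((slice a S).card : ℝ) := card_cast_eq_sum S
  set V := vals S with hV
  set N : ℤ → ℝ := fun a => ((slice a S).card : ℝ) with hN
  set o : ℤ → ℤ → ℝ := fun a b => ((slice b S \ slice a S).card : ℝ) with ho
  have hNpos : ∀ a ∈ V, 0 < N a := by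
    intro a ha
    have := card_pos.mpr (slice_nonempty ha)
    simp only [hN]; exact_mod_cast this
  have ho0 : ∀ a b, 0 ≤ o a b := fun a b => by simp only [ho]; positivity
  have hint : ∀ a b, ((slice a S ∩ slice b S).card : ℝ) = N b - o a b := by
    intro a b
    have := card_sdiff_add (slice b S) (slice a S)
    rw [inter_comm]
    simp only [hN, ho]
    linarith
  have hint' : ∀ a b, N b - o a b ≤ N a := by
    intro a b
    rw [← hint a b]
    have := card_le_card (inter_subset_left (s₁ := slice a S) (s₂ := slice b S))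
    simp only [hN]; exact_mod_cast this
  have hq0 : ∀ a ∈ V, 0 ≤ q a := fun a ha => le_trans (by positivity) (hR a ha)
  set G : ℤ → ℝ := fun b => 4 * ∑ a ∈ V, N a * o a b + 2 * ∑ a ∈ V, N b * o b a
    + q b * S.card with hG
  have hGsum : ∑ b ∈ V, G b ≤ ∑ b ∈ V, N b * Δ := by
    have e1 : ∑ b ∈ V, G b = 6 * ∑ b ∈ V, ∑ a ∈ V, N b * o b a + (∑ b ∈ V, q b) * S.card := by
      simp only [hG]
      rw [sum_add_distrib, sum_add_distrib, ← mul_sum, ← mul_sum, ← sum_mul,
        sum_comm (s := V) (t := V) (f := fun b a => N a * o a b)]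
      ring
    have e2 : ∑ b ∈ V, ∑ a ∈ V, N b * o b a = (S.card : ℝ) * S.card
        - ∑ a ∈ V, ∑ b ∈ V, N a * (slice a S ∩ slice b S).card := by
      rw [eq_sub_iff_add_eq, ← sum_add_distrib]
      have : ∀ b ∈ V, ∑ a ∈ V, N b * o b a
          + ∑ a ∈ V, N b * ((slice b S ∩ slice a S).card : ℝ) = N b * S.card := by
        intro b _
        rw [← sum_add_distrib, hNS, mul_sum]
        apply sum_congr rfl
        intro a _
        rw [hint]
        simp only [hN]
        ring
      rw [sum_congr rfl this, ← sum_mul]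
      congr 1
      exact hNS.symm
    have e3 : ∑ b ∈ V, N b * Δ = Δ * S.card := by
      rw [← sum_mul, mul_comm]
      congr 1
      exact hNS.symm
    rw [e1, e2, e3]
    have h5 := mul_le_mul_of_nonneg_right hΔ hN0.le
    have e6 : (∑ a ∈ V, q a + 6 * (S.card - (∑ a ∈ V, ∑ b ∈ V,
        N a * (slice a S ∩ slice b S).card) / S.card)) * S.card
        = 6 * ((S.card : ℝ) * S.card - ∑ a ∈ V, ∑ b ∈ V, N a * (slice a S ∩ slice b S).card)
          + (∑ b ∈ V, q b) * S.card := by
      field_simp
      ring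
    rw [← e6]
    exact h5
  obtain ⟨b, hbV, hGb⟩ := exists_le_of_sum_le (vals_nonempty hS) hGsum
  have hNb := hNpos b hbV
  set A := V.filter (fun a => 2 * o a b ≤ N b ∧ 2 * o b a ≤ N a) with hA
  have hAV : A ⊆ V := filter_subset _ _
  have hs1 : 0 ≤ ∑ a ∈ V, N a * o a b :=
    sum_nonneg (fun a ha => mul_nonneg (hNpos a ha).le (ho0 a b))
  have hs2 : 0 ≤ ∑ a ∈ V, N b * o b a :=
    sum_nonneg (fun a ha => mul_nonneg hNb.le (ho0 b a))
  have hqN : q b ≤ N b := by
    by_contra hc
    have hc' := not_le.mp hc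
    have h1 : N b * S.card < q b * S.card := mul_lt_mul_of_pos_right hc' hN0
    have h2 : N b * Δ < N b * S.card := mul_lt_mul_of_pos_left h4' hNb
    simp only [hG] at hGb
    linarith
  refine ⟨Fin.snoc (α := fun _ => Finset ℤ) (R b) A, ?_⟩
  rw [card_symmDiff_box S (R b) A hAV]
  push_cast
  have hgood : ∀ a ∈ A, N b * ((symmDiff (slice a S) (Fintype.piFinset (R b))).card : ℝ)
      ≤ 4 * (N a * o a b) + 2 * (N b * o b a) + q b * N a := by
    intro a ha
    have ha' := mem_filter.mp ha
    have haV := ha'.1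
    have h1 : ((symmDiff (slice a S) (Fintype.piFinset (R b))).card : ℝ)
        ≤ (symmDiff (slice a S) (slice b S)).card
          + (symmDiff (slice b S) (Fintype.piFinset (R b))).card := by
      exact_mod_cast card_symmDiff_triangle _ _ _
    have h2 : ((symmDiff (slice a S) (slice b S)).card : ℝ) = o b a + o a b :=
      card_symmDiff_eq _ _
    have h3 := hR b hbV
    have h5 : ((symmDiff (slice a S) (Fintype.piFinset (R b))).card : ℝ)
        ≤ o b a + o a b + q b := by linarith
    have h6 := mul_le_mul_of_nonneg_left h5 hNb.le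
    have h7 := hint' a b
    have h8 : N b ≤ 2 * N a := by linarith [ha'.2.1]
    have h9 : N b * o a b ≤ 2 * N a * o a b := mul_le_mul_of_nonneg_right h8 (ho0 a b)
    have h10 : N b * q b ≤ (N a + o a b) * q b :=
      mul_le_mul_of_nonneg_right (by linarith) (hq0 b hbV)
    have h11 : o a b * q b ≤ o a b * N b := mul_le_mul_of_nonneg_left hqN (ho0 a b)
    have h12 : 0 ≤ N b * o b a := mul_nonneg hNb.le (ho0 b a)
    linarith
  have hbad : ∀ a ∈ V \ A, N b * N a ≤ 4 * (N a * o a b) + 2 * (N b * o b a) + q b * N a := by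
    intro a ha
    have ha' := mem_sdiff.mp ha
    have haN := hNpos a ha'.1
    have h0 : ¬ (2 * o a b ≤ N b ∧ 2 * o b a ≤ N a) := fun h =>
      ha'.2 (mem_filter.mpr ⟨ha'.1, h⟩)
    have h12 : 0 ≤ N b * o b a := mul_nonneg hNb.le (ho0 b a)
    have h13 : 0 ≤ N a * o a b := mul_nonneg haN.le (ho0 a b)
    have h14 : 0 ≤ q b * N a := mul_nonneg (hq0 b hbV) haN.le
    by_cases h1 : 2 * o a b ≤ N b
    · have h2 : N a < 2 * o b a := by
        by_contra hc
        exact h0 ⟨h1, not_lt.mp hc⟩
      have h3 := mul_le_mul_of_nonneg_left h2.le hNb.le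
      linarith
    · have h2 := (not_le.mp h1).le
      have h3 := mul_le_mul_of_nonneg_left h2 haN.le
      linarith
  have t1 := sum_le_sum hgood
  have t2 := sum_le_sum hbad
  have t3 : ∑ a ∈ A, (4 * (N a * o a b) + 2 * (N b * o b a) + q b * N a)
      + ∑ a ∈ V \ A, (4 * (N a * o a b) + 2 * (N b * o b a) + q b * N a) = G b := by
    rw [add_comm, sum_sdiff hAV, sum_add_distrib, sum_add_distrib]
    simp only [hG]
    rw [mul_sum, mul_sum, hNS, mul_sum]
  rw [← mul_sum] at t1 t2
  have t4 : N b * (∑ a ∈ A, ((symmDiff (slice a S) (Fintype.piFinset (R b))).card : ℝ)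
      + ∑ a ∈ V \ A, N a) ≤ N b * Δ := by
    rw [mul_add]; linarith
  exact le_of_mul_le_mul_left t4 hNb

/-- every nonempty finite set is within six times its dual total correlation of a box -/
theorem main2 : ∀ (n : ℕ) (S : Finset (Fin n → ℤ)) (_ : S.Nonempty),
    ∃ B : Fin n → Finset ℤ, ((symmDiff S (Fintype.piFinset B)).card : ℝ) ≤ 6 * DT S := by
  classical
  intro n
  induction n with
  | zero =>
    intro S hS
    refine ⟨fun _ => ∅, ?_⟩
    have hSu : S = Fintype.piFinset (fun _ : Fin 0 => (∅ : Finset ℤ)) := by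
      obtain ⟨x, hx⟩ := hS
      ext y
      have : y = x := Subsingleton.elim _ _
      subst this
      exact ⟨fun _ => Fintype.mem_piFinset.mpr (fun i => i.elim0), fun _ => hx⟩
    have hc : S.card = 1 := by rw [hSu]; simp
    have hD : DT S = 0 := by
      unfold DT; simp [hc]
    rw [hD, ← hSu]
    simp
  | succ n ih =>
    intro S hS
    have hrec := rec2 S hS
    have hR : ∀ a : ℤ, ∃ B : Fin n → Finset ℤ, a ∈ vals S →
        ((symmDiff (slice a S) (Fintype.piFinset B)).card : ℝ) ≤ 6 * DT (slice a S) := by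
      intro a
      by_cases ha : a ∈ vals S
      · obtain ⟨B, hB⟩ := ih (slice a S) (slice_nonempty ha)
        exact ⟨B, fun _ => hB⟩
      · exact ⟨fun _ => ∅, fun h => absurd h ha⟩
    choose R hR using hR
    refine step2 S hS (fun a => 6 * DT (slice a S)) R hR (6 * DT S) ?_
    rw [← mul_sum]
    linarith

theorem DT_eq (S : Finset (Fin n → ℤ)) :
    ∑ c, hN S (univ.erase c) - (n - 1) * hN S univ = DT S := by
  have h1 : hN S univ = S.card * Real.log S.card := by
    unfold hN
    have : ∀ x ∈ S, Real.log (fc univ S x) = 0 := by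
      intro x hx
      have : fc univ S x = 1 := by
        unfold fc
        rw [card_eq_one]
        refine ⟨x, ?_⟩
        ext y
        rw [mem_filter, mem_singleton]
        constructor
        · rintro ⟨_, h⟩
          funext i
          exact (h i (mem_univ i)).symm
        · rintro rfl
          exact ⟨hx, fun _ _ => rfl⟩
      rw [this]; simp
    rw [sum_congr rfl this, sum_const_zero, sub_zero]
  rw [h1]
  unfold hN DT
  rw [sum_sub_distrib, sum_const, card_univ, Fintype.card_fin, nsmul_eq_mul]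
  ring

end Pool.Agent.H488R3.UC
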