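import Pool.Agent.H488R3.UC.BT4b
import Pool.Agent.H488R3.UC.Main2

/-!
A set which is roughly close to a box is close to it in terms of the averaged functional.
-/

namespace Pool.Agent.H488R3.UC

open Finset

variable {n : ℕ}

def O1 (S : Finset (Fin n → ℤ)) (B : Fin n → Finset ℤ) : Finset (Fin n → ℤ) :=
  (S \ Fintype.piFinset B).filter (fun x => (bad B x).card = 1)

def O2 (S : Finset (Fin n → ℤ)) (B : Fin n → Finset ℤ) : Finset (Fin n → ℤ) :=
  (S \ Fintype.piFinset B).filter (fun x => ¬ (bad B x).card = 1)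

theorem O1_add_O2 (S : Finset (Fin n → ℤ)) (B : Fin n → Finset ℤ) :
    (O1 S B).card + (O2 S B).card = (S \ Fintype.piFinset B).card :=
  card_filter_add_card_filter_not _

theorem two_le_of_O2 {S : Finset (Fin n → ℤ)} {B : Fin n → Finset ℤ} {x : Fin n → ℤ}
    (hx : x ∈ O2 S B) : 2 ≤ (bad B x).card := by
  obtain ⟨h1, h2⟩ := mem_filter.mp hx
  have h3 : bad B x ≠ ∅ := fun h => (mem_sdiff.mp h1).2 (bad_empty.mp h)
  have h4 := card_pos.mpr (nonempty_iff_ne_empty.mpr h3)
  omega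

/-- decomposition of the points with one bad coordinate -/
theorem sum_O1 (S : Finset (Fin n → ℤ)) (B : Fin n → Finset ℤ) (G : (Fin n → ℤ) → ℝ) :
    ∑ x ∈ O1 S B, G x = ∑ i, ∑ v ∈ ((O1 S B).filter (fun x => bad B x = {i})).image (fun x => x i),
      ∑ x ∈ S ∩ Fintype.piFinset (bu B i {v}), G x := by
  classical
  have h1 : ∀ x ∈ O1 S B, G x = ∑ i, (if bad B x = {i} then G x else 0) := by
    intro x hx
    obtain ⟨i, hi⟩ := card_eq_one.mp (mem_filter.mp hx).2
    rw [sum_eq_single i]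
    · rw [if_pos hi]
    · intro j _ hj
      rw [if_neg]
      rw [hi]
      intro h
      exact hj (singleton_injective h).symm
    · intro h; exact absurd (mem_univ i) h
  rw [sum_congr rfl h1, sum_comm]
  apply sum_congr rfl
  intro i _
  rw [← sum_filter]
  have h2 : ∀ x ∈ (O1 S B).filter (fun x => bad B x = {i}),
      x i ∈ ((O1 S B).filter (fun x => bad B x = {i})).image (fun x => x i) :=
    fun x hx => mem_image_of_mem (fun x : Fin n → ℤ => x i) hx
  rw [← sum_fiberwise_of_maps_to h2]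
  apply sum_congr rfl
  intro v hv
  obtain ⟨x0, hx0, hx0v⟩ := mem_image.mp hv
  have hvB : v ∉ B i := by
    rw [← hx0v]
    apply mem_bad.mp
    rw [(mem_filter.mp hx0).2]
    exact mem_singleton_self i
  apply sum_congr _ (fun _ _ => rfl)
  ext x
  rw [mem_filter, mem_filter, mem_inter, mem_bu, mem_singleton]
  constructor
  · rintro ⟨⟨h3, h4⟩, h5⟩
    refine ⟨(mem_sdiff.mp (mem_filter.mp h3).1).1, h5, fun j hj => ?_⟩
    by_contra h6
    have h7 := mem_bad.mpr h6
    rw [h4, mem_singleton] at h7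
    exact hj h7
  · rintro ⟨h3, h4, h5⟩
    have h6 : bad B x = {i} := by
      ext j
      rw [mem_bad, mem_singleton]
      constructor
      · intro h7
        by_contra h8
        exact h7 (h5 j h8)
      · rintro rfl; rw [h4]; exact hvB
    refine ⟨⟨mem_filter.mpr ⟨mem_sdiff.mpr ⟨h3, fun h7 => ?_⟩, by rw [h6, card_singleton]⟩, h6⟩,
      h4⟩
    rw [← bad_empty, h6] at h7
    exact singleton_ne_empty i h7

theorem single_stay (S : Finset (Fin n → ℤ)) (B : Fin n → Finset ℤ) (hopt : Opt S B) :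
    ∑ A : Finset (Fin n), ∑ x ∈ O1 S B, ∑ y ∈ Fintype.piFinset B,
      (if cr A x y ∈ S \ Fintype.piFinset B then (1 : ℝ) else 0)
      ≤ 3 / 8 * 2 ^ n * ((Fintype.piFinset B).card * (O1 S B).card) := by
  classical
  rw [sum_comm, sum_O1]
  have h0 : ((O1 S B).card : ℝ) = ∑ x ∈ O1 S B, (1 : ℝ) := by simp
  rw [h0, sum_O1, mul_sum, mul_sum]
  apply sum_le_sum
  intro i _
  rw [mul_sum, mul_sum]
  apply sum_le_sum
  intro v hv
  obtain ⟨x0, hx0, hx0v⟩ := mem_image.mp hv
  have hvB : v ∉ B i := by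
    rw [← hx0v]
    apply mem_bad.mp
    rw [(mem_filter.mp hx0).2]
    exact mem_singleton_self i
  have h1 := slab_stay S B hopt i v hvB
  rw [sum_comm] at h1
  simpa using h1

theorem upper (S : Finset (Fin n → ℤ)) (B : Fin n → Finset ℤ) (hopt : Opt S B) :
    ∑ A : Finset (Fin n), (qc S A (S \ Fintype.piFinset B) : ℝ)
      ≤ 2 ^ n * (3 / 4 * ((Fintype.piFinset B).card * (O1 S B).card)
        + 2 * ((O2 S B).card * S.card)
        + ((S \ Fintype.piFinset B).card : ℝ) * (S \ Fintype.piFinset B).card) := by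
  classical
  set R := Fintype.piFinset B with hR
  set O := S \ R with hO
  set T : Finset (Fin n) → ℝ := fun A => ∑ x ∈ O1 S B, ∑ y ∈ R,
    (if cr A x y ∈ O then (1 : ℝ) else 0) with hT
  have h1 : ∀ A : Finset (Fin n), (qc S A O : ℝ) ≤ T A + T Aᶜ
      + 2 * ((O2 S B).card * S.card) + (O.card : ℝ) * O.card := by
    intro A
    have e1 : T A = (((O1 S B) ×ˢ R).filter (fun p => cr A p.1 p.2 ∈ O)).card := by
      rw [dsum]
    have e2 : T Aᶜ = ((R ×ˢ (O1 S B)).filter (fun p => cr A p.1 p.2 ∈ O)).card := by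
      rw [dsum, sum_comm]
      simp only [hT, cr_compl]
    have h2 : (S ×ˢ S).filter (fun p => cr A p.1 p.2 ∈ O)
        ⊆ ((O1 S B) ×ˢ R).filter (fun p => cr A p.1 p.2 ∈ O)
          ∪ (R ×ˢ (O1 S B)).filter (fun p => cr A p.1 p.2 ∈ O)
          ∪ (O2 S B) ×ˢ S ∪ S ×ˢ (O2 S B) ∪ O ×ˢ O := by
      intro p hp
      obtain ⟨h3, h4⟩ := mem_filter.mp hp
      obtain ⟨h5, h6⟩ := mem_product.mp h3
      simp only [mem_union, mem_filter, mem_product]
      have hcls : ∀ x ∈ S, x ∈ R ∨ x ∈ O1 S B ∨ x ∈ O2 S B := by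
        intro x hx
        by_cases h : x ∈ R
        · exact Or.inl h
        · right
          by_cases h' : (bad B x).card = 1
          · exact Or.inl (mem_filter.mpr ⟨mem_sdiff.mpr ⟨hx, h⟩, h'⟩)
          · exact Or.inr (mem_filter.mpr ⟨mem_sdiff.mpr ⟨hx, h⟩, h'⟩)
      have hO1 : ∀ x ∈ O1 S B, x ∈ O := fun x hx => (mem_filter.mp hx).1
      rcases hcls p.1 h5 with h7 | h7 | h7
      · rcases hcls p.2 h6 with h8 | h8 | h8
        · exact absurd (cr_mem B h7 h8) (mem_sdiff.mp h4).2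
        · left; left; left; right; exact ⟨⟨h7, h8⟩, h4⟩
        · left; right; exact ⟨h5, h8⟩
      · rcases hcls p.2 h6 with h8 | h8 | h8
        · left; left; left; left; exact ⟨⟨h7, h8⟩, h4⟩
        · right; exact ⟨hO1 _ h7, hO1 _ h8⟩
        · left; right; exact ⟨h5, h8⟩
      · left; left; right; exact ⟨h7, h6⟩
    have h3 := card_le_card h2
    have h4 : (((O1 S B) ×ˢ R).filter (fun p => cr A p.1 p.2 ∈ O)
          ∪ (R ×ˢ (O1 S B)).filter (fun p => cr A p.1 p.2 ∈ O)
          ∪ (O2 S B) ×ˢ S ∪ S ×ˢ (O2 S B) ∪ O ×ˢ O).card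
        ≤ (((O1 S B) ×ˢ R).filter (fun p => cr A p.1 p.2 ∈ O)).card
          + ((R ×ˢ (O1 S B)).filter (fun p => cr A p.1 p.2 ∈ O)).card
          + (O2 S B).card * S.card + S.card * (O2 S B).card + O.card * O.card := by
      refine (card_union_le _ _).trans ?_
      rw [card_product]
      gcongr
      refine (card_union_le _ _).trans ?_
      rw [card_product]
      gcongr
      refine (card_union_le _ _).trans ?_
      rw [card_product]
      gcongr
      exact card_union_le _ _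
    have h5 : (qc S A O : ℝ) ≤ (((((O1 S B) ×ˢ R).filter (fun p => cr A p.1 p.2 ∈ O)).card
          + ((R ×ˢ (O1 S B)).filter (fun p => cr A p.1 p.2 ∈ O)).card
          + (O2 S B).card * S.card + S.card * (O2 S B).card + O.card * O.card : ℕ) : ℝ) := by
      unfold qc
      exact_mod_cast h3.trans h4
    rw [e1, e2]
    push_cast at h5
    linarith
  refine (sum_le_sum (fun A _ => h1 A)).trans ?_
  rw [sum_add_distrib, sum_add_distrib, sum_add_distrib, sum_const, sum_const, nsmul_eq_mul,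
    nsmul_eq_mul, card_all]
  have h2 : ∑ A : Finset (Fin n), T Aᶜ = ∑ A : Finset (Fin n), T A :=
    Fintype.sum_bijective compl compl_bijective _ _ (fun A => rfl)
  have h3 : ∑ A : Finset (Fin n), T A ≤ 3 / 8 * 2 ^ n * (R.card * (O1 S B).card) :=
    single_stay S B hopt
  rw [h2]
  linarith

theorem miss_count (S : Finset (Fin n → ℤ)) (B : Fin n → Finset ℤ) (hopt : Opt S B)
    (hne : ∀ i, (B i).Nonempty)
    (hsmall : 50 * ((Fintype.piFinset B \ S).card : ℝ) ≤ (Fintype.piFinset B).card) :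
    12 / 100 * (2 ^ n * ((Fintype.piFinset B).card * (Fintype.piFinset B \ S).card))
      ≤ ∑ A : Finset (Fin n), (nc S A : ℝ) := by
  classical
  have h1 := missing B hne (Fintype.piFinset B \ S) sdiff_subset
    (fun i u hu => opt_in hopt i u hu) hsmall
  refine h1.trans (sum_le_sum (fun A _ => ?_))
  set R := Fintype.piFinset B with hR
  have e1 : ∑ x ∈ R, ∑ y ∈ R, (1 - ind (R \ S) x) * (1 - ind (R \ S) y)
      * ind (R \ S) (cr A x y)
      = (((R ×ˢ R).filter (fun p => p.1 ∈ S ∧ p.2 ∈ S ∧ cr A p.1 p.2 ∈ R \ S)).card : ℝ) := by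
    rw [dsum]
    apply sum_congr rfl
    intro x hx
    apply sum_congr rfl
    intro y hy
    unfold ind
    simp only [mem_sdiff, hx, hy, true_and]
    by_cases h2 : x ∈ S
    · by_cases h3 : y ∈ S
      · simp [h2, h3]
      · simp [h3]
    · simp [h2]
  rw [e1]
  unfold nc
  have h2 : ((R ×ˢ R).filter (fun p => p.1 ∈ S ∧ p.2 ∈ S ∧ cr A p.1 p.2 ∈ R \ S)).card
      ≤ ((S ×ˢ S).filter (fun p => cr A p.1 p.2 ∉ S)).card := by
    apply card_le_card
    intro p hp
    obtain ⟨_, h3, h4, h5⟩ := mem_filter.mp hp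
    exact mem_filter.mpr ⟨mem_product.mpr ⟨h3, h4⟩, (mem_sdiff.mp h5).2⟩
  exact_mod_cast h2

theorem exp_bound1 : Real.exp (1 / 50) - 1 ≤ 1 / 49 := by
  have h1 := Real.add_one_le_exp (-(1 / 50) : ℝ)
  have h2 : Real.exp (1 / 50) * Real.exp (-(1 / 50)) = 1 := by
    rw [← Real.exp_add]; norm_num
  have h3 := Real.exp_pos (1 / 50)
  nlinarith

theorem exp_bound2 : 1 / 51 ≤ 1 - Real.exp (-(1 / 50)) := by
  have h1 := Real.add_one_le_exp (1 / 50 : ℝ)
  have h2 : Real.exp (1 / 50) * Real.exp (-(1 / 50)) = 1 := by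
    rw [← Real.exp_add]; norm_num
  have h3 := Real.exp_pos (-(1 / 50))
  nlinarith

/-- the variational bound averaged over all bipartitions -/
theorem dvP (S : Finset (Fin n → ℤ)) (hS : S.Nonempty) (O : Finset (Fin n → ℤ)) (hO : O ⊆ S)
    (l : ℝ) : l * O.card - (Real.exp l - 1) * ((∑ A : Finset (Fin n), (qc S A O : ℝ))
      / (2 ^ n * S.card)) + (∑ A : Finset (Fin n), (nc S A : ℝ)) / (2 ^ n * S.card)
      ≤ PhN S := by
  have hN0 : (0 : ℝ) < S.card := by exact_mod_cast card_pos.mpr hS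
  have h1 := sum_le_sum (fun A (_ : A ∈ (univ : Finset (Finset (Fin n)))) => dv S hS A O hO l)
  unfold PhN
  rw [le_div_iff₀ (by positivity)]
  refine le_trans (le_of_eq ?_) h1
  rw [sum_add_distrib, sum_sub_distrib, sum_const, nsmul_eq_mul, card_all, ← sum_div, ← sum_div,
    ← mul_sum]
  field_simp

theorem boot (S : Finset (Fin n → ℤ)) (hS : S.Nonempty) (B : Fin n → Finset ℤ)
    (hopt : Opt S B) (hne : ∀ i, (B i).Nonempty)
    (hO : 200 * ((S \ Fintype.piFinset B).card : ℝ) ≤ S.card)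
    (hM : 50 * ((Fintype.piFinset B \ S).card : ℝ) ≤ (Fintype.piFinset B).card) :
    ((symmDiff S (Fintype.piFinset B)).card : ℝ) ≤ 11000 * PhN S := by
  classical
  have hN0 : (0 : ℝ) < S.card := by exact_mod_cast card_pos.mpr hS
  have hK : (0 : ℝ) < 2 ^ n := by positivity
  set R := Fintype.piFinset B with hR
  have hup := upper S B hopt
  have hmi := miss_count S B hopt hne hM
  have hlo := lower S B
  rw [← hR] at hup hmi hlo
  rw [card_symmDiff_eq]
  set o : ℝ := ((S \ R).card : ℝ) with ho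
  set μ : ℝ := ((R \ S).card : ℝ) with hμ
  set N : ℝ := (S.card : ℝ) with hN
  set b : ℝ := (R.card : ℝ) with hb
  set o1 : ℝ := ((O1 S B).card : ℝ) with ho1
  set o2 : ℝ := ((O2 S B).card : ℝ) with ho2
  have ho12 : o1 + o2 = o := by
    rw [ho1, ho2, ho]; exact_mod_cast O1_add_O2 S B
  have ho0 : 0 ≤ o := by rw [ho]; positivity
  have ho10 : 0 ≤ o1 := by rw [ho1]; positivity
  have ho20 : 0 ≤ o2 := by rw [ho2]; positivity
  have hμ0 : 0 ≤ μ := by rw [hμ]; positivity
  have hSR : ((S ∩ R).card : ℝ) = N - o := by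
    have : (S \ R).card + (S ∩ R).card = S.card := card_sdiff_add_card_inter S R
    have h2 : ((S \ R).card : ℝ) + (S ∩ R).card = S.card := by exact_mod_cast this
    rw [hN, ho]; linarith
  have hRS : b = N - o + μ := by
    have : (R \ S).card + (R ∩ S).card = R.card := card_sdiff_add_card_inter R S
    have h2 : ((R \ S).card : ℝ) + (R ∩ S).card = R.card := by exact_mod_cast this
    rw [inter_comm, hSR] at h2
    rw [hb]; linarith
  set q : ℝ := (∑ A : Finset (Fin n), (qc S A (S \ R) : ℝ)) / (2 ^ n * N) with hq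
  set r : ℝ := (∑ A : Finset (Fin n), (nc S A : ℝ)) / (2 ^ n * N) with hr
  have hKN : (0 : ℝ) < 2 ^ n * N := mul_pos hK hN0
  have hq0 : 0 ≤ q := div_nonneg (sum_nonneg (fun _ _ => Nat.cast_nonneg _)) hKN.le
  have hr0 : 0 ≤ r := div_nonneg (sum_nonneg (fun _ _ => Nat.cast_nonneg _)) hKN.le
  have hdv : ∀ l : ℝ, l * o - (Real.exp l - 1) * q + r ≤ PhN S := fun l =>
    dvP S hS (S \ R) sdiff_subset l
  -- r bounds
  have hr1 : r ≤ PhN S := by
    have := hdv 0
    simpa using this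
  have hbN : b ≤ 50 / 49 * N := by linarith
  have hbN' : 199 / 200 * N ≤ b := by linarith
  have hr2 : 119 / 1000 * μ ≤ r := by
    rw [hr, le_div_iff₀ hKN]
    refine le_trans ?_ hmi
    have h1 : 199 / 200 * N * μ ≤ b * μ := mul_le_mul_of_nonneg_right hbN' hμ0
    have h2 := mul_le_mul_of_nonneg_left h1 hK.le
    have h3 : (0 : ℝ) ≤ 2 ^ n * (N * μ) := by positivity
    nlinarith
  -- upper bound on q
  have hq1 : q ≤ 3 / 4 * (50 / 49) * o1 + 2 * o2 + o / 200 := by
    rw [hq, div_le_iff₀ hKN]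
    refine hup.trans ?_
    have h1 : b * o1 ≤ 50 / 49 * N * o1 := mul_le_mul_of_nonneg_right hbN ho10
    have h2 : o * o ≤ o * (N / 200) := mul_le_mul_of_nonneg_left (by linarith) ho0
    have h3 : (2 : ℝ) ^ n * (3 / 4 * (b * o1) + 2 * (o2 * N) + o * o)
        ≤ 2 ^ n * (3 / 4 * (50 / 49 * N * o1) + 2 * (o2 * N) + o * (N / 200)) := by
      apply mul_le_mul_of_nonneg_left _ hK.le
      linarith
    refine h3.trans (le_of_eq ?_)
    ring
  -- lower bound on q + r
  have hhit : 2 ^ n * (1 / 2 * o1 + 3 / 4 * o2) ≤ ∑ x ∈ S \ R, (hit (bad B x) : ℝ) := by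
    have h1 : ∑ x ∈ S \ R, (hit (bad B x) : ℝ)
        = ∑ x ∈ O1 S B, (hit (bad B x) : ℝ) + ∑ x ∈ O2 S B, (hit (bad B x) : ℝ) := by
      unfold O1 O2
      rw [← hR]
      exact (sum_filter_add_sum_filter_not _ _ _).symm
    have h2 : ∑ _x ∈ O1 S B, ((1 : ℝ) / 2 * 2 ^ n) ≤ ∑ x ∈ O1 S B, (hit (bad B x) : ℝ) := by
      apply sum_le_sum
      intro x hx
      apply hit_one
      rw [nonempty_iff_ne_empty]
      intro h
      exact (mem_sdiff.mp (mem_filter.mp hx).1).2 (bad_empty.mp h)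
    have h3 : ∑ _x ∈ O2 S B, ((3 : ℝ) / 4 * 2 ^ n) ≤ ∑ x ∈ O2 S B, (hit (bad B x) : ℝ) :=
      sum_le_sum (fun x hx => hit_two (two_le_of_O2 hx))
    rw [sum_const, nsmul_eq_mul] at h2 h3
    rw [h1]
    have e1 : (2 : ℝ) ^ n * (1 / 2 * o1 + 3 / 4 * o2)
        = ((O1 S B).card : ℝ) * (1 / 2 * 2 ^ n) + ((O2 S B).card : ℝ) * (3 / 4 * 2 ^ n) := by
      rw [ho1, ho2]; ring
    rw [e1]
    linarith
  have hqr : 199 / 200 * (o1 + 3 / 2 * o2) ≤ q + r := by
    rw [hq, hr, ← add_div, le_div_iff₀ hKN, ← sum_add_distrib]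
    refine le_trans ?_ hlo
    rw [hSR]
    have h1 : 2 * (199 / 200 * N) * (2 ^ n * (1 / 2 * o1 + 3 / 4 * o2))
        ≤ 2 * (N - o) * ∑ x ∈ S \ R, (hit (bad B x) : ℝ) := by
      apply mul_le_mul
      · linarith
      · exact hhit
      · positivity
      · linarith
    refine le_trans (le_of_eq ?_) h1
    ring
  -- the contradiction
  have hP0 := PhN_nonneg S
  have hmain : o ≤ 10000 * PhN S := by
    by_contra hc
    have hc' : PhN S < o / 10000 := by linarith
    have h1 := hdv (1 / 50)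
    have h2 := hdv (-(1 / 50))
    have h3 : (Real.exp (1 / 50) - 1) * q ≤ 1 / 49 * q :=
      mul_le_mul_of_nonneg_right exp_bound1 hq0
    have h4 : 1 / 51 * q ≤ (1 - Real.exp (-(1 / 50))) * q :=
      mul_le_mul_of_nonneg_right exp_bound2 hq0
    have h5 : 49 * (o / 50 - o / 10000) ≤ q := by linarith
    have h6 : q ≤ 51 * (o / 50 + o / 10000) := by linarith
    have h7 : r ≤ o / 10000 := by linarith
    linarith
  have hm2 : μ ≤ 9 * PhN S := by linarith
  linarith

end Pool.Agent.H488R3.UC
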