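import Pool.Agent.H488R3.UC.BT4c

/-!
Preparations for the rough statement: one slice as a model for all, and the information
between the last coordinate and the others.
-/

namespace Pool.Agent.H488R3.UC

open Finset

variable {n : ℕ}

/-- `|slice c \ slice a|` -/
def oo (S : Finset (Fin (n + 1) → ℤ)) (a c : ℤ) : ℝ := ((slice c S \ slice a S).card : ℝ)

theorem oo_nonneg (S : Finset (Fin (n + 1) → ℤ)) (a c : ℤ) : 0 ≤ oo S a c := by
  unfold oo; positivity

theorem step_at (S : Finset (Fin (n + 1) → ℤ)) (b : ℤ) (hbV : b ∈ vals S)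
    (R : Fin n → Finset ℤ) (q : ℝ)
    (hR : ((symmDiff (slice b S) (Fintype.piFinset R)).card : ℝ) ≤ q)
    (hq : q ≤ (slice b S).card) :
    ∃ B : Fin (n + 1) → Finset ℤ,
      ((slice b S).card : ℝ) * (symmDiff S (Fintype.piFinset B)).card
        ≤ 4 * ∑ a ∈ vals S, ((slice a S).card : ℝ) * oo S a b
          + 2 * ∑ a ∈ vals S, ((slice b S).card : ℝ) * oo S b a + q * S.card := by
  classical
  have hNS : (S.card : ℝ) = ∑ a ∈ vals S, ((slice a S).card : ℝ) := card_cast_eq_sum S
  set V := vals S with hV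
  set N : ℤ → ℝ := fun a => ((slice a S).card : ℝ) with hN
  set o : ℤ → ℤ → ℝ := oo S with ho
  have hNpos : ∀ a ∈ V, 0 < N a := by
    intro a ha
    have := card_pos.mpr (slice_nonempty ha)
    simp only [hN]; exact_mod_cast this
  have ho0 : ∀ a b, 0 ≤ o a b := oo_nonneg S
  have hint' : ∀ a b, N b - o a b ≤ N a := by
    intro a b
    have h1 := card_sdiff_add (slice b S) (slice a S)
    have h2 := card_le_card (inter_subset_right (s₁ := slice b S) (s₂ := slice a S))
    have h3 : ((slice b S ∩ slice a S).card : ℝ) ≤ (slice a S).card := by exact_mod_cast h2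
    simp only [hN, ho, oo]
    linarith
  have hq0 : 0 ≤ q := le_trans (by positivity) hR
  have hNb := hNpos b hbV
  set A := V.filter (fun a => 2 * o a b ≤ N b ∧ 2 * o b a ≤ N a) with hA
  have hAV : A ⊆ V := filter_subset _ _
  refine ⟨Fin.snoc (α := fun _ => Finset ℤ) R A, ?_⟩
  rw [card_symmDiff_box S R A hAV]
  push_cast
  have hgood : ∀ a ∈ A, N b * ((symmDiff (slice a S) (Fintype.piFinset R)).card : ℝ)
      ≤ 4 * (N a * o a b) + 2 * (N b * o b a) + q * N a := by
    intro a ha
    have ha' := mem_filter.mp ha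
    have haV := ha'.1
    have h1 : ((symmDiff (slice a S) (Fintype.piFinset R)).card : ℝ)
        ≤ (symmDiff (slice a S) (slice b S)).card
          + (symmDiff (slice b S) (Fintype.piFinset R)).card := by
      exact_mod_cast card_symmDiff_triangle _ _ _
    have h2 : ((symmDiff (slice a S) (slice b S)).card : ℝ) = o b a + o a b :=
      card_symmDiff_eq _ _
    have h5 : ((symmDiff (slice a S) (Fintype.piFinset R)).card : ℝ)
        ≤ o b a + o a b + q := by linarith
    have h6 := mul_le_mul_of_nonneg_left h5 hNb.le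
    have h7 := hint' a b
    have h8 : N b ≤ 2 * N a := by linarith [ha'.2.1]
    have h9 : N b * o a b ≤ 2 * N a * o a b := mul_le_mul_of_nonneg_right h8 (ho0 a b)
    have h10 : N b * q ≤ (N a + o a b) * q :=
      mul_le_mul_of_nonneg_right (by linarith) hq0
    have h11 : o a b * q ≤ o a b * N b := mul_le_mul_of_nonneg_left hq (ho0 a b)
    have h12 : 0 ≤ N b * o b a := mul_nonneg hNb.le (ho0 b a)
    linarith
  have hbad : ∀ a ∈ V \ A, N b * N a ≤ 4 * (N a * o a b) + 2 * (N b * o b a) + q * N a := by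
    intro a ha
    have ha' := mem_sdiff.mp ha
    have haN := hNpos a ha'.1
    have h0 : ¬ (2 * o a b ≤ N b ∧ 2 * o b a ≤ N a) := fun h =>
      ha'.2 (mem_filter.mpr ⟨ha'.1, h⟩)
    have h12 : 0 ≤ N b * o b a := mul_nonneg hNb.le (ho0 b a)
    have h13 : 0 ≤ N a * o a b := mul_nonneg haN.le (ho0 a b)
    have h14 : 0 ≤ q * N a := mul_nonneg hq0 haN.le
    by_cases h1 : 2 * o a b ≤ N b
    · have h2 : N a < 2 * o b a := by
        by_contra hc
        exact h0 ⟨h1, not_lt.mp hc⟩
      have h3 := mul_le_mul_of_nonneg_left h2.le hNb.le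
      linarith
    · have h2 := (not_le.mp h1).le
      have h3 := mul_le_mul_of_nonneg_left h2 haN.le
      linarith
  have t1 := sum_le_sum hgood
  have t2 := sum_le_sum hbad
  have t3 : ∑ a ∈ A, (4 * (N a * o a b) + 2 * (N b * o b a) + q * N a)
      + ∑ a ∈ V \ A, (4 * (N a * o a b) + 2 * (N b * o b a) + q * N a)
      = 4 * ∑ a ∈ V, N a * o a b + 2 * ∑ a ∈ V, N b * o b a + q * S.card := by
    rw [add_comm, sum_sdiff hAV, sum_add_distrib, sum_add_distrib]
    rw [mul_sum, mul_sum, hNS, mul_sum]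
  rw [← mul_sum] at t1 t2
  rw [mul_add]
  have t4 : ∑ a ∈ V \ A, ((slice a S).card : ℝ) = ∑ a ∈ V \ A, N a := rfl
  rw [t4]
  have t5 : ((slice b S).card : ℝ) = N b := rfl
  rw [t5]
  linarith

theorem mp_univ : (mp univ : Finset (Fin (n + 1))) = univ.erase (Fin.last n) := by
  rw [univ_eq, erase_insert last_not_mem_mp]

theorem mp_empty : (mp ∅ : Finset (Fin (n + 1))) = ∅ := by simp [mp]

theorem mp_union_compl (C : Finset (Fin n)) : mp C ∪ mp Cᶜ = mp univ := by
  ext i
  refine Fin.lastCases ?_ (fun k => ?_) i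
  · simp [last_not_mem_mp]
  · simp only [mem_union, castSucc_mem_mp, mem_compl, mem_univ]
    tauto

theorem mp_inter_compl (C : Finset (Fin n)) : mp C ∩ mp Cᶜ = ∅ := by
  ext i
  refine Fin.lastCases ?_ (fun k => ?_) i
  · simp [last_not_mem_mp]
  · simp only [mem_inter, castSucc_mem_mp, mem_compl]
    simp

/-- the information between the last coordinate and the others -/
theorem info_le (S : Finset (Fin (n + 1) → ℤ)) :
    ∑ a ∈ vals S, Gm S a univ ≤ 2 * PhN S := by
  have h1 : ∀ C : Finset (Fin n), ∑ a ∈ vals S, Gm S a univ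
      ≤ ∑ a ∈ vals S, IAN (slice a S) C + ∑ a ∈ vals S, Gm S a C
        + ∑ a ∈ vals S, Gm S a Cᶜ := by
    intro C
    have h2 := hN_submod S (mp C) (mp Cᶜ)
    rw [mp_union_compl, mp_inter_compl, hN_empty, hN_mp, hN_mp, hN_mp] at h2
    have h3 : ∑ a ∈ vals S, IAN (slice a S) C = ∑ a ∈ vals S, hN (slice a S) C
        + ∑ a ∈ vals S, hN (slice a S) Cᶜ - ∑ a ∈ vals S, hN (slice a S) univ := by
      unfold IAN
      rw [sum_sub_distrib, sum_add_distrib]
    rw [h3]
    linarith
  have h4 := sum_le_sum (fun C (_ : C ∈ (univ : Finset (Finset (Fin n)))) => h1 C)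
  rw [sum_const, nsmul_eq_mul, card_all, sum_add_distrib, sum_add_distrib] at h4
  have h5 : ∑ C : Finset (Fin n), ∑ a ∈ vals S, Gm S a Cᶜ
      = ∑ C : Finset (Fin n), ∑ a ∈ vals S, Gm S a C :=
    Fintype.sum_bijective compl compl_bijective _ _ (fun A => rfl)
  rw [h5] at h4
  have hK : (0 : ℝ) < 2 ^ n := by positivity
  have e1 : ∑ C : Finset (Fin n), ∑ a ∈ vals S, IAN (slice a S) C
      = 2 ^ n * ∑ a ∈ vals S, PhN (slice a S) := by
    rw [sum_comm, mul_sum]
    apply sum_congr rfl
    intro a _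
    unfold PhN
    field_simp
  have e2 : ∑ C : Finset (Fin n), ∑ a ∈ vals S, Gm S a C
      = 2 ^ n * ∑ a ∈ vals S, Gam S a := by
    rw [sum_comm, mul_sum]
    apply sum_congr rfl
    intro a _
    unfold Gam
    field_simp
  rw [e1, e2] at h4
  have h6 := PhN_rec S
  have h7 : 0 ≤ ∑ a ∈ vals S, PhN (slice a S) := sum_nonneg (fun a _ => PhN_nonneg _)
  have h8 : (2 : ℝ) ^ n * ∑ a ∈ vals S, Gm S a univ ≤ 2 ^ n * (2 * PhN S) := by
    rw [h6]
    have h9 : 0 ≤ (2 : ℝ) ^ n * ∑ a ∈ vals S, PhN (slice a S) := mul_nonneg hK.le h7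
    linarith
  exact le_of_mul_le_mul_left h8 hK

/-- the discrepancy of pairs of slices is bounded by the information -/
theorem disc_le (S : Finset (Fin (n + 1) → ℤ)) (hS : S.Nonempty) :
    ∑ c ∈ vals S, ∑ a ∈ vals S, ((slice a S).card : ℝ) * oo S a c
      ≤ S.card * (2 * PhN S) := by
  have hN : (0 : ℝ) < S.card := by exact_mod_cast card_pos.mpr hS
  have hNS : (S.card : ℝ) = ∑ a ∈ vals S, ((slice a S).card : ℝ) := card_cast_eq_sum S
  have h3 : ∀ a ∈ vals S, ∀ y ∈ slice a S,
      1 - (slice a S).card * (((vals S).filter (fun b => y ∈ slice b S)).card : ℝ) / S.card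
      ≤ Real.log S.card - Real.log (slice a S).card - Real.log (FB univ S y)
        + Real.log (fc univ (slice a S) y) := by
    intro a ha y hy
    have a1 : (0 : ℝ) < (slice a S).card := by
      exact_mod_cast card_pos.mpr (slice_nonempty ha)
    have a2 : (0 : ℝ) < ((vals S).filter (fun b => y ∈ slice b S)).card := by
      exact_mod_cast card_pos.mpr ⟨a, mem_filter.mpr ⟨ha, hy⟩⟩
    have e1 : FB univ S y = ((vals S).filter (fun b => y ∈ slice b S)).card := by
      rw [← fc_last S a y, ← fc_mp S univ y a, mp_univ]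
    have e2 : fc univ (slice a S) y = 1 := by
      unfold fc
      rw [card_eq_one]
      refine ⟨y, ?_⟩
      ext z
      rw [mem_filter, mem_singleton]
      constructor
      · rintro ⟨_, h⟩
        funext i
        exact (h i (mem_univ i)).symm
      · rintro rfl
        exact ⟨hy, fun _ _ => rfl⟩
    rw [e1, e2, Nat.cast_one, Real.log_one, add_zero]
    have := Real.log_le_sub_one_of_pos (div_pos (mul_pos a1 a2) hN)
    rw [Real.log_div (mul_pos a1 a2).ne' hN.ne', Real.log_mul a1.ne' a2.ne'] at this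
    linarith
  have h4 := sum_le_sum (fun a ha => sum_le_sum (h3 a ha))
  have e3 : ∑ a ∈ vals S, ∑ y ∈ slice a S,
      (1 - (slice a S).card * (((vals S).filter (fun b => y ∈ slice b S)).card : ℝ) / S.card)
      = S.card - (∑ a ∈ vals S, ∑ b ∈ vals S,
        ((slice a S).card : ℝ) * (slice a S ∩ slice b S).card) / S.card := by
    rw [sum_div, eq_sub_iff_add_eq, ← sum_add_distrib]
    conv_rhs => rw [hNS]
    apply sum_congr rfl
    intro a _
    rw [sum_sub_distrib, sum_const, nsmul_eq_mul, mul_one, ← sum_div, ← mul_sum, sum_count,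
      ← mul_sum]
    ring
  rw [e3] at h4
  have h5 := h4.trans (info_le S)
  have e4 : ∑ c ∈ vals S, ∑ a ∈ vals S, ((slice a S).card : ℝ) * oo S a c
      = (S.card : ℝ) * S.card - ∑ a ∈ vals S, ∑ b ∈ vals S,
        ((slice a S).card : ℝ) * (slice a S ∩ slice b S).card := by
    rw [sum_comm, eq_sub_iff_add_eq, ← sum_add_distrib]
    have : ∀ a ∈ vals S, ∑ c ∈ vals S, ((slice a S).card : ℝ) * oo S a c
        + ∑ c ∈ vals S, ((slice a S).card : ℝ) * ((slice a S ∩ slice c S).card : ℝ)
        = (slice a S).card * S.card := by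
      intro a _
      rw [← sum_add_distrib]
      conv_rhs => rw [hNS, mul_sum]
      apply sum_congr rfl
      intro c _
      have := card_sdiff_add (slice c S) (slice a S)
      rw [inter_comm] at this
      unfold oo
      rw [← mul_add, this]
    rw [sum_congr rfl this, ← sum_mul, ← hNS]
  rw [e4]
  have h6 := mul_le_mul_of_nonneg_left h5 hN.le
  have e5 : (S.card : ℝ) * (S.card - (∑ a ∈ vals S, ∑ b ∈ vals S,
        ((slice a S).card : ℝ) * (slice a S ∩ slice b S).card) / S.card)
      = (S.card : ℝ) * S.card - ∑ a ∈ vals S, ∑ b ∈ vals S,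
        ((slice a S).card : ℝ) * (slice a S ∩ slice b S).card := by
    field_simp
  rw [e5] at h6
  exact h6

end Pool.Agent.H488R3.UC
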