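import Pool.Agent.H488R3.UC.BT5a

/-!
The rough statement: a set with a tiny averaged functional is roughly a box.
-/

namespace Pool.Agent.H488R3.UC

open Finset

variable {n : ℕ}

theorem e_up : Real.exp 1 - 1 ≤ 2 := by
  have := Real.exp_one_lt_d9; linarith

theorem e_lo : 1 / 2 ≤ 1 - Real.exp (-1) := by
  have h1 := Real.add_one_le_exp (1 : ℝ)
  have h2 : Real.exp 1 * Real.exp (-1) = 1 := by
    rw [← Real.exp_add]; norm_num
  have h3 := Real.exp_pos (-1)
  nlinarith

theorem out_bound (S : Finset (Fin (n + 1) → ℤ)) (hS : S.Nonempty) (β : ℤ) (hβ : β ∈ vals S)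
    (B : Fin n → Finset ℤ) (u κ : ℝ)
    (hu : ((slice β S \ Fintype.piFinset B).card : ℝ) ≤ u * (slice β S).card)
    (hG : Gam S β ≤ κ * (slice β S).card) :
    ((S.filter (fun x => ini x ∉ Fintype.piFinset B)).card : ℝ) ≤ 4 * (κ + u) * S.card := by
  classical
  have hN : (0 : ℝ) < S.card := by exact_mod_cast card_pos.mpr hS
  have hNβ : (0 : ℝ) < (slice β S).card := by exact_mod_cast card_pos.mpr (slice_nonempty hβ)
  have hK : (0 : ℝ) < 2 ^ n := by positivity
  set R := Fintype.piFinset B with hR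
  have h1 : ∀ C : Finset (Fin n), 1 / 2 * (((slice β S).card : ℝ) / S.card)
      * (S.filter (fun x => ∃ i ∈ bad B (ini x), i ∈ C)).card
      ≤ Gm S β C + u * (slice β S).card := by
    intro C
    have hE : ∀ y y' : Fin n → ℤ, Agr C y y' →
        ((∃ i ∈ bad B y, i ∈ C) ↔ (∃ i ∈ bad B y', i ∈ C)) := by
      intro y y' h
      constructor
      · rintro ⟨i, hi, hiC⟩
        refine ⟨i, ?_, hiC⟩
        rw [mem_bad] at hi ⊢
        rwa [← h i hiC]
      · rintro ⟨i, hi, hiC⟩
        refine ⟨i, ?_, hiC⟩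
        rw [mem_bad] at hi ⊢
        rwa [h i hiC]
    have h2 := dvG S hS β C (fun y => ∃ i ∈ bad B y, i ∈ C) hE (-1)
    have h3 : (((slice β S).filter (fun y => ∃ i ∈ bad B y, i ∈ C)).card : ℝ)
        ≤ u * (slice β S).card := by
      refine le_trans ?_ hu
      have : ((slice β S).filter (fun y => ∃ i ∈ bad B y, i ∈ C)).card
          ≤ (slice β S \ R).card := by
        apply card_le_card
        intro y hy
        obtain ⟨h4, i, hi, _⟩ := mem_filter.mp hy
        refine mem_sdiff.mpr ⟨h4, fun h5 => ?_⟩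
        exact mem_bad.mp hi (Fintype.mem_piFinset.mp h5 i)
      exact_mod_cast this
    set X : ℝ := ((S.filter (fun x => ∃ i ∈ bad B (ini x), i ∈ C)).card : ℝ) with hX
    have hX0 : 0 ≤ X := by rw [hX]; positivity
    have h4 : 1 / 2 * ((((slice β S).card : ℝ) / S.card) * X)
        ≤ (1 - Real.exp (-1)) * ((((slice β S).card : ℝ) / S.card) * X) :=
      mul_le_mul_of_nonneg_right e_lo (mul_nonneg (div_pos hNβ hN).le hX0)
    linarith
  have h2 := sum_le_sum (fun C (_ : C ∈ (univ : Finset (Finset (Fin n)))) => h1 C)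
  rw [← mul_sum, sum_add_distrib, sum_const, nsmul_eq_mul, card_all] at h2
  have h3 : 1 / 2 * 2 ^ n * ((S.filter (fun x => ini x ∉ R)).card : ℝ)
      ≤ ∑ C : Finset (Fin n),
        ((S.filter (fun x => ∃ i ∈ bad B (ini x), i ∈ C)).card : ℝ) := by
    have e1 : ∀ C : Finset (Fin n),
        ((S.filter (fun x => ∃ i ∈ bad B (ini x), i ∈ C)).card : ℝ)
        = ∑ x ∈ S, if ∃ i ∈ bad B (ini x), i ∈ C then (1 : ℝ) else 0 := by
      intro C
      rw [← sum_filter, sum_const, nsmul_eq_mul, mul_one]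
    simp only [e1]
    rw [sum_comm]
    have e2 : ∀ x ∈ S, ∑ C : Finset (Fin n),
        (if ∃ i ∈ bad B (ini x), i ∈ C then (1 : ℝ) else 0) = hit (bad B (ini x)) := by
      intro x _
      rw [← sum_filter, sum_const, nsmul_eq_mul, mul_one]; rfl
    rw [sum_congr rfl e2]
    have e3 : 1 / 2 * 2 ^ n * ((S.filter (fun x => ini x ∉ R)).card : ℝ)
        = ∑ _x ∈ S.filter (fun x => ini x ∉ R), ((1 : ℝ) / 2 * 2 ^ n) := by
      rw [sum_const, nsmul_eq_mul]; ring
    rw [e3]
    refine le_trans (sum_le_sum (g := fun x => (hit (bad B (ini x)) : ℝ)) ?_)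
      (sum_le_sum_of_subset_of_nonneg (filter_subset _ _) (fun _ _ _ => by positivity))
    intro x hx
    apply hit_one
    rw [nonempty_iff_ne_empty]
    intro h
    exact (mem_filter.mp hx).2 (bad_empty.mp h)
  have e4 : ∑ C : Finset (Fin n), Gm S β C = 2 ^ n * Gam S β := by
    unfold Gam; field_simp
  rw [e4] at h2
  set Y : ℝ := ((S.filter (fun x => ini x ∉ R)).card : ℝ) with hY
  set Nβ : ℝ := ((slice β S).card : ℝ) with hNβd
  set N : ℝ := (S.card : ℝ) with hNd
  have h5 : 1 / 2 * (Nβ / N) * (1 / 2 * 2 ^ n * Y) ≤ 2 ^ n * ((κ + u) * Nβ) := by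
    have h6 := mul_le_mul_of_nonneg_left h3 (show (0 : ℝ) ≤ 1 / 2 * (Nβ / N) by positivity)
    have h7 := mul_le_mul_of_nonneg_left hG hK.le
    linarith
  have h6 : 1 / 2 * (Nβ / N) * (1 / 2 * 2 ^ n * Y) = (2 ^ n * Nβ / N) * (Y / 4) := by ring
  have h7 : (2 : ℝ) ^ n * ((κ + u) * Nβ) = (2 ^ n * Nβ / N) * ((κ + u) * N) := by
    field_simp
  rw [h6, h7] at h5
  have h8 : (0 : ℝ) < 2 ^ n * Nβ / N := by positivity
  have h9 := le_of_mul_le_mul_left h5 h8
  linarith

/-- an event with many points of the box has many points of the set -/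
theorem event_bound (S : Finset (Fin (n + 1) → ℤ)) (hS : S.Nonempty) (β : ℤ)
    (hβ : β ∈ vals S) (R : Finset (Fin n → ℤ)) (C : Finset (Fin n)) (u κ m : ℝ)
    (hu : ((R \ slice β S).card : ℝ) ≤ u * (slice β S).card)
    (hG : Gm S β C ≤ κ * (slice β S).card)
    (E : (Fin n → ℤ) → Prop) [DecidablePred E] (hE : ∀ y y', Agr C y y' → (E y ↔ E y'))
    (hm : m / 2 ≤ (R.filter E).card) (h4 : 4 * (u + κ) * (slice β S).card ≤ m) :
    S.card * m ≤ 8 * (slice β S).card * (S.filter (fun x => E (ini x))).card := by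
  classical
  have hN : (0 : ℝ) < S.card := by exact_mod_cast card_pos.mpr hS
  have hNβ : (0 : ℝ) < (slice β S).card := by exact_mod_cast card_pos.mpr (slice_nonempty hβ)
  have h1 := dvG S hS β C E hE 1
  have h2 : (R.filter E).card ≤ ((slice β S).filter E).card + (R \ slice β S).card := by
    rw [← card_filter_add_card_filter_not (s := R.filter E) (fun y => y ∈ slice β S)]
    apply add_le_add
    · apply card_le_card
      intro y hy
      obtain ⟨h3, h5⟩ := mem_filter.mp hy
      exact mem_filter.mpr ⟨h5, (mem_filter.mp h3).2⟩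
    · apply card_le_card
      intro y hy
      obtain ⟨h3, h5⟩ := mem_filter.mp hy
      exact mem_sdiff.mpr ⟨(mem_filter.mp h3).1, h5⟩
  have h3 : ((R.filter E).card : ℝ) ≤ ((slice β S).filter E).card + (R \ slice β S).card := by
    exact_mod_cast h2
  set X : ℝ := ((S.filter (fun x => E (ini x))).card : ℝ) with hX
  have hX0 : 0 ≤ X := by rw [hX]; positivity
  set Nβ : ℝ := ((slice β S).card : ℝ) with hNβd
  set N : ℝ := (S.card : ℝ) with hNd
  have h5 : (Real.exp 1 - 1) * (Nβ / N * X) ≤ 2 * (Nβ / N * X) :=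
    mul_le_mul_of_nonneg_right e_up (by positivity)
  have h6 : m / 4 ≤ 2 * (Nβ / N * X) := by linarith
  have h7 : m / 4 * N ≤ 2 * (Nβ / N * X) * N := mul_le_mul_of_nonneg_right h6 hN.le
  have h8 : 2 * (Nβ / N * X) * N = 2 * Nβ * X := by field_simp
  rw [h8] at h7
  linarith

theorem miss_bound (S : Finset (Fin (n + 1) → ℤ)) (hS : S.Nonempty) (β : ℤ)
    (hβ : β ∈ vals S) (B : Fin n → Finset ℤ) (hBne : (Fintype.piFinset B).Nonempty)
    (C : Finset (Fin n)) (Q : Finset (Fin n → ℤ)) (u κ η : ℝ)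
    (hu : ((Fintype.piFinset B \ slice β S).card : ℝ) ≤ u * (slice β S).card)
    (hG : Gm S β C ≤ κ * (slice β S).card) (hG' : Gm S β Cᶜ ≤ κ * (slice β S).card)
    (hI : IAN S (mp C) ≤ κ * S.card)
    (hO : ((S.filter (fun x => ini x ∉ Q)).card : ℝ) ≤ η * S.card)
    (hn1 : 4 * (u + κ) ≤ 1 / 1500) (hn2 : 2 * (κ + η) < 1 / 144000000) :
    1500 * ((Fintype.piFinset B \ Q).card : ℝ) < (slice β S).card := by
  classical
  by_contra hcon
  have hcon' := not_lt.mp hcon
  have hN : (0 : ℝ) < S.card := by exact_mod_cast card_pos.mpr hS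
  have hNβ : (0 : ℝ) < (slice β S).card := by exact_mod_cast card_pos.mpr (slice_nonempty hβ)
  set R := Fintype.piFinset B with hR
  have hRc : (0 : ℝ) < R.card := by exact_mod_cast card_pos.mpr hBne
  set M := R \ Q with hM
  have hMR : M ⊆ R := sdiff_subset
  set m : ℝ := (M.card : ℝ) with hm
  have hm4 : 4 * (u + κ) * (slice β S).card ≤ m := by
    have h1 : 4 * (u + κ) * ((slice β S).card : ℝ) ≤ 1 / 1500 * (slice β S).card :=
      mul_le_mul_of_nonneg_right hn1 hNβ.le
    linarith
  -- the heavy patterns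
  set w : (Fin n → ℤ) → ℝ := fun x => ∑ y ∈ R, ind M (cr C x y) with hw
  have hwc : ∀ x x', Agr C x x' → w x = w x' := by
    intro x x' h
    simp only [hw]
    apply sum_congr rfl
    intro y _
    have : cr C x y = cr C x' y := by
      funext i
      unfold cr
      split_ifs with hi
      · exact h i hi
      · rfl
    rw [this]
  have hwR : ∀ x, w x ≤ R.card := by
    intro x
    simp only [hw]
    have : ∀ y ∈ R, ind M (cr C x y) ≤ 1 := by
      intro y _; unfold ind; split_ifs <;> norm_num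
    refine (sum_le_sum this).trans ?_
    rw [sum_const, nsmul_eq_mul, mul_one]
  have hsumw : ∑ x ∈ R, w x = R.card * m := by
    simp only [hw]
    rw [hR, sum_cr B C (ind M), ← hR]
    congr 1
    exact s1_ind B M hMR
  have hE1 : m / 2 ≤ (R.filter (fun x => m / 2 ≤ w x)).card := by
    have h1 : ∑ x ∈ R, w x ≤ ((R.filter (fun x => m / 2 ≤ w x)).card : ℝ) * R.card
        + R.card * (m / 2) := by
      rw [← sum_filter_add_sum_filter_not R (fun x => m / 2 ≤ w x)]
      apply add_le_add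
      · refine (sum_le_sum (fun x _ => hwR x)).trans ?_
        rw [sum_const, nsmul_eq_mul]
      · have h2 : ∀ x ∈ R.filter (fun x => ¬ m / 2 ≤ w x), w x ≤ m / 2 := fun x hx =>
          (not_le.mp (mem_filter.mp hx).2).le
        refine (sum_le_sum h2).trans ?_
        rw [sum_const, nsmul_eq_mul]
        apply mul_le_mul_of_nonneg_right _ (by positivity)
        exact_mod_cast card_le_card (filter_subset _ _)
    rw [hsumw] at h1
    have h2 : (R.card : ℝ) * (m / 2)
        ≤ R.card * ((R.filter (fun x => m / 2 ≤ w x)).card : ℝ) := by linarith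
    exact le_of_mul_le_mul_left h2 hRc
  have hX := event_bound S hS β hβ R C u κ m hu hG (fun x => m / 2 ≤ w x)
    (fun y y' h => by rw [hwc y y' h]) hE1 hm4
  set X : ℝ := ((S.filter (fun x => m / 2 ≤ w (ini x))).card : ℝ) with hXd
  have hY : ∀ x ∈ S.filter (fun x => m / 2 ≤ w (ini x)),
      S.card * m ≤ 8 * (slice β S).card
        * ((S.filter (fun y => cr C (ini x) (ini y) ∈ M)).card : ℝ) := by
    intro x hx
    have hx' := (mem_filter.mp hx).2
    refine event_bound S hS β hβ R Cᶜ u κ m hu hG' (fun y => cr C (ini x) y ∈ M)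
      (fun y y' h => ?_) ?_ hm4
    · have : cr C (ini x) y = cr C (ini x) y' := by
        funext i
        unfold cr
        split_ifs with hi
        · rfl
        · exact h i (by simpa using hi)
      rw [this]
    · refine hx'.trans (le_of_eq ?_)
      simp only [hw, ind]
      rw [← sum_filter, sum_const, nsmul_eq_mul, mul_one]
  -- the pairs
  set O := S.filter (fun x => ini x ∉ Q) with hOd
  have hpairs : ∑ x ∈ S.filter (fun x => m / 2 ≤ w (ini x)),
      ((S.filter (fun y => cr C (ini x) (ini y) ∈ M)).card : ℝ)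
      ≤ (qc S (mp C) O : ℝ) + nc S (mp C) := by
    have h1 : ∑ x ∈ S.filter (fun x => m / 2 ≤ w (ini x)),
        ((S.filter (fun y => cr C (ini x) (ini y) ∈ M)).card : ℝ)
        ≤ ∑ x ∈ S, ((S.filter (fun y => cr C (ini x) (ini y) ∈ M)).card : ℝ) :=
      sum_le_sum_of_subset_of_nonneg (filter_subset _ _) (fun _ _ _ => by positivity)
    refine h1.trans ?_
    have h2 : ∑ x ∈ S, ((S.filter (fun y => cr C (ini x) (ini y) ∈ M)).card : ℝ)
        = (((S ×ˢ S).filter (fun p => cr C (ini p.1) (ini p.2) ∈ M)).card : ℝ) := by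
      rw [dsum]
      apply sum_congr rfl
      intro x _
      rw [← sum_filter, sum_const, nsmul_eq_mul, mul_one]
    rw [h2]
    unfold qc nc
    have h3 : ((S ×ˢ S).filter (fun p => cr C (ini p.1) (ini p.2) ∈ M)).card
        ≤ ((S ×ˢ S).filter (fun p => cr (mp C) p.1 p.2 ∈ O)).card
          + ((S ×ˢ S).filter (fun p => cr (mp C) p.1 p.2 ∉ S)).card := by
      refine (card_le_card ?_).trans (card_union_le _ _)
      intro p hp
      obtain ⟨h4, h5⟩ := mem_filter.mp hp
      have h6 : ini (cr (mp C) p.1 p.2) = cr C (ini p.1) (ini p.2) := by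
        funext i
        simp only [ini, cr, castSucc_mem_mp]
      by_cases h7 : cr (mp C) p.1 p.2 ∈ S
      · apply mem_union_left
        exact mem_filter.mpr ⟨h4, mem_filter.mpr ⟨h7, by rw [h6]; exact (mem_sdiff.mp h5).2⟩⟩
      · apply mem_union_right
        exact mem_filter.mpr ⟨h4, h7⟩
    exact_mod_cast h3
  have hdv := dv S hS (mp C) O (filter_subset _ _) (-1)
  have hlow := sum_le_sum hY
  rw [sum_const, nsmul_eq_mul, ← mul_sum] at hlow
  set N : ℝ := (S.card : ℝ) with hNd
  set Nβ : ℝ := ((slice β S).card : ℝ) with hNβd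
  set qn : ℝ := (qc S (mp C) O : ℝ) + nc S (mp C) with hqn
  have hq0 : (0 : ℝ) ≤ qc S (mp C) O := by positivity
  have hn0 : (0 : ℝ) ≤ nc S (mp C) := by positivity
  -- upper bound of the pairs
  have hqup : qn ≤ 2 * (κ + η) * N ^ 2 := by
    have h1 : 1 / 2 * ((qc S (mp C) O : ℝ) / N) ≤ (1 - Real.exp (-1)) * (qc S (mp C) O / N) :=
      mul_le_mul_of_nonneg_right e_lo (div_nonneg hq0 hN.le)
    have h2 : (nc S (mp C) : ℝ) / N ≥ 0 := div_nonneg hn0 hN.le
    have h3 : -(1 : ℝ) * O.card - (Real.exp (-1) - 1) * qc S (mp C) O / N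
        = -(O.card : ℝ) + (1 - Real.exp (-1)) * (qc S (mp C) O / N) := by ring
    rw [h3] at hdv
    have h4 : qn / N ≤ 2 * (κ + η) * N := by
      rw [hqn, add_div]; linarith
    have h5 := mul_le_mul_of_nonneg_right h4 hN.le
    have h6 : qn / N * N = qn := by field_simp
    rw [h6] at h5
    linarith
  have hXlow : N * (Nβ / 1500) ≤ 8 * Nβ * X := by
    refine le_trans ?_ hX
    apply mul_le_mul_of_nonneg_left _ hN.le
    linarith
  have hX2 : N / 12000 ≤ X := by
    have h1 : Nβ * (N / 12000) ≤ Nβ * X := by linarith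
    exact le_of_mul_le_mul_left h1 hNβ
  have hq2 : X * (N * (Nβ / 1500)) ≤ 8 * Nβ * qn := by
    have h1 : X * (N * (Nβ / 1500)) ≤ X * (N * m) := by
      apply mul_le_mul_of_nonneg_left _ (by rw [hXd]; positivity)
      apply mul_le_mul_of_nonneg_left _ hN.le
      linarith
    have h2 : 8 * Nβ * ∑ x ∈ S.filter (fun x => m / 2 ≤ w (ini x)),
        ((S.filter (fun y => cr C (ini x) (ini y) ∈ M)).card : ℝ) ≤ 8 * Nβ * qn :=
      mul_le_mul_of_nonneg_left hpairs (by positivity)
    linarith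
  have hq3 : X * (N / 12000) ≤ qn := by
    have h1 : Nβ * (X * (N / 12000)) ≤ Nβ * qn := by linarith
    exact le_of_mul_le_mul_left h1 hNβ
  have hq4 : N / 12000 * (N / 12000) ≤ qn :=
    (mul_le_mul_of_nonneg_right hX2 (by positivity)).trans hq3
  have hN2 : 0 < N ^ 2 := by positivity
  have h5 : 2 * (κ + η) * N ^ 2 < 1 / 144000000 * N ^ 2 := mul_lt_mul_of_pos_right hn2 hN2
  have h6 : N / 12000 * (N / 12000) = 1 / 144000000 * N ^ 2 := by ring
  linarith

end Pool.Agent.H488R3.UC
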