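import Pool.Agent.H488R3.UC.BT5b

/-!
A finite set is close to a box in terms of the mutual information of its two parts, averaged
over all bipartitions of the coordinates.
-/

namespace Pool.Agent.H488R3.UC

open Finset

variable {n : ℕ}

theorem finish (S : Finset (Fin n → ℤ)) (hS : S.Nonempty) (B0 : Fin n → Finset ℤ)
    (h : 200 * ((symmDiff S (Fintype.piFinset B0)).card : ℝ) ≤ S.card) :
    ∃ B : Fin n → Finset ℤ, (∀ i, (B i).Nonempty) ∧
      ((symmDiff S (Fintype.piFinset B)).card : ℝ) ≤ 11000 * PhN S := by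
  classical
  have hN0 : (0 : ℝ) < S.card := by exact_mod_cast card_pos.mpr hS
  obtain ⟨B, hB⟩ := exists_opt S
  have h1 : ((symmDiff S (Fintype.piFinset B)).card : ℝ)
      ≤ (symmDiff S (Fintype.piFinset B0)).card := by exact_mod_cast hB B0
  have h2 := card_symmDiff_eq S (Fintype.piFinset B)
  have h3 : ((S \ Fintype.piFinset B).card : ℝ) + (S ∩ Fintype.piFinset B).card = S.card :=
    card_sdiff_add _ _
  have h4 : ((Fintype.piFinset B \ S).card : ℝ) + (Fintype.piFinset B ∩ S).card
      = (Fintype.piFinset B).card := card_sdiff_add _ _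
  rw [inter_comm] at h4
  have h5 : (0 : ℝ) ≤ (S \ Fintype.piFinset B).card := by positivity
  have h6 : (0 : ℝ) ≤ (Fintype.piFinset B \ S).card := by positivity
  have h7 : (0 : ℝ) < (Fintype.piFinset B).card := by linarith
  have hne : ∀ i, (B i).Nonempty := by
    have : 0 < (Fintype.piFinset B).card := by exact_mod_cast h7
    exact Fintype.piFinset_nonempty.mp (card_pos.mp this)
  exact ⟨B, hne, boot S hS B hB hne (by linarith) (by linarith)⟩

theorem sum_slice_out (S : Finset (Fin (n + 1) → ℤ)) (R : Finset (Fin n → ℤ)) :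
    ∑ c ∈ vals S, ((slice c S \ R).card : ℝ)
      = ((S.filter (fun x => ini x ∉ R)).card : ℝ) := by
  classical
  have h1 : ((S.filter (fun x => ini x ∉ R)).card : ℝ)
      = ∑ x ∈ S, if ini x ∉ R then (1 : ℝ) else 0 := by
    rw [← sum_filter, sum_const, nsmul_eq_mul, mul_one]
  rw [h1, sum_slices]
  apply sum_congr rfl
  intro c _
  simp only [ini_app]
  rw [← sum_filter, sum_const, nsmul_eq_mul, mul_one, sdiff_eq_filter]

theorem rough_step
    (ih : ∀ T : Finset (Fin n → ℤ), T.Nonempty → PhN T ≤ 1 / 10 ^ 13 * T.card →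
      ∃ B : Fin n → Finset ℤ, (∀ i, (B i).Nonempty) ∧
        ((symmDiff T (Fintype.piFinset B)).card : ℝ) ≤ 11000 * PhN T)
    (S : Finset (Fin (n + 1) → ℤ)) (hS : S.Nonempty)
    (hΦ : PhN S ≤ 1 / 10 ^ 13 * S.card) :
    ∃ B : Fin (n + 1) → Finset ℤ,
      200 * ((symmDiff S (Fintype.piFinset B)).card : ℝ) ≤ S.card := by
  classical
  set κ : ℝ := 1 / 10 ^ 13 with hκ
  have hκ0 : 0 < κ := by rw [hκ]; positivity
  set u : ℝ := 11000 * κ with hu
  clear_value u κ
  have hN0 : (0 : ℝ) < S.card := by exact_mod_cast card_pos.mpr hS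
  have hNS : (S.card : ℝ) = ∑ a ∈ vals S, ((slice a S).card : ℝ) := card_cast_eq_sum S
  have hNpos : ∀ a ∈ vals S, (0 : ℝ) < (slice a S).card := fun a ha => by
    exact_mod_cast card_pos.mpr (slice_nonempty ha)
  -- a good slice
  obtain ⟨β, hβ, hβ1⟩ : ∃ β ∈ vals S,
      PhN (slice β S) + Gam S β ≤ κ * ((slice β S).card : ℝ) := by
    apply exists_le_of_sum_le (vals_nonempty hS)
    rw [sum_add_distrib, ← PhN_rec, ← mul_sum, ← hNS]
    exact hΦ
  have hNβ := hNpos β hβ
  have hG0 := Gam_nonneg S hS β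
  have hP0 := PhN_nonneg (slice β S)
  have hGβ : Gam S β ≤ κ * ((slice β S).card : ℝ) := by linarith
  obtain ⟨B, hBne, hB⟩ := ih (slice β S) (slice_nonempty hβ) (by linarith)
  set R := Fintype.piFinset B with hR
  have hRne : R.Nonempty := Fintype.piFinset_nonempty.mpr hBne
  have hBu : ((symmDiff (slice β S) R).card : ℝ) ≤ u * (slice β S).card := by
    rw [hu]; linarith
  rw [card_symmDiff_eq] at hBu
  have hp1 : (0 : ℝ) ≤ (slice β S \ R).card := by positivity
  have hp2 : (0 : ℝ) ≤ (R \ slice β S).card := by positivity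
  have hu1 : ((slice β S \ R).card : ℝ) ≤ u * (slice β S).card := by linarith
  have hu2 : ((R \ slice β S).card : ℝ) ≤ u * (slice β S).card := by linarith
  have hout := out_bound S hS β hβ B u κ hu1 hGβ
  rw [← hR] at hout
  -- a typical slice
  have hdisc := disc_le S hS
  have hdisc' : ∑ c ∈ vals S, ∑ a ∈ vals S, ((slice c S).card : ℝ) * oo S c a
      = ∑ c ∈ vals S, ∑ a ∈ vals S, ((slice a S).card : ℝ) * oo S a c := sum_comm
  obtain ⟨c, hc, hc1⟩ : ∃ c ∈ vals S,
      4 * ∑ a ∈ vals S, ((slice a S).card : ℝ) * oo S a c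
        + 2 * ∑ a ∈ vals S, ((slice c S).card : ℝ) * oo S c a
        + S.card * ((slice c S \ R).card : ℝ)
      ≤ ((slice c S).card : ℝ) * ((16 * κ + 4 * u) * S.card) := by
    apply exists_le_of_sum_le (vals_nonempty hS)
    rw [sum_add_distrib, sum_add_distrib, ← mul_sum, ← mul_sum, ← mul_sum, hdisc',
      sum_slice_out, ← sum_mul, ← hNS]
    have h1 := mul_le_mul_of_nonneg_left hout hN0.le
    have h2 : (S.card : ℝ) * (2 * PhN S) ≤ S.card * (2 * (κ * S.card)) := by
      apply mul_le_mul_of_nonneg_left _ hN0.le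
      linarith
    linarith
  have hNc := hNpos c hc
  have hs1 : 0 ≤ ∑ a ∈ vals S, ((slice a S).card : ℝ) * oo S a c :=
    sum_nonneg (fun a _ => mul_nonneg (by positivity) (oo_nonneg S a c))
  have hs2 : 0 ≤ ∑ a ∈ vals S, ((slice c S).card : ℝ) * oo S c a :=
    sum_nonneg (fun a _ => mul_nonneg (by positivity) (oo_nonneg S c a))
  have hs3 : (0 : ℝ) ≤ S.card * ((slice c S \ R).card : ℝ) := by positivity
  have hcR : ((slice c S \ R).card : ℝ) ≤ (16 * κ + 4 * u) * (slice c S).card := by
    have h1 : (S.card : ℝ) * ((slice c S \ R).card : ℝ)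
        ≤ S.card * ((16 * κ + 4 * u) * (slice c S).card) := by linarith
    exact le_of_mul_le_mul_left h1 hN0
  have hOc : ((S.filter (fun x => ini x ∉ slice c S)).card : ℝ)
      ≤ (8 * κ + 2 * u) * S.card := by
    rw [← sum_slice_out]
    have h1 : ((slice c S).card : ℝ) * ∑ a ∈ vals S, ((slice a S \ slice c S).card : ℝ)
        ≤ (slice c S).card * ((8 * κ + 2 * u) * S.card) := by
      rw [mul_sum]
      have h2 : ∑ a ∈ vals S, ((slice c S).card : ℝ) * ((slice a S \ slice c S).card : ℝ)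
          = ∑ a ∈ vals S, ((slice c S).card : ℝ) * oo S c a := rfl
      rw [h2]
      linarith
    exact le_of_mul_le_mul_left h1 hNc
  -- a good bipartition
  obtain ⟨C, _, hC⟩ : ∃ C ∈ (univ : Finset (Finset (Fin n))),
      Gm S β C / (slice β S).card + Gm S β Cᶜ / (slice β S).card + IAN S (mp C) / S.card
      ≤ 3 * κ := by
    apply exists_le_of_sum_le univ_nonempty
    rw [sum_add_distrib, sum_add_distrib, ← sum_div, ← sum_div, ← sum_div, sum_const,
      nsmul_eq_mul, card_all]
    have h1 : ∑ C : Finset (Fin n), Gm S β Cᶜ = ∑ C : Finset (Fin n), Gm S β C :=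
      Fintype.sum_bijective compl compl_bijective _ _ (fun A => rfl)
    have hK : (0 : ℝ) < 2 ^ n := by positivity
    have h2 : ∑ C : Finset (Fin n), Gm S β C = 2 ^ n * Gam S β := by
      unfold Gam; field_simp
    have h3 : ∑ C : Finset (Fin n), IAN S (mp C) = 2 ^ n * PhN S := by
      rw [PhN_eq]; field_simp
    rw [h1, h2, h3]
    have h4 : 2 ^ n * Gam S β / (slice β S).card ≤ 2 ^ n * κ := by
      rw [div_le_iff₀ hNβ, mul_assoc]
      exact mul_le_mul_of_nonneg_left hGβ hK.le
    have h5 : 2 ^ n * PhN S / S.card ≤ 2 ^ n * κ := by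
      rw [div_le_iff₀ hN0, mul_assoc]
      exact mul_le_mul_of_nonneg_left hΦ hK.le
    linarith
  have hg1 := Gm_nonneg S hS β C
  have hg2 := Gm_nonneg S hS β Cᶜ
  have hg3 := IAN_nonneg S (mp C)
  have hd1 : 0 ≤ Gm S β C / (slice β S).card := div_nonneg hg1 hNβ.le
  have hd2 : 0 ≤ Gm S β Cᶜ / (slice β S).card := div_nonneg hg2 hNβ.le
  have hd3 : 0 ≤ IAN S (mp C) / S.card := div_nonneg hg3 hN0.le
  have hC1 : Gm S β C ≤ 3 * κ * (slice β S).card := by
    rw [← div_le_iff₀ hNβ]; linarith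
  have hC2 : Gm S β Cᶜ ≤ 3 * κ * (slice β S).card := by
    rw [← div_le_iff₀ hNβ]; linarith
  have hC3 : IAN S (mp C) ≤ 3 * κ * S.card := by
    rw [← div_le_iff₀ hN0]; linarith
  have hmiss := miss_bound S hS β hβ B (by rw [← hR]; exact hRne) C (slice c S) u (3 * κ)
    (8 * κ + 2 * u) hu2 hC1 hC2 hC3 hOc (by rw [hu, hκ]; norm_num) (by rw [hu, hκ]; norm_num)
  rw [← hR] at hmiss
  -- sizes
  have hβc : ((slice β S).card : ℝ) ≤ 101 / 100 * (slice c S).card := by
    have h1 : ((slice β S \ R).card : ℝ) + (slice β S ∩ R).card = (slice β S).card :=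
      card_sdiff_add _ _
    have h2 : ((R \ slice c S).card : ℝ) + (R ∩ slice c S).card = R.card :=
      card_sdiff_add _ _
    have h3 : ((slice β S ∩ R).card : ℝ) ≤ R.card := by
      exact_mod_cast card_le_card inter_subset_right
    have h4 : ((R ∩ slice c S).card : ℝ) ≤ (slice c S).card := by
      exact_mod_cast card_le_card inter_subset_right
    have h5 : u * ((slice β S).card : ℝ) ≤ 1 / 1000 * (slice β S).card := by
      apply mul_le_mul_of_nonneg_right _ hNβ.le
      rw [hu, hκ]; norm_num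
    linarith
  have hq : ((symmDiff (slice c S) R).card : ℝ) ≤ 1 / 1000 * (slice c S).card := by
    rw [card_symmDiff_eq]
    have h1 : (16 * κ + 4 * u) * ((slice c S).card : ℝ) ≤ 1 / 100000 * (slice c S).card := by
      apply mul_le_mul_of_nonneg_right _ hNc.le
      rw [hu, hκ]; norm_num
    linarith
  obtain ⟨B', hB'⟩ := step_at S c hc B (1 / 1000 * (slice c S).card)
    (by rw [← hR]; exact hq) (by linarith)
  refine ⟨B', ?_⟩
  have h1 : (16 * κ + 4 * u) * S.card ≤ 1 / 1000 * (S.card : ℝ) := by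
    apply mul_le_mul_of_nonneg_right _ hN0.le
    rw [hu, hκ]; norm_num
  have h2 := mul_le_mul_of_nonneg_left h1 hNc.le
  have h3 : ((slice c S).card : ℝ) * (200 * (symmDiff S (Fintype.piFinset B')).card)
      ≤ (slice c S).card * S.card := by
    have h4 : (0 : ℝ) ≤ (slice c S).card * S.card := by positivity
    linarith
  exact le_of_mul_le_mul_left h3 hNc

theorem fine : ∀ (n : ℕ) (S : Finset (Fin n → ℤ)), S.Nonempty →
    PhN S ≤ 1 / 10 ^ 13 * S.card →
    ∃ B : Fin n → Finset ℤ, (∀ i, (B i).Nonempty) ∧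
      ((symmDiff S (Fintype.piFinset B)).card : ℝ) ≤ 11000 * PhN S := by
  intro n
  induction n with
  | zero =>
    intro S hS _
    refine ⟨fun _ => ∅, fun i => i.elim0, ?_⟩
    have hSu : S = Fintype.piFinset (fun _ : Fin 0 => (∅ : Finset ℤ)) := by
      obtain ⟨x, hx⟩ := hS
      ext y
      have : y = x := Subsingleton.elim _ _
      subst this
      exact ⟨fun _ => Fintype.mem_piFinset.mpr (fun i => i.elim0), fun _ => hx⟩
    rw [← hSu]
    have := PhN_nonneg S
    simp only [symmDiff_self, bot_eq_empty, card_empty, Nat.cast_zero]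
    linarith
  | succ n ih =>
    intro S hS hΦ
    obtain ⟨B, hB⟩ := rough_step ih S hS hΦ
    exact finish S hS B hB

/-- the box theorem for the averaged functional -/
theorem btl (n : ℕ) (S : Finset (Fin n → ℤ)) (hS : S.Nonempty) :
    ∃ B : Fin n → Finset ℤ,
      ((symmDiff S (Fintype.piFinset B)).card : ℝ) ≤ 10 ^ 13 * PhN S := by
  classical
  have hP0 := PhN_nonneg S
  rcases le_or_gt (PhN S) (1 / 10 ^ 13 * S.card) with h | h
  · obtain ⟨B, _, hB⟩ := fine n S hS h
    refine ⟨B, hB.trans ?_⟩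
    have : (11000 : ℝ) ≤ 10 ^ 13 := by norm_num
    exact mul_le_mul_of_nonneg_right this hP0
  · rcases Nat.eq_zero_or_pos n with hn | hn
    · subst hn
      refine ⟨fun _ => ∅, ?_⟩
      have hSu : S = Fintype.piFinset (fun _ : Fin 0 => (∅ : Finset ℤ)) := by
        obtain ⟨x, hx⟩ := hS
        ext y
        have : y = x := Subsingleton.elim _ _
        subst this
        exact ⟨fun _ => Fintype.mem_piFinset.mpr (fun i => i.elim0), fun _ => hx⟩
      rw [← hSu]
      simp only [symmDiff_self, bot_eq_empty, card_empty, Nat.cast_zero]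
      positivity
    · have : Nonempty (Fin n) := ⟨⟨0, hn⟩⟩
      refine ⟨fun _ => ∅, ?_⟩
      rw [Fintype.piFinset_empty, ← bot_eq_empty, symmDiff_bot]
      have h1 : (10 : ℝ) ^ 13 * (1 / 10 ^ 13 * S.card) = S.card := by
        field_simp
      rw [← h1]
      exact mul_le_mul_of_nonneg_left h.le (by positivity)

end Pool.Agent.H488R3.UC
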