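import Pool.Agent.H488R3.UC.BT5c

/-!
For a family of sets which is invariant under all permutations of the coordinates, the
deficit in the uniform cover inequality dominates the mutual information of the two parts,
averaged over all bipartitions.
-/

namespace Pool.Agent.H488R3.UC

open Finset

variable {d : ℕ}

theorem chord_up (e : ℕ → ℝ) (d : ℕ) (h0 : e 0 = 0)
    (hc : ∀ k, k + 2 ≤ d → e (k + 2) + e k ≤ 2 * e (k + 1)) :
    ∀ j, j + 1 ≤ d → (j : ℝ) * e (j + 1) ≤ (j + 1) * e j := by
  intro j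
  induction j with
  | zero => intro _; simp [h0]
  | succ j ih =>
    intro hj
    have h1 := ih (by omega)
    have h2 := hc j (by omega)
    push_cast
    have hj0 : (0 : ℝ) ≤ (j : ℝ) + 1 := by positivity
    have h3 := mul_le_mul_of_nonneg_left h2 hj0
    nlinarith

theorem chord_ge (e : ℕ → ℝ) (d : ℕ) (h0 : e 0 = 0)
    (hc : ∀ k, k + 2 ≤ d → e (k + 2) + e k ≤ 2 * e (k + 1)) (k : ℕ) (hk : 1 ≤ k) :
    ∀ i, k + i ≤ d → (k : ℝ) * e (k + i) ≤ ((k + i : ℕ) : ℝ) * e k := by
  intro i
  induction i with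
  | zero => intro _; simp
  | succ i ih =>
    intro hi
    have h1 := ih (by omega)
    have h2 := chord_up e d h0 hc (k + i) (by omega)
    have hki : (0 : ℝ) < ((k + i : ℕ) : ℝ) := by
      have : 0 < k + i := by omega
      exact_mod_cast this
    have hk0 : (0 : ℝ) ≤ (k : ℝ) := by positivity
    have h3 := mul_le_mul_of_nonneg_left h2 hk0
    have hki1 : (0 : ℝ) ≤ ((k + i : ℕ) : ℝ) + 1 := by linarith
    have h4 := mul_le_mul_of_nonneg_left h1 hki1
    have h5 : ((k + i : ℕ) : ℝ) * ((k : ℝ) * e (k + (i + 1)))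
        ≤ ((k + i : ℕ) : ℝ) * (((k + (i + 1) : ℕ) : ℝ) * e k) := by
      have e1 : ((k + (i + 1) : ℕ) : ℝ) = ((k + i : ℕ) : ℝ) + 1 := by push_cast; ring
      rw [e1]
      have e2 : k + (i + 1) = k + i + 1 := by ring
      rw [e2]
      calc ((k + i : ℕ) : ℝ) * ((k : ℝ) * e (k + i + 1))
          = (k : ℝ) * (((k + i : ℕ) : ℝ) * e (k + i + 1)) := by ring
        _ ≤ (k : ℝ) * ((((k + i : ℕ) : ℝ) + 1) * e (k + i)) := h3
        _ = (((k + i : ℕ) : ℝ) + 1) * ((k : ℝ) * e (k + i)) := by ring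
        _ ≤ (((k + i : ℕ) : ℝ) + 1) * (((k + i : ℕ) : ℝ) * e k) := h4
        _ = ((k + i : ℕ) : ℝ) * ((((k + i : ℕ) : ℝ) + 1) * e k) := by ring
    exact le_of_mul_le_mul_left h5 hki

theorem chord (e : ℕ → ℝ) (d : ℕ) (h0 : e 0 = 0) (hd : e d = 0)
    (hc : ∀ k, k + 2 ≤ d → e (k + 2) + e k ≤ 2 * e (k + 1)) (k j : ℕ) (hk : k ≤ d)
    (hj : j ≤ d) :
    0 ≤ e k ∧ (k : ℝ) * (d - k) * e j ≤ (j * (d - k) + (d - j) * k) * e k := by
  have hnn : ∀ k, k ≤ d → 0 ≤ e k := by
    intro k hk
    rcases Nat.eq_zero_or_pos k with h | h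
    · rw [h, h0]
    · obtain ⟨i, rfl⟩ := Nat.exists_eq_add_of_le hk
      have := chord_ge e (k + i) h0 hc k h i le_rfl
      rw [hd, mul_zero] at this
      have hpos : (0 : ℝ) < ((k + i : ℕ) : ℝ) := by
        have : 0 < k + i := by omega
        exact_mod_cast this
      exact nonneg_of_mul_nonneg_right this hpos
  refine ⟨hnn k hk, ?_⟩
  have hkR : (k : ℝ) ≤ d := by exact_mod_cast hk
  have hjR : (j : ℝ) ≤ d := by exact_mod_cast hj
  have hk0 : (0 : ℝ) ≤ k := by positivity
  have hj0 : (0 : ℝ) ≤ j := by positivity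
  have ek := hnn k hk
  rcases Nat.eq_zero_or_pos k with h | h
  · subst h
    simp only [Nat.cast_zero, zero_mul, sub_zero, mul_zero, add_zero, h0]
    exact le_refl _
  rcases Nat.lt_or_ge k d with hkd | hkd
  swap
  · have : k = d := le_antisymm hk hkd
    subst this
    rw [hd]; simp
  rcases le_total k j with hkj | hkj
  · obtain ⟨i, rfl⟩ := Nat.exists_eq_add_of_le hkj
    have h1 := chord_ge e d h0 hc k h i hj
    have h2 := mul_le_mul_of_nonneg_left h1 (sub_nonneg.mpr hkR)
    have h3 : 0 ≤ ((d : ℝ) - ((k + i : ℕ) : ℝ)) * k * e k :=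
      mul_nonneg (mul_nonneg (sub_nonneg.mpr hjR) hk0) ek
    nlinarith
  · -- reflect
    have hc' : ∀ l, l + 2 ≤ d → e (d - (l + 2)) + e (d - l) ≤ 2 * e (d - (l + 1)) := by
      intro l hl
      have := hc (d - (l + 2)) (by omega)
      have e1 : d - (l + 2) + 2 = d - l := by omega
      have e2 : d - (l + 2) + 1 = d - (l + 1) := by omega
      rw [e1, e2] at this
      linarith
    have h1 := chord_ge (fun l => e (d - l)) d (by simpa using hd) hc' (d - k) (by omega)
      (k - j) (by omega)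
    have e1 : d - k + (k - j) = d - j := by omega
    rw [e1] at h1
    have e2 : d - (d - k) = k := by omega
    have e3 : d - (d - j) = j := by omega
    simp only [e2, e3] at h1
    rw [Nat.cast_sub hk, Nat.cast_sub hj] at h1
    have h2 := mul_le_mul_of_nonneg_left h1 hk0
    have h3 : 0 ≤ (j : ℝ) * (d - k) * e k :=
      mul_nonneg (mul_nonneg hj0 (sub_nonneg.mpr hkR)) ek
    nlinarith

/-- sum over all permutations -/
noncomputable def Wp (h : Finset (Fin d) → ℝ) (g : Finset (Fin d)) : ℝ :=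
  ∑ π : Equiv.Perm (Fin d), h (g.map π.toEmbedding)

theorem Wp_submod (h : Finset (Fin d) → ℝ)
    (hs : ∀ A B, h (A ∪ B) + h (A ∩ B) ≤ h A + h B) (A B : Finset (Fin d)) :
    Wp h (A ∪ B) + Wp h (A ∩ B) ≤ Wp h A + Wp h B := by
  unfold Wp
  rw [← sum_add_distrib, ← sum_add_distrib]
  apply sum_le_sum
  intro π _
  rw [map_union, map_inter]
  exact hs _ _

theorem Wp_map (h : Finset (Fin d) → ℝ) (g : Finset (Fin d)) (e : Equiv.Perm (Fin d)) :
    Wp h (g.map e.toEmbedding) = Wp h g := by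
  unfold Wp
  refine Fintype.sum_bijective (fun π : Equiv.Perm (Fin d) => e.trans π)
    ?_ _ _ ?_
  · exact Group.mulRight_bijective e
  · intro π
    rw [map_map]
    rfl

theorem exists_perm_map (A B : Finset (Fin d)) (h : A.card = B.card) :
    ∃ e : Equiv.Perm (Fin d), A.map e.toEmbedding = B := by
  classical
  have e0 : {x // x ∈ A} ≃ {x // x ∈ B} := Finset.equivOfCardEq h
  refine ⟨e0.extendSubtype, ?_⟩
  apply eq_of_subset_of_card_le
  · intro y hy
    rw [mem_map] at hy
    obtain ⟨x, hx, rfl⟩ := hy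
    exact e0.extendSubtype_mem x hx
  · rw [card_map, h]

theorem Wp_card (h : Finset (Fin d) → ℝ) (A B : Finset (Fin d)) (hAB : A.card = B.card) :
    Wp h A = Wp h B := by
  obtain ⟨e, he⟩ := exists_perm_map A B hAB
  rw [← he, Wp_map]

/-- the first `k` coordinates -/
def ff (d k : ℕ) : Finset (Fin d) := univ.filter (fun i => i.val < k)

theorem card_ff (d k : ℕ) (hk : k ≤ d) : (ff d k).card = k := by
  unfold ff
  rw [Fin.card_filter_val_lt]
  exact min_eq_right hk

/-- the symmetrised function, as a function of the size -/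
noncomputable def wk (h : Finset (Fin d) → ℝ) (k : ℕ) : ℝ := Wp h (ff d k)

theorem Wp_eq (h : Finset (Fin d) → ℝ) (A : Finset (Fin d)) : Wp h A = wk h A.card := by
  unfold wk
  apply Wp_card
  rw [card_ff]
  exact (card_le_univ A).trans (by simp)

theorem wk_concave (h : Finset (Fin d) → ℝ)
    (hs : ∀ A B, h (A ∪ B) + h (A ∩ B) ≤ h A + h B) (k : ℕ) (hk : k + 2 ≤ d) :
    wk h (k + 2) + wk h k ≤ 2 * wk h (k + 1) := by
  classical
  set a : Fin d := ⟨k, by omega⟩ with ha
  set b : Fin d := ⟨k + 1, by omega⟩ with hb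
  have haf : a ∉ ff d k := by simp [ff, ha]
  have hbf : b ∉ ff d k := by simp [ff, hb]
  have hab : a ≠ b := by
    intro h; have := congrArg Fin.val h; simp [ha, hb] at this
  have h1 := Wp_submod h hs (insert a (ff d k)) (insert b (ff d k))
  have c1 : (insert a (ff d k)).card = k + 1 := by
    rw [card_insert_of_notMem haf, card_ff d k (by omega)]
  have c2 : (insert b (ff d k)).card = k + 1 := by
    rw [card_insert_of_notMem hbf, card_ff d k (by omega)]
  have c3 : (insert a (ff d k) ∪ insert b (ff d k)).card = k + 2 := by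
    have : insert a (ff d k) ∪ insert b (ff d k) = insert b (insert a (ff d k)) := by
      ext x; simp only [mem_union, mem_insert]; tauto
    rw [this, card_insert_of_notMem, c1]
    rw [mem_insert, not_or]
    exact ⟨fun h => hab h.symm, hbf⟩
  have c4 : (insert a (ff d k) ∩ insert b (ff d k)).card = k := by
    have : insert a (ff d k) ∩ insert b (ff d k) = ff d k := by
      ext x; simp only [mem_inter, mem_insert]
      constructor
      · rintro ⟨h1 | h1, h2 | h2⟩
        · exact absurd (h1.symm.trans h2) hab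
        · exact h2
        · exact h1
        · exact h1
      · intro h; exact ⟨Or.inr h, Or.inr h⟩
    rw [this, card_ff d k (by omega)]
  rw [Wp_eq, Wp_eq, Wp_eq h (insert a (ff d k)), Wp_eq h (insert b (ff d k)), c1, c2, c3,
    c4] at h1
  linarith

theorem sum_card_all (d : ℕ) :
    ∑ A : Finset (Fin d), (2 : ℝ) * (A.card : ℝ) = d * 2 ^ d := by
  have h1 : ∑ A : Finset (Fin d), ((Aᶜ).card : ℝ) = ∑ A : Finset (Fin d), (A.card : ℝ) :=
    Fintype.sum_bijective compl compl_bijective _ _ (fun A => rfl)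
  have h2 : ∑ A : Finset (Fin d), ((A.card : ℝ) + ((Aᶜ).card : ℝ)) = d * 2 ^ d := by
    have : ∀ A : Finset (Fin d), (A.card : ℝ) + ((Aᶜ).card : ℝ) = d := by
      intro A
      have := card_add_card_compl A
      rw [Fintype.card_fin] at this
      exact_mod_cast this
    rw [sum_congr rfl (fun A _ => this A), sum_const, nsmul_eq_mul, card_univ,
      Fintype.card_finset, Fintype.card_fin]
    push_cast
    ring
  rw [sum_add_distrib, h1] at h2
  rw [← mul_sum]
  linarith

theorem link (h : Finset (Fin d) → ℝ) (hd : 2 ≤ d) (h0 : h ∅ = 0)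
    (hV : 0 ≤ h univ) (hs : ∀ A B, h (A ∪ B) + h (A ∩ B) ≤ h A + h B)
    (G : Finset (Finset (Fin d))) (m s : ℕ)
    (hG : ∀ e : Equiv.Perm (Fin d), ∀ g ∈ G, g.map e.toEmbedding ∈ G)
    (hm : ∀ i : Fin d, m ≤ (G.filter (fun g => i ∈ g)).card)
    (hsep : ∀ i j : Fin d, i ≠ j → s ≤ (G.filter (fun g => i ∈ g ∧ j ∉ g)).card) :
    (s : ℝ) * ((∑ A : Finset (Fin d), (h A + h Aᶜ - h univ)) / 2 ^ d)
      ≤ 2 * (∑ g ∈ G, h g - m * h univ) := by
  classical
  set P : ℝ := (Fintype.card (Equiv.Perm (Fin d)) : ℝ) with hP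
  have hP0 : 0 < P := by
    rw [hP]; exact_mod_cast Fintype.card_pos
  set w : ℕ → ℝ := wk h with hw
  have hdR : (2 : ℝ) ≤ d := by exact_mod_cast hd
  have hd0 : (0 : ℝ) < d := by linarith
  have w0 : w 0 = 0 := by
    rw [hw]; unfold wk Wp
    apply sum_eq_zero
    intro π _
    have : ff d 0 = ∅ := by
      unfold ff; simp
    rw [this, map_empty, h0]
  have hWu : Wp h univ = P * h univ := by
    unfold Wp
    have : ∀ π : Equiv.Perm (Fin d), h ((univ : Finset (Fin d)).map π.toEmbedding) = h univ := by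
      intro π
      rw [map_univ_equiv]
    rw [sum_congr rfl (fun π _ => this π), sum_const, nsmul_eq_mul, card_univ]
  have wd : w d = P * h univ := by
    rw [hw, ← hWu, Wp_eq, card_univ, Fintype.card_fin]
  set e : ℕ → ℝ := fun k => w k - k / d * w d with he
  have e0 : e 0 = 0 := by simp [he, w0]
  have ed : e d = 0 := by
    simp only [he]
    rw [div_self hd0.ne']; ring
  have ec : ∀ k, k + 2 ≤ d → e (k + 2) + e k ≤ 2 * e (k + 1) := by
    intro k hk
    have := wk_concave h hs k hk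
    simp only [he, hw]
    push_cast
    have e1 : ((k : ℝ) + 2) / d * wk h d + k / d * wk h d = 2 * ((k + 1) / d * wk h d) := by
      ring
    linarith
  -- the average over bipartitions
  set E : ℝ := ∑ A : Finset (Fin d), e A.card with hE
  have hA : P * ∑ A : Finset (Fin d), (h A + h Aᶜ - h univ) = 2 * E := by
    have h1 : ∀ π : Equiv.Perm (Fin d), ∑ A : Finset (Fin d), h (A.map π.toEmbedding)
        = ∑ A : Finset (Fin d), h A := by
      intro π
      exact Fintype.sum_equiv (Equiv.finsetCongr π) _ _ (fun A => rfl)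
    have h2 : P * ∑ A : Finset (Fin d), h A = ∑ A : Finset (Fin d), w A.card := by
      have h3 : ∑ π : Equiv.Perm (Fin d), ∑ A : Finset (Fin d), h (A.map π.toEmbedding)
          = P * ∑ A : Finset (Fin d), h A := by
        rw [sum_congr rfl (fun π _ => h1 π), sum_const, nsmul_eq_mul, card_univ]
      rw [← h3, sum_comm]
      apply sum_congr rfl
      intro A _
      exact Wp_eq h A
    have h4 : ∑ A : Finset (Fin d), h Aᶜ = ∑ A : Finset (Fin d), h A :=
      Fintype.sum_bijective compl compl_bijective _ _ (fun A => rfl)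
    rw [sum_sub_distrib, sum_add_distrib, h4, sum_const, nsmul_eq_mul, card_univ,
      Fintype.card_finset, Fintype.card_fin]
    have h5 : E = ∑ A : Finset (Fin d), w A.card
        - (∑ A : Finset (Fin d), (2 : ℝ) * (A.card : ℝ)) / (2 * d) * w d := by
      rw [hE, sum_div, sum_mul, ← sum_sub_distrib]
      apply sum_congr rfl
      intro A _
      simp only [he]
      have : (2 : ℝ) * (A.card : ℝ) / (2 * d) = A.card / d := by
        field_simp
      rw [this]
    rw [sum_card_all] at h5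
    have h6 : (d : ℝ) * 2 ^ d / (2 * d) = 2 ^ d / 2 := by field_simp
    rw [h6] at h5
    rw [h5, ← h2, wd]
    push_cast
    ring
  -- the family
  have hB : P * (∑ g ∈ G, h g - m * h univ) = ∑ g ∈ G, w g.card - m * w d := by
    have h1 : ∀ π : Equiv.Perm (Fin d), ∑ g ∈ G, h (g.map π.toEmbedding) = ∑ g ∈ G, h g := by
      intro π
      have hinj : Function.Injective (fun g : Finset (Fin d) => g.map π.toEmbedding) :=
        map_injective _
      have himg : G.image (fun g => g.map π.toEmbedding) = G := by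
        apply eq_of_subset_of_card_le
        · intro y hy
          rw [mem_image] at hy
          obtain ⟨x, hx, rfl⟩ := hy
          exact hG π x hx
        · rw [card_image_of_injective _ hinj]
      conv_rhs => rw [← himg]
      rw [sum_image (fun x _ y _ h => hinj h)]
    have h3 : ∑ π : Equiv.Perm (Fin d), ∑ g ∈ G, h (g.map π.toEmbedding)
        = P * ∑ g ∈ G, h g := by
      rw [sum_congr rfl (fun π _ => h1 π), sum_const, nsmul_eq_mul, card_univ]
    have h2 : P * ∑ g ∈ G, h g = ∑ g ∈ G, w g.card := by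
      rw [← h3, sum_comm]
      apply sum_congr rfl
      intro A _
      exact Wp_eq h A
    rw [mul_sub, h2, wd]
    ring
  -- double counting
  have hdeg : (d : ℝ) * m ≤ ∑ g ∈ G, (g.card : ℝ) := by
    have h1 : ∑ g ∈ G, g.card = ∑ i : Fin d, (G.filter (fun g => i ∈ g)).card := by
      have h2 : ∀ g ∈ G, g.card = ∑ i : Fin d, if i ∈ g then 1 else 0 := by
        intro g _
        rw [← card_filter, filter_mem_eq_inter, univ_inter]
      rw [sum_congr rfl h2, sum_comm]
      apply sum_congr rfl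
      intro i _
      rw [card_filter]
    have h2 : d * m ≤ ∑ g ∈ G, g.card := by
      rw [h1]
      calc d * m = ∑ _i : Fin d, m := by simp
        _ ≤ _ := sum_le_sum (fun i _ => hm i)
    exact_mod_cast h2
  have hsp : (d : ℝ) * (d - 1) * s ≤ ∑ g ∈ G, (g.card : ℝ) * (d - g.card) := by
    have h1 : ∀ g ∈ G, (g.card : ℝ) * (d - g.card)
        = ∑ i : Fin d, ∑ j : Fin d, if i ∈ g ∧ j ∉ g then (1 : ℝ) else 0 := by
      intro g _
      have h2 : (g.card : ℝ) * (d - g.card) = (g.card : ℝ) * (gᶜ).card := by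
        have := card_add_card_compl g
        rw [Fintype.card_fin] at this
        have : (g.card : ℝ) + (gᶜ).card = d := by exact_mod_cast this
        rw [← this]; ring
      have h3 : (g.card : ℝ) = ∑ i : Fin d, if i ∈ g then (1 : ℝ) else 0 := by
        rw [← sum_filter, sum_const, nsmul_eq_mul, mul_one, filter_mem_eq_inter, univ_inter]
      have h4 : ((gᶜ).card : ℝ) = ∑ j : Fin d, if j ∉ g then (1 : ℝ) else 0 := by
        rw [← sum_filter, sum_const, nsmul_eq_mul, mul_one]
        congr 2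
        ext j; simp
      rw [h2, h3, h4, sum_mul_sum]
      apply sum_congr rfl
      intro i _
      apply sum_congr rfl
      intro j _
      by_cases hi : i ∈ g <;> by_cases hj : j ∈ g <;> simp [hi, hj]
    rw [sum_congr rfl h1, sum_comm]
    have h5 : ∀ i : Fin d, ((d : ℝ) - 1) * s ≤ ∑ g ∈ G, ∑ j : Fin d,
        if i ∈ g ∧ j ∉ g then (1 : ℝ) else 0 := by
      intro i
      rw [sum_comm]
      have h6 : ∀ j ∈ (univ : Finset (Fin d)).erase i,
          (s : ℝ) ≤ ∑ g ∈ G, if i ∈ g ∧ j ∉ g then (1 : ℝ) else 0 := by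
        intro j hj
        rw [← sum_filter, sum_const, nsmul_eq_mul, mul_one]
        exact_mod_cast hsep i j (ne_of_mem_erase hj).symm
      calc ((d : ℝ) - 1) * s = ∑ _j ∈ (univ : Finset (Fin d)).erase i, (s : ℝ) := by
            rw [sum_const, nsmul_eq_mul, card_erase_of_mem (mem_univ i), card_univ,
              Fintype.card_fin, Nat.cast_sub (by omega)]
            simp
        _ ≤ ∑ j ∈ (univ : Finset (Fin d)).erase i, ∑ g ∈ G,
              if i ∈ g ∧ j ∉ g then (1 : ℝ) else 0 := sum_le_sum h6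
        _ ≤ ∑ j : Fin d, ∑ g ∈ G, if i ∈ g ∧ j ∉ g then (1 : ℝ) else 0 := by
            apply sum_le_sum_of_subset_of_nonneg (erase_subset _ _)
            intro j _ _
            apply sum_nonneg
            intro g _
            split_ifs <;> norm_num
    calc (d : ℝ) * (d - 1) * s = ∑ _i : Fin d, ((d : ℝ) - 1) * s := by
          rw [sum_const, nsmul_eq_mul, card_univ, Fintype.card_fin]; ring
      _ ≤ _ := sum_le_sum (fun i _ => h5 i)
  -- chords
  have hcard : ∀ A : Finset (Fin d), A.card ≤ d := fun A =>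
    (card_le_univ A).trans (by simp)
  have hch : ∀ k, k ≤ d → 2 * ((k : ℝ) * (d - k)) * E ≤ d ^ 2 * 2 ^ d * e k := by
    intro k hk
    have h1 : ∑ A : Finset (Fin d), (k : ℝ) * (d - k) * e A.card
        ≤ ∑ A : Finset (Fin d), ((A.card : ℝ) * (d - k) + (d - A.card) * k) * e k :=
      sum_le_sum (fun A _ => (chord e d e0 ed ec k A.card hk (hcard A)).2)
    rw [← mul_sum, ← sum_mul] at h1
    have h2 : 2 * ∑ A : Finset (Fin d), ((A.card : ℝ) * (d - k) + (d - A.card) * k)
        = d ^ 2 * 2 ^ d := by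
      have h3 : ∑ A : Finset (Fin d), ((A.card : ℝ) * (d - k) + (d - A.card) * k)
          = (∑ A : Finset (Fin d), (2 : ℝ) * (A.card : ℝ)) * ((d - 2 * k) / 2)
            + ∑ A : Finset (Fin d), (d : ℝ) * k := by
        rw [sum_mul, ← sum_add_distrib]
        apply sum_congr rfl
        intro A _
        ring
      rw [h3, sum_card_all, sum_const, nsmul_eq_mul, card_univ, Fintype.card_finset,
        Fintype.card_fin]
      push_cast
      ring
    calc 2 * ((k : ℝ) * (d - k)) * E = 2 * ((k : ℝ) * (d - k) * E) := by ring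
      _ ≤ 2 * ((∑ A : Finset (Fin d), ((A.card : ℝ) * (d - k) + (d - A.card) * k)) * e k) := by
          linarith
      _ = (2 * ∑ A : Finset (Fin d), ((A.card : ℝ) * (d - k) + (d - A.card) * k)) * e k := by
          ring
      _ = _ := by rw [h2]
  have hE0 : 0 ≤ E := sum_nonneg (fun A _ => (chord e d e0 ed ec A.card 0 (hcard A)
    (Nat.zero_le _)).1)
  have hK : (0 : ℝ) < 2 ^ d := by positivity
  have hsum1 : 2 * (∑ g ∈ G, (g.card : ℝ) * (d - g.card)) * E
      ≤ d ^ 2 * 2 ^ d * ∑ g ∈ G, e g.card := by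
    have h1 := sum_le_sum (fun g (_ : g ∈ G) => hch g.card (hcard g))
    rw [← mul_sum, ← sum_mul, ← mul_sum] at h1
    exact h1
  have hsum2 : ∑ g ∈ G, e g.card ≤ ∑ g ∈ G, w g.card - m * w d := by
    have h1 : ∑ g ∈ G, e g.card
        = ∑ g ∈ G, w g.card - (∑ g ∈ G, (g.card : ℝ)) / d * w d := by
      rw [sum_div, sum_mul, ← sum_sub_distrib]
    rw [h1]
    have h2 : (m : ℝ) ≤ (∑ g ∈ G, (g.card : ℝ)) / d := by
      rw [le_div_iff₀ hd0]; linarith
    have h3 : 0 ≤ w d := by rw [wd]; exact mul_nonneg hP0.le hV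
    have h4 := mul_le_mul_of_nonneg_right h2 h3
    linarith
  -- conclusion
  have hfin : (s : ℝ) * (2 * E) ≤ 2 ^ d * (2 * ∑ g ∈ G, e g.card) := by
    have h1 := mul_le_mul_of_nonneg_right hsp hE0
    have h2 : (d : ℝ) ^ 2 * (s * (2 * E)) ≤ d ^ 2 * (2 ^ d * (2 * ∑ g ∈ G, e g.card)) := by
      have hs0 : (0 : ℝ) ≤ (s : ℝ) * E := mul_nonneg (by positivity) hE0
      have h3 : (d : ℝ) ^ 2 * (s * E) ≤ 2 * ((d : ℝ) * (d - 1) * (s * E)) := by
        have : 0 ≤ (d : ℝ) * (d - 2) * (s * E) :=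
          mul_nonneg (mul_nonneg hd0.le (by linarith)) hs0
        nlinarith
      have h4 : (d : ℝ) * (d - 1) * (s * E) ≤ (∑ g ∈ G, (g.card : ℝ) * (d - g.card)) * E := by
        calc (d : ℝ) * (d - 1) * (s * E) = (d : ℝ) * (d - 1) * s * E := by ring
          _ ≤ _ := h1
      have h5 : (d : ℝ) ^ 2 * (s * (2 * E)) = 2 * (d ^ 2 * (s * E)) := by ring
      have h6 : (d : ℝ) ^ 2 * (2 ^ d * (2 * ∑ g ∈ G, e g.card))
          = 2 * (d ^ 2 * 2 ^ d * ∑ g ∈ G, e g.card) := by ring
      rw [h5, h6]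
      linarith
    exact le_of_mul_le_mul_left h2 (by positivity)
  have hfin2 : P * ((s : ℝ) * ((∑ A : Finset (Fin d), (h A + h Aᶜ - h univ)) / 2 ^ d))
      ≤ P * (2 * (∑ g ∈ G, h g - m * h univ)) := by
    have h1 : P * ((s : ℝ) * ((∑ A : Finset (Fin d), (h A + h Aᶜ - h univ)) / 2 ^ d))
        = (s : ℝ) * (P * ∑ A : Finset (Fin d), (h A + h Aᶜ - h univ)) / 2 ^ d := by ring
    have h2 : P * (2 * (∑ g ∈ G, h g - m * h univ)) = 2 * (P * (∑ g ∈ G, h g - m * h univ)) := by
      ring
    rw [h1, hA, h2, hB, div_le_iff₀ hK]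
    have h3 := mul_le_mul_of_nonneg_left hsum2 (by positivity : (0 : ℝ) ≤ 2 * 2 ^ d)
    linarith
  exact le_of_mul_le_mul_left hfin2 hP0

/-- for the entropy of the projections of a finite set -/
theorem sym_link (S : Finset (Fin d → ℤ)) (hd : 2 ≤ d)
    (G : Finset (Finset (Fin d))) (m s : ℕ)
    (hG : ∀ e : Equiv.Perm (Fin d), ∀ g ∈ G, g.map e.toEmbedding ∈ G)
    (hm : ∀ i : Fin d, m ≤ (G.filter (fun g => i ∈ g)).card)
    (hsep : ∀ i j : Fin d, i ≠ j → s ≤ (G.filter (fun g => i ∈ g ∧ j ∉ g)).card) :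
    (s : ℝ) * PhN S ≤ 2 * (∑ g ∈ G, hN S g - m * hN S univ) := by
  have h1 := link (hN S) hd (hN_empty S)
    (by rw [← hN_empty S]; exact hN_mono S (empty_subset _))
    (fun A B => hN_submod S A B) G m s hG hm hsep
  exact h1

end Pool.Agent.H488R3.UC
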