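import Pool.Agent.H488R3.UC.Rec

/-!
From boxes close to the slices to a box close to the whole set.
-/

namespace Pool.Agent.H488R3.UC

open Finset

variable {n : ℕ}

theorem log_lin {N u : ℝ} (hN : 0 < N) (h1 : N ≤ u) (h2 : u ≤ 2 * N) :
    u - N ≤ 3 / 2 * (N * (Real.log u - Real.log N)) := by
  have hu : 0 < u := lt_of_lt_of_le hN h1
  have ht1 : 1 ≤ u / N := by rw [le_div_iff₀ hN]; linarith
  have ht2 : u / N ≤ 2 := by rw [div_le_iff₀ hN]; linarith
  have hc : (2 - u / N) • Real.log 1 + (u / N - 1) • Real.log 2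
      ≤ Real.log ((2 - u / N) • 1 + (u / N - 1) • 2) :=
    strictConcaveOn_log_Ioi.concaveOn.2 (Set.mem_Ioi.mpr (by norm_num))
      (Set.mem_Ioi.mpr (by norm_num)) (by linarith) (by linarith) (by ring)
  simp only [smul_eq_mul, Real.log_one, mul_zero, zero_add] at hc
  have e : (2 - u / N) * 1 + (u / N - 1) * 2 = u / N := by ring
  rw [e, Real.log_div hu.ne' hN.ne'] at hc
  have hl : (2 / 3 : ℝ) ≤ Real.log 2 := by
    have := Real.log_two_gt_d9; linarith
  have h3 : (u / N - 1) * (2 / 3) ≤ Real.log u - Real.log N :=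
    le_trans (mul_le_mul_of_nonneg_left hl (by linarith)) hc
  have h4 : N * ((u / N - 1) * (2 / 3)) ≤ N * (Real.log u - Real.log N) :=
    mul_le_mul_of_nonneg_left h3 hN.le
  have h5 : N * ((u / N - 1) * (2 / 3)) = 2 / 3 * (u - N) := by field_simp
  linarith

theorem log_lin2 {N u : ℝ} (hN : 0 < N) (h2 : 2 * N ≤ u) :
    N ≤ 3 / 2 * (N * (Real.log u - Real.log N)) := by
  have hu : 0 < u := by linarith
  have hl : (2 / 3 : ℝ) ≤ Real.log 2 := by
    have := Real.log_two_gt_d9; linarith
  have h3 : Real.log 2 ≤ Real.log u - Real.log N := by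
    have := Real.log_le_log (by positivity) h2
    rw [Real.log_mul (by norm_num) hN.ne'] at this
    linarith
  have h4 : N * (2 / 3) ≤ N * (Real.log u - Real.log N) :=
    mul_le_mul_of_nonneg_left (hl.trans h3) hN.le
  linarith

theorem log_lin3 {N u : ℝ} (hN : 0 < N) (hu : 0 < u) :
    (u - N) / u ≤ Real.log u - Real.log N := by
  have := Real.log_le_sub_one_of_pos (div_pos hN hu)
  rw [Real.log_div hN.ne' hu.ne'] at this
  have e : (u - N) / u = 1 - N / u := by field_simp
  linarith

theorem mem_slice' {a : ℤ} {S : Finset (Fin (n + 1) → ℤ)} {y : Fin n → ℤ} :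
    y ∈ slice a S ↔ (Fin.snoc (α := fun _ => ℤ) y a : Fin (n + 1) → ℤ) ∈ S := by
  rw [mem_slice]
  constructor
  · rintro ⟨x, hx, hxa, rfl⟩
    have : (Fin.snoc (α := fun _ => ℤ) (ini x) a : Fin (n + 1) → ℤ) = x := by
      apply ext_last
      · funext i; simp [ini]
      · simp [hxa]
    rw [this]; exact hx
  · intro h
    refine ⟨_, h, by simp, ?_⟩
    funext i; simp [ini]

theorem slice_symmDiff (a : ℤ) (S T : Finset (Fin (n + 1) → ℤ)) :
    slice a (symmDiff S T) = symmDiff (slice a S) (slice a T) := by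
  ext y
  simp only [mem_slice', mem_symmDiff]

theorem slice_pi (a : ℤ) (B : Fin n → Finset ℤ) (A : Finset ℤ) :
    slice a (Fintype.piFinset (Fin.snoc (α := fun _ => Finset ℤ) B A : Fin (n + 1) → Finset ℤ))
      = if a ∈ A then Fintype.piFinset B else ∅ := by
  ext y
  rw [mem_slice', Fintype.mem_piFinset, Fin.forall_fin_succ']
  by_cases ha : a ∈ A
  · simp [ha, Fintype.mem_piFinset]
  · simp [ha]

theorem card_eq_sum_of_subset (S : Finset (Fin (n + 1) → ℤ)) {W : Finset ℤ} (hW : vals S ⊆ W) :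
    S.card = ∑ a ∈ W, (slice a S).card := by
  rw [card_eq_sum S]
  apply sum_subset hW
  intro a _ ha
  rw [card_eq_zero, eq_empty_iff_forall_notMem]
  intro y hy
  apply ha
  obtain ⟨x, hx, hxa, _⟩ := mem_slice.mp hy
  exact mem_image.mpr ⟨x, hx, hxa⟩

theorem card_symmDiff_box (S : Finset (Fin (n + 1) → ℤ)) (B : Fin n → Finset ℤ) (A : Finset ℤ)
    (hA : A ⊆ vals S) :
    (symmDiff S (Fintype.piFinset
      (Fin.snoc (α := fun _ => Finset ℤ) B A : Fin (n + 1) → Finset ℤ))).card
      = ∑ a ∈ A, (symmDiff (slice a S) (Fintype.piFinset B)).card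
        + ∑ a ∈ vals S \ A, (slice a S).card := by
  have hsub : vals (symmDiff S (Fintype.piFinset
      (Fin.snoc (α := fun _ => Finset ℤ) B A : Fin (n + 1) → Finset ℤ))) ⊆ vals S := by
    intro a ha
    obtain ⟨x, hx, hxa⟩ := mem_image.mp ha
    rcases mem_symmDiff.mp hx with h | h
    · exact mem_image.mpr ⟨x, h.1, hxa⟩
    · apply hA
      have := Fintype.mem_piFinset.mp h.1 (Fin.last n)
      simp only [Fin.snoc_last] at this
      rw [← hxa]; exact this
  rw [card_eq_sum_of_subset _ hsub, ← sum_sdiff hA, add_comm]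
  congr 1
  · apply sum_congr rfl
    intro a ha
    rw [slice_symmDiff, slice_pi, if_pos ha]
  · apply sum_congr rfl
    intro a ha
    rw [slice_symmDiff, slice_pi, if_neg (mem_sdiff.mp ha).2]
    congr 1
    rw [← bot_eq_empty, symmDiff_bot]

theorem card_symmDiff_triangle {α : Type*} [DecidableEq α] (A B C : Finset α) :
    (symmDiff A C).card ≤ (symmDiff A B).card + (symmDiff B C).card := by
  refine le_trans (card_le_card ?_) (card_union_le _ _)
  have := symmDiff_triangle A B C
  simpa using this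

theorem card_symmDiff_of_subset {α : Type*} [DecidableEq α] {A B : Finset α} (h : A ⊆ B) :
    ((symmDiff A B).card : ℝ) = B.card - A.card := by
  rw [symmDiff_of_le h, card_sdiff_of_subset h, Nat.cast_sub (card_le_card h)]

theorem step (S : Finset (Fin (n + 1) → ℤ)) (hS : S.Nonempty) (δ : ℤ → ℝ)
    (R : ℤ → (Fin n → Finset ℤ)) (hδ : ∀ a ∈ vals S, 0 ≤ δ a)
    (hR : ∀ a ∈ vals S, ((symmDiff (slice a S) (Fintype.piFinset (R a))).card : ℝ)
      ≤ 4 * δ a * (slice a S).card) (Δ : ℝ)
    (hΔ : ∑ a ∈ vals S, ((slice a S).card : ℝ) * δ a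
      + ∑ a ∈ vals S, ((slice a S).card : ℝ) *
        (Real.log (US S).card - Real.log (slice a S).card) ≤ (S.card : ℝ) * Δ) :
    ∃ B : Fin (n + 1) → Finset ℤ,
      ((symmDiff S (Fintype.piFinset B)).card : ℝ) ≤ 4 * Δ * S.card := by
  classical
  by_cases h4 : 1 ≤ 4 * Δ
  · refine ⟨fun _ => ∅, ?_⟩
    rw [Fintype.piFinset_empty, ← bot_eq_empty, symmDiff_bot]
    have : (0 : ℝ) ≤ S.card := by positivity
    nlinarith
  have h4' : 4 * Δ < 1 := not_le.mp h4
  set N : ℤ → ℝ := fun a => ((slice a S).card : ℝ) with hN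
  set u : ℝ := ((US S).card : ℝ) with hu
  have hupos : 0 < u := by
    rw [hu]; exact_mod_cast card_pos.mpr (hS.image _)
  have hNpos : ∀ a ∈ vals S, 0 < N a := by
    intro a ha
    have := card_pos.mpr (slice_nonempty ha)
    simp only [hN]; exact_mod_cast this
  have hNu : ∀ a, N a ≤ u := by
    intro a
    have := card_le_card (slice_subset a S)
    simp only [hN, hu]; exact_mod_cast this
  have hNS : (S.card : ℝ) = ∑ a ∈ vals S, N a := card_cast_eq_sum S
  have hSpos : (0 : ℝ) < S.card := by exact_mod_cast card_pos.mpr hS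
  set β : ℤ → ℝ := fun a => N a * (Real.log u - Real.log (N a)) with hβ
  set A := (vals S).filter (fun a => u ≤ 2 * N a) with hA
  have hAV : A ⊆ vals S := filter_subset _ _
  have hβ0 : ∀ a ∈ vals S, 0 ≤ β a := by
    intro a ha
    apply mul_nonneg (hNpos a ha).le
    have := Real.log_le_log (hNpos a ha) (hNu a)
    linarith
  set βs := ∑ a ∈ vals S, β a with hβs
  set δs := ∑ a ∈ vals S, N a * δ a with hδs
  have hΔ' : δs + βs ≤ (S.card : ℝ) * Δ := hΔ
  have hδs0 : 0 ≤ δs := sum_nonneg (fun a ha => mul_nonneg (hNpos a ha).le (hδ a ha))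
  have hβs0 : 0 ≤ βs := sum_nonneg hβ0
  have htot : 4 * (δs + βs) < S.card := by
    have : (S.card : ℝ) * (4 * Δ) < S.card * 1 := mul_lt_mul_of_pos_left h4' hSpos
    linarith
  -- the errors
  have herr : ∑ a ∈ A, (u - N a) + ∑ a ∈ vals S \ A, N a ≤ 3 / 2 * βs := by
    rw [hβs, ← sum_sdiff hAV, mul_add, add_comm]
    apply add_le_add
    · rw [mul_sum]
      apply sum_le_sum
      intro a ha
      have ha' := mem_sdiff.mp ha
      have h2 : ¬ (u ≤ 2 * N a) := fun h => ha'.2 (mem_filter.mpr ⟨ha'.1, h⟩)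
      exact log_lin2 (hNpos a ha'.1) (not_le.mp h2).le
    · rw [mul_sum]
      apply sum_le_sum
      intro a ha
      have ha' := mem_filter.mp ha
      exact log_lin (hNpos a ha'.1) (hNu a) ha'.2
  have herrA : 0 ≤ ∑ a ∈ A, (u - N a) := sum_nonneg (fun a _ => by linarith [hNu a])
  have herrB : 0 ≤ ∑ a ∈ vals S \ A, N a :=
    sum_nonneg (fun a ha => (hNpos a (mem_sdiff.mp ha).1).le)
  set W := ∑ a ∈ A, N a with hW
  have hWS : W + ∑ a ∈ vals S \ A, N a = S.card := by
    rw [hNS, ← sum_sdiff hAV, add_comm]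
  have hWlow : (S.card : ℝ) - 3 / 2 * βs ≤ W := by linarith
  have hWpos : 0 < W := by linarith
  have hAne : A.Nonempty := by
    by_contra h
    rw [not_nonempty_iff_eq_empty] at h
    rw [hW, h, sum_empty] at hWpos
    exact lt_irrefl _ hWpos
  set f : ℤ → ℝ := fun a => (u - N a) / u + 4 * δ a with hf
  obtain ⟨b, hbA, hbmin⟩ := exists_min_image A f hAne
  have hbV := hAV hbA
  have hf0 : 0 ≤ f b := by
    have h1 : 0 ≤ (u - N b) / u := div_nonneg (by linarith [hNu b]) hupos.le
    have h2 := hδ b hbV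
    rw [hf]; simp only; linarith
  have hWf : W * f b ≤ βs + 4 * δs := by
    calc W * f b = ∑ a ∈ A, N a * f b := by rw [hW, sum_mul]
      _ ≤ ∑ a ∈ A, N a * f a := sum_le_sum (fun a ha =>
          mul_le_mul_of_nonneg_left (hbmin a ha) (hNpos a (hAV ha)).le)
      _ ≤ ∑ a ∈ A, (β a + 4 * (N a * δ a)) := by
          apply sum_le_sum
          intro a ha
          have h1 := log_lin3 (hNpos a (hAV ha)) hupos
          have h2 := mul_le_mul_of_nonneg_left h1 (hNpos a (hAV ha)).le
          simp only [hf, hβ]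
          linarith
      _ ≤ ∑ a ∈ vals S, (β a + 4 * (N a * δ a)) := by
          apply sum_le_sum_of_subset_of_nonneg hAV
          intro a ha _
          have h1 := hβ0 a ha
          have h2 := mul_nonneg (hNpos a ha).le (hδ a ha)
          linarith
      _ = βs + 4 * δs := by rw [sum_add_distrib, ← mul_sum]
  have hf1 : f b ≤ 1 := by
    by_contra hc
    have hc' := not_le.mp hc
    have : W * 1 < W * f b := mul_lt_mul_of_pos_left hc' hWpos
    linarith
  have hAu : (A.card : ℝ) * u ≤ W + 3 / 2 * βs := by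
    have : (A.card : ℝ) * u = W + ∑ a ∈ A, (u - N a) := by
      rw [hW, ← sum_add_distrib]
      simp
    linarith
  -- the box
  have hUR : ((symmDiff (US S) (Fintype.piFinset (R b))).card : ℝ) ≤ u * f b := by
    have h1 : ((symmDiff (US S) (Fintype.piFinset (R b))).card : ℝ)
        ≤ (symmDiff (US S) (slice b S)).card
          + (symmDiff (slice b S) (Fintype.piFinset (R b))).card := by
      exact_mod_cast card_symmDiff_triangle _ _ _
    have h2 : ((symmDiff (US S) (slice b S)).card : ℝ) = u - N b := by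
      rw [symmDiff_comm]; exact card_symmDiff_of_subset (slice_subset b S)
    have h3 := hR b hbV
    have h4 : u * f b = (u - N b) + 4 * δ b * u := by
      simp only [hf]; field_simp
    have h5 : 4 * δ b * N b ≤ 4 * δ b * u :=
      mul_le_mul_of_nonneg_left (hNu b) (by linarith [hδ b hbV])
    have h6 : 4 * δ b * ((slice b S).card : ℝ) = 4 * δ b * N b := rfl
    linarith
  refine ⟨Fin.snoc (α := fun _ => Finset ℤ) (R b) A, ?_⟩
  rw [card_symmDiff_box S (R b) A hAV]
  push_cast
  have hsl : ∀ a ∈ A, ((symmDiff (slice a S) (Fintype.piFinset (R b))).card : ℝ)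
      ≤ (u - N a) + u * f b := by
    intro a ha
    have h1 : ((symmDiff (slice a S) (Fintype.piFinset (R b))).card : ℝ)
        ≤ (symmDiff (slice a S) (US S)).card
          + (symmDiff (US S) (Fintype.piFinset (R b))).card := by
      exact_mod_cast card_symmDiff_triangle _ _ _
    have h2 : ((symmDiff (slice a S) (US S)).card : ℝ) = u - N a :=
      card_symmDiff_of_subset (slice_subset a S)
    linarith
  have hs1 := sum_le_sum hsl
  rw [sum_add_distrib, sum_const, nsmul_eq_mul] at hs1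
  have hAuf : (A.card : ℝ) * (u * f b) ≤ W * f b + 3 / 2 * βs := by
    have h1 : (A.card : ℝ) * u * f b ≤ (W + 3 / 2 * βs) * f b :=
      mul_le_mul_of_nonneg_right hAu hf0
    have h2 : 3 / 2 * βs * f b ≤ 3 / 2 * βs * 1 :=
      mul_le_mul_of_nonneg_left hf1 (by linarith)
    linarith
  have hN' : ∑ a ∈ vals S \ A, ((slice a S).card : ℝ) = ∑ a ∈ vals S \ A, N a := rfl
  rw [hN']
  have hfin : 4 * (δs + βs) ≤ 4 * Δ * S.card := by linarith
  linarith

end Pool.Agent.H488R3.UC
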