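import Pool.Agent.H488R3.UC.GM5

/-!
Symmetric differences: the mutual information of the two parts is subadditive under symmetric
differences, so that a lazy random product of cuts separates all pairs at a linear cost.
-/

namespace Pool.Agent.H488R3.UC

open Finset

variable {n : ℕ}

theorem IAN_submod (S : Finset (Fin n → ℤ)) (A B : Finset (Fin n)) :
    IAN S (A ∪ B) + IAN S (A ∩ B) ≤ IAN S A + IAN S B := by
  unfold IAN
  have h1 := hN_submod S A B
  have h2 := hN_submod S Aᶜ Bᶜ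
  have e1 : (A ∪ B)ᶜ = Aᶜ ∩ Bᶜ := compl_union A B
  have e2 : (A ∩ B)ᶜ = Aᶜ ∪ Bᶜ := compl_inter A B
  rw [e1, e2]
  linarith

theorem IAN_empty (S : Finset (Fin n → ℤ)) : IAN S ∅ = 0 := by
  unfold IAN
  rw [hN_empty, compl_empty]; ring

theorem IAN_univ (S : Finset (Fin n → ℤ)) : IAN S univ = 0 := by
  rw [← compl_empty, IAN_compl, IAN_empty]

theorem IAN_symmDiff (S : Finset (Fin n → ℤ)) (A B : Finset (Fin n)) :
    IAN S (symmDiff A B) ≤ IAN S A + IAN S B := by
  have h1 := IAN_submod S A Bᶜ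
  rw [IAN_compl] at h1
  have e1 : A ∪ Bᶜ = (B \ A)ᶜ := by
    ext x; simp only [mem_union, mem_compl, mem_sdiff, not_and, not_not]; tauto
  have e2 : A ∩ Bᶜ = A \ B := by
    ext x; simp only [mem_inter, mem_compl, mem_sdiff]
  rw [e1, e2, IAN_compl] at h1
  have h2 := IAN_submod S (A \ B) (B \ A)
  have e3 : A \ B ∩ (B \ A) = ∅ := by
    ext x; simp only [mem_inter, mem_sdiff, notMem_empty, iff_false]; tauto
  have e4 : A \ B ∪ (B \ A) = symmDiff A B := rfl
  rw [e3, e4, IAN_empty] at h2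
  linarith

theorem sum_symmDiff (f : Finset (Fin n) → ℝ) (T : Finset (Fin n)) :
    ∑ A : Finset (Fin n), f (symmDiff A T) = ∑ A, f A :=
  Fintype.sum_bijective (fun A => symmDiff A T) (symmDiff_left_involutive T).bijective _ _
    (fun _ => rfl)

variable {Ω : Type*} [Fintype Ω]

/-- the lazy random product of the cuts `T ω` -/
noncomputable def xm (T : Ω → Finset (Fin n)) : ℕ → Finset (Fin n) → ℝ
  | 0 => fun A => (if A = ∅ then 1 / 2 else 0) + (if A = univ then 1 / 2 else 0)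
  | k + 1 => fun A => 1 / 2 * xm T k A
      + 1 / 2 * ((∑ ω, xm T k (symmDiff A (T ω))) / Fintype.card Ω)

theorem xm_nn (T : Ω → Finset (Fin n)) : ∀ k A, 0 ≤ xm T k A := by
  intro k
  induction k with
  | zero => intro A; unfold xm; split_ifs <;> norm_num
  | succ k ih =>
    intro A
    unfold xm
    have h1 := ih A
    have h2 : 0 ≤ (∑ ω, xm T k (symmDiff A (T ω))) / (Fintype.card Ω : ℝ) :=
      div_nonneg (sum_nonneg (fun ω _ => ih _)) (by positivity)
    linarith

theorem xm_sum (T : Ω → Finset (Fin n)) (hΩ : 0 < Fintype.card Ω) (k : ℕ)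
    (f : Finset (Fin n) → ℝ) :
    ∑ A, xm T (k + 1) A * f A = 1 / 2 * ∑ A, xm T k A * f A
      + 1 / 2 * ((∑ ω, ∑ A, xm T k A * f (symmDiff A (T ω))) / Fintype.card Ω) := by
  have h1 : ∀ A, xm T (k + 1) A * f A = 1 / 2 * (xm T k A * f A)
      + 1 / 2 * ((∑ ω, xm T k (symmDiff A (T ω)) * f A) / Fintype.card Ω) := by
    intro A
    conv_lhs => unfold xm
    rw [← sum_mul]
    ring
  simp only [h1]
  rw [sum_add_distrib, ← mul_sum, ← mul_sum, ← sum_div, sum_comm]
  congr 3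
  apply sum_congr rfl
  intro ω _
  rw [← sum_symmDiff (fun A => xm T k A * f (symmDiff A (T ω))) (T ω)]
  apply sum_congr rfl
  intro A _
  rw [symmDiff_symmDiff_cancel_right]

theorem xm_tot (T : Ω → Finset (Fin n)) (hΩ : 0 < Fintype.card Ω) (hn : (∅ : Finset (Fin n)) ≠ univ) :
    ∀ k, ∑ A, xm T k A = 1 := by
  have hΩR : (0 : ℝ) < Fintype.card Ω := by exact_mod_cast hΩ
  intro k
  induction k with
  | zero =>
    unfold xm
    rw [sum_add_distrib, sum_ite_eq' univ (∅ : Finset (Fin n)) (fun _ => (1 / 2 : ℝ)),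
      sum_ite_eq' univ (univ : Finset (Fin n)) (fun _ => (1 / 2 : ℝ)), if_pos (mem_univ _),
      if_pos (mem_univ _)]
    norm_num
  | succ k ih =>
    have h1 := xm_sum T hΩ k (fun _ => 1)
    simp only [mul_one, ih, sum_const, nsmul_eq_mul, card_univ] at h1
    rw [h1]
    field_simp
    norm_num

theorem xm_sym (T : Ω → Finset (Fin n)) : ∀ k A, xm T k Aᶜ = xm T k A := by
  intro k
  induction k with
  | zero =>
    intro A
    unfold xm
    have e1 : Aᶜ = ∅ ↔ A = univ := compl_eq_empty_iff A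
    have e2 : Aᶜ = univ ↔ A = ∅ := compl_eq_univ_iff A
    simp only [e1, e2]
    ring
  | succ k ih =>
    intro A
    unfold xm
    rw [ih]
    have : ∀ ω, symmDiff Aᶜ (T ω) = (symmDiff A (T ω))ᶜ := by
      intro ω
      ext x
      simp only [mem_symmDiff, mem_compl]
      tauto
    simp only [this, ih]

/-- the weight of the sets which separate `i` and `j` -/
noncomputable def sw (μ : Finset (Fin n) → ℝ) (i j : Fin n) : ℝ :=
  ∑ A, μ A * (if (i ∈ A ↔ j ∈ A) then 0 else 1)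

theorem sw_succ (T : Ω → Finset (Fin n)) (hΩ : 0 < Fintype.card Ω)
    (hn : (∅ : Finset (Fin n)) ≠ univ) (i j : Fin n) (k : ℕ) :
    1 - 2 * sw (xm T (k + 1)) i j = (1 - (∑ ω, if (i ∈ T ω ↔ j ∈ T ω) then (0 : ℝ) else 1)
      / Fintype.card Ω) * (1 - 2 * sw (xm T k) i j) := by
  have hΩR : (0 : ℝ) < Fintype.card Ω := by exact_mod_cast hΩ
  have h1 := xm_sum T hΩ k (fun A => if (i ∈ A ↔ j ∈ A) then 0 else 1)
  have h2 : ∀ ω, ∑ A, xm T k A * (if (i ∈ symmDiff A (T ω) ↔ j ∈ symmDiff A (T ω))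
      then (0 : ℝ) else 1) = sw (xm T k) i j
        + (if (i ∈ T ω ↔ j ∈ T ω) then (0 : ℝ) else 1) * (1 - 2 * sw (xm T k) i j) := by
    intro ω
    have ht := xm_tot T hΩ hn k
    by_cases h : (i ∈ T ω ↔ j ∈ T ω)
    · rw [if_pos h, zero_mul, add_zero]
      unfold sw
      apply sum_congr rfl
      intro A _
      congr 1
      have : (i ∈ symmDiff A (T ω) ↔ j ∈ symmDiff A (T ω)) ↔ (i ∈ A ↔ j ∈ A) := by
        simp only [mem_symmDiff]; tauto
      simp only [this]
    · rw [if_neg h, one_mul]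
      have h3 : ∑ A, xm T k A * (if (i ∈ symmDiff A (T ω) ↔ j ∈ symmDiff A (T ω))
          then (0 : ℝ) else 1) = ∑ A, (xm T k A - xm T k A
            * (if (i ∈ A ↔ j ∈ A) then (0 : ℝ) else 1)) := by
        apply sum_congr rfl
        intro A _
        have : (i ∈ symmDiff A (T ω) ↔ j ∈ symmDiff A (T ω)) ↔ ¬ (i ∈ A ↔ j ∈ A) := by
          simp only [mem_symmDiff]; tauto
        by_cases h4 : (i ∈ A ↔ j ∈ A)
        · rw [if_neg (fun h5 => (this.mp h5) h4), if_pos h4]; ring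
        · rw [if_pos (this.mpr h4), if_neg h4]; ring
      rw [h3, sum_sub_distrib, ht]
      unfold sw
      ring
  simp only [h2] at h1
  rw [sum_add_distrib, sum_const, nsmul_eq_mul, card_univ, ← sum_mul] at h1
  have h3 : sw (xm T (k + 1)) i j = ∑ A, xm T (k + 1) A
      * (if (i ∈ A ↔ j ∈ A) then (0 : ℝ) else 1) := rfl
  have h4 : sw (xm T k) i j = ∑ A, xm T k A
      * (if (i ∈ A ↔ j ∈ A) then (0 : ℝ) else 1) := rfl
  rw [h3, h1, ← h4]
  field_simp
  ring

theorem sw_pow (T : Ω → Finset (Fin n)) (hΩ : 0 < Fintype.card Ω)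
    (hn : (∅ : Finset (Fin n)) ≠ univ) (i j : Fin n) (k : ℕ) :
    1 - 2 * sw (xm T k) i j = (1 - (∑ ω, if (i ∈ T ω ↔ j ∈ T ω) then (0 : ℝ) else 1)
      / Fintype.card Ω) ^ k := by
  induction k with
  | zero =>
    have : sw (xm T 0) i j = 0 := by
      unfold sw xm
      apply sum_eq_zero
      intro A _
      by_cases h1 : A = ∅
      · subst h1; simp
      · by_cases h2 : A = univ
        · subst h2; simp
        · simp [h1, h2]
    rw [this]; simp
  | succ k ih =>
    rw [sw_succ T hΩ hn, ih, pow_succ]; ring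

theorem Phm_xm (T : Ω → Finset (Fin n)) (hΩ : 0 < Fintype.card Ω)
    (hn : (∅ : Finset (Fin n)) ≠ univ) (S : Finset (Fin n → ℤ)) (k : ℕ) :
    Phm (xm T k) S ≤ k / 2 * ((∑ ω, IAN S (T ω)) / Fintype.card Ω) := by
  have hΩR : (0 : ℝ) < Fintype.card Ω := by exact_mod_cast hΩ
  induction k with
  | zero =>
    unfold Phm xm
    apply le_of_eq
    rw [Nat.cast_zero, zero_div, zero_mul]
    apply sum_eq_zero
    intro A _
    by_cases h1 : A = ∅
    · subst h1; rw [IAN_empty, mul_zero]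
    · by_cases h2 : A = univ
      · subst h2; rw [IAN_univ, mul_zero]
      · simp [h1, h2]
  | succ k ih =>
    have h1 := xm_sum T hΩ k (IAN S)
    have h2 : ∀ ω, ∑ A, xm T k A * IAN S (symmDiff A (T ω)) ≤ Phm (xm T k) S + IAN S (T ω) := by
      intro ω
      have h3 : ∑ A, xm T k A * IAN S (symmDiff A (T ω))
          ≤ ∑ A, (xm T k A * IAN S A + xm T k A * IAN S (T ω)) := by
        apply sum_le_sum
        intro A _
        rw [← mul_add]
        exact mul_le_mul_of_nonneg_left (IAN_symmDiff S A (T ω)) (xm_nn T k A)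
      rw [sum_add_distrib, ← sum_mul, xm_tot T hΩ hn, one_mul] at h3
      exact h3
    have h3 := sum_le_sum (fun ω (_ : ω ∈ (univ : Finset Ω)) => h2 ω)
    rw [sum_add_distrib, sum_const, nsmul_eq_mul, card_univ] at h3
    have h4 : (∑ ω, ∑ A, xm T k A * IAN S (symmDiff A (T ω))) / (Fintype.card Ω : ℝ)
        ≤ Phm (xm T k) S + (∑ ω, IAN S (T ω)) / Fintype.card Ω := by
      rw [div_le_iff₀ hΩR, add_mul, div_mul_cancel₀ _ hΩR.ne']
      linarith
    have h5 : Phm (xm T (k + 1)) S = ∑ A, xm T (k + 1) A * IAN S A := rfl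
    have h6 : Phm (xm T k) S = ∑ A, xm T k A * IAN S A := rfl
    rw [h5, h1, ← h6]
    push_cast
    linarith

/-- the reduction: cuts which separate every pair with probability `p` -/
theorem xor_box (hn : 2 ≤ n) (T : Ω → Finset (Fin n)) (hΩ : 0 < Fintype.card Ω) (p : ℝ)
    (hp0 : 0 < p) (hp1 : p ≤ 1)
    (hsep : ∀ i j : Fin n, i ≠ j → p * Fintype.card Ω
      ≤ ∑ ω, if (i ∈ T ω ↔ j ∈ T ω) then (0 : ℝ) else 1)
    (S : Finset (Fin n → ℤ)) (hS : S.Nonempty) :
    ∃ B : Fin n → Finset ℤ, ((symmDiff S (Fintype.piFinset B)).card : ℝ)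
      ≤ 21 * 10 ^ 12 * ((∑ ω, IAN S (T ω)) / (p * Fintype.card Ω)) := by
  have hΩR : (0 : ℝ) < Fintype.card Ω := by exact_mod_cast hΩ
  have hn' : (∅ : Finset (Fin n)) ≠ univ := by
    intro h
    have : (⟨0, by omega⟩ : Fin n) ∈ (∅ : Finset (Fin n)) := by rw [h]; exact mem_univ _
    simp at this
  set k : ℕ := ⌈1 / p⌉₊ with hk
  have hk1 : 1 / p ≤ k := Nat.le_ceil _
  have hk2 : (k : ℝ) ≤ 2 / p := by
    have h1 := (Nat.ceil_lt_add_one (one_div_pos.mpr hp0).le).le
    have h2 : (1 : ℝ) ≤ 1 / p := by rw [le_div_iff₀ hp0]; linarith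
    have h3 : 2 / p = 1 / p + 1 / p := by ring
    rw [h3]
    linarith
  have hpk : 1 ≤ p * k := by
    rw [div_le_iff₀ hp0] at hk1
    linarith
  have hGd : Gd (xm T k) (1 / 8) := by
    refine ⟨xm_nn T k, xm_tot T hΩ hn' k, xm_sym T k, ?_⟩
    intro i j hij
    have h1 := sw_pow T hΩ hn' i j k
    set q : ℝ := (∑ ω, if (i ∈ T ω ↔ j ∈ T ω) then (0 : ℝ) else 1) / Fintype.card Ω with hq
    have hq1 : p ≤ q := by
      rw [hq, le_div_iff₀ hΩR]; exact hsep i j hij
    have hq2 : q ≤ 1 := by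
      rw [hq, div_le_one hΩR]
      calc (∑ ω, if (i ∈ T ω ↔ j ∈ T ω) then (0 : ℝ) else 1) ≤ ∑ _ω : Ω, (1 : ℝ) := by
            apply sum_le_sum
            intro ω _
            split_ifs <;> norm_num
        _ = Fintype.card Ω := by simp
    have h2 : (1 - q) ^ k ≤ 1 / 2 := by
      have h3 : (1 - q) ^ k ≤ (Real.exp (-p)) ^ k := by
        apply pow_le_pow_left₀ (by linarith)
        have := Real.add_one_le_exp (-p)
        linarith
      have h4 : (Real.exp (-p)) ^ k = Real.exp (-(p * k)) := by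
        rw [← Real.exp_nat_mul]; congr 1; ring
      have h5 : Real.exp (-(p * k)) ≤ Real.exp (-1) := Real.exp_le_exp.mpr (by linarith)
      have h6 := e_lo
      rw [h4] at h3
      linarith
    have h3 : 1 / 4 ≤ sw (xm T k) i j := by linarith
    have h4 : sw (xm T k) i j = ∑ A, (if i ∈ A ∧ j ∉ A then xm T k A else 0)
        + ∑ A, (if j ∈ A ∧ i ∉ A then xm T k A else 0) := by
      unfold sw
      rw [← sum_add_distrib]
      apply sum_congr rfl
      intro A _
      by_cases hi : i ∈ A <;> by_cases hj : j ∈ A <;> simp [hi, hj]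
    have h5 : ∑ A, (if j ∈ A ∧ i ∉ A then xm T k A else 0)
        = ∑ A, (if i ∈ A ∧ j ∉ A then xm T k A else 0) := by
      rw [← sum_compl]
      apply sum_congr rfl
      intro A _
      rw [xm_sym]
      simp only [mem_compl, not_not, and_comm]
    rw [h5] at h4
    linarith
  obtain ⟨B, hB⟩ := btm n (xm T k) (1 / 8) (by norm_num) (by norm_num) hGd S hS
  refine ⟨B, ?_⟩
  have h1 := Phm_xm T hΩ hn' S k
  have hI0 : 0 ≤ ∑ ω, IAN S (T ω) := sum_nonneg (fun ω _ => IAN_nonneg S _)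
  have h2 : (k : ℝ) / 2 * ((∑ ω, IAN S (T ω)) / Fintype.card Ω)
      ≤ 1 / p * ((∑ ω, IAN S (T ω)) / Fintype.card Ω) := by
    apply mul_le_mul_of_nonneg_right _ (div_nonneg hI0 hΩR.le)
    have : 2 / p = 2 * (1 / p) := by ring
    linarith
  have h3 : 1 / p * ((∑ ω, IAN S (T ω)) / Fintype.card Ω)
      = (∑ ω, IAN S (T ω)) / (p * Fintype.card Ω) := by
    field_simp
  rw [h3] at h2
  have h4 : 0 ≤ (∑ ω, IAN S (T ω)) / (p * Fintype.card Ω) :=
    div_nonneg hI0 (mul_pos hp0 hΩR).le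
  norm_num at hB
  linarith

end Pool.Agent.H488R3.UC
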