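import Mathlib
import Pool.Agent.H488R3.UC.GM6

set_option autoImplicit false

namespace Pool.Agent.Results.MP_be7f84_co.ComplementClosed

open Finset
open Pool.Agent.H488R3.UC

/-- The families `G` of subsets of `Fin d` which are closed under complements, with
`m(G) = m > 0` and `σ(G) = s > 0`: the uniform cover inequality for `G` is stable with an
absolute constant. -/
theorem result (d : ℕ) (hd : 2 ≤ d) (G : Finset (Finset (Fin d))) (m s : ℕ)
    (hm : IsLeast (Set.range fun i : Fin d => (G.filter (fun g => i ∈ g)).card) m)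
    (hs : IsLeast {c : ℕ | ∃ i j : Fin d, i ≠ j ∧
      c = (G.filter (fun g => i ∈ g ∧ j ∉ g)).card} s)
    (hm0 : 0 < m) (hs0 : 0 < s)
    (hG : ∀ g ∈ G, gᶜ ∈ G)
    (ε : ℝ) (hε : 0 ≤ ε) (S : Finset (Fin d → ℤ))
    (hS : (1 - ε) * (∏ g ∈ G,
        ((S.image (fun (x : Fin d → ℤ) (i : {i // i ∈ g}) => x i.1)).card : ℝ)) ^ ((1 : ℝ) / m)
      ≤ S.card) :
    ∃ B : Fin d → Finset ℤ,
      ((symmDiff S (Fintype.piFinset B)).card : ℝ) ≤ 5 * 10 ^ 13 * ((m : ℝ) / s) * ε * S.card := by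
  classical
  have hsdeg : ∀ i j : Fin d, i ≠ j → s ≤ (G.filter (fun g => i ∈ g ∧ j ∉ g)).card :=
    fun i j hij => hs.2 ⟨i, j, hij, rfl⟩
  have hmdeg : ∀ i : Fin d, m ≤ (G.filter (fun g => i ∈ g)).card := fun i => hm.2 ⟨i, rfl⟩
  have hex : ∀ i : Fin d, ∃ j : Fin d, i ≠ j := by
    intro i
    have : Nontrivial (Fin d) := Fin.nontrivial_iff_two_le.mpr hd
    obtain ⟨j, hj⟩ := exists_ne i
    exact ⟨j, hj.symm⟩
  -- `s ≤ m`
  have hsm : s ≤ m := by
    obtain ⟨i, hi⟩ := hm.1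
    obtain ⟨j, hij⟩ := hex i
    rw [← hi]
    refine (hsdeg i j hij).trans (card_le_card ?_)
    intro g hg
    rw [mem_filter] at hg ⊢
    exact ⟨hg.1, hg.2.1⟩
  have hmR : (0 : ℝ) < m := by exact_mod_cast hm0
  have hsR : (0 : ℝ) < s := by exact_mod_cast hs0
  have hρ : (1 : ℝ) ≤ (m : ℝ) / s := by
    rw [le_div_iff₀ hsR, one_mul]; exact_mod_cast hsm
  have : Nonempty (Fin d) := ⟨⟨0, by omega⟩⟩
  rcases S.eq_empty_or_nonempty with hSe | hSne
  · refine ⟨fun _ => ∅, ?_⟩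
    rw [Fintype.piFinset_empty, ← bot_eq_empty, symmDiff_bot, hSe]
    simp
  have hN0 : (0 : ℝ) < S.card := by exact_mod_cast card_pos.mpr hSne
  rcases le_or_gt (1 / 2) ε with hbig | hsmall
  · refine ⟨fun _ => ∅, ?_⟩
    rw [Fintype.piFinset_empty, ← bot_eq_empty, symmDiff_bot]
    have h2 : (1 : ℝ) ≤ 5 * 10 ^ 13 * ((m : ℝ) / s) * ε := by nlinarith
    calc (S.card : ℝ) = 1 * S.card := (one_mul _).symm
      _ ≤ 5 * 10 ^ 13 * ((m : ℝ) / s) * ε * S.card := mul_le_mul_of_nonneg_right h2 hN0.le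
  -- the main case
  have hpos : ∀ g ∈ G, (0 : ℝ) < (proj g S).card := by
    intro g _
    exact_mod_cast card_pos.mpr (hSne.image _)
  have hprod : (0 : ℝ) < ∏ g ∈ G, ((proj g S).card : ℝ) := prod_pos hpos
  have h1e : 0 < 1 - ε := by linarith
  have hlog : Real.log (1 - ε) + 1 / m * ∑ g ∈ G, Real.log (proj g S).card
      ≤ Real.log S.card := by
    have h1 := Real.log_le_log (mul_pos h1e (Real.rpow_pos_of_pos hprod _)) hS
    rw [Real.log_mul h1e.ne' (Real.rpow_pos_of_pos hprod _).ne'] at h1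
    have h2 : Real.log ((∏ g ∈ G, ((proj g S).card : ℝ)) ^ ((1 : ℝ) / m))
        = 1 / m * ∑ g ∈ G, Real.log (proj g S).card := by
      rw [Real.log_rpow hprod, Real.log_prod (fun g hg => (hpos g hg).ne')]
    rw [← h2]
    exact h1
  have hlog2 : -(2 * ε) ≤ Real.log (1 - ε) := by
    have h1 := Real.one_sub_inv_le_log_of_pos h1e
    have h2 : -(2 * ε) ≤ 1 - (1 - ε)⁻¹ := by
      rw [le_sub_iff_add_le, ← sub_nonneg]
      have : 1 - (-(2 * ε) + (1 - ε)⁻¹) = ε * (1 - 2 * ε) / (1 - ε) := by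
        field_simp
        ring
      rw [this]
      apply div_nonneg _ h1e.le
      apply mul_nonneg hε
      linarith
    linarith
  have hD : ∑ g ∈ G, Real.log (proj g S).card - m * Real.log S.card ≤ 2 * m * ε := by
    have h1 : (1 : ℝ) / m * ∑ g ∈ G, Real.log (proj g S).card ≤ Real.log S.card + 2 * ε := by
      linarith
    have h2 := mul_le_mul_of_nonneg_left h1 hmR.le
    have h3 : (m : ℝ) * (1 / m * ∑ g ∈ G, Real.log (proj g S).card)
        = ∑ g ∈ G, Real.log (proj g S).card := by field_simp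
    rw [h3] at h2
    linarith
  have hle : ∑ g ∈ G, hN S g ≤ S.card * ∑ g ∈ G, Real.log (proj g S).card := by
    rw [mul_sum]
    exact sum_le_sum (fun g _ => hN_le g S hSne)
  have hfin : ∑ g ∈ G, hN S g - m * (S.card * Real.log S.card) ≤ 2 * m * ε * S.card := by
    have h1 := mul_le_mul_of_nonneg_left hD hN0.le
    linarith
  -- every point lies in exactly half of the members
  have hcompl : ∀ f : Finset (Fin d) → ℝ, ∑ g ∈ G, f gᶜ = ∑ g ∈ G, f g := by
    intro f
    refine sum_nbij' (fun g => gᶜ) (fun g => gᶜ) (fun g hg => hG g hg) (fun g hg => hG g hg)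
      (fun g _ => compl_compl g) (fun g _ => compl_compl g) (fun g _ => rfl)
  have hhalf : ∀ i : Fin d, 2 * ((G.filter (fun g => i ∈ g)).card : ℝ) = G.card := by
    intro i
    have h1 := hcompl (fun g => if i ∈ g then (1 : ℝ) else 0)
    have h2 : ∑ g ∈ G, ((if i ∈ g then (1 : ℝ) else 0) + (if i ∈ gᶜ then (1 : ℝ) else 0))
        = G.card := by
      have : ∀ g ∈ G, ((if i ∈ g then (1 : ℝ) else 0) + (if i ∈ gᶜ then (1 : ℝ) else 0)) = 1 := by
        intro g _
        by_cases hi : i ∈ g <;> simp [hi]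
      rw [sum_congr rfl this]; simp
    rw [sum_add_distrib, h1, ← sum_filter, sum_const, nsmul_eq_mul, mul_one] at h2
    linarith
  have hGm : (G.card : ℝ) = 2 * m := by
    obtain ⟨i, hi⟩ := hm.1
    have := hhalf i
    have hi' : ((G.filter (fun g => i ∈ g)).card : ℝ) = m := by exact_mod_cast hi
    rw [hi'] at this
    exact this.symm
  have hΩc : Fintype.card {g // g ∈ G} = G.card := Fintype.card_coe G
  have hΩ : 0 < Fintype.card {g // g ∈ G} := by
    rw [hΩc]
    have : (0 : ℝ) < G.card := by rw [hGm]; linarith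
    exact_mod_cast this
  have hp1 : (s : ℝ) / m ≤ 1 := by
    rw [div_le_one hmR]; exact_mod_cast hsm
  obtain ⟨B, hB⟩ := xor_box hd (fun ω : {g // g ∈ G} => ω.1) hΩ ((s : ℝ) / m)
    (div_pos hsR hmR) hp1 (fun i j hij => by
      rw [hΩc, hGm]
      have e1 : ∑ ω : {g // g ∈ G}, (if (i ∈ ω.1 ↔ j ∈ ω.1) then (0 : ℝ) else 1)
          = ∑ g ∈ G, if (i ∈ g ↔ j ∈ g) then (0 : ℝ) else 1 :=
        sum_coe_sort G (fun g => if (i ∈ g ↔ j ∈ g) then (0 : ℝ) else 1)
      have e2 : ∑ g ∈ G, (if (i ∈ g ↔ j ∈ g) then (0 : ℝ) else 1)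
          = (G.filter (fun g => i ∈ g ∧ j ∉ g)).card
            + (G.filter (fun g => j ∈ g ∧ i ∉ g)).card := by
        rw [card_filter, card_filter]
        push_cast
        rw [← sum_add_distrib]
        apply sum_congr rfl
        intro g _
        by_cases hi : i ∈ g <;> by_cases hj : j ∈ g <;> simp [hi, hj]
      rw [e1, e2]
      have h1 : (s : ℝ) ≤ (G.filter (fun g => i ∈ g ∧ j ∉ g)).card := by
        exact_mod_cast hsdeg i j hij
      have h2 : (s : ℝ) ≤ (G.filter (fun g => j ∈ g ∧ i ∉ g)).card := by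
        exact_mod_cast hsdeg j i hij.symm
      have h3 : (s : ℝ) / m * (2 * m) = 2 * s := by field_simp
      rw [h3]
      linarith) S hSne
  refine ⟨B, hB.trans ?_⟩
  have e1 : ∑ ω : {g // g ∈ G}, IAN S ω.1 = ∑ g ∈ G, IAN S g := sum_coe_sort G (IAN S)
  have e2 : ∑ g ∈ G, IAN S g = 2 * (∑ g ∈ G, hN S g - m * (S.card * Real.log S.card)) := by
    unfold IAN
    rw [sum_sub_distrib, sum_add_distrib, hcompl (hN S), sum_const, nsmul_eq_mul, hGm, hN_univ]
    ring
  have e3 : (s : ℝ) / m * (Fintype.card {g // g ∈ G} : ℝ) = 2 * s := by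
    rw [hΩc, hGm]; field_simp
  rw [e1, e2, e3]
  have h1 : 2 * (∑ g ∈ G, hN S g - m * (S.card * Real.log S.card)) / (2 * (s : ℝ))
      ≤ 2 * (2 * m * ε * S.card) / (2 * s) := by
    apply div_le_div_of_nonneg_right _ (by linarith)
    linarith
  have h2 : 2 * (2 * (m : ℝ) * ε * S.card) / (2 * s) = 2 * (((m : ℝ) / s) * ε * S.card) := by
    field_simp
  rw [h2] at h1
  have h3 : 0 ≤ ((m : ℝ) / s) * ε * S.card :=
    mul_nonneg (mul_nonneg (by linarith) hε) hN0.le
  linarith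

end Pool.Agent.Results.MP_be7f84_co.ComplementClosed
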