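import Mathlib

/-!
Fibre counts of projections of a finite set of integer points, and the submodularity of the
corresponding entropy.
-/

namespace Pool.Agent.H488R3.UC

open Finset

variable {n : ℕ}

/-- `x` and `y` agree on `g` -/
def Agr (g : Finset (Fin n)) (x y : Fin n → ℤ) : Prop := ∀ i ∈ g, x i = y i

instance (g : Finset (Fin n)) (x y : Fin n → ℤ) : Decidable (Agr g x y) :=
  inferInstanceAs (Decidable (∀ i ∈ g, x i = y i))

theorem Agr.symm {g : Finset (Fin n)} {x y : Fin n → ℤ} (h : Agr g x y) : Agr g y x :=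
  fun i hi => (h i hi).symm

theorem Agr.trans {g : Finset (Fin n)} {x y z : Fin n → ℤ} (h : Agr g x y) (h' : Agr g y z) :
    Agr g x z := fun i hi => (h i hi).trans (h' i hi)

theorem Agr.mono {g g' : Finset (Fin n)} {x y : Fin n → ℤ} (hg : g ⊆ g') (h : Agr g' x y) :
    Agr g x y := fun i hi => h i (hg hi)

/-- the number of points of `S` which agree with `x` on `g` -/
def fc (g : Finset (Fin n)) (S : Finset (Fin n → ℤ)) (x : Fin n → ℤ) : ℕ :=
  (S.filter (fun y => Agr g x y)).card

theorem fc_pos {g : Finset (Fin n)} {S : Finset (Fin n → ℤ)} {x : Fin n → ℤ} (hx : x ∈ S) :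
    0 < fc g S x :=
  card_pos.mpr ⟨x, mem_filter.mpr ⟨hx, fun _ _ => rfl⟩⟩

theorem fc_congr {g : Finset (Fin n)} {S : Finset (Fin n → ℤ)} {x y : Fin n → ℤ}
    (h : Agr g x y) : fc g S x = fc g S y := by
  unfold fc
  congr 1
  apply filter_congr
  intro z _
  exact ⟨fun hz => h.symm.trans hz, fun hz => h.trans hz⟩

theorem fc_anti {g g' : Finset (Fin n)} (hg : g ⊆ g') (S : Finset (Fin n → ℤ))
    (x : Fin n → ℤ) : fc g' S x ≤ fc g S x := by
  apply card_le_card
  intro z hz
  rw [mem_filter] at hz ⊢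
  exact ⟨hz.1, hz.2.mono hg⟩

/-- `|S|` times the entropy of the projection to `g` of a uniform point of `S` -/
noncomputable def hN (S : Finset (Fin n → ℤ)) (g : Finset (Fin n)) : ℝ :=
  S.card * Real.log S.card - ∑ x ∈ S, Real.log (fc g S x)

theorem hN_empty (S : Finset (Fin n → ℤ)) : hN S ∅ = 0 := by
  unfold hN
  have : ∀ x ∈ S, Real.log (fc ∅ S x) = Real.log S.card := by
    intro x _
    have : fc ∅ S x = S.card := by
      unfold fc
      rw [filter_true_of_mem]
      intro y _ i hi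
      simp at hi
    rw [this]
  rw [sum_congr rfl this, sum_const, nsmul_eq_mul, sub_self]

theorem hN_mono (S : Finset (Fin n → ℤ)) {g g' : Finset (Fin n)} (hg : g ⊆ g') :
    hN S g ≤ hN S g' := by
  unfold hN
  apply sub_le_sub_left
  apply sum_le_sum
  intro x hx
  apply Real.log_le_log
  · exact_mod_cast fc_pos hx
  · exact_mod_cast fc_anti hg S x

theorem sum_ite_agr (S : Finset (Fin n → ℤ)) (g : Finset (Fin n)) (x : Fin n → ℤ) :
    (fc g S x : ℝ) = ∑ y ∈ S, if Agr g x y then (1 : ℝ) else 0 := by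
  unfold fc
  rw [← sum_filter, sum_const, nsmul_eq_mul, mul_one]

theorem key (A B : Finset (Fin n)) (S : Finset (Fin n → ℤ)) :
    ∑ x ∈ S, ((fc A S x : ℝ) * fc B S x) / ((fc (A ∪ B) S x : ℝ) * fc (A ∩ B) S x)
      ≤ S.card := by
  have h1 : ∀ x ∈ S, ((fc A S x : ℝ) * fc B S x) / ((fc (A ∪ B) S x : ℝ) * fc (A ∩ B) S x)
      = ∑ y ∈ S, ∑ z ∈ S, (if Agr A x y ∧ Agr B x z then
        1 / ((fc (A ∪ B) S x : ℝ) * fc (A ∩ B) S y) else 0) := by
    intro x _
    rw [sum_ite_agr S A x, sum_ite_agr S B x, sum_mul_sum, sum_div]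
    apply sum_congr rfl
    intro y _
    rw [sum_div]
    apply sum_congr rfl
    intro z _
    by_cases hA : Agr A x y
    · by_cases hB : Agr B x z
      · rw [if_pos hA, if_pos hB, if_pos ⟨hA, hB⟩,
          fc_congr (S := S) (hA.mono inter_subset_left), mul_one]
      · rw [if_neg hB, if_neg (fun h : Agr A x y ∧ Agr B x z => hB h.2)]; simp
    · rw [if_neg hA, if_neg (fun h : Agr A x y ∧ Agr B x z => hA h.1)]; simp
  rw [sum_congr rfl h1, sum_comm]
  have h2 : ∀ y ∈ S, ∑ x ∈ S, ∑ z ∈ S, (if Agr A x y ∧ Agr B x z then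
        1 / ((fc (A ∪ B) S x : ℝ) * fc (A ∩ B) S y) else 0) ≤ 1 := by
    intro y hy
    rw [sum_comm]
    have hposy : (0 : ℝ) < fc (A ∩ B) S y := by exact_mod_cast fc_pos hy
    have h3 : ∀ z ∈ S, ∑ x ∈ S, (if Agr A x y ∧ Agr B x z then
        1 / ((fc (A ∪ B) S x : ℝ) * fc (A ∩ B) S y) else 0)
        ≤ if Agr (A ∩ B) y z then 1 / (fc (A ∩ B) S y : ℝ) else 0 := by
      intro z _
      by_cases hex : ∃ x0 ∈ S, Agr A x0 y ∧ Agr B x0 z
      · obtain ⟨x0, hx0, hA, hB⟩ := hex
        have hyz : Agr (A ∩ B) y z :=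
          (hA.symm.mono inter_subset_left).trans (hB.mono inter_subset_right)
        rw [if_pos hyz]
        have hiff : ∀ x ∈ S, (Agr A x y ∧ Agr B x z) ↔ Agr (A ∪ B) x0 x := by
          intro x _
          constructor
          · rintro ⟨h1, h2⟩ i hi
            rcases mem_union.mp hi with h | h
            · exact (hA i h).trans (h1 i h).symm
            · exact (hB i h).trans (h2 i h).symm
          · intro h
            exact ⟨(h.symm.mono subset_union_left).trans hA,
              (h.symm.mono subset_union_right).trans hB⟩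
        have hposU : (0 : ℝ) < fc (A ∪ B) S x0 := by exact_mod_cast fc_pos hx0
        have h4 : ∀ x ∈ S, (if Agr A x y ∧ Agr B x z then
            1 / ((fc (A ∪ B) S x : ℝ) * fc (A ∩ B) S y) else 0)
            = if Agr (A ∪ B) x0 x then 1 / ((fc (A ∪ B) S x0 : ℝ) * fc (A ∩ B) S y) else 0 := by
          intro x hx
          by_cases h : Agr (A ∪ B) x0 x
          · rw [if_pos h, if_pos ((hiff x hx).mpr h), fc_congr (S := S) h]
          · rw [if_neg h, if_neg (fun h' => h ((hiff x hx).mp h'))]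
        rw [sum_congr rfl h4, ← sum_filter, sum_const, nsmul_eq_mul]
        have h5 : ((S.filter (fun y => Agr (A ∪ B) x0 y)).card : ℝ) = fc (A ∪ B) S x0 := rfl
        rw [h5]
        apply le_of_eq
        field_simp
      · have : ∀ x ∈ S, (if Agr A x y ∧ Agr B x z then
            1 / ((fc (A ∪ B) S x : ℝ) * fc (A ∩ B) S y) else 0) = 0 := by
          intro x hx
          rw [if_neg (fun h => hex ⟨x, hx, h⟩)]
        rw [sum_congr rfl this, sum_const_zero]
        split_ifs
        · positivity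
        · exact le_refl _
    refine (sum_le_sum h3).trans ?_
    rw [← sum_filter, sum_const, nsmul_eq_mul]
    have h5 : ((S.filter (fun z => Agr (A ∩ B) y z)).card : ℝ) = fc (A ∩ B) S y := rfl
    rw [h5]
    apply le_of_eq
    field_simp
  refine (sum_le_sum h2).trans ?_
  rw [sum_const, nsmul_eq_mul, mul_one]

theorem hN_submod (S : Finset (Fin n → ℤ)) (A B : Finset (Fin n)) :
    hN S (A ∪ B) + hN S (A ∩ B) ≤ hN S A + hN S B := by
  have h1 : ∑ x ∈ S, (Real.log (fc A S x) + Real.log (fc B S x)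
      - (Real.log (fc (A ∪ B) S x) + Real.log (fc (A ∩ B) S x)))
      ≤ ∑ x ∈ S, (((fc A S x : ℝ) * fc B S x) / ((fc (A ∪ B) S x : ℝ) * fc (A ∩ B) S x) - 1) := by
    apply sum_le_sum
    intro x hx
    have a1 : (0 : ℝ) < fc A S x := by exact_mod_cast fc_pos hx
    have a2 : (0 : ℝ) < fc B S x := by exact_mod_cast fc_pos hx
    have a3 : (0 : ℝ) < fc (A ∪ B) S x := by exact_mod_cast fc_pos hx
    have a4 : (0 : ℝ) < fc (A ∩ B) S x := by exact_mod_cast fc_pos hx
    have := Real.log_le_sub_one_of_pos (div_pos (mul_pos a1 a2) (mul_pos a3 a4))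
    rwa [Real.log_div (mul_pos a1 a2).ne' (mul_pos a3 a4).ne', Real.log_mul a1.ne' a2.ne',
      Real.log_mul a3.ne' a4.ne'] at this
  have h2 : ∑ x ∈ S, (((fc A S x : ℝ) * fc B S x) / ((fc (A ∪ B) S x : ℝ) * fc (A ∩ B) S x) - 1)
      ≤ 0 := by
    rw [sum_sub_distrib, sum_const, nsmul_eq_mul, mul_one]
    linarith [key A B S]
  have h3 := h1.trans h2
  rw [sum_sub_distrib, sum_add_distrib, sum_add_distrib] at h3
  unfold hN
  linarith

/-- the projection of `S` to the coordinates in `g` -/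
def proj (g : Finset (Fin n)) (S : Finset (Fin n → ℤ)) : Finset ({i // i ∈ g} → ℤ) :=
  S.image (fun x i => x i.1)

theorem sum_inv_fc (g : Finset (Fin n)) (S : Finset (Fin n → ℤ)) :
    ∑ x ∈ S, 1 / (fc g S x : ℝ) = (proj g S).card := by
  classical
  have h1 : ∀ x ∈ S, (fun i : {i // i ∈ g} => x i.1) ∈ proj g S := fun x hx =>
    mem_image_of_mem _ hx
  rw [← sum_fiberwise_of_maps_to h1, card_eq_sum_ones]
  push_cast
  apply sum_congr rfl
  intro u hu
  obtain ⟨x0, hx0, rfl⟩ := mem_image.mp hu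
  have h2 : S.filter (fun x => (fun i : {i // i ∈ g} => x i.1) = fun i => x0 i.1)
      = S.filter (fun y => Agr g x0 y) := by
    apply filter_congr
    intro y _
    constructor
    · intro h i hi
      exact (congrFun h ⟨i, hi⟩).symm
    · intro h
      funext i
      exact (h i.1 i.2).symm
  rw [h2]
  have h3 : ∀ y ∈ S.filter (fun y => Agr g x0 y), 1 / (fc g S y : ℝ) = 1 / (fc g S x0 : ℝ) := by
    intro y hy
    rw [fc_congr (S := S) (mem_filter.mp hy).2]
  rw [sum_congr rfl h3, sum_const, nsmul_eq_mul]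
  have h4 : ((S.filter (fun y => Agr g x0 y)).card : ℝ) = fc g S x0 := rfl
  have h5 : (0 : ℝ) < fc g S x0 := by exact_mod_cast fc_pos hx0
  rw [h4]
  field_simp

/-- the entropy of a projection is at most the logarithm of its size -/
theorem hN_le (g : Finset (Fin n)) (S : Finset (Fin n → ℤ)) (hS : S.Nonempty) :
    hN S g ≤ S.card * Real.log (proj g S).card := by
  have hN0 : (0 : ℝ) < S.card := by exact_mod_cast card_pos.mpr hS
  have hP0 : (0 : ℝ) < (proj g S).card := by
    exact_mod_cast card_pos.mpr (hS.image _)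
  have h1 : ∑ x ∈ S, (Real.log S.card - (Real.log (fc g S x) + Real.log (proj g S).card))
      ≤ ∑ x ∈ S, ((S.card / (proj g S).card) * (1 / (fc g S x : ℝ)) - 1) := by
    apply sum_le_sum
    intro x hx
    have a1 : (0 : ℝ) < fc g S x := by exact_mod_cast fc_pos hx
    have := Real.log_le_sub_one_of_pos (div_pos hN0 (mul_pos a1 hP0))
    rw [Real.log_div hN0.ne' (mul_pos a1 hP0).ne', Real.log_mul a1.ne' hP0.ne'] at this
    refine this.trans (le_of_eq ?_)
    field_simp
  have h2 : ∑ x ∈ S, (((S.card : ℝ) / (proj g S).card) * (1 / (fc g S x : ℝ)) - 1) = 0 := by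
    rw [sum_sub_distrib, ← mul_sum, sum_inv_fc, sum_const, nsmul_eq_mul, mul_one]
    field_simp
    ring
  rw [h2, sum_sub_distrib, sum_add_distrib, sum_const, sum_const, nsmul_eq_mul,
    nsmul_eq_mul] at h1
  unfold hN
  linarith

end Pool.Agent.H488R3.UC
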