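import Pool.Agent.H488R3.UC.Box
import Pool.Agent.H488R3.UC.Ent

/-!
The dual total correlation of a uniform point of a finite set and its recursion over slices.
-/

namespace Pool.Agent.H488R3.UC

open Finset

variable {n : ℕ}

/-- `|S|` times the dual total correlation of a uniform point of `S` -/
noncomputable def DT (S : Finset (Fin n → ℤ)) : ℝ :=
  S.card * Real.log S.card - ∑ j, ∑ x ∈ S, Real.log (fc (univ.erase j) S x)

/-- the point with first coordinates `y` and last coordinate `a` -/
def app (y : Fin n → ℤ) (a : ℤ) : Fin (n + 1) → ℤ := Fin.snoc (α := fun _ => ℤ) y a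

@[simp] theorem app_last (y : Fin n → ℤ) (a : ℤ) : app y a (Fin.last n) = a := by
  simp [app]

@[simp] theorem app_castSucc (y : Fin n → ℤ) (a : ℤ) (i : Fin n) : app y a i.castSucc = y i := by
  simp [app]

@[simp] theorem ini_app (y : Fin n → ℤ) (a : ℤ) : ini (app y a) = y := by
  funext i; simp [ini]

theorem app_ini (x : Fin (n + 1) → ℤ) : app (ini x) (x (Fin.last n)) = x := by
  apply ext_last
  · simp
  · simp

theorem mem_slice_app {a : ℤ} {S : Finset (Fin (n + 1) → ℤ)} {y : Fin n → ℤ} :
    y ∈ slice a S ↔ app y a ∈ S := mem_slice'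

theorem sum_slices (S : Finset (Fin (n + 1) → ℤ)) (F : (Fin (n + 1) → ℤ) → ℝ) :
    ∑ x ∈ S, F x = ∑ a ∈ vals S, ∑ y ∈ slice a S, F (app y a) := by
  have h1 : ∀ x ∈ S, x (Fin.last n) ∈ vals S := fun x hx =>
    mem_image_of_mem (fun x : Fin (n + 1) → ℤ => x (Fin.last n)) hx
  rw [← sum_fiberwise_of_maps_to h1]
  apply sum_congr rfl
  intro a _
  unfold slice
  rw [sum_image]
  · apply sum_congr rfl
    intro x hx
    have hx' := (mem_filter.mp hx).2
    rw [← hx', app_ini]
  · intro x hx y hy hxy
    simp only [fib, coe_filter, Set.mem_ofPred_eq] at hx hy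
    exact ext_last hxy (hx.2.trans hy.2.symm)

theorem fc_castSucc (S : Finset (Fin (n + 1) → ℤ)) (a : ℤ) (y : Fin n → ℤ) (j : Fin n) :
    fc (univ.erase j.castSucc) S (app y a) = fc (univ.erase j) (slice a S) y := by
  unfold fc
  have hlast : ∀ z, Agr (univ.erase j.castSucc) (app y a) z → z (Fin.last n) = a := by
    intro z hz
    have := hz (Fin.last n) (mem_erase.mpr ⟨(Fin.castSucc_lt_last j).ne', mem_univ _⟩)
    rw [app_last] at this
    exact this.symm
  have himg : (slice a S).filter (fun z => Agr (univ.erase j) y z)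
      = (S.filter (fun z => Agr (univ.erase j.castSucc) (app y a) z)).image ini := by
    ext z
    simp only [mem_filter, mem_image]
    constructor
    · rintro ⟨hz, hag⟩
      refine ⟨app z a, ⟨mem_slice_app.mp hz, ?_⟩, ini_app z a⟩
      intro i hi
      refine Fin.lastCases ?_ (fun k hk => ?_) i hi
      · intro _; simp
      · rw [app_castSucc, app_castSucc]
        apply hag
        rw [mem_erase] at hk ⊢
        exact ⟨fun e => hk.1 (by rw [e]), mem_univ _⟩
    · rintro ⟨x, ⟨hx, hag⟩, rfl⟩
      have hxl := hlast x hag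
      refine ⟨mem_slice.mpr ⟨x, hx, hxl, rfl⟩, ?_⟩
      intro i hi
      have := hag i.castSucc (by
        rw [mem_erase] at hi ⊢
        exact ⟨fun e => hi.1 (Fin.castSucc_injective n e), mem_univ _⟩)
      rw [app_castSucc] at this
      exact this
  rw [himg]
  symm
  apply card_image_of_injOn
  intro x hx z hz hxz
  simp only [coe_filter, Set.mem_ofPred_eq] at hx hz
  exact ext_last hxz ((hlast x hx.2).trans (hlast z hz.2).symm)

theorem fc_last (S : Finset (Fin (n + 1) → ℤ)) (a : ℤ) (y : Fin n → ℤ) :
    fc (univ.erase (Fin.last n)) S (app y a)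
      = ((vals S).filter (fun b => y ∈ slice b S)).card := by
  unfold fc
  have hini : ∀ z, Agr (univ.erase (Fin.last n)) (app y a) z → ini z = y := by
    intro z hz
    funext i
    have := hz i.castSucc (mem_erase.mpr ⟨(Fin.castSucc_lt_last i).ne, mem_univ _⟩)
    rw [app_castSucc] at this
    exact this.symm
  have himg : (vals S).filter (fun b => y ∈ slice b S)
      = (S.filter (fun z => Agr (univ.erase (Fin.last n)) (app y a) z)).image
        (fun z => z (Fin.last n)) := by
    ext b
    simp only [mem_filter, mem_image]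
    constructor
    · rintro ⟨hb, hyb⟩
      refine ⟨app y b, ⟨mem_slice_app.mp hyb, ?_⟩, app_last y b⟩
      intro i hi
      refine Fin.lastCases ?_ (fun k hk => ?_) i hi
      · intro h; simp at h
      · simp
    · rintro ⟨x, ⟨hx, hag⟩, rfl⟩
      refine ⟨mem_image_of_mem (fun x : Fin (n + 1) → ℤ => x (Fin.last n)) hx, ?_⟩
      exact mem_slice.mpr ⟨x, hx, rfl, hini x hag⟩
  rw [himg]
  symm
  apply card_image_of_injOn
  intro x hx z hz hxz
  simp only [coe_filter, Set.mem_ofPred_eq] at hx hz
  exact ext_last ((hini x hx.2).trans (hini z hz.2).symm) hxz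

theorem sum_count (S : Finset (Fin (n + 1) → ℤ)) (a : ℤ) :
    ∑ y ∈ slice a S, (((vals S).filter (fun b => y ∈ slice b S)).card : ℝ)
      = ∑ b ∈ vals S, ((slice a S ∩ slice b S).card : ℝ) := by
  have h1 : ∀ y ∈ slice a S, (((vals S).filter (fun b => y ∈ slice b S)).card : ℝ)
      = ∑ b ∈ vals S, if y ∈ slice b S then (1 : ℝ) else 0 := by
    intro y _
    rw [← sum_filter, sum_const, nsmul_eq_mul, mul_one]
  rw [sum_congr rfl h1, sum_comm]
  apply sum_congr rfl
  intro b _
  rw [← sum_filter, sum_const, nsmul_eq_mul, mul_one]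
  congr 2

theorem rec2 (S : Finset (Fin (n + 1) → ℤ)) (hS : S.Nonempty) :
    ∑ a ∈ vals S, DT (slice a S)
      + (S.card - (∑ a ∈ vals S, ∑ b ∈ vals S,
        ((slice a S).card : ℝ) * (slice a S ∩ slice b S).card) / S.card) ≤ DT S := by
  have hN : (0 : ℝ) < S.card := by exact_mod_cast card_pos.mpr hS
  have hNS : (S.card : ℝ) = ∑ a ∈ vals S, ((slice a S).card : ℝ) := card_cast_eq_sum S
  have e1 : DT S = S.card * Real.log S.card
      - ∑ j : Fin n, ∑ a ∈ vals S, ∑ y ∈ slice a S,
        Real.log (fc (univ.erase j) (slice a S) y)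
      - ∑ a ∈ vals S, ∑ y ∈ slice a S,
        Real.log ((vals S).filter (fun b => y ∈ slice b S)).card := by
    unfold DT
    rw [Fin.sum_univ_castSucc]
    have h1 : ∀ j : Fin n, ∑ x ∈ S, Real.log (fc (univ.erase j.castSucc) S x)
        = ∑ a ∈ vals S, ∑ y ∈ slice a S, Real.log (fc (univ.erase j) (slice a S) y) := by
      intro j
      rw [sum_slices]
      simp only [fc_castSucc]
    have h2 : ∑ x ∈ S, Real.log (fc (univ.erase (Fin.last n)) S x)
        = ∑ a ∈ vals S, ∑ y ∈ slice a S,
          Real.log ((vals S).filter (fun b => y ∈ slice b S)).card := by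
      rw [sum_slices]
      simp only [fc_last]
    simp only [h1]
    rw [h2]; ring
  have e2 : ∑ a ∈ vals S, DT (slice a S)
      = ∑ a ∈ vals S, ((slice a S).card : ℝ) * Real.log (slice a S).card
        - ∑ j : Fin n, ∑ a ∈ vals S, ∑ y ∈ slice a S,
          Real.log (fc (univ.erase j) (slice a S) y) := by
    unfold DT
    rw [sum_sub_distrib]
    congr 1
    exact sum_comm
  have h3 : ∀ a ∈ vals S, ∀ y ∈ slice a S,
      1 - (slice a S).card * (((vals S).filter (fun b => y ∈ slice b S)).card : ℝ) / S.card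
      ≤ Real.log S.card - Real.log (slice a S).card
        - Real.log ((vals S).filter (fun b => y ∈ slice b S)).card := by
    intro a ha y hy
    have a1 : (0 : ℝ) < (slice a S).card := by
      exact_mod_cast card_pos.mpr (slice_nonempty ha)
    have a2 : (0 : ℝ) < ((vals S).filter (fun b => y ∈ slice b S)).card := by
      exact_mod_cast card_pos.mpr ⟨a, mem_filter.mpr ⟨ha, hy⟩⟩
    have := Real.log_le_sub_one_of_pos (div_pos (mul_pos a1 a2) hN)
    rw [Real.log_div (mul_pos a1 a2).ne' hN.ne', Real.log_mul a1.ne' a2.ne'] at this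
    linarith
  have h4 := sum_le_sum (fun a ha => sum_le_sum (h3 a ha))
  have e3 : ∑ a ∈ vals S, ∑ y ∈ slice a S,
      (1 - (slice a S).card * (((vals S).filter (fun b => y ∈ slice b S)).card : ℝ) / S.card)
      = S.card - (∑ a ∈ vals S, ∑ b ∈ vals S,
        ((slice a S).card : ℝ) * (slice a S ∩ slice b S).card) / S.card := by
    rw [sum_div, eq_sub_iff_add_eq, ← sum_add_distrib]
    conv_rhs => rw [hNS]
    apply sum_congr rfl
    intro a _
    rw [sum_sub_distrib, sum_const, nsmul_eq_mul, mul_one, ← sum_div, ← mul_sum, sum_count,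
      ← mul_sum]
    ring
  have e4 : ∑ a ∈ vals S, ∑ y ∈ slice a S,
      (Real.log S.card - Real.log (slice a S).card
        - Real.log ((vals S).filter (fun b => y ∈ slice b S)).card)
      = S.card * Real.log S.card
        - ∑ a ∈ vals S, ((slice a S).card : ℝ) * Real.log (slice a S).card
        - ∑ a ∈ vals S, ∑ y ∈ slice a S,
          Real.log ((vals S).filter (fun b => y ∈ slice b S)).card := by
    have : ∀ a ∈ vals S, ∑ y ∈ slice a S,
        (Real.log S.card - Real.log (slice a S).card
          - Real.log ((vals S).filter (fun b => y ∈ slice b S)).card)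
        = (slice a S).card * Real.log S.card
          - ((slice a S).card : ℝ) * Real.log (slice a S).card
          - ∑ y ∈ slice a S, Real.log ((vals S).filter (fun b => y ∈ slice b S)).card := by
      intro a _
      rw [sum_sub_distrib, sum_sub_distrib, sum_const, sum_const, nsmul_eq_mul, nsmul_eq_mul]
    rw [sum_congr rfl this, sum_sub_distrib, sum_sub_distrib, ← sum_mul, ← hNS]
  rw [e3, e4] at h4
  rw [e1, e2]
  linarith

end Pool.Agent.H488R3.UC
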