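import Pool.Agent.H488R3.UC.BT4c

/-!
The orthogonal decomposition on a box, and weighted bipartitions.
-/

namespace Pool.Agent.H488R3.UC

open Finset

variable {n : ℕ}

/-- the correlation of `F` with itself over the coordinates in `A` -/
def QQ (B : Fin n → Finset ℤ) (A : Finset (Fin n)) (F : (Fin n → ℤ) → ℝ) : ℝ :=
  ∑ x ∈ Fintype.piFinset B, ∑ y ∈ Fintype.piFinset B, F x * F (cr A x y)

theorem QQ_mp (B : Fin (n + 1) → Finset ℤ) (F : (Fin (n + 1) → ℤ) → ℝ) (A : Finset (Fin n)) :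
    QQ B (mp A) F = QQ (bi B) A (Fh B F) := by
  unfold QQ
  rw [sum_pi]
  simp only [sum_pi, cr_mp]
  rw [sum_comm]
  apply sum_congr rfl
  intro x _
  have : ∀ v ∈ B (Fin.last n), ∑ w ∈ B (Fin.last n), ∑ y ∈ Fintype.piFinset (bi B),
      F (app x v) * F (app (cr A x y) w)
      = ∑ y ∈ Fintype.piFinset (bi B), F (app x v) * Fh B F (cr A x y) := by
    intro v _
    rw [sum_comm]
    apply sum_congr rfl
    intro y _
    unfold Fh Fs
    rw [mul_sum]
  rw [sum_congr rfl this, sum_comm]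
  apply sum_congr rfl
  intro y _
  rw [← sum_mul]; rfl

theorem QQ_insert (B : Fin (n + 1) → Finset ℤ) (F : (Fin (n + 1) → ℤ) → ℝ)
    (A : Finset (Fin n)) :
    QQ B (insert (Fin.last n) (mp A)) F
      = (B (Fin.last n)).card * ∑ v ∈ B (Fin.last n), QQ (bi B) A (Fs F v) := by
  unfold QQ
  rw [sum_pi]
  simp only [sum_pi, cr_insert, sum_const, nsmul_eq_mul]
  rw [mul_sum]
  apply sum_congr rfl
  intro v _
  rw [mul_sum]; rfl

theorem QQ_pol (B : Fin n → Finset ℤ) (V : Finset ℤ) (F : ℤ → (Fin n → ℤ) → ℝ)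
    (A : Finset (Fin n)) :
    (V.card : ℝ) * ∑ v ∈ V, QQ B A (F v) - QQ B A (fun y => ∑ v ∈ V, F v y)
      = 1 / 2 * ∑ v ∈ V, ∑ w ∈ V, QQ B A (fun y => F v y - F w y) := by
  have e1 : (V.card : ℝ) * ∑ v ∈ V, QQ B A (F v) - QQ B A (fun y => ∑ v ∈ V, F v y)
      = ∑ x ∈ Fintype.piFinset B, ∑ y ∈ Fintype.piFinset B,
        ((V.card : ℝ) * ∑ v ∈ V, F v x * F v (cr A x y)
          - (∑ v ∈ V, F v x) * ∑ v ∈ V, F v (cr A x y)) := by
    unfold QQ
    simp only [sum_sub_distrib]
    congr 1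
    rw [mul_sum]
    simp only [mul_sum]
    rw [sum_comm]
    apply sum_congr rfl
    intro x _
    rw [sum_comm]
  have e2 : 1 / 2 * ∑ v ∈ V, ∑ w ∈ V, QQ B A (fun y => F v y - F w y)
      = ∑ x ∈ Fintype.piFinset B, ∑ y ∈ Fintype.piFinset B,
        (1 / 2 * ∑ v ∈ V, ∑ w ∈ V, (F v x - F w x) * (F v (cr A x y) - F w (cr A x y))) := by
    unfold QQ
    simp only [mul_sum]
    have : ∀ v ∈ V, ∑ w ∈ V, ∑ x ∈ Fintype.piFinset B,
        ∑ y ∈ Fintype.piFinset B, 1 / 2 * ((F v x - F w x) * (F v (cr A x y) - F w (cr A x y)))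
        = ∑ x ∈ Fintype.piFinset B,
        ∑ y ∈ Fintype.piFinset B, ∑ w ∈ V,
          1 / 2 * ((F v x - F w x) * (F v (cr A x y) - F w (cr A x y))) := by
      intro v _
      rw [sum_comm]
      apply sum_congr rfl
      intro x _
      rw [sum_comm]
    rw [sum_congr rfl this, sum_comm]
    apply sum_congr rfl
    intro x _
    rw [sum_comm]
  rw [e1, e2]
  apply sum_congr rfl
  intro x _
  apply sum_congr rfl
  intro y _
  exact pol V (fun v => F v x) (fun v => F v (cr A x y))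

theorem mp_sub_mp {A B : Finset (Fin n)} : mp A ⊆ mp B ↔ A ⊆ B := by
  constructor
  · intro h i hi
    exact castSucc_mem_mp.mp (h (castSucc_mem_mp.mpr hi))
  · intro h i hi
    obtain ⟨k, hk, rfl⟩ := mem_map.mp hi
    exact mem_map_of_mem _ (h hk)

theorem mp_sub_ins {A B : Finset (Fin n)} : mp A ⊆ insert (Fin.last n) (mp B) ↔ A ⊆ B := by
  rw [subset_insert_iff_of_notMem last_not_mem_mp, mp_sub_mp]

theorem ins_sub_mp {A B : Finset (Fin n)} : ¬ insert (Fin.last n) (mp A) ⊆ mp B := fun h =>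
  last_not_mem_mp (h (mem_insert_self _ _))

theorem ins_sub_ins {A B : Finset (Fin n)} :
    insert (Fin.last n) (mp A) ⊆ insert (Fin.last n) (mp B) ↔ A ⊆ B := by
  rw [insert_subset_iff, mp_sub_ins]
  simp

theorem tr_ins (B : Finset (Fin n)) : tr (insert (Fin.last n) (mp B)) = B := by
  ext i
  rw [mem_tr, mem_insert, castSucc_mem_mp]
  constructor
  · rintro (h | h)
    · exact absurd h (Fin.castSucc_lt_last i).ne
    · exact h
  · intro h; exact Or.inr h

/-- the orthogonal decomposition -/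
theorem es : ∀ (n : ℕ) (B : Fin n → Finset ℤ) (F : (Fin n → ℤ) → ℝ),
    ∃ w : Finset (Fin n) → ℝ, (∀ T, 0 ≤ w T) ∧
      ∀ A, QQ B A F = ∑ T : Finset (Fin n), if T ⊆ A then w T else 0 := by
  intro n
  induction n with
  | zero =>
    intro B F
    have hF : ∀ x : Fin 0 → ℤ, F x = F default := fun x => by rw [Subsingleton.elim x default]
    have hR : (Fintype.piFinset B) = {default} := by
      ext x
      rw [Fintype.mem_piFinset, mem_singleton]
      exact ⟨fun _ => Subsingleton.elim _ _, fun _ i => i.elim0⟩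
    refine ⟨fun _ => F default * F default, fun _ => mul_self_nonneg _, fun A => ?_⟩
    unfold QQ
    rw [hR]
    simp only [sum_singleton]
    rw [Fintype.sum_unique, hF (cr _ _ _)]
    have : (default : Finset (Fin 0)) ⊆ A := by
      intro i _; exact i.elim0
    rw [if_pos this]
  | succ n ih =>
    intro B F
    set V := B (Fin.last n) with hV
    obtain ⟨w0, hw0, hw0'⟩ := ih (bi B) (Fh B F)
    choose w1 hw1 hw1' using fun p : ℤ × ℤ => ih (bi B) (fun y => Fs F p.1 y - Fs F p.2 y)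
    refine ⟨fun T => if Fin.last n ∈ T then
      1 / 2 * ∑ v ∈ V, ∑ w ∈ V, w1 (v, w) (tr T) else w0 (tr T), ?_, ?_⟩
    · intro T
      dsimp only
      split_ifs
      · apply mul_nonneg (by norm_num)
        exact sum_nonneg (fun v _ => sum_nonneg (fun w _ => hw1 (v, w) (tr T)))
      · exact hw0 _
    · intro A
      rw [sum_succ]
      simp only [last_not_mem_mp, if_false, tr_mp, mem_insert_self, if_true, tr_ins]
      by_cases hA : Fin.last n ∈ A
      · have hAe : A = insert (Fin.last n) (mp (tr A)) := by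
          ext i
          refine Fin.lastCases ?_ (fun k => ?_) i
          · simp [hA]
          · rw [mem_insert, castSucc_mem_mp, mem_tr]
            constructor
            · intro h'; exact Or.inr h'
            · rintro (h' | h')
              · exact absurd h' (Fin.castSucc_lt_last k).ne
              · exact h'
        rw [hAe, QQ_insert]
        simp only [mp_sub_ins, ins_sub_ins]
        rw [← hw0']
        have h1 := QQ_pol (bi B) V (Fs F) (tr A)
        have e1 : (fun y => ∑ v ∈ V, Fs F v y) = Fh B F := rfl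
        rw [e1] at h1
        have h2 : ∀ v w, QQ (bi B) (tr A) (fun y => Fs F v y - Fs F w y)
            = ∑ T : Finset (Fin n), if T ⊆ tr A then w1 (v, w) T else 0 :=
          fun v w => hw1' (v, w) (tr A)
        simp only [h2] at h1
        have h3 : ∑ T : Finset (Fin n), (if T ⊆ tr A then
            1 / 2 * ∑ v ∈ V, ∑ w ∈ V, w1 (v, w) T else 0)
            = 1 / 2 * ∑ v ∈ V, ∑ w ∈ V, ∑ T : Finset (Fin n),
              if T ⊆ tr A then w1 (v, w) T else 0 := by
          have h4 : ∀ T : Finset (Fin n), (if T ⊆ tr A then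
              1 / 2 * ∑ v ∈ V, ∑ w ∈ V, w1 (v, w) T else 0)
              = 1 / 2 * ∑ v ∈ V, ∑ w ∈ V, (if T ⊆ tr A then w1 (v, w) T else 0) := by
            intro T
            split_ifs with h
            · rfl
            · simp
          simp only [h4]
          rw [← mul_sum, sum_comm]
          congr 1
          apply sum_congr rfl
          intro v _
          rw [sum_comm]
        rw [h3]
        linarith
      · rw [← mp_tr hA, QQ_mp]
        simp only [mp_sub_mp, ins_sub_mp, if_false, sum_const_zero, add_zero]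
        exact hw0' _

theorem QQ_empty (B : Fin n → Finset ℤ) (F : (Fin n → ℤ) → ℝ) : QQ B ∅ F = s1 B F ^ 2 := by
  unfold QQ s1
  have : ∀ x y : Fin n → ℤ, cr ∅ x y = y := by
    intro x y; funext i; simp [cr]
  simp only [this]
  rw [pow_two, sum_mul_sum]

theorem QQ_univ (B : Fin n → Finset ℤ) (F : (Fin n → ℤ) → ℝ) :
    QQ B univ F = (Fintype.piFinset B).card * s2 B F := by
  unfold QQ s2
  have : ∀ x y : Fin n → ℤ, cr univ x y = x := by
    intro x y; funext i; simp [cr]
  simp only [this, sum_const, nsmul_eq_mul]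
  rw [mul_sum]
  apply sum_congr rfl
  intro x _
  ring

theorem sum_bu (B : Fin n → Finset ℤ) (F : (Fin n → ℤ) → ℝ) (i : Fin n) (u : ℤ)
    (hu : u ∈ B i) : ∑ y ∈ Fintype.piFinset (bu B i {u}), F y = sm B F i u := by
  unfold sm
  rw [← sum_filter]
  apply sum_congr _ (fun _ _ => rfl)
  ext x
  rw [mem_bu, mem_filter, mem_singleton, Fintype.mem_piFinset]
  constructor
  · rintro ⟨h1, h2⟩
    refine ⟨fun j => ?_, h1⟩
    by_cases hj : j = i
    · rw [hj, h1]; exact hu
    · exact h2 j hj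
  · rintro ⟨h1, h2⟩
    exact ⟨h2, fun j _ => h1 j⟩

theorem QQ_single (B : Fin n → Finset ℤ) (F : (Fin n → ℤ) → ℝ) (i : Fin n) :
    QQ B {i} F = (B i).card * ∑ u ∈ B i, sm B F i u ^ 2 := by
  unfold QQ
  have h1 : ∀ x y : Fin n → ℤ, cr {i} x y = Function.update y i (x i) := by
    intro x y; funext j
    by_cases h : j = i
    · subst h; simp [cr]
    · simp [cr, h]
  simp only [h1]
  have h2 : ∀ x ∈ Fintype.piFinset B, ∑ y ∈ Fintype.piFinset B,
      F x * F (Function.update y i (x i)) = (B i).card * (F x * sm B F i (x i)) := by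
    intro x hx
    rw [← mul_sum, sum_upd B i (x i) F, sum_bu B F i (x i) (Fintype.mem_piFinset.mp hx i)]
    ring
  rw [sum_congr rfl h2, ← mul_sum]
  congr 1
  have h3 : ∀ x ∈ Fintype.piFinset B, F x * sm B F i (x i)
      = ∑ u ∈ B i, if x i = u then F x * sm B F i u else 0 := by
    intro x hx
    rw [sum_ite_eq (B i) (x i) (fun u => F x * sm B F i u),
      if_pos (Fintype.mem_piFinset.mp hx i)]
  rw [sum_congr rfl h3, sum_comm]
  apply sum_congr rfl
  intro u _
  rw [pow_two]
  conv_rhs => rw [show sm B F i u * sm B F i u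
    = (∑ x ∈ Fintype.piFinset B, if x i = u then F x else 0) * sm B F i u from rfl]
  rw [sum_mul]
  apply sum_congr rfl
  intro x _
  split_ifs <;> simp

/-- weighted sums of correlations -/
theorem es_sum (B : Fin n → Finset ℤ) (F : (Fin n → ℤ) → ℝ) (w : Finset (Fin n) → ℝ)
    (hw : ∀ A, QQ B A F = ∑ T : Finset (Fin n), if T ⊆ A then w T else 0)
    (ν : Finset (Fin n) → ℝ) :
    ∑ A, ν A * QQ B A F = ∑ T : Finset (Fin n), w T * ∑ A, (if T ⊆ A then ν A else 0) := by
  simp only [hw, mul_sum]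
  rw [sum_comm]
  apply sum_congr rfl
  intro T _
  apply sum_congr rfl
  intro A _
  split_ifs <;> ring

theorem w_empty (B : Fin n → Finset ℤ) (F : (Fin n → ℤ) → ℝ) (w : Finset (Fin n) → ℝ)
    (hw : ∀ A, QQ B A F = ∑ T : Finset (Fin n), if T ⊆ A then w T else 0) :
    w ∅ = s1 B F ^ 2 := by
  rw [← QQ_empty, hw]
  simp only [subset_empty]
  rw [sum_ite_eq' univ ∅ w, if_pos (mem_univ _)]

theorem w_total (B : Fin n → Finset ℤ) (F : (Fin n → ℤ) → ℝ) (w : Finset (Fin n) → ℝ)
    (hw : ∀ A, QQ B A F = ∑ T : Finset (Fin n), if T ⊆ A then w T else 0) :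
    ∑ T, w T = (Fintype.piFinset B).card * s2 B F := by
  rw [← QQ_univ, hw]
  simp

theorem w_single (B : Fin n → Finset ℤ) (F : (Fin n → ℤ) → ℝ) (w : Finset (Fin n) → ℝ)
    (hw : ∀ A, QQ B A F = ∑ T : Finset (Fin n), if T ⊆ A then w T else 0) (i : Fin n) :
    w ∅ + w {i} = QQ B {i} F := by
  rw [hw]
  have h1 : ∀ T : Finset (Fin n), (if T ⊆ {i} then w T else 0)
      = (if T = ∅ then w T else 0) + (if T = {i} then w T else 0) := by
    intro T
    by_cases h : T = ∅
    · subst h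
      simp [(singleton_ne_empty i).symm]
    · by_cases h' : T = {i}
      · subst h'; simp [h]
      · rw [if_neg h, if_neg h', if_neg]
        · simp
        · intro h2
          rcases subset_singleton_iff.mp h2 with h3 | h3
          · exact h h3
          · exact h' h3
  simp only [h1]
  rw [sum_add_distrib, sum_ite_eq' univ ∅ w, sum_ite_eq' univ {i} w, if_pos (mem_univ _),
    if_pos (mem_univ _)]

/-- one-level bound -/
theorem es_one (B : Fin n → Finset ℤ) (F : (Fin n → ℤ) → ℝ) (ν : Finset (Fin n) → ℝ)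
    (hν : ∀ A, 0 ≤ ν A) (p0 p1 : ℝ) (h0 : ∑ A, ν A = p0)
    (h1 : ∀ i, QQ B {i} F = s1 B F ^ 2 ∨ ∑ A, (if i ∈ A then ν A else 0) ≤ p1)
    (h2 : ∀ i j, i ≠ j → ∑ A, (if i ∈ A ∧ j ∈ A then ν A else 0) ≤ p1) :
    ∑ A, ν A * QQ B A F ≤ p0 * s1 B F ^ 2
      + p1 * ((Fintype.piFinset B).card * s2 B F - s1 B F ^ 2) := by
  classical
  obtain ⟨w, hw0, hw⟩ := es n B F
  rw [es_sum B F w hw ν, ← w_total B F w hw, ← w_empty B F w hw]
  have h3 : ∀ T ∈ (univ : Finset (Finset (Fin n))).erase ∅,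
      w T * ∑ A, (if T ⊆ A then ν A else 0) ≤ p1 * w T := by
    intro T hT
    have hT0 : T.Nonempty := nonempty_iff_ne_empty.mpr (ne_of_mem_erase hT)
    rcases Nat.lt_or_ge 1 T.card with hc | hc
    · obtain ⟨i, hi, j, hj, hij⟩ := one_lt_card.mp hc
      rw [mul_comm]
      apply mul_le_mul_of_nonneg_right _ (hw0 T)
      refine le_trans (sum_le_sum (fun A _ => ?_)) (h2 i j hij)
      split_ifs with h4 h5 h6
      · exact le_refl _
      · exact absurd ⟨h4 hi, h4 hj⟩ h5
      · exact hν A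
      · exact le_refl _
    · have hc1 : T.card = 1 := le_antisymm hc (card_pos.mpr hT0)
      obtain ⟨i, rfl⟩ := card_eq_one.mp hc1
      rcases h1 i with h4 | h4
      · have h5 := w_single B F w hw i
        rw [h4, ← w_empty B F w hw] at h5
        have h6 : w {i} = 0 := by linarith
        rw [h6]; simp
      · rw [mul_comm]
        apply mul_le_mul_of_nonneg_right _ (hw0 _)
        simpa using h4
  rw [← add_sum_erase univ _ (mem_univ (∅ : Finset (Fin n))),
    ← add_sum_erase univ w (mem_univ (∅ : Finset (Fin n)))]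
  have h4 := sum_le_sum h3
  rw [← mul_sum] at h4
  have h5 : ∑ A, (if (∅ : Finset (Fin n)) ⊆ A then ν A else 0) = p0 := by
    rw [← h0]; simp
  rw [h5]
  linarith

/-- two-level bound -/
theorem es_two (B : Fin n → Finset ℤ) (F : (Fin n → ℤ) → ℝ) (ν : Finset (Fin n) → ℝ)
    (hν : ∀ A, 0 ≤ ν A) (p0 p1 p2 : ℝ) (h0 : ∑ A, ν A = p0)
    (h1 : ∀ i, ∑ A, (if i ∈ A then ν A else 0) ≤ p1)
    (h2 : ∀ i j, i ≠ j → ∑ A, (if i ∈ A ∧ j ∈ A then ν A else 0) ≤ p2) :
    ∑ A, ν A * QQ B A F ≤ p0 * s1 B F ^ 2 + p1 * w1 B F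
      + p2 * ((Fintype.piFinset B).card * s2 B F - s1 B F ^ 2 - w1 B F) := by
  classical
  obtain ⟨w, hw0, hw⟩ := es n B F
  have hw1 : w1 B F = ∑ i : Fin n, w {i} := by
    unfold w1
    apply sum_congr rfl
    intro i _
    rw [← QQ_single, ← w_empty B F w hw, ← w_single B F w hw i]
    ring
  rw [es_sum B F w hw ν, ← w_total B F w hw, ← w_empty B F w hw, hw1]
  set P1 : Finset (Finset (Fin n)) := univ.image (fun i : Fin n => ({i} : Finset (Fin n)))
    with hP1
  have hP1s : ∀ g : Finset (Fin n) → ℝ, ∑ T ∈ P1, g T = ∑ i : Fin n, g {i} := by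
    intro g
    rw [hP1, sum_image (fun i _ j _ h => singleton_injective h)]
  have hsub : P1 ⊆ (univ : Finset (Finset (Fin n))).erase ∅ := by
    intro T hT
    obtain ⟨i, _, rfl⟩ := mem_image.mp hT
    exact mem_erase.mpr ⟨singleton_ne_empty i, mem_univ _⟩
  have hsplit : ∀ g : Finset (Fin n) → ℝ, ∑ T, g T = g ∅ + (∑ i : Fin n, g {i}
      + ∑ T ∈ ((univ : Finset (Finset (Fin n))).erase ∅) \ P1, g T) := by
    intro g
    rw [← add_sum_erase univ _ (mem_univ (∅ : Finset (Fin n))), ← sum_sdiff hsub, hP1s]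
    ring
  rw [hsplit, hsplit w]
  have h3 : ∀ T ∈ ((univ : Finset (Finset (Fin n))).erase ∅) \ P1,
      w T * ∑ A, (if T ⊆ A then ν A else 0) ≤ p2 * w T := by
    intro T hT
    obtain ⟨hT1, hT2⟩ := mem_sdiff.mp hT
    have hT0 : T.Nonempty := nonempty_iff_ne_empty.mpr (ne_of_mem_erase hT1)
    rcases Nat.lt_or_ge 1 T.card with hc | hc
    · obtain ⟨i, hi, j, hj, hij⟩ := one_lt_card.mp hc
      rw [mul_comm]
      apply mul_le_mul_of_nonneg_right _ (hw0 T)
      refine le_trans (sum_le_sum (fun A _ => ?_)) (h2 i j hij)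
      split_ifs with h4 h5 h6
      · exact le_refl _
      · exact absurd ⟨h4 hi, h4 hj⟩ h5
      · exact hν A
      · exact le_refl _
    · have hc1 : T.card = 1 := le_antisymm hc (card_pos.mpr hT0)
      obtain ⟨i, rfl⟩ := card_eq_one.mp hc1
      exact absurd (mem_image.mpr ⟨i, mem_univ _, rfl⟩) hT2
  have h4 := sum_le_sum h3
  rw [← mul_sum] at h4
  have h5 : ∑ A, (if (∅ : Finset (Fin n)) ⊆ A then ν A else 0) = p0 := by
    rw [← h0]; simp
  have h6 : ∑ i : Fin n, w {i} * ∑ A, (if ({i} : Finset (Fin n)) ⊆ A then ν A else 0)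
      ≤ p1 * ∑ i : Fin n, w {i} := by
    rw [mul_sum]
    apply sum_le_sum
    intro i _
    rw [mul_comm]
    apply mul_le_mul_of_nonneg_right _ (hw0 _)
    simpa using h1 i
  rw [h5]
  linarith

end Pool.Agent.H488R3.UC
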