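import Pool.Agent.H488R3.UC.GM1

/-!
The bootstrapping step for the mutual information averaged over a symmetric weight on the
bipartitions which separates all pairs of coordinates.
-/

namespace Pool.Agent.H488R3.UC

open Finset

variable {n : ℕ}

/-- a symmetric probability weight which separates every pair with probability at least `c`
in each direction -/
structure Gd (μ : Finset (Fin n) → ℝ) (c : ℝ) : Prop where
  nn : ∀ A, 0 ≤ μ A
  tot : ∑ A, μ A = 1
  sym : ∀ A, μ Aᶜ = μ A
  sep : ∀ i j, i ≠ j → c ≤ ∑ A, if i ∈ A ∧ j ∉ A then μ A else 0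

theorem sum_compl (f : Finset (Fin n) → ℝ) : ∑ A : Finset (Fin n), f Aᶜ = ∑ A, f A :=
  Fintype.sum_bijective compl compl_bijective _ _ (fun _ => rfl)

theorem Gd.half {μ : Finset (Fin n) → ℝ} {c : ℝ} (h : Gd μ c) (i : Fin n) :
    ∑ A, (if i ∈ A then μ A else 0) = 1 / 2 := by
  have h1 : ∑ A, (if i ∉ A then μ A else 0) = ∑ A, (if i ∈ A then μ A else 0) := by
    rw [← sum_compl]
    apply sum_congr rfl
    intro A _
    rw [h.sym]
    simp only [mem_compl, not_not]
  have h2 : ∑ A, ((if i ∈ A then μ A else 0) + (if i ∉ A then μ A else 0)) = 1 := by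
    rw [← h.tot]
    apply sum_congr rfl
    intro A _
    by_cases hi : i ∈ A <;> simp [hi]
  rw [sum_add_distrib, h1] at h2
  linarith

theorem Gd.pair {μ : Finset (Fin n) → ℝ} {c : ℝ} (h : Gd μ c) (i j : Fin n) (hij : i ≠ j) :
    ∑ A, (if i ∈ A ∧ j ∈ A then μ A else 0) ≤ 1 / 2 - c := by
  have h1 := h.half i
  have h2 := h.sep i j hij
  have h3 : ∑ A, (if i ∈ A then μ A else 0)
      = ∑ A, (if i ∈ A ∧ j ∈ A then μ A else 0) + ∑ A, (if i ∈ A ∧ j ∉ A then μ A else 0) := by
    rw [← sum_add_distrib]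
    apply sum_congr rfl
    intro A _
    by_cases hi : i ∈ A <;> by_cases hj : j ∈ A <;> simp [hi, hj]
  linarith

/-- the weight of the sets meeting `I` -/
def hitm (μ : Finset (Fin n) → ℝ) (I : Finset (Fin n)) : ℝ :=
  ∑ A, if ∃ i ∈ I, i ∈ A then μ A else 0

theorem hitm_one {μ : Finset (Fin n) → ℝ} {c : ℝ} (h : Gd μ c) {I : Finset (Fin n)}
    (hI : I.Nonempty) : (1 : ℝ) / 2 ≤ hitm μ I := by
  obtain ⟨i, hi⟩ := hI
  rw [← h.half i]
  apply sum_le_sum
  intro A _
  by_cases hA : i ∈ A
  · rw [if_pos hA, if_pos ⟨i, hi, hA⟩]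
  · rw [if_neg hA]
    split_ifs
    · exact h.nn A
    · exact le_refl _

theorem hitm_two {μ : Finset (Fin n) → ℝ} {c : ℝ} (h : Gd μ c) {I : Finset (Fin n)}
    (hI : 2 ≤ I.card) : (1 : ℝ) / 2 + c ≤ hitm μ I := by
  classical
  obtain ⟨i, hi, j, hj, hij⟩ := one_lt_card.mp (by omega : 1 < I.card)
  have h1 := h.half i
  have h2 := h.half j
  have h3 := h.pair i j hij
  have h4 : ∑ A : Finset (Fin n), ((if i ∈ A then μ A else 0) + (if j ∈ A then μ A else 0)
      - (if i ∈ A ∧ j ∈ A then μ A else 0)) ≤ hitm μ I := by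
    apply sum_le_sum
    intro A _
    have hA := h.nn A
    by_cases h5 : i ∈ A
    · rw [if_pos (⟨i, hi, h5⟩ : ∃ i ∈ I, i ∈ A)]
      by_cases h6 : j ∈ A <;> simp [h5, h6]
    · by_cases h6 : j ∈ A
      · rw [if_pos (⟨j, hj, h6⟩ : ∃ i ∈ I, i ∈ A)]
        simp [h5, h6]
      · simp only [h5, h6, if_false]
        split_ifs <;> simp [hA]
  rw [sum_sub_distrib, sum_add_distrib, h1, h2] at h4
  linarith

theorem low_one (S : Finset (Fin n → ℤ)) (B : Fin n → Finset ℤ) (A : Finset (Fin n)) :
    ∑ x ∈ S \ Fintype.piFinset B, ∑ _y ∈ S ∩ Fintype.piFinset B,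
        (if ∃ i ∈ bad B x, i ∈ A then (1 : ℝ) else 0)
      + ∑ x ∈ S ∩ Fintype.piFinset B, ∑ y ∈ S \ Fintype.piFinset B,
        (if ∃ i ∈ bad B y, i ∉ A then (1 : ℝ) else 0)
      ≤ (qc S A (S \ Fintype.piFinset B) : ℝ) + nc S A := by
  classical
  set R := Fintype.piFinset B with hR
  have e1 : ∑ x ∈ S \ R, ∑ _y ∈ S ∩ R, (if ∃ i ∈ bad B x, i ∈ A then (1 : ℝ) else 0)
      = (((S \ R) ×ˢ (S ∩ R)).filter (fun p => ∃ i ∈ bad B p.1, i ∈ A)).card := by
    rw [dsum]
  have e2 : ∑ x ∈ S ∩ R, ∑ y ∈ S \ R, (if ∃ i ∈ bad B y, i ∉ A then (1 : ℝ) else 0)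
      = (((S ∩ R) ×ˢ (S \ R)).filter (fun p => ∃ i ∈ bad B p.2, i ∉ A)).card := by
    rw [dsum]
  rw [e1, e2]
  unfold qc nc
  have h2 : (((S \ R) ×ˢ (S ∩ R)).filter (fun p => ∃ i ∈ bad B p.1, i ∈ A)).card
      + (((S ∩ R) ×ˢ (S \ R)).filter (fun p => ∃ i ∈ bad B p.2, i ∉ A)).card
      ≤ ((S ×ˢ S).filter (fun p => cr A p.1 p.2 ∈ S \ R)).card
        + ((S ×ˢ S).filter (fun p => cr A p.1 p.2 ∉ S)).card := by
    rw [← card_union_of_disjoint, ← card_union_of_disjoint]
    · apply card_le_card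
      intro p hp
      have h3 : p ∈ S ×ˢ S ∧ cr A p.1 p.2 ∉ R := by
        rcases mem_union.mp hp with h | h
        · obtain ⟨h4, i, hi, hiA⟩ := mem_filter.mp h
          obtain ⟨h5, h6⟩ := mem_product.mp h4
          refine ⟨mem_product.mpr ⟨(mem_sdiff.mp h5).1, (mem_inter.mp h6).1⟩, fun h7 => ?_⟩
          have h8 := Fintype.mem_piFinset.mp h7 i
          simp only [cr, hiA, if_true] at h8
          exact mem_bad.mp hi h8
        · obtain ⟨h4, i, hi, hiA⟩ := mem_filter.mp h
          obtain ⟨h5, h6⟩ := mem_product.mp h4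
          refine ⟨mem_product.mpr ⟨(mem_inter.mp h5).1, (mem_sdiff.mp h6).1⟩, fun h7 => ?_⟩
          have h8 := Fintype.mem_piFinset.mp h7 i
          simp only [cr, hiA, if_false] at h8
          exact mem_bad.mp hi h8
      rw [mem_union, mem_filter, mem_filter, mem_sdiff]
      by_cases h9 : cr A p.1 p.2 ∈ S
      · exact Or.inl ⟨h3.1, h9, h3.2⟩
      · exact Or.inr ⟨h3.1, h9⟩
    · rw [disjoint_left]
      intro p hp hp'
      exact (mem_filter.mp hp').2 (mem_sdiff.mp (mem_filter.mp hp).2).1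
    · rw [disjoint_left]
      intro p hp hp'
      have h5 := (mem_product.mp (mem_filter.mp hp).1).1
      have h6 := (mem_product.mp (mem_filter.mp hp').1).1
      exact (mem_sdiff.mp h5).2 (mem_inter.mp h6).2
  exact_mod_cast h2

theorem lowerm {μ : Finset (Fin n) → ℝ} {c : ℝ} (h : Gd μ c) (S : Finset (Fin n → ℤ))
    (B : Fin n → Finset ℤ) :
    2 * ((S ∩ Fintype.piFinset B).card : ℝ) * ∑ x ∈ S \ Fintype.piFinset B, hitm μ (bad B x)
      ≤ ∑ A : Finset (Fin n), μ A * ((qc S A (S \ Fintype.piFinset B) : ℝ) + nc S A) := by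
  classical
  set R := Fintype.piFinset B with hR
  refine le_trans (le_of_eq ?_)
    (sum_le_sum (fun A _ => mul_le_mul_of_nonneg_left (low_one S B A) (h.nn A)))
  simp only [mul_add]
  rw [sum_add_distrib]
  have e3 : ∑ A : Finset (Fin n), μ A * ∑ x ∈ S \ R, ∑ _y ∈ S ∩ R,
      (if ∃ i ∈ bad B x, i ∈ A then (1 : ℝ) else 0)
      = (S ∩ R).card * ∑ x ∈ S \ R, hitm μ (bad B x) := by
    simp only [sum_const, nsmul_eq_mul, mul_sum]
    rw [sum_comm]
    apply sum_congr rfl
    intro x _
    unfold hitm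
    rw [mul_sum]
    apply sum_congr rfl
    intro A _
    split_ifs <;> ring
  have e4 : ∑ A : Finset (Fin n), μ A * ∑ x ∈ S ∩ R, ∑ y ∈ S \ R,
      (if ∃ i ∈ bad B y, i ∉ A then (1 : ℝ) else 0)
      = (S ∩ R).card * ∑ x ∈ S \ R, hitm μ (bad B x) := by
    rw [← e3, ← sum_compl]
    apply sum_congr rfl
    intro A _
    rw [h.sym, sum_comm]
    simp only [mem_compl, not_not]
  rw [e3, e4]; ring

/-- the crossings of one slab outside the box which stay in it -/
theorem slabm {μ : Finset (Fin n) → ℝ} {c : ℝ} (h : Gd μ c) (hc0 : 0 ≤ c)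
    (S : Finset (Fin n → ℤ)) (B : Fin n → Finset ℤ)
    (hopt : Opt S B) (i : Fin n) (v : ℤ) (hv : v ∉ B i) :
    ∑ A : Finset (Fin n), μ A * ∑ x ∈ S ∩ Fintype.piFinset (bu B i {v}),
      ∑ y ∈ Fintype.piFinset B, (if cr A x y ∈ S \ Fintype.piFinset B then (1 : ℝ) else 0)
      ≤ (1 / 2 - c / 2) * ((Fintype.piFinset B).card
        * (S ∩ Fintype.piFinset (bu B i {v})).card) := by
  classical
  set R := Fintype.piFinset B with hR
  set P := Fintype.piFinset (bu B i {v}) with hP
  set F := S ∩ P with hF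
  have hFP : F ⊆ P := inter_subset_right
  set g : Finset (Fin n) → ℝ := fun A => ∑ x ∈ P, ∑ y ∈ P, ind F x * ind F (cr A x y) with hg
  have h1 : ∀ A : Finset (Fin n), ∑ x ∈ F, ∑ y ∈ R,
      (if cr A x y ∈ S \ R then (1 : ℝ) else 0) ≤ if i ∈ A then (B i).card * g A else 0 := by
    intro A
    by_cases hA : i ∈ A
    · rw [if_pos hA]
      have h2 : ∀ x ∈ F, ∑ y ∈ R, (if cr A x y ∈ S \ R then (1 : ℝ) else 0)
          ≤ (B i).card * ∑ y ∈ P, ind F (cr A x y) := by
        intro x hx
        have hxP := mem_bu.mp (hFP hx)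
        have hxi : x i = v := by simpa using hxP.1
        rw [hP, ← sum_upd B i v (fun y => ind F (cr A x y))]
        apply sum_le_sum
        intro y hy
        have hcr : cr A x (Function.update y i v) = cr A x y := by
          funext j
          unfold cr
          by_cases hj : j = i
          · subst hj; simp [hA]
          · rw [Function.update_of_ne hj]
        rw [hcr]
        split_ifs with h3
        · have h4 : cr A x y ∈ F := by
            rw [hF, mem_inter]
            refine ⟨(mem_sdiff.mp h3).1, ?_⟩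
            rw [hP, mem_bu]
            refine ⟨by simp [cr, hA, hxi], fun j hj => ?_⟩
            unfold cr
            split_ifs
            · exact hxP.2 j hj
            · exact Fintype.mem_piFinset.mp hy j
          unfold ind
          rw [if_pos h4]
        · unfold ind; split_ifs <;> norm_num
      refine (sum_le_sum h2).trans (le_of_eq ?_)
      rw [← mul_sum]
      congr 1
      simp only [hg]
      rw [← sum_subset hFP]
      · apply sum_congr rfl
        intro x hx
        apply sum_congr rfl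
        intro y _
        have : ind F x = 1 := by unfold ind; rw [if_pos hx]
        rw [this, one_mul]
      · intro x _ hx
        apply sum_eq_zero
        intro y _
        have : ind F x = 0 := by unfold ind; rw [if_neg hx]
        rw [this, zero_mul]
    · rw [if_neg hA]
      apply le_of_eq
      apply sum_eq_zero
      intro x hx
      apply sum_eq_zero
      intro y hy
      rw [if_neg]
      intro h3
      apply (mem_sdiff.mp h3).2
      rw [hR, Fintype.mem_piFinset]
      have hxP := mem_bu.mp (hFP hx)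
      intro j
      unfold cr
      by_cases hj : j = i
      · subst hj; rw [if_neg hA]; exact Fintype.mem_piFinset.mp hy j
      · split_ifs
        · exact hxP.2 j hj
        · exact Fintype.mem_piFinset.mp hy j
  refine (sum_le_sum (fun A _ => mul_le_mul_of_nonneg_left (h1 A) (h.nn A))).trans ?_
  -- the decomposition on the slab, for the sets containing `i`
  set ν : Finset (Fin n) → ℝ := fun A => if i ∈ A then μ A else 0 with hν
  have h3 : ∑ A, μ A * (if i ∈ A then (B i).card * g A else 0)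
      = (B i).card * ∑ A, ν A * QQ (bu B i {v}) A (ind F) := by
    rw [mul_sum]
    apply sum_congr rfl
    intro A _
    simp only [hν]
    split_ifs
    · simp only [hg]; unfold QQ; ring
    · simp
  have hs1 : QQ (bu B i {v}) {i} (ind F) = s1 (bu B i {v}) (ind F) ^ 2 := by
    rw [← QQ_empty]
    unfold QQ
    apply sum_congr rfl
    intro x hx
    apply sum_congr rfl
    intro y hy
    have hxi := (mem_bu.mp hx).1
    have hyi := (mem_bu.mp hy).1
    rw [mem_singleton] at hxi hyi
    have : cr {i} x y = cr ∅ x y := by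
      funext j
      unfold cr
      by_cases hj : j = i
      · subst hj; rw [hxi, hyi]; simp
      · simp [hj]
    rw [this]
  have h4 := es_one (bu B i {v}) (ind F) ν (fun A => by
      simp only [hν]; split_ifs
      · exact h.nn A
      · exact le_refl _) (1 / 2) (1 / 2 - c) (h.half i)
    (fun j => by
      by_cases hj : j = i
      · left; rw [hj]; exact hs1
      · right
        refine le_trans (le_of_eq ?_) (h.pair j i hj)
        apply sum_congr rfl
        intro A _
        simp only [hν]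
        by_cases h5 : j ∈ A <;> by_cases h6 : i ∈ A <;> simp [h5, h6])
    (fun j k hjk => by
      refine le_trans (sum_le_sum (fun A _ => ?_)) (h.pair j k hjk)
      simp only [hν]
      have := h.nn A
      by_cases h5 : j ∈ A ∧ k ∈ A
      · rw [if_pos h5, if_pos h5]; split_ifs <;> simp [this]
      · rw [if_neg h5, if_neg h5])
  rw [h3]
  rw [s1_ind _ F hFP, s2_ind _ F hFP, ← hP] at h4
  have h5 : 2 * (F.card : ℝ) ≤ P.card := by exact_mod_cast opt_out hopt i v hv
  have h6 : ((B i).card : ℝ) * P.card = R.card := card_bu B i v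
  have h8 : (F.card : ℝ) ^ 2 ≤ 1 / 2 * (P.card * F.card) := by
    have : (0 : ℝ) ≤ F.card := by positivity
    nlinarith
  have h9 : ∑ A, ν A * QQ (bu B i {v}) A (ind F) ≤ (1 / 2 - c / 2) * (P.card * F.card) := by
    refine h4.trans ?_
    have := mul_le_mul_of_nonneg_left h8 hc0
    nlinarith
  have h10 := mul_le_mul_of_nonneg_left h9 (show (0 : ℝ) ≤ (B i).card by positivity)
  refine h10.trans (le_of_eq ?_)
  rw [← h6]; ring

theorem singlem {μ : Finset (Fin n) → ℝ} {c : ℝ} (h : Gd μ c) (hc0 : 0 ≤ c)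
    (S : Finset (Fin n → ℤ)) (B : Fin n → Finset ℤ)
    (hopt : Opt S B) :
    ∑ A : Finset (Fin n), μ A * ∑ x ∈ O1 S B, ∑ y ∈ Fintype.piFinset B,
      (if cr A x y ∈ S \ Fintype.piFinset B then (1 : ℝ) else 0)
      ≤ (1 / 2 - c / 2) * ((Fintype.piFinset B).card * (O1 S B).card) := by
  classical
  have e0 : ∑ A : Finset (Fin n), μ A * ∑ x ∈ O1 S B, ∑ y ∈ Fintype.piFinset B,
      (if cr A x y ∈ S \ Fintype.piFinset B then (1 : ℝ) else 0)
      = ∑ x ∈ O1 S B, ∑ A : Finset (Fin n), μ A * ∑ y ∈ Fintype.piFinset B,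
        (if cr A x y ∈ S \ Fintype.piFinset B then (1 : ℝ) else 0) := by
    rw [sum_comm]
    apply sum_congr rfl
    intro A _
    rw [mul_sum]
  rw [e0, sum_O1]
  have h0 : ((O1 S B).card : ℝ) = ∑ x ∈ O1 S B, (1 : ℝ) := by simp
  rw [h0, sum_O1, mul_sum, mul_sum]
  apply sum_le_sum
  intro i _
  rw [mul_sum, mul_sum]
  apply sum_le_sum
  intro v hv
  obtain ⟨x0, hx0, hx0v⟩ := mem_image.mp hv
  have hvB : v ∉ B i := by
    rw [← hx0v]
    apply mem_bad.mp
    rw [(mem_filter.mp hx0).2]
    exact mem_singleton_self i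
  have h1 := slabm h hc0 S B hopt i v hvB
  simp only [mul_sum] at h1 ⊢
  rw [sum_comm] at h1
  refine h1.trans (le_of_eq ?_)
  simp only [mul_one, sum_const, nsmul_eq_mul]
  ring

end Pool.Agent.H488R3.UC
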