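import Pool.Agent.H488R3.UC.GM2

/-!
The bootstrapping step, continued.
-/

namespace Pool.Agent.H488R3.UC

open Finset

variable {n : ℕ}

/-- the mutual information of the two parts, averaged with the weight `μ` -/
noncomputable def Phm (μ : Finset (Fin n) → ℝ) (S : Finset (Fin n → ℤ)) : ℝ :=
  ∑ A : Finset (Fin n), μ A * IAN S A

theorem Phm_nonneg {μ : Finset (Fin n) → ℝ} {c : ℝ} (h : Gd μ c) (S : Finset (Fin n → ℤ)) :
    0 ≤ Phm μ S := sum_nonneg (fun A _ => mul_nonneg (h.nn A) (IAN_nonneg S A))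

theorem up_one (S : Finset (Fin n → ℤ)) (B : Fin n → Finset ℤ) (A : Finset (Fin n)) :
    (qc S A (S \ Fintype.piFinset B) : ℝ)
      ≤ ∑ x ∈ O1 S B, ∑ y ∈ Fintype.piFinset B,
          (if cr A x y ∈ S \ Fintype.piFinset B then (1 : ℝ) else 0)
        + ∑ x ∈ O1 S B, ∑ y ∈ Fintype.piFinset B,
          (if cr Aᶜ x y ∈ S \ Fintype.piFinset B then (1 : ℝ) else 0)
        + 2 * ((O2 S B).card * S.card)
        + ((S \ Fintype.piFinset B).card : ℝ) * (S \ Fintype.piFinset B).card := by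
  classical
  set R := Fintype.piFinset B with hR
  set O := S \ R with hO
  set T : Finset (Fin n) → ℝ := fun A => ∑ x ∈ O1 S B, ∑ y ∈ R,
    (if cr A x y ∈ O then (1 : ℝ) else 0) with hT
  have e1 : T A = (((O1 S B) ×ˢ R).filter (fun p => cr A p.1 p.2 ∈ O)).card := by
    rw [dsum]
  have e2 : T Aᶜ = ((R ×ˢ (O1 S B)).filter (fun p => cr A p.1 p.2 ∈ O)).card := by
    rw [dsum, sum_comm]
    simp only [hT, cr_compl]
  have h2 : (S ×ˢ S).filter (fun p => cr A p.1 p.2 ∈ O)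
      ⊆ ((O1 S B) ×ˢ R).filter (fun p => cr A p.1 p.2 ∈ O)
        ∪ (R ×ˢ (O1 S B)).filter (fun p => cr A p.1 p.2 ∈ O)
        ∪ (O2 S B) ×ˢ S ∪ S ×ˢ (O2 S B) ∪ O ×ˢ O := by
    intro p hp
    obtain ⟨h3, h4⟩ := mem_filter.mp hp
    obtain ⟨h5, h6⟩ := mem_product.mp h3
    simp only [mem_union, mem_filter, mem_product]
    have hcls : ∀ x ∈ S, x ∈ R ∨ x ∈ O1 S B ∨ x ∈ O2 S B := by
      intro x hx
      by_cases h : x ∈ R
      · exact Or.inl h
      · right
        by_cases h' : (bad B x).card = 1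
        · exact Or.inl (mem_filter.mpr ⟨mem_sdiff.mpr ⟨hx, h⟩, h'⟩)
        · exact Or.inr (mem_filter.mpr ⟨mem_sdiff.mpr ⟨hx, h⟩, h'⟩)
    have hO1 : ∀ x ∈ O1 S B, x ∈ O := fun x hx => (mem_filter.mp hx).1
    rcases hcls p.1 h5 with h7 | h7 | h7
    · rcases hcls p.2 h6 with h8 | h8 | h8
      · exact absurd (cr_mem B h7 h8) (mem_sdiff.mp h4).2
      · left; left; left; right; exact ⟨⟨h7, h8⟩, h4⟩
      · left; right; exact ⟨h5, h8⟩
    · rcases hcls p.2 h6 with h8 | h8 | h8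
      · left; left; left; left; exact ⟨⟨h7, h8⟩, h4⟩
      · right; exact ⟨hO1 _ h7, hO1 _ h8⟩
      · left; right; exact ⟨h5, h8⟩
    · left; left; right; exact ⟨h7, h6⟩
  have h3 := card_le_card h2
  have h4 : (((O1 S B) ×ˢ R).filter (fun p => cr A p.1 p.2 ∈ O)
        ∪ (R ×ˢ (O1 S B)).filter (fun p => cr A p.1 p.2 ∈ O)
        ∪ (O2 S B) ×ˢ S ∪ S ×ˢ (O2 S B) ∪ O ×ˢ O).card
      ≤ (((O1 S B) ×ˢ R).filter (fun p => cr A p.1 p.2 ∈ O)).card
        + ((R ×ˢ (O1 S B)).filter (fun p => cr A p.1 p.2 ∈ O)).card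
        + (O2 S B).card * S.card + S.card * (O2 S B).card + O.card * O.card := by
    refine (card_union_le _ _).trans ?_
    rw [card_product]
    gcongr
    refine (card_union_le _ _).trans ?_
    rw [card_product]
    gcongr
    refine (card_union_le _ _).trans ?_
    rw [card_product]
    gcongr
    exact card_union_le _ _
  have h5 : (qc S A O : ℝ) ≤ (((((O1 S B) ×ˢ R).filter (fun p => cr A p.1 p.2 ∈ O)).card
        + ((R ×ˢ (O1 S B)).filter (fun p => cr A p.1 p.2 ∈ O)).card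
        + (O2 S B).card * S.card + S.card * (O2 S B).card + O.card * O.card : ℕ) : ℝ) := by
    unfold qc
    exact_mod_cast h3.trans h4
  have h6 : (qc S A O : ℝ) ≤ T A + T Aᶜ
      + 2 * ((O2 S B).card * S.card) + (O.card : ℝ) * O.card := by
    rw [e1, e2]
    push_cast at h5
    linarith
  exact h6

theorem upperm {μ : Finset (Fin n) → ℝ} {c : ℝ} (h : Gd μ c) (hc0 : 0 ≤ c)
    (S : Finset (Fin n → ℤ)) (B : Fin n → Finset ℤ) (hopt : Opt S B) :
    ∑ A : Finset (Fin n), μ A * (qc S A (S \ Fintype.piFinset B) : ℝ)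
      ≤ (1 - c) * ((Fintype.piFinset B).card * (O1 S B).card)
        + 2 * ((O2 S B).card * S.card)
        + ((S \ Fintype.piFinset B).card : ℝ) * (S \ Fintype.piFinset B).card := by
  classical
  refine (sum_le_sum (fun A _ => mul_le_mul_of_nonneg_left (up_one S B A) (h.nn A))).trans ?_
  set T : Finset (Fin n) → ℝ := fun A => ∑ x ∈ O1 S B, ∑ y ∈ Fintype.piFinset B,
    (if cr A x y ∈ S \ Fintype.piFinset B then (1 : ℝ) else 0) with hT
  have e1 : ∀ A : Finset (Fin n), μ A * (T A + T Aᶜ + 2 * ((O2 S B).card * S.card)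
      + ((S \ Fintype.piFinset B).card : ℝ) * (S \ Fintype.piFinset B).card)
      = μ A * T A + μ Aᶜ * T Aᶜ + μ A * (2 * ((O2 S B).card * S.card)
      + ((S \ Fintype.piFinset B).card : ℝ) * (S \ Fintype.piFinset B).card) := by
    intro A
    rw [h.sym]; ring
  have e2 := sum_congr (rfl : (univ : Finset (Finset (Fin n))) = univ) (fun A _ => e1 A)
  rw [e2, sum_add_distrib, sum_add_distrib, ← sum_mul, h.tot, one_mul,
    sum_compl (fun A => μ A * T A)]
  have h3 := singlem h hc0 S B hopt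
  have h4 : ∑ A : Finset (Fin n), μ A * T A
      ≤ (1 / 2 - c / 2) * ((Fintype.piFinset B).card * (O1 S B).card) := h3
  linarith

theorem missm {μ : Finset (Fin n) → ℝ} {c : ℝ} (h : Gd μ c) (hc0 : 0 ≤ c) (hc : c ≤ 1 / 4)
    (S : Finset (Fin n → ℤ)) (B : Fin n → Finset ℤ) (hopt : Opt S B)
    (hne : ∀ i, (B i).Nonempty)
    (hsmall : 50 * ((Fintype.piFinset B \ S).card : ℝ) ≤ (Fintype.piFinset B).card)
    (hsmall2 : 15 * ((Fintype.piFinset B \ S).card : ℝ) ≤ c * (Fintype.piFinset B).card) :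
    c / 2 * ((Fintype.piFinset B).card * (Fintype.piFinset B \ S).card)
      ≤ ∑ A : Finset (Fin n), μ A * (nc S A : ℝ) := by
  classical
  set R := Fintype.piFinset B with hR
  set M := R \ S with hMd
  have hM : M ⊆ R := sdiff_subset
  have hw := level1 B hne M hM (fun i u hu => opt_in hopt i u hu) hsmall
  have hes := es_two B (ind M) μ h.nn 1 (1 / 2) (1 / 2 - c) h.tot
    (fun i => (h.half i).le) (fun i j hij => h.pair i j hij)
  rw [s1_ind B M hM, s2_ind B M hM, ← hR] at hes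
  rw [← hR] at hw
  have hF : ∀ x, 0 ≤ ind M x := by intro x; unfold ind; split_ifs <;> norm_num
  have h1 : ∀ A : Finset (Fin n), (R.card : ℝ) * M.card - QQ B A (ind M) - QQ B Aᶜ (ind M)
      ≤ nc S A := by
    intro A
    have h2 : ∑ x ∈ R, ∑ y ∈ R,
        (ind M (cr A x y) - ind M x * ind M (cr A x y) - ind M y * ind M (cr A x y))
        ≤ ∑ x ∈ R, ∑ y ∈ R, (1 - ind M x) * (1 - ind M y) * ind M (cr A x y) := by
      apply sum_le_sum; intro x _
      apply sum_le_sum; intro y _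
      have := mul_nonneg (mul_nonneg (hF x) (hF y)) (hF (cr A x y))
      nlinarith
    have e1 : ∑ x ∈ R, ∑ y ∈ R, (1 - ind (R \ S) x) * (1 - ind (R \ S) y)
        * ind (R \ S) (cr A x y)
        = (((R ×ˢ R).filter (fun p => p.1 ∈ S ∧ p.2 ∈ S ∧ cr A p.1 p.2 ∈ R \ S)).card : ℝ) := by
      rw [dsum]
      apply sum_congr rfl
      intro x hx
      apply sum_congr rfl
      intro y hy
      unfold ind
      simp only [mem_sdiff, hx, hy, true_and]
      by_cases h2 : x ∈ S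
      · by_cases h3 : y ∈ S
        · simp [h2, h3]
        · simp [h3]
      · simp [h2]
    have h3 : ((R ×ˢ R).filter (fun p => p.1 ∈ S ∧ p.2 ∈ S ∧ cr A p.1 p.2 ∈ R \ S)).card
        ≤ nc S A := by
      unfold nc
      apply card_le_card
      intro p hp
      obtain ⟨_, h3, h4, h5⟩ := mem_filter.mp hp
      exact mem_filter.mpr ⟨mem_product.mpr ⟨h3, h4⟩, (mem_sdiff.mp h5).2⟩
    have h4 : (((R ×ˢ R).filter (fun p => p.1 ∈ S ∧ p.2 ∈ S ∧ cr A p.1 p.2 ∈ R \ S)).card : ℝ)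
        ≤ nc S A := by exact_mod_cast h3
    rw [← e1] at h4
    refine le_trans (le_trans (le_of_eq ?_) h2) h4
    simp only [sum_sub_distrib]
    have e3 : ∑ x ∈ R, ind M x = M.card := s1_ind B M hM
    have e4 : ∑ x ∈ R, ∑ y ∈ R, ind M (cr A x y) = R.card * M.card := by
      rw [hR, sum_cr, ← hR, e3]
    have e5 : ∑ x ∈ R, ∑ y ∈ R, ind M y * ind M (cr A x y) = QQ B Aᶜ (ind M) := by
      unfold QQ
      rw [sum_comm]
      simp only [cr_compl]
      rfl
    rw [e4, e5]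
    rfl
  have h2 := sum_le_sum (fun A (_ : A ∈ (univ : Finset (Finset (Fin n)))) =>
    mul_le_mul_of_nonneg_left (h1 A) (h.nn A))
  refine le_trans ?_ h2
  have e1 : ∑ A : Finset (Fin n), μ A * ((R.card : ℝ) * M.card - QQ B A (ind M)
      - QQ B Aᶜ (ind M)) = (R.card : ℝ) * M.card - 2 * ∑ A, μ A * QQ B A (ind M) := by
    have : ∀ A : Finset (Fin n), μ A * ((R.card : ℝ) * M.card - QQ B A (ind M)
        - QQ B Aᶜ (ind M)) = μ A * ((R.card : ℝ) * M.card) - μ A * QQ B A (ind M)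
          - μ Aᶜ * QQ B Aᶜ (ind M) := by
      intro A; rw [h.sym]; ring
    rw [sum_congr rfl (fun A _ => this A), sum_sub_distrib, sum_sub_distrib, ← sum_mul, h.tot,
      sum_compl (fun A => μ A * QQ B A (ind M))]
    ring
  rw [e1]
  have hM0 : (0 : ℝ) ≤ M.card := by positivity
  set X : ℝ := (R.card : ℝ) * M.card with hX
  have hsq : 15 * ((M.card : ℝ) ^ 2) ≤ c * X := by
    rw [hX]; nlinarith
  have hsq0 : 0 ≤ (M.card : ℝ) ^ 2 := by positivity
  set W := w1 B (ind M) with hW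
  have hw' : W ≤ 7 / 10 * X := by rw [hX]; linarith
  have h5 := mul_le_mul_of_nonneg_left hw' hc0
  have h6 := mul_le_mul_of_nonneg_right hc hsq0
  nlinarith

theorem dvPm {μ : Finset (Fin n) → ℝ} {c : ℝ} (h : Gd μ c) (S : Finset (Fin n → ℤ))
    (hS : S.Nonempty) (O : Finset (Fin n → ℤ)) (hO : O ⊆ S) (l : ℝ) :
    l * O.card - (Real.exp l - 1) * ((∑ A : Finset (Fin n), μ A * (qc S A O : ℝ)) / S.card)
      + (∑ A : Finset (Fin n), μ A * (nc S A : ℝ)) / S.card ≤ Phm μ S := by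
  have hN0 : (0 : ℝ) < S.card := by exact_mod_cast card_pos.mpr hS
  have h1 := sum_le_sum (fun A (_ : A ∈ (univ : Finset (Finset (Fin n)))) =>
    mul_le_mul_of_nonneg_left (dv S hS A O hO l) (h.nn A))
  unfold Phm
  refine le_trans (le_of_eq ?_) h1
  have : ∀ A : Finset (Fin n), μ A * (l * O.card - (Real.exp l - 1) * qc S A O / S.card
      + nc S A / S.card) = μ A * (l * O.card) - (Real.exp l - 1) * (μ A * qc S A O / S.card)
        + μ A * nc S A / S.card := by
    intro A; ring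
  rw [sum_congr rfl (fun A _ => this A), sum_add_distrib, sum_sub_distrib, ← sum_mul, h.tot,
    ← mul_sum, ← sum_div, ← sum_div, one_mul]

theorem boot_alg (c o o1 o2 q r P : ℝ) (hc0 : 0 < c) (hc : c ≤ 1 / 4) (hc2 : c ^ 2 ≤ 1 / 16)
    (hp1 : 0 ≤ o) (ho10 : 0 ≤ o1) (ho20 : 0 ≤ o2) (ho12' : o1 + o2 = o) (hq0 : 0 ≤ q)
    (hr0 : 0 ≤ r) (hP0 : 0 ≤ P)
    (hdv : ∀ l : ℝ, l * o - (Real.exp l - 1) * q + r ≤ P)
    (hqr : (1 - c ^ 2 / 200) * (o1 + (1 + 2 * c) * o2) ≤ q + r)
    (hq1 : q ≤ (1 - c) * ((1 + c ^ 2 / 200) * o1) + 2 * o2 + c ^ 2 / 200 * o) :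
    c ^ 4 * o ≤ 1600 * P := by
  by_contra hcon
  have hcon' : 1600 * P < c ^ 4 * o := not_le.mp hcon
  set lam : ℝ := c ^ 2 / 40 with hlam
  have hl0 : 0 < lam := by positivity
  have hl1 : lam ≤ 1 / 640 := by rw [hlam]; linarith
  have hPl : P < lam ^ 2 * o := by
    have : lam ^ 2 * o = c ^ 4 * o / 1600 := by rw [hlam]; ring
    rw [this]; linarith
  have ho0 : 0 < o := by
    by_contra h1
    have : o = 0 := le_antisymm (not_lt.mp h1) hp1
    rw [this] at hPl
    linarith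
  have hex1 : (Real.exp lam - 1) * (1 - lam) ≤ lam := by
    have h1 := Real.add_one_le_exp (-lam)
    have h2 : Real.exp lam * Real.exp (-lam) = 1 := by
      rw [← Real.exp_add]; simp
    have h3 := Real.exp_pos lam
    have h4 := mul_le_mul_of_nonneg_left h1 h3.le
    linarith
  have hex2 : lam ≤ (1 - Real.exp (-lam)) * (1 + lam) := by
    have h1 := Real.add_one_le_exp lam
    have h2 : Real.exp lam * Real.exp (-lam) = 1 := by
      rw [← Real.exp_add]; simp
    have h3 := Real.exp_pos (-lam)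
    have h4 := mul_le_mul_of_nonneg_right h1 h3.le
    linarith
  have hA : (1 - lam) ^ 2 * o ≤ q := by
    have h1 := hdv lam
    have h2 := mul_le_mul_of_nonneg_right hex1 hq0
    have h3 : lam * ((1 - lam) ^ 2 * o) ≤ lam * q := by
      have h4 : (lam * o - (Real.exp lam - 1) * q + r) * (1 - lam) ≤ P * (1 - lam) :=
        mul_le_mul_of_nonneg_right h1 (by linarith)
      have h5 : P * (1 - lam) ≤ lam ^ 2 * o * (1 - lam) :=
        mul_le_mul_of_nonneg_right hPl.le (by linarith)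
      have h6 : 0 ≤ r * (1 - lam) := mul_nonneg hr0 (by linarith)
      linarith
    exact le_of_mul_le_mul_left h3 hl0
  have hB : q ≤ (1 + lam) ^ 2 * o := by
    have h1 := hdv (-lam)
    have h2 := mul_le_mul_of_nonneg_right hex2 hq0
    have h3 : lam * q ≤ lam * ((1 + lam) ^ 2 * o) := by
      have h4 : (-lam * o - (Real.exp (-lam) - 1) * q + r) * (1 + lam) ≤ P * (1 + lam) :=
        mul_le_mul_of_nonneg_right h1 (by linarith)
      have h5 : P * (1 + lam) ≤ lam ^ 2 * o * (1 + lam) :=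
        mul_le_mul_of_nonneg_right hPl.le (by linarith)
      have h6 : 0 ≤ r * (1 + lam) := mul_nonneg hr0 (by linarith)
      linarith
    exact le_of_mul_le_mul_left h3 hl0
  have hlo : 0 ≤ lam * o := by positivity
  have hll : lam ^ 2 * o ≤ 1 / 640 * (lam * o) := by
    have := mul_le_mul_of_nonneg_right hl1 hlo
    linarith
  have hA' : o - 2 * (lam * o) ≤ q := by
    have : 0 ≤ lam ^ 2 * o := by positivity
    linarith
  have hB' : q ≤ o + 3 * (lam * o) := by linarith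
  have hr1 : r ≤ P := by
    have := hdv 0
    simpa using this
  have hr2 : r ≤ lam * o := by linarith
  have e1 : lam * o = c ^ 2 * o / 40 := by rw [hlam]; ring
  rw [e1] at hA' hB' hr2
  -- o2 is small
  have hc2o2 : c ^ 2 * o2 ≤ 1 / 16 * o2 := mul_le_mul_of_nonneg_right hc2 ho20
  have hco2 : 0 ≤ c * o2 := by positivity
  have hcc : c ^ 2 * (c * o2) ≤ 1 / 16 * (c * o2) := mul_le_mul_of_nonneg_right hc2 hco2
  have h1 : c * (2 * o2 - 2 / 3200 * o2) ≤ c * (21 / 200 * (c * o)) := by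
    have h2 : (1 - c ^ 2 / 200) * (o1 + (1 + 2 * c) * o2)
        = o + 2 * (c * o2) - c ^ 2 * o / 200 - c ^ 2 * (c * o2) / 100 := by
      rw [← ho12']; ring
    rw [h2] at hqr
    have h3 : c * (21 / 200 * (c * o)) = 21 / 200 * (c ^ 2 * o) := by ring
    have h4 : c * (2 * o2 - 2 / 3200 * o2) = 2 * (c * o2) - 2 / 3200 * (c * o2) := by ring
    rw [h3, h4]
    linarith
  have h2 := le_of_mul_le_mul_left h1 hc0
  -- the final contradiction
  have hco : 0 < c * o := mul_pos hc0 ho0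
  have hcco : c ^ 2 * o ≤ 1 / 4 * (c * o) := by
    have := mul_le_mul_of_nonneg_right hc hco.le
    linarith
  have ho1o : o1 ≤ o := by linarith
  have h3 : (1 - c) * ((1 + c ^ 2 / 200) * o1) ≤ o - c * o + c ^ 2 * o / 200 := by
    have h4 : (1 - c) * ((1 + c ^ 2 / 200) * o1) ≤ (1 - c + c ^ 2 / 200) * o1 := by
      have : 0 ≤ c * (c ^ 2 / 200) * o1 := by positivity
      linarith
    have h5 : (1 - c + c ^ 2 / 200) * o1 ≤ (1 - c + c ^ 2 / 200) * o :=
      mul_le_mul_of_nonneg_left ho1o (by linarith)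
    linarith
  linarith

theorem bootm {μ : Finset (Fin n) → ℝ} {c : ℝ} (h : Gd μ c) (hc0 : 0 < c) (hc : c ≤ 1 / 4)
    (S : Finset (Fin n → ℤ)) (hS : S.Nonempty) (B : Fin n → Finset ℤ)
    (hopt : Opt S B) (hne : ∀ i, (B i).Nonempty)
    (hO : 200 * ((S \ Fintype.piFinset B).card : ℝ) ≤ c ^ 2 * S.card)
    (hM : 200 * ((Fintype.piFinset B \ S).card : ℝ) ≤ c ^ 2 * S.card) :
    c ^ 4 * ((symmDiff S (Fintype.piFinset B)).card : ℝ) ≤ 2000 * Phm μ S := by
  classical
  have hN0 : (0 : ℝ) < S.card := by exact_mod_cast card_pos.mpr hS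
  set R := Fintype.piFinset B with hR
  rw [card_symmDiff_eq]
  have hup := upperm h hc0.le S B hopt
  have hlo := lowerm h S B
  rw [← hR] at hup hlo
  have hP0 := Phm_nonneg h S
  have hc2 : c ^ 2 ≤ 1 / 16 := by nlinarith
  have hc20 : 0 < c ^ 2 := by positivity
  have hSR : ((S ∩ R).card : ℝ) = S.card - (S \ R).card := by
    have h2 : ((S \ R).card : ℝ) + (S ∩ R).card = S.card := card_sdiff_add S R
    linarith
  have hRS : (R.card : ℝ) = S.card - (S \ R).card + (R \ S).card := by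
    have h2 : ((R \ S).card : ℝ) + (R ∩ S).card = R.card := card_sdiff_add R S
    rw [inter_comm, hSR] at h2
    linarith
  have hNc : c ^ 2 * (S.card : ℝ) ≤ 1 / 16 * S.card := mul_le_mul_of_nonneg_right hc2 hN0.le
  have hNc' : c ^ 2 * (S.card : ℝ) ≤ c * (1 / 4 * S.card) := by
    have := mul_le_mul_of_nonneg_right hc (mul_pos hc0 hN0).le
    nlinarith
  have hp1 : (0 : ℝ) ≤ (S \ R).card := by positivity
  have hp2 : (0 : ℝ) ≤ (R \ S).card := by positivity
  have hR1 : 1 / 2 * (S.card : ℝ) ≤ R.card := by linarith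
  have hmi := missm h hc0.le hc S B hopt hne (by rw [← hR]; linarith)
    (by
      rw [← hR]
      have := mul_le_mul_of_nonneg_left hR1 hc0.le
      linarith)
  rw [← hR] at hmi
  have ho12' : ((O1 S B).card : ℝ) + (O2 S B).card = (S \ R).card := by
    exact_mod_cast O1_add_O2 S B
  have hhit : 1 / 2 * ((O1 S B).card : ℝ) + (1 / 2 + c) * (O2 S B).card
      ≤ ∑ x ∈ S \ R, hitm μ (bad B x) := by
    have h1 : ∑ x ∈ S \ R, hitm μ (bad B x)
        = ∑ x ∈ O1 S B, hitm μ (bad B x) + ∑ x ∈ O2 S B, hitm μ (bad B x) := by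
      unfold O1 O2
      rw [← hR]
      exact (sum_filter_add_sum_filter_not _ _ _).symm
    have h2 : ∑ _x ∈ O1 S B, ((1 : ℝ) / 2) ≤ ∑ x ∈ O1 S B, hitm μ (bad B x) := by
      apply sum_le_sum
      intro x hx
      apply hitm_one h
      rw [nonempty_iff_ne_empty]
      intro h'
      exact (mem_sdiff.mp (mem_filter.mp hx).1).2 (bad_empty.mp h')
    have h3 : ∑ _x ∈ O2 S B, ((1 : ℝ) / 2 + c) ≤ ∑ x ∈ O2 S B, hitm μ (bad B x) :=
      sum_le_sum (fun x hx => hitm_two h (two_le_of_O2 hx))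
    rw [sum_const, nsmul_eq_mul] at h2 h3
    rw [h1]
    linarith
  set q : ℝ := (∑ A : Finset (Fin n), μ A * (qc S A (S \ R) : ℝ)) / S.card with hq
  set r : ℝ := (∑ A : Finset (Fin n), μ A * (nc S A : ℝ)) / S.card with hr
  have hq0 : 0 ≤ q := div_nonneg (sum_nonneg
    (fun A _ => mul_nonneg (h.nn A) (Nat.cast_nonneg _))) hN0.le
  have hr0 : 0 ≤ r := div_nonneg (sum_nonneg
    (fun A _ => mul_nonneg (h.nn A) (Nat.cast_nonneg _))) hN0.le
  have hdv : ∀ l : ℝ, l * (S \ R).card - (Real.exp l - 1) * q + r ≤ Phm μ S := fun l =>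
    dvPm h S hS (S \ R) sdiff_subset l
  have hqN : ∑ A : Finset (Fin n), μ A * (qc S A (S \ R) : ℝ) = q * S.card := by
    rw [hq]; field_simp
  have hrN : ∑ A : Finset (Fin n), μ A * (nc S A : ℝ) = r * S.card := by
    rw [hr]; field_simp
  have hlo' : 2 * ((S.card : ℝ) - (S \ R).card) * ∑ x ∈ S \ R, hitm μ (bad B x)
      ≤ (q + r) * S.card := by
    rw [← hSR]
    refine hlo.trans (le_of_eq ?_)
    simp only [mul_add]
    rw [sum_add_distrib, hqN, hrN]; ring
  rw [hqN] at hup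
  rw [hrN] at hmi
  clear_value q r
  generalize hXg : ∑ x ∈ S \ R, hitm μ (bad B x) = X at hhit hlo'
  generalize hog : ((S \ R).card : ℝ) = o at *
  generalize hmg : ((R \ S).card : ℝ) = m at *
  generalize hNg : (S.card : ℝ) = N at *
  generalize hbg : (R.card : ℝ) = b at *
  have ho10 : (0 : ℝ) ≤ (O1 S B).card := Nat.cast_nonneg _
  have ho20 : (0 : ℝ) ≤ (O2 S B).card := Nat.cast_nonneg _
  generalize ho1g : ((O1 S B).card : ℝ) = o1 at *
  generalize ho2g : ((O2 S B).card : ℝ) = o2 at *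
  generalize hPg : Phm μ S = P at *
  clear hlo hqN hrN hSR hq hr hopt hne
  -- r bounds
  have hr1 : r ≤ P := by
    have := hdv 0
    simpa using this
  have hm1 : c * m ≤ 4 * r := by
    have h1 : c / 2 * (1 / 2 * N * m) ≤ c / 2 * (b * m) := by
      apply mul_le_mul_of_nonneg_left _ (by linarith)
      exact mul_le_mul_of_nonneg_right hR1 hp2
    have h2 : N * (c * m) ≤ N * (4 * r) := by linarith
    exact le_of_mul_le_mul_left h2 hN0
  -- lower bound for q + r
  have hqr : (1 - c ^ 2 / 200) * (o1 + (1 + 2 * c) * o2) ≤ q + r := by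
    have h1 : N * (1 - c ^ 2 / 200) ≤ N - o := by linarith
    have h2 : 0 ≤ 1 / 2 * o1 + (1 / 2 + c) * o2 := by positivity
    have h3 : 0 ≤ N - o := by linarith
    have h4 : N * (1 - c ^ 2 / 200) * (1 / 2 * o1 + (1 / 2 + c) * o2) ≤ (N - o) * X :=
      mul_le_mul h1 hhit h2 h3
    have h5 : N * ((1 - c ^ 2 / 200) * (o1 + (1 + 2 * c) * o2)) ≤ N * (q + r) := by
      linarith
    exact le_of_mul_le_mul_left h5 hN0
  -- upper bound for q
  have hq1 : q ≤ (1 - c) * ((1 + c ^ 2 / 200) * o1) + 2 * o2 + c ^ 2 / 200 * o := by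
    have h1 : b * o1 ≤ N * (1 + c ^ 2 / 200) * o1 :=
      mul_le_mul_of_nonneg_right (by linarith) ho10
    have h2 : (1 - c) * (b * o1) ≤ (1 - c) * (N * (1 + c ^ 2 / 200) * o1) :=
      mul_le_mul_of_nonneg_left h1 (by linarith)
    have h3 : o * o ≤ (c ^ 2 / 200 * N) * o := mul_le_mul_of_nonneg_right (by linarith) hp1
    have h4 : N * q ≤ N * ((1 - c) * ((1 + c ^ 2 / 200) * o1) + 2 * o2 + c ^ 2 / 200 * o) := by
      linarith
    exact le_of_mul_le_mul_left h4 hN0
  have hmain := boot_alg c o o1 o2 q r P hc0 hc hc2 hp1 ho10 ho20 ho12' hq0 hr0 hP0 hdv hqr hq1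
  have hm2 : c ^ 4 * m ≤ 4 * P := by
    have h1 : c ^ 4 * m = c ^ 3 * (c * m) := by ring
    have h2 : c ^ 3 * (c * m) ≤ 1 * (c * m) := by
      apply mul_le_mul_of_nonneg_right _ (mul_nonneg hc0.le hp2)
      exact pow_le_one₀ hc0.le (by linarith)
    linarith
  linarith

end Pool.Agent.H488R3.UC
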