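import Pool.Agent.H488R3.UC.GM3
import Pool.Agent.H488R3.UC.BT5c

/-!
The recursion for symmetric weights, and the rough statement.
-/

namespace Pool.Agent.H488R3.UC

open Finset

variable {n : ℕ}

/-- the trace of a weight on the first coordinates -/
def trm (μ : Finset (Fin (n + 1)) → ℝ) (C : Finset (Fin n)) : ℝ :=
  μ (mp C) + μ (insert (Fin.last n) (mp C))

theorem ins_eq (C : Finset (Fin n)) : insert (Fin.last n) (mp C) = (mp Cᶜ)ᶜ := by
  rw [compl_mp, compl_compl]

theorem Gd.ins {μ : Finset (Fin (n + 1)) → ℝ} {c : ℝ} (h : Gd μ c) (C : Finset (Fin n)) :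
    μ (insert (Fin.last n) (mp C)) = μ (mp Cᶜ) := by
  rw [ins_eq, h.sym]

theorem Gd.trm {μ : Finset (Fin (n + 1)) → ℝ} {c : ℝ} (h : Gd μ c) : Gd (trm μ) c where
  nn := fun C => add_nonneg (h.nn _) (h.nn _)
  tot := by
    rw [← h.tot, sum_succ μ, ← sum_add_distrib]; rfl
  sym := by
    intro C
    unfold UC.trm
    rw [h.ins, h.ins, compl_compl, add_comm]
  sep := by
    intro i j hij
    have h1 := h.sep i.castSucc j.castSucc (fun h' => hij (Fin.castSucc_injective n h'))
    rw [sum_succ] at h1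
    refine h1.trans (le_of_eq ?_)
    rw [← sum_add_distrib]
    apply sum_congr rfl
    intro C _
    have e1 : i.castSucc ∈ insert (Fin.last n) (mp C) ↔ i ∈ C := by
      rw [← mem_tr, tr_ins]
    have e2 : j.castSucc ∈ insert (Fin.last n) (mp C) ↔ j ∈ C := by
      rw [← mem_tr, tr_ins]
    simp only [castSucc_mem_mp, e1, e2]
    unfold UC.trm
    split_ifs <;> simp

theorem Gd.tot_mp {μ : Finset (Fin (n + 1)) → ℝ} {c : ℝ} (h : Gd μ c) :
    ∑ C : Finset (Fin n), μ (mp C) = 1 / 2 := by
  have h1 := h.tot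
  rw [sum_succ μ] at h1
  have h2 : ∑ C : Finset (Fin n), μ (insert (Fin.last n) (mp C))
      = ∑ C : Finset (Fin n), μ (mp C) := by
    rw [← sum_compl (fun C : Finset (Fin n) => μ (mp C))]
    exact sum_congr rfl (fun C _ => h.ins C)
  rw [h2] at h1
  linarith

theorem Gd.sep_mp {μ : Finset (Fin (n + 1)) → ℝ} {c : ℝ} (h : Gd μ c) (i : Fin n) :
    c ≤ ∑ C : Finset (Fin n), if i ∈ C then μ (mp C) else 0 := by
  have h1 := h.sep i.castSucc (Fin.last n) (Fin.castSucc_lt_last i).ne
  rw [sum_succ] at h1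
  refine h1.trans (le_of_eq ?_)
  have h2 : ∑ C : Finset (Fin n), (if i.castSucc ∈ insert (Fin.last n) (mp C)
      ∧ Fin.last n ∉ insert (Fin.last n) (mp C) then μ (insert (Fin.last n) (mp C)) else 0)
      = 0 := by
    apply sum_eq_zero
    intro C _
    rw [if_neg]
    rintro ⟨_, h3⟩
    exact h3 (mem_insert_self _ _)
  rw [h2, add_zero]
  apply sum_congr rfl
  intro C _
  simp only [castSucc_mem_mp, last_not_mem_mp, not_false_eq_true, and_true]

theorem Gd.co_mp {μ : Finset (Fin (n + 1)) → ℝ} {c : ℝ} (h : Gd μ c) (i : Fin n) :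
    ∑ C : Finset (Fin n), (if i ∉ C then μ (mp C) else 0) ≤ 1 / 2 - c := by
  have h1 := h.sep_mp i
  have h2 : ∑ C : Finset (Fin n), ((if i ∈ C then μ (mp C) else 0)
      + (if i ∉ C then μ (mp C) else 0)) = 1 / 2 := by
    rw [← h.tot_mp]
    apply sum_congr rfl
    intro C _
    by_cases hi : i ∈ C <;> simp [hi]
  rw [sum_add_distrib] at h2
  linarith

/-- the averaged gain of a slice -/
noncomputable def Gamm (μ : Finset (Fin (n + 1)) → ℝ) (S : Finset (Fin (n + 1) → ℤ)) (a : ℤ) :
    ℝ := 2 * ∑ C : Finset (Fin n), μ (mp C) * Gm S a C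

theorem Gamm_nonneg {μ : Finset (Fin (n + 1)) → ℝ} {c : ℝ} (h : Gd μ c)
    (S : Finset (Fin (n + 1) → ℤ)) (hS : S.Nonempty) (a : ℤ) : 0 ≤ Gamm μ S a :=
  mul_nonneg (by norm_num)
    (sum_nonneg (fun C _ => mul_nonneg (h.nn _) (Gm_nonneg S hS a C)))

theorem Phm_two {μ : Finset (Fin (n + 1)) → ℝ} {c : ℝ} (h : Gd μ c)
    (S : Finset (Fin (n + 1) → ℤ)) :
    Phm μ S = 2 * ∑ C : Finset (Fin n), μ (mp C) * IAN S (mp C) := by
  unfold Phm
  rw [sum_succ]
  have h2 : ∑ C : Finset (Fin n), μ (insert (Fin.last n) (mp C))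
      * IAN S (insert (Fin.last n) (mp C))
      = ∑ C : Finset (Fin n), μ (mp C) * IAN S (mp C) := by
    rw [← sum_compl (fun C : Finset (Fin n) => μ (mp C) * IAN S (mp C))]
    apply sum_congr rfl
    intro C _
    rw [h.ins, ins_eq, IAN_compl]
  rw [h2]; ring

theorem Phm_tr {μ : Finset (Fin (n + 1)) → ℝ} {c : ℝ} (h : Gd μ c)
    (T : Finset (Fin n → ℤ)) :
    Phm (trm μ) T = 2 * ∑ C : Finset (Fin n), μ (mp C) * IAN T C := by
  unfold Phm trm
  simp only [add_mul]
  rw [sum_add_distrib]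
  have h2 : ∑ C : Finset (Fin n), μ (insert (Fin.last n) (mp C)) * IAN T C
      = ∑ C : Finset (Fin n), μ (mp C) * IAN T C := by
    rw [← sum_compl (fun C : Finset (Fin n) => μ (mp C) * IAN T C)]
    apply sum_congr rfl
    intro C _
    rw [h.ins, IAN_compl]
  rw [h2]; ring

theorem Phm_rec {μ : Finset (Fin (n + 1)) → ℝ} {c : ℝ} (h : Gd μ c)
    (S : Finset (Fin (n + 1) → ℤ)) :
    Phm μ S = ∑ a ∈ vals S, Phm (trm μ) (slice a S) + ∑ a ∈ vals S, Gamm μ S a := by
  rw [Phm_two h]
  simp only [Phm_tr h]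
  unfold Gamm
  rw [← mul_sum, ← mul_sum, ← mul_add, sum_comm (s := vals S), sum_comm (s := vals S),
    ← sum_add_distrib]
  congr 1
  apply sum_congr rfl
  intro C _
  rw [IAN_mp, mul_add, mul_sum, mul_sum]

theorem outm {μ : Finset (Fin (n + 1)) → ℝ} {c : ℝ} (h : Gd μ c)
    (S : Finset (Fin (n + 1) → ℤ)) (hS : S.Nonempty) (β : ℤ) (hβ : β ∈ vals S)
    (B : Fin n → Finset ℤ) (u κ : ℝ)
    (hu : ((slice β S \ Fintype.piFinset B).card : ℝ) ≤ u * (slice β S).card)
    (hG : Gamm μ S β ≤ κ * (slice β S).card) :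
    c * ((S.filter (fun x => ini x ∉ Fintype.piFinset B)).card : ℝ) ≤ (κ + u) * S.card := by
  classical
  have hN : (0 : ℝ) < S.card := by exact_mod_cast card_pos.mpr hS
  have hNβ : (0 : ℝ) < (slice β S).card := by exact_mod_cast card_pos.mpr (slice_nonempty hβ)
  set R := Fintype.piFinset B with hR
  have h1 : ∀ C : Finset (Fin n), 1 / 2 * (((slice β S).card : ℝ) / S.card)
      * (S.filter (fun x => ∃ i ∈ bad B (ini x), i ∈ C)).card
      ≤ Gm S β C + u * (slice β S).card := by
    intro C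
    have hE : ∀ y y' : Fin n → ℤ, Agr C y y' →
        ((∃ i ∈ bad B y, i ∈ C) ↔ (∃ i ∈ bad B y', i ∈ C)) := by
      intro y y' h
      constructor
      · rintro ⟨i, hi, hiC⟩
        refine ⟨i, ?_, hiC⟩
        rw [mem_bad] at hi ⊢
        rwa [← h i hiC]
      · rintro ⟨i, hi, hiC⟩
        refine ⟨i, ?_, hiC⟩
        rw [mem_bad] at hi ⊢
        rwa [h i hiC]
    have h2 := dvG S hS β C (fun y => ∃ i ∈ bad B y, i ∈ C) hE (-1)
    have h3 : (((slice β S).filter (fun y => ∃ i ∈ bad B y, i ∈ C)).card : ℝ)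
        ≤ u * (slice β S).card := by
      refine le_trans ?_ hu
      have : ((slice β S).filter (fun y => ∃ i ∈ bad B y, i ∈ C)).card
          ≤ (slice β S \ R).card := by
        apply card_le_card
        intro y hy
        obtain ⟨h4, i, hi, _⟩ := mem_filter.mp hy
        refine mem_sdiff.mpr ⟨h4, fun h5 => ?_⟩
        exact mem_bad.mp hi (Fintype.mem_piFinset.mp h5 i)
      exact_mod_cast this
    set X : ℝ := ((S.filter (fun x => ∃ i ∈ bad B (ini x), i ∈ C)).card : ℝ) with hX
    have hX0 : 0 ≤ X := by rw [hX]; positivity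
    have h4 : 1 / 2 * ((((slice β S).card : ℝ) / S.card) * X)
        ≤ (1 - Real.exp (-1)) * ((((slice β S).card : ℝ) / S.card) * X) :=
      mul_le_mul_of_nonneg_right e_lo (mul_nonneg (div_pos hNβ hN).le hX0)
    linarith
  have h2 := sum_le_sum (fun C (_ : C ∈ (univ : Finset (Finset (Fin n)))) =>
    mul_le_mul_of_nonneg_left (h1 C) (h.nn (mp C)))
  simp only [mul_add] at h2
  rw [sum_add_distrib, ← sum_mul, h.tot_mp] at h2
  have h3 : c * ((S.filter (fun x => ini x ∉ R)).card : ℝ)
      ≤ ∑ C : Finset (Fin n), μ (mp C)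
        * ((S.filter (fun x => ∃ i ∈ bad B (ini x), i ∈ C)).card : ℝ) := by
    have e1 : ∀ C : Finset (Fin n), μ (mp C) *
        ((S.filter (fun x => ∃ i ∈ bad B (ini x), i ∈ C)).card : ℝ)
        = ∑ x ∈ S, if ∃ i ∈ bad B (ini x), i ∈ C then μ (mp C) else 0 := by
      intro C
      rw [← sum_filter, sum_const, nsmul_eq_mul, mul_comm]
    simp only [e1]
    rw [sum_comm]
    have e3 : c * ((S.filter (fun x => ini x ∉ R)).card : ℝ)
        = ∑ _x ∈ S.filter (fun x => ini x ∉ R), c := by
      rw [sum_const, nsmul_eq_mul]; ring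
    rw [e3]
    refine le_trans (sum_le_sum (g := fun x => ∑ C : Finset (Fin n),
      if ∃ i ∈ bad B (ini x), i ∈ C then μ (mp C) else 0) ?_)
      (sum_le_sum_of_subset_of_nonneg (filter_subset _ _) (fun x _ _ => ?_))
    · intro x hx
      have hne : (bad B (ini x)).Nonempty := by
        rw [nonempty_iff_ne_empty]
        intro h'
        exact (mem_filter.mp hx).2 (bad_empty.mp h')
      obtain ⟨i, hi⟩ := hne
      refine (h.sep_mp i).trans (sum_le_sum (fun C _ => ?_))
      by_cases hC : i ∈ C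
      · rw [if_pos hC, if_pos ⟨i, hi, hC⟩]
      · rw [if_neg hC]
        split_ifs
        · exact h.nn _
        · exact le_refl _
    · apply sum_nonneg
      intro C _
      split_ifs
      · exact h.nn _
      · exact le_refl _
  have e4 : ∑ C : Finset (Fin n), μ (mp C) * Gm S β C = Gamm μ S β / 2 := by
    unfold Gamm; ring
  rw [e4] at h2
  have e5 : ∑ C : Finset (Fin n), μ (mp C) * (1 / 2 * (((slice β S).card : ℝ) / S.card)
      * (S.filter (fun x => ∃ i ∈ bad B (ini x), i ∈ C)).card)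
      = 1 / 2 * (((slice β S).card : ℝ) / S.card) * ∑ C : Finset (Fin n), μ (mp C)
        * ((S.filter (fun x => ∃ i ∈ bad B (ini x), i ∈ C)).card : ℝ) := by
    rw [mul_sum]
    apply sum_congr rfl
    intro C _
    ring
  rw [e5] at h2
  set Y : ℝ := ((S.filter (fun x => ini x ∉ R)).card : ℝ) with hY
  have h5 : 1 / 2 * (((slice β S).card : ℝ) / S.card) * (c * Y)
      ≤ 1 / 2 * (((slice β S).card : ℝ) / S.card) * ((κ + u) * S.card) := by
    have h6 := mul_le_mul_of_nonneg_left h3
      (show (0 : ℝ) ≤ 1 / 2 * (((slice β S).card : ℝ) / S.card) by positivity)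
    have h7 : 1 / 2 * (((slice β S).card : ℝ) / S.card) * ((κ + u) * S.card)
        = 1 / 2 * ((κ + u) * (slice β S).card) := by field_simp
    rw [h7]
    linarith
  exact le_of_mul_le_mul_left h5 (by positivity)

/-- crossing a typical point of the box with a typical point of the set -/
theorem crossm (S : Finset (Fin (n + 1) → ℤ)) (hS : S.Nonempty)
    (β : ℤ) (hβ : β ∈ vals S) (R : Finset (Fin n → ℤ)) (u : ℝ)
    (hu : ((R \ slice β S).card : ℝ) ≤ u * (slice β S).card) (C : Finset (Fin n)) :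
    ∑ x' ∈ S, ((R.filter (fun y => app (cr C y (ini x')) (x' (Fin.last n)) ∉ S)).card : ℝ)
      ≤ 2 * (slice β S).card * IAN S (mp C) + S.card * Gm S β C
        + u * (slice β S).card * S.card := by
  classical
  have hN : (0 : ℝ) < S.card := by exact_mod_cast card_pos.mpr hS
  have hNβ : (0 : ℝ) < (slice β S).card := by exact_mod_cast card_pos.mpr (slice_nonempty hβ)
  have h1 : ∀ x' ∈ S,
      ((R.filter (fun y => app (cr C y (ini x')) (x' (Fin.last n)) ∉ S)).card : ℝ)
      ≤ 2 * ((slice β S).card / S.card)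
        * (S.filter (fun x => app (cr C (ini x) (ini x')) (x' (Fin.last n)) ∉ S)).card
        + Gm S β C + u * (slice β S).card := by
    intro x' _
    have hE : ∀ y y' : Fin n → ℤ, Agr C y y' →
        (app (cr C y (ini x')) (x' (Fin.last n)) ∉ S
          ↔ app (cr C y' (ini x')) (x' (Fin.last n)) ∉ S) := by
      intro y y' h
      have : cr C y (ini x') = cr C y' (ini x') := by
        funext i
        unfold cr
        split_ifs with hi
        · exact h i hi
        · rfl
      rw [this]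
    have h2 := dvG S hS β C (fun y => app (cr C y (ini x')) (x' (Fin.last n)) ∉ S) hE 1
    have h3 : (R.filter (fun y => app (cr C y (ini x')) (x' (Fin.last n)) ∉ S)).card
        ≤ ((slice β S).filter (fun y => app (cr C y (ini x')) (x' (Fin.last n)) ∉ S)).card
          + (R \ slice β S).card := by
      rw [← card_filter_add_card_filter_not
        (s := R.filter (fun y => app (cr C y (ini x')) (x' (Fin.last n)) ∉ S))
        (fun y => y ∈ slice β S)]
      apply add_le_add
      · apply card_le_card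
        intro y hy
        obtain ⟨h3, h5⟩ := mem_filter.mp hy
        exact mem_filter.mpr ⟨h5, (mem_filter.mp h3).2⟩
      · apply card_le_card
        intro y hy
        obtain ⟨h3, h5⟩ := mem_filter.mp hy
        exact mem_sdiff.mpr ⟨(mem_filter.mp h3).1, h5⟩
    have h4 : ((R.filter (fun y => app (cr C y (ini x')) (x' (Fin.last n)) ∉ S)).card : ℝ)
        ≤ ((slice β S).filter (fun y => app (cr C y (ini x')) (x' (Fin.last n)) ∉ S)).card
          + (R \ slice β S).card := by exact_mod_cast h3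
    set X : ℝ := ((S.filter (fun x => app (cr C (ini x) (ini x')) (x' (Fin.last n)) ∉ S)).card
      : ℝ) with hX
    have hX0 : 0 ≤ X := by rw [hX]; positivity
    have h5 : (Real.exp 1 - 1) * ((((slice β S).card : ℝ) / S.card) * X)
        ≤ 2 * ((((slice β S).card : ℝ) / S.card) * X) :=
      mul_le_mul_of_nonneg_right e_up (mul_nonneg (div_pos hNβ hN).le hX0)
    linarith
  refine (sum_le_sum h1).trans ?_
  rw [sum_add_distrib, sum_add_distrib, sum_const, sum_const, nsmul_eq_mul, nsmul_eq_mul,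
    ← mul_sum]
  have h2 : ∑ x' ∈ S, ((S.filter (fun x =>
      app (cr C (ini x) (ini x')) (x' (Fin.last n)) ∉ S)).card : ℝ) = nc S (mp C) := by
    unfold nc
    rw [dsum, sum_comm]
    apply sum_congr rfl
    intro x' _
    rw [card_filter]
    push_cast
    apply sum_congr rfl
    intro x _
    have : cr (mp C) x x' = app (cr C (ini x) (ini x')) (x' (Fin.last n)) := by
      rw [← cr_mp C (ini x) (ini x') (x (Fin.last n)) (x' (Fin.last n)), app_ini, app_ini]
    simp only [this]
  rw [h2]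
  have h3 := dv S hS (mp C) ∅ (empty_subset _) 0
  simp only [zero_mul, Real.exp_zero, sub_self, zero_div, zero_add] at h3
  have h4 : (nc S (mp C) : ℝ) / S.card ≤ IAN S (mp C) := by linarith
  have h5 := mul_le_mul_of_nonneg_left h4 (show (0 : ℝ) ≤ 2 * (slice β S).card by positivity)
  have e1 : 2 * (((slice β S).card : ℝ) / S.card) * (nc S (mp C) : ℝ)
      = 2 * (slice β S).card * ((nc S (mp C) : ℝ) / S.card) := by ring
  rw [e1]
  linarith

end Pool.Agent.H488R3.UC
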