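import Pool.Agent.H488R3.UC.GM4

/-!
The box theorem for symmetric weights.
-/

namespace Pool.Agent.H488R3.UC

open Finset

variable {n : ℕ}

theorem cross_ge (S : Finset (Fin (n + 1) → ℤ)) (B : Fin n → Finset ℤ) (C : Finset (Fin n)) :
    ∑ a ∈ vals S, (((Fintype.piFinset B).card : ℝ) * (slice a S ∩ Fintype.piFinset B).card
        - QQ B Cᶜ (ind (slice a S ∩ Fintype.piFinset B)))
      ≤ ∑ x' ∈ S, (((Fintype.piFinset B).filter
        (fun y => app (cr C y (ini x')) (x' (Fin.last n)) ∉ S)).card : ℝ) := by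
  classical
  set R := Fintype.piFinset B with hR
  rw [sum_slices]
  simp only [ini_app, app_last]
  apply sum_le_sum
  intro a _
  set Q := slice a S ∩ R with hQ
  have hQs : Q ⊆ slice a S := inter_subset_left
  have hQR : Q ⊆ R := inter_subset_right
  refine le_trans (le_of_eq ?_) (sum_le_sum_of_subset_of_nonneg hQs
    (fun _ _ _ => Nat.cast_nonneg _))
  have h1 : ∀ y' ∈ Q, ((R.filter (fun y => app (cr C y y') a ∉ S)).card : ℝ)
      = R.card - ∑ y ∈ R, ind Q (cr C y y') := by
    intro y' hy'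
    have h2 : ((R.filter (fun y => app (cr C y y') a ∉ S)).card : ℝ)
        = ∑ y ∈ R, (1 - ind Q (cr C y y')) := by
      rw [card_filter]
      push_cast
      apply sum_congr rfl
      intro y hy
      have h3 : cr C y y' ∈ R := cr_mem B hy (hQR hy')
      have h4 : app (cr C y y') a ∈ S ↔ cr C y y' ∈ Q := by
        rw [hQ, mem_inter, mem_slice]
        constructor
        · intro h
          exact ⟨⟨_, h, app_last _ _, ini_app _ _⟩, h3⟩
        · rintro ⟨⟨x, hx, hxa, hxi⟩, _⟩
          rw [← hxi, ← hxa, app_ini]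
          exact hx
      unfold ind
      by_cases h5 : cr C y y' ∈ Q
      · rw [if_neg (not_not.mpr (h4.mpr h5)), if_pos h5]; norm_num
      · rw [if_pos (fun h => h5 (h4.mp h)), if_neg h5]; norm_num
    rw [h2, sum_sub_distrib, sum_const, nsmul_eq_mul, mul_one]
  rw [sum_congr rfl h1, sum_sub_distrib, sum_const, nsmul_eq_mul]
  have h2 : QQ B Cᶜ (ind Q) = ∑ y' ∈ Q, ∑ y ∈ R, ind Q (cr C y y') := by
    unfold QQ
    rw [← hR, ← sum_subset hQR]
    · apply sum_congr rfl
      intro y' hy'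
      apply sum_congr rfl
      intro y _
      have : ind Q y' = 1 := by unfold ind; rw [if_pos hy']
      rw [this, one_mul, cr_compl]
    · intro y' _ hy'
      apply sum_eq_zero
      intro y _
      have : ind Q y' = 0 := by unfold ind; rw [if_neg hy']
      rw [this, zero_mul]
  rw [h2]; ring

theorem spreadm {μ : Finset (Fin (n + 1)) → ℝ} {c : ℝ} (h : Gd μ c)
    (S : Finset (Fin (n + 1) → ℤ)) (hS : S.Nonempty) (β : ℤ) (hβ : β ∈ vals S)
    (B : Fin n → Finset ℤ) (u κ : ℝ)
    (hu : ((Fintype.piFinset B \ slice β S).card : ℝ) ≤ u * (slice β S).card)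
    (hG : Gamm μ S β ≤ κ * (slice β S).card) (hΦ : Phm μ S ≤ κ * S.card) :
    c * ∑ a ∈ vals S, ((slice a S ∩ Fintype.piFinset B).card : ℝ)
        * ((Fintype.piFinset B).card - (slice a S ∩ Fintype.piFinset B).card)
      ≤ (3 / 2 * κ + u / 2) * ((slice β S).card * S.card) := by
  classical
  have hN : (0 : ℝ) < S.card := by exact_mod_cast card_pos.mpr hS
  have hNβ : (0 : ℝ) < (slice β S).card := by exact_mod_cast card_pos.mpr (slice_nonempty hβ)
  set R := Fintype.piFinset B with hR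
  -- upper bound
  have h1 : ∀ C : Finset (Fin n), μ (mp C) * ∑ a ∈ vals S,
      ((R.card : ℝ) * (slice a S ∩ R).card - QQ B Cᶜ (ind (slice a S ∩ R)))
      ≤ μ (mp C) * (2 * (slice β S).card * IAN S (mp C) + S.card * Gm S β C
        + u * (slice β S).card * S.card) := fun C =>
    mul_le_mul_of_nonneg_left ((cross_ge S B C).trans (crossm S hS β hβ R u hu C)) (h.nn _)
  have h2 := sum_le_sum (fun C (_ : C ∈ (univ : Finset (Finset (Fin n)))) => h1 C)
  have e1 : ∑ C : Finset (Fin n), μ (mp C) * (2 * (slice β S).card * IAN S (mp C)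
      + S.card * Gm S β C + u * (slice β S).card * S.card)
      = (slice β S).card * Phm μ S + S.card * (Gamm μ S β / 2)
        + u * (slice β S).card * S.card / 2 := by
    have : ∀ C : Finset (Fin n), μ (mp C) * (2 * (slice β S).card * IAN S (mp C)
        + S.card * Gm S β C + u * (slice β S).card * S.card)
        = 2 * (slice β S).card * (μ (mp C) * IAN S (mp C)) + S.card * (μ (mp C) * Gm S β C)
          + μ (mp C) * (u * (slice β S).card * S.card) := by
      intro C; ring
    rw [sum_congr rfl (fun C _ => this C), sum_add_distrib, sum_add_distrib, ← mul_sum,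
      ← mul_sum, ← sum_mul, h.tot_mp, Phm_two h]
    unfold Gamm
    ring
  rw [e1] at h2
  -- lower bound
  have h3 : ∀ a ∈ vals S, c * (((slice a S ∩ R).card : ℝ) * (R.card - (slice a S ∩ R).card))
      ≤ ∑ C : Finset (Fin n), μ (mp C) * ((R.card : ℝ) * (slice a S ∩ R).card
        - QQ B Cᶜ (ind (slice a S ∩ R))) := by
    intro a _
    set Q := slice a S ∩ R with hQ
    have hQR : Q ⊆ R := inter_subset_right
    have hes := es_one B (ind Q) (fun A => μ (mp Aᶜ)) (fun A => h.nn _) (1 / 2) (1 / 2 - c)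
      (by rw [← h.tot_mp]; exact sum_compl (fun C : Finset (Fin n) => μ (mp C)))
      (fun i => by
        right
        refine le_trans (le_of_eq ?_) (h.co_mp i)
        rw [← sum_compl (fun C : Finset (Fin n) => if i ∉ C then μ (mp C) else 0)]
        apply sum_congr rfl
        intro A _
        simp only [mem_compl, not_not])
      (fun i j _ => by
        refine le_trans ?_ (h.co_mp i)
        rw [← sum_compl (fun C : Finset (Fin n) => if i ∉ C then μ (mp C) else 0)]
        apply sum_le_sum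
        intro A _
        simp only [mem_compl, not_not]
        have := h.nn (mp Aᶜ)
        by_cases hi : i ∈ A
        · by_cases hj : j ∈ A
          · simp [hi, hj]
          · simp [hi, hj, this]
        · simp [hi])
    have e2 : ∑ A : Finset (Fin n), μ (mp Aᶜ) * QQ B A (ind Q)
        = ∑ C : Finset (Fin n), μ (mp C) * QQ B Cᶜ (ind Q) := by
      rw [← sum_compl (fun C : Finset (Fin n) => μ (mp C) * QQ B Cᶜ (ind Q))]
      simp only [compl_compl]
    rw [e2, s1_ind B Q hQR, s2_ind B Q hQR, ← hR] at hes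
    have e3 : ∑ C : Finset (Fin n), μ (mp C) * ((R.card : ℝ) * Q.card - QQ B Cᶜ (ind Q))
        = 1 / 2 * ((R.card : ℝ) * Q.card) - ∑ C : Finset (Fin n), μ (mp C)
          * QQ B Cᶜ (ind Q) := by
      simp only [mul_sub]
      rw [sum_sub_distrib, ← sum_mul, h.tot_mp]
    rw [e3]
    linarith
  have h4 := sum_le_sum h3
  rw [← mul_sum] at h4
  have e4 : ∑ a ∈ vals S, ∑ C : Finset (Fin n), μ (mp C) * ((R.card : ℝ) * (slice a S ∩ R).card
      - QQ B Cᶜ (ind (slice a S ∩ R)))
      = ∑ C : Finset (Fin n), μ (mp C) * ∑ a ∈ vals S,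
        ((R.card : ℝ) * (slice a S ∩ R).card - QQ B Cᶜ (ind (slice a S ∩ R))) := by
    rw [sum_comm]
    simp only [mul_sum]
  rw [e4] at h4
  refine h4.trans (h2.trans ?_)
  have h5 := mul_le_mul_of_nonneg_left hΦ hNβ.le
  have h6 := mul_le_mul_of_nonneg_left hG hN.le
  linarith

theorem roughm {μ : Finset (Fin (n + 1)) → ℝ} {c : ℝ} (h : Gd μ c) (hc0 : 0 < c)
    (hc : c ≤ 1 / 4)
    (ih : ∀ T : Finset (Fin n → ℤ), T.Nonempty → 10 ^ 7 * Phm (trm μ) T ≤ c ^ 7 * T.card →
      ∃ B : Fin n → Finset ℤ, (∀ i, (B i).Nonempty) ∧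
        c ^ 4 * ((symmDiff T (Fintype.piFinset B)).card : ℝ) ≤ 2000 * Phm (trm μ) T)
    (S : Finset (Fin (n + 1) → ℤ)) (hS : S.Nonempty)
    (hΦ : 10 ^ 7 * Phm μ S ≤ c ^ 7 * S.card) :
    ∃ B : Fin (n + 1) → Finset ℤ,
      400 * ((symmDiff S (Fintype.piFinset B)).card : ℝ) ≤ c ^ 2 * S.card := by
  classical
  have hN0 : (0 : ℝ) < S.card := by exact_mod_cast card_pos.mpr hS
  have hNS : (S.card : ℝ) = ∑ a ∈ vals S, ((slice a S).card : ℝ) := card_cast_eq_sum S
  have hNpos : ∀ a ∈ vals S, (0 : ℝ) < (slice a S).card := fun a ha => by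
    exact_mod_cast card_pos.mpr (slice_nonempty ha)
  -- a good slice
  obtain ⟨β, hβ, hβ1⟩ : ∃ β ∈ vals S,
      10 ^ 7 * (Phm (trm μ) (slice β S) + Gamm μ S β) ≤ c ^ 7 * ((slice β S).card : ℝ) := by
    apply exists_le_of_sum_le (vals_nonempty hS)
    rw [← mul_sum, sum_add_distrib, ← Phm_rec h, ← mul_sum, ← hNS]
    exact hΦ
  have hNβ := hNpos β hβ
  have hG0 := Gamm_nonneg h S hS β
  have hP0 := Phm_nonneg h.trm (slice β S)
  obtain ⟨B, hBne, hB⟩ := ih (slice β S) (slice_nonempty hβ) (by linarith)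
  set R := Fintype.piFinset B with hR
  have hRne : R.Nonempty := Fintype.piFinset_nonempty.mpr hBne
  have hR0 : (0 : ℝ) < R.card := by exact_mod_cast card_pos.mpr hRne
  have hc4 : 0 < c ^ 4 := by positivity
  have hBu : ((symmDiff (slice β S) R).card : ℝ) ≤ c ^ 3 / 5000 * (slice β S).card := by
    have h1 : c ^ 4 * ((symmDiff (slice β S) R).card : ℝ)
        ≤ c ^ 4 * (c ^ 3 / 5000 * (slice β S).card) := by
      have : c ^ 4 * (c ^ 3 / 5000 * ((slice β S).card : ℝ))
          = c ^ 7 * (slice β S).card / 5000 := by ring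
      rw [this]
      linarith
    exact le_of_mul_le_mul_left h1 hc4
  rw [card_symmDiff_eq] at hBu
  have hp1 : (0 : ℝ) ≤ (slice β S \ R).card := by positivity
  have hp2 : (0 : ℝ) ≤ (R \ slice β S).card := by positivity
  have hGκ : Gamm μ S β ≤ c ^ 7 / 10 ^ 7 * (slice β S).card := by linarith
  have hΦκ : Phm μ S ≤ c ^ 7 / 10 ^ 7 * S.card := by linarith
  have hout := outm h S hS β hβ B (c ^ 3 / 5000) (c ^ 7 / 10 ^ 7) (by rw [← hR]; linarith) hGκ
  have hspr := spreadm h S hS β hβ B (c ^ 3 / 5000) (c ^ 7 / 10 ^ 7)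
    (by rw [← hR]; linarith) hGκ hΦκ
  rw [← hR] at hout hspr
  -- numerical facts
  have hc2p : 0 < c ^ 2 := by positivity
  have hc4' : c ^ 4 ≤ 1 / 256 := by
    have h1 : c ^ 2 ≤ 1 / 16 := by nlinarith
    have h2 : c ^ 4 = c ^ 2 * c ^ 2 := by ring
    rw [h2]; nlinarith
  have hc3p : 0 < c ^ 3 := by positivity
  have hc7 : c ^ 7 ≤ 1 / 256 * c ^ 3 := by
    have : c ^ 7 = c ^ 4 * c ^ 3 := by ring
    rw [this]
    exact mul_le_mul_of_nonneg_right hc4' hc3p.le
  have hc3' : c ^ 3 ≤ 1 / 64 := by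
    have h1 : c ^ 2 ≤ 1 / 16 := by nlinarith
    have h2 : c ^ 3 = c ^ 2 * c := by ring
    rw [h2]
    nlinarith
  -- the out part
  set Y : ℝ := ((S.filter (fun x => ini x ∉ R)).card : ℝ) with hY
  have hYb : Y ≤ c ^ 2 / 4900 * S.card := by
    have h1 : c * Y ≤ c * (c ^ 2 / 4900 * S.card) := by
      refine hout.trans ?_
      have h2 : (c ^ 7 / 10 ^ 7 + c ^ 3 / 5000) * (S.card : ℝ) ≤ c ^ 3 / 4900 * S.card := by
        apply mul_le_mul_of_nonneg_right _ hN0.le
        linarith
      have h3 : c * (c ^ 2 / 4900 * (S.card : ℝ)) = c ^ 3 / 4900 * S.card := by ring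
      rw [h3]; exact h2
    exact le_of_mul_le_mul_left h1 hc0
  -- the size of the slice
  have hβR : ((slice β S).card : ℝ) ≤ 101 / 100 * R.card := by
    have h1 : ((slice β S \ R).card : ℝ) + (slice β S ∩ R).card = (slice β S).card :=
      card_sdiff_add _ _
    have h2 : ((slice β S ∩ R).card : ℝ) ≤ R.card := by
      exact_mod_cast card_le_card inter_subset_right
    have h3 : c ^ 3 / 5000 * ((slice β S).card : ℝ) ≤ 1 / 1000 * (slice β S).card :=
      mul_le_mul_of_nonneg_right (by linarith) hNβ.le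
    linarith
  -- the spread
  have hspr' : ∑ a ∈ vals S, ((slice a S ∩ R).card : ℝ) * (R.card - (slice a S ∩ R).card)
      ≤ c ^ 2 / 9800 * (R.card * S.card) := by
    have h1 : c * ∑ a ∈ vals S, ((slice a S ∩ R).card : ℝ) * (R.card - (slice a S ∩ R).card)
        ≤ c * (c ^ 2 / 9800 * (R.card * S.card)) := by
      refine hspr.trans ?_
      have h2 : (3 / 2 * (c ^ 7 / 10 ^ 7) + c ^ 3 / 5000 / 2)
          * (((slice β S).card : ℝ) * S.card)
          ≤ c ^ 3 / 9900 * (((slice β S).card : ℝ) * S.card) := by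
        apply mul_le_mul_of_nonneg_right _ (mul_pos hNβ hN0).le
        linarith
      have h3 : c ^ 3 / 9900 * (((slice β S).card : ℝ) * S.card)
          ≤ c ^ 3 / 9900 * ((101 / 100 * R.card) * S.card) := by
        apply mul_le_mul_of_nonneg_left _ (by positivity)
        exact mul_le_mul_of_nonneg_right hβR hN0.le
      have h4 : c * (c ^ 2 / 9800 * ((R.card : ℝ) * S.card))
          = c ^ 3 * (R.card * S.card) / 9800 := by ring
      have h5 : c ^ 3 / 9900 * ((101 / 100 * (R.card : ℝ)) * S.card)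
          = c ^ 3 * (R.card * S.card) * (101 / 990000) := by ring
      rw [h4]
      rw [h5] at h3
      have h6 : 0 ≤ c ^ 3 * ((R.card : ℝ) * S.card) := by positivity
      linarith
    exact le_of_mul_le_mul_left h1 hc0
  -- the box
  set V := (vals S).filter (fun a => (R.card : ℝ) ≤ 2 * (slice a S ∩ R).card) with hV
  have hVs : V ⊆ vals S := filter_subset _ _
  refine ⟨Fin.snoc (α := fun _ => Finset ℤ) B V, ?_⟩
  rw [card_symmDiff_box S B V hVs]
  push_cast
  have hgood : ∀ a ∈ V, (R.card : ℝ) * ((symmDiff (slice a S) R).card : ℝ)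
      ≤ R.card * ((slice a S \ R).card : ℝ)
        + 2 * (((slice a S ∩ R).card : ℝ) * (R.card - (slice a S ∩ R).card)) := by
    intro a ha
    have h1 := (mem_filter.mp ha).2
    rw [card_symmDiff_eq]
    have h2 : ((R \ slice a S).card : ℝ) + (R ∩ slice a S).card = R.card := card_sdiff_add _ _
    rw [inter_comm] at h2
    have h3 : (0 : ℝ) ≤ (R \ slice a S).card := by positivity
    have h4 := mul_le_mul_of_nonneg_right h1 h3
    have h5 : (R.card : ℝ) - (slice a S ∩ R).card = (R \ slice a S).card := by linarith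
    rw [h5]
    linarith
  have hbad : ∀ a ∈ vals S \ V, (R.card : ℝ) * ((slice a S).card : ℝ)
      ≤ R.card * ((slice a S \ R).card : ℝ)
        + 2 * (((slice a S ∩ R).card : ℝ) * (R.card - (slice a S ∩ R).card)) := by
    intro a ha
    obtain ⟨ha1, ha2⟩ := mem_sdiff.mp ha
    have h1 : 2 * ((slice a S ∩ R).card : ℝ) ≤ R.card := by
      by_contra h'
      exact ha2 (mem_filter.mpr ⟨ha1, (not_le.mp h').le⟩)
    have h2 : ((slice a S \ R).card : ℝ) + (slice a S ∩ R).card = (slice a S).card :=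
      card_sdiff_add _ _
    rw [← h2]
    have h3 : (0 : ℝ) ≤ (slice a S ∩ R).card := by positivity
    have h4 := mul_le_mul_of_nonneg_right h1 h3
    linarith
  have t1 := sum_le_sum hgood
  have t2 := sum_le_sum hbad
  rw [← mul_sum] at t1 t2
  have t3 : ∑ a ∈ V, (R.card * ((slice a S \ R).card : ℝ)
        + 2 * (((slice a S ∩ R).card : ℝ) * (R.card - (slice a S ∩ R).card)))
      + ∑ a ∈ vals S \ V, (R.card * ((slice a S \ R).card : ℝ)
        + 2 * (((slice a S ∩ R).card : ℝ) * (R.card - (slice a S ∩ R).card)))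
      = R.card * Y + 2 * ∑ a ∈ vals S, ((slice a S ∩ R).card : ℝ)
        * (R.card - (slice a S ∩ R).card) := by
    rw [add_comm, sum_sdiff hVs, sum_add_distrib, ← mul_sum, ← mul_sum, sum_slice_out]
  have h6 : (R.card : ℝ) * (400 * (∑ a ∈ V, ((symmDiff (slice a S) R).card : ℝ)
      + ∑ a ∈ vals S \ V, ((slice a S).card : ℝ))) ≤ R.card * (c ^ 2 * S.card) := by
    have h7 := mul_le_mul_of_nonneg_left hYb hR0.le
    have h8 : (R.card : ℝ) * (c ^ 2 / 4900 * S.card) = c ^ 2 * (R.card * S.card) / 4900 := by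
      ring
    have h9 : c ^ 2 / 9800 * ((R.card : ℝ) * S.card) = c ^ 2 * (R.card * S.card) / 9800 := by
      ring
    rw [h8] at h7
    rw [h9] at hspr'
    have h10 : 0 ≤ c ^ 2 * ((R.card : ℝ) * S.card) := by positivity
    have h11 : (R.card : ℝ) * (c ^ 2 * S.card) = c ^ 2 * (R.card * S.card) := by ring
    rw [h11]
    linarith
  exact le_of_mul_le_mul_left h6 hR0

theorem finishm {μ : Finset (Fin n) → ℝ} {c : ℝ} (h : Gd μ c) (hc0 : 0 < c) (hc : c ≤ 1 / 4)
    (S : Finset (Fin n → ℤ)) (hS : S.Nonempty) (B0 : Fin n → Finset ℤ)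
    (hB0 : 400 * ((symmDiff S (Fintype.piFinset B0)).card : ℝ) ≤ c ^ 2 * S.card) :
    ∃ B : Fin n → Finset ℤ, (∀ i, (B i).Nonempty) ∧
      c ^ 4 * ((symmDiff S (Fintype.piFinset B)).card : ℝ) ≤ 2000 * Phm μ S := by
  classical
  have hN0 : (0 : ℝ) < S.card := by exact_mod_cast card_pos.mpr hS
  obtain ⟨B, hB⟩ := exists_opt S
  have h1 : ((symmDiff S (Fintype.piFinset B)).card : ℝ)
      ≤ (symmDiff S (Fintype.piFinset B0)).card := by exact_mod_cast hB B0
  have h2 := card_symmDiff_eq S (Fintype.piFinset B)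
  have h3 : ((S \ Fintype.piFinset B).card : ℝ) + (S ∩ Fintype.piFinset B).card = S.card :=
    card_sdiff_add _ _
  have h4 : ((Fintype.piFinset B \ S).card : ℝ) + (Fintype.piFinset B ∩ S).card
      = (Fintype.piFinset B).card := card_sdiff_add _ _
  rw [inter_comm] at h4
  have h5 : (0 : ℝ) ≤ (S \ Fintype.piFinset B).card := by positivity
  have h6 : (0 : ℝ) ≤ (Fintype.piFinset B \ S).card := by positivity
  have hc2 : c ^ 2 * (S.card : ℝ) ≤ 1 / 16 * S.card := by
    apply mul_le_mul_of_nonneg_right _ hN0.le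
    nlinarith
  have h7 : (0 : ℝ) < (Fintype.piFinset B).card := by linarith
  have hne : ∀ i, (B i).Nonempty := by
    have : 0 < (Fintype.piFinset B).card := by exact_mod_cast h7
    exact Fintype.piFinset_nonempty.mp (card_pos.mp this)
  exact ⟨B, hne, bootm h hc0 hc S hS B hB hne (by linarith) (by linarith)⟩

theorem finem (c : ℝ) (hc0 : 0 < c) (hc : c ≤ 1 / 4) : ∀ (n : ℕ) (μ : Finset (Fin n) → ℝ),
    Gd μ c → ∀ (S : Finset (Fin n → ℤ)), S.Nonempty →
    10 ^ 7 * Phm μ S ≤ c ^ 7 * S.card →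
    ∃ B : Fin n → Finset ℤ, (∀ i, (B i).Nonempty) ∧
      c ^ 4 * ((symmDiff S (Fintype.piFinset B)).card : ℝ) ≤ 2000 * Phm μ S := by
  intro n
  induction n with
  | zero =>
    intro μ hμ S hS _
    refine ⟨fun _ => ∅, fun i => i.elim0, ?_⟩
    have hSu : S = Fintype.piFinset (fun _ : Fin 0 => (∅ : Finset ℤ)) := by
      obtain ⟨x, hx⟩ := hS
      ext y
      have : y = x := Subsingleton.elim _ _
      subst this
      exact ⟨fun _ => Fintype.mem_piFinset.mpr (fun i => i.elim0), fun _ => hx⟩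
    rw [← hSu]
    have := Phm_nonneg hμ S
    simp only [symmDiff_self, bot_eq_empty, card_empty, Nat.cast_zero, mul_zero]
    linarith
  | succ n ih =>
    intro μ hμ S hS hΦ
    obtain ⟨B, hB⟩ := roughm hμ hc0 hc (fun T hT => ih (trm μ) hμ.trm T hT) S hS hΦ
    exact finishm hμ hc0 hc S hS B hB

/-- the box theorem for symmetric weights which separate all pairs -/
theorem btm (n : ℕ) (μ : Finset (Fin n) → ℝ) (c : ℝ) (hc0 : 0 < c) (hc : c ≤ 1 / 4)
    (h : Gd μ c) (S : Finset (Fin n → ℤ)) (hS : S.Nonempty) :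
    ∃ B : Fin n → Finset ℤ,
      c ^ 7 * ((symmDiff S (Fintype.piFinset B)).card : ℝ) ≤ 10 ^ 7 * Phm μ S := by
  classical
  have hP0 := Phm_nonneg h S
  rcases le_or_gt (10 ^ 7 * Phm μ S) (c ^ 7 * S.card) with hle | hgt
  · obtain ⟨B, _, hB⟩ := finem c hc0 hc n μ h S hS hle
    refine ⟨B, ?_⟩
    have h1 : c ^ 7 * ((symmDiff S (Fintype.piFinset B)).card : ℝ)
        = c ^ 3 * (c ^ 4 * (symmDiff S (Fintype.piFinset B)).card) := by ring
    have h2 : c ^ 3 * (c ^ 4 * ((symmDiff S (Fintype.piFinset B)).card : ℝ))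
        ≤ 1 * (c ^ 4 * (symmDiff S (Fintype.piFinset B)).card) := by
      apply mul_le_mul_of_nonneg_right _ (by positivity)
      exact pow_le_one₀ hc0.le (by linarith)
    rw [h1]
    linarith
  · rcases Nat.eq_zero_or_pos n with hn | hn
    · subst hn
      refine ⟨fun _ => ∅, ?_⟩
      have hSu : S = Fintype.piFinset (fun _ : Fin 0 => (∅ : Finset ℤ)) := by
        obtain ⟨x, hx⟩ := hS
        ext y
        have : y = x := Subsingleton.elim _ _
        subst this
        exact ⟨fun _ => Fintype.mem_piFinset.mpr (fun i => i.elim0), fun _ => hx⟩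
      rw [← hSu]
      simp only [symmDiff_self, bot_eq_empty, card_empty, Nat.cast_zero, mul_zero]
      positivity
    · have : Nonempty (Fin n) := ⟨⟨0, hn⟩⟩
      refine ⟨fun _ => ∅, ?_⟩
      rw [Fintype.piFinset_empty, ← bot_eq_empty, symmDiff_bot]
      exact hgt.le

end Pool.Agent.H488R3.UC
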