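import Pool.Agent.H488R3.UC.GM6

/-!
Splitting a cover into two halves: the level sets of the two counting functions are
complementary.
-/

namespace Pool.Agent.H488R3.UC

open Finset

set_option linter.unusedSectionVars false

variable {n : ℕ} {κ : Type*} [Fintype κ] [DecidableEq κ]

/-- the number of members of `H` containing `v` -/
def cn (g : κ → Finset (Fin n)) (H : Finset κ) (v : Fin n) : ℕ :=
  (H.filter (fun k => v ∈ g k)).card

/-- the level sets of the counting function -/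
def lv (g : κ → Finset (Fin n)) (H : Finset κ) (j : ℕ) : Finset (Fin n) :=
  univ.filter (fun v => j < cn g H v)

theorem mem_lv {g : κ → Finset (Fin n)} {H : Finset κ} {j : ℕ} {v : Fin n} :
    v ∈ lv g H j ↔ j < cn g H v := by simp [lv]

theorem cn_insert (g : κ → Finset (Fin n)) (H : Finset κ) (k : κ) (hk : k ∉ H) (v : Fin n) :
    cn g (insert k H) v = cn g H v + if v ∈ g k then 1 else 0 := by
  unfold cn
  rw [filter_insert]
  split_ifs with h
  · rw [card_insert_of_notMem]
    intro h'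
    exact hk (mem_filter.mp h').1
  · rfl

theorem chain_le (h : Finset (Fin n) → ℝ) (hnn : ∀ A, 0 ≤ h A)
    (hsub : ∀ A B, h (A ∪ B) + h (A ∩ B) ≤ h A + h B) (g : κ → Finset (Fin n))
    (H : Finset κ) (M : ℕ) : (h ∅ = 0) → ∑ j ∈ range M, h (lv g H j) ≤ ∑ k ∈ H, h (g k) := by
  intro h0
  induction H using Finset.induction_on generalizing M with
  | empty =>
    have : ∀ j, lv g ∅ j = ∅ := by
      intro j; unfold lv cn; simp
    simp [this, h0]
  | insert k H hk ih =>
    rw [sum_insert hk]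
    -- the carry
    set c : ℕ → Finset (Fin n) := fun j => (g k).filter (fun v => j ≤ cn g H v) with hc
    have hstep : ∀ M, ∑ j ∈ range M, h (lv g (insert k H) j) + h (c M)
        ≤ ∑ j ∈ range M, h (lv g H j) + h (c 0) := by
      intro M
      induction M with
      | zero => simp
      | succ M ihM =>
        rw [sum_range_succ, sum_range_succ]
        have h1 := hsub (lv g H M) (c M)
        have e1 : lv g H M ∪ c M = lv g (insert k H) M := by
          ext v
          simp only [hc, mem_union, mem_lv, mem_filter, cn_insert g H k hk]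
          by_cases hv : v ∈ g k
          · simp only [hv, true_and, if_true]; omega
          · simp [hv]
        have e2 : lv g H M ∩ c M = c (M + 1) := by
          ext v
          simp only [hc, mem_inter, mem_lv, mem_filter]
          constructor
          · rintro ⟨h1, h2, _⟩
            exact ⟨h2, h1⟩
          · rintro ⟨h1, h2⟩
            exact ⟨h2, h1, by omega⟩
        rw [e1, e2] at h1
        linarith
    have h2 := hstep M
    have h3 : c 0 = g k := by
      simp [hc]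
    rw [h3] at h2
    have h4 := hnn (c M)
    have h5 := ih M
    linarith

/-- the two-sided bound -/
theorem split_le (S : Finset (Fin n → ℤ)) (g : κ → Finset (Fin n)) (m : ℕ)
    (hm : ∀ v, m ≤ cn g univ v) (H : Finset κ) :
    ∑ j ∈ range m, IAN S (lv g H j) ≤ ∑ k, hN S (g k) - m * hN S univ := by
  have hnn : ∀ A, 0 ≤ hN S A := fun A => by
    rw [← hN_empty S]; exact hN_mono S (empty_subset _)
  have h1 := chain_le (hN S) hnn (fun A B => hN_submod S A B) g H m (hN_empty S)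
  have h2 := chain_le (hN S) hnn (fun A B => hN_submod S A B) g Hᶜ m (hN_empty S)
  rw [← sum_range_reflect] at h2
  have h3 : ∑ j ∈ range m, hN S (lv g H j)ᶜ ≤ ∑ j ∈ range m, hN S (lv g Hᶜ (m - 1 - j)) := by
    apply sum_le_sum
    intro j hj
    rw [mem_range] at hj
    apply hN_mono
    intro v hv
    rw [mem_compl, mem_lv, not_lt] at hv
    rw [mem_lv]
    have h4 : cn g univ v = cn g H v + cn g Hᶜ v := by
      unfold cn
      rw [← card_union_of_disjoint, ← filter_union, union_compl]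
      exact disjoint_filter_filter disjoint_compl_right
    have := hm v
    omega
  have h4 : ∑ k ∈ H, hN S (g k) + ∑ k ∈ Hᶜ, hN S (g k) = ∑ k, hN S (g k) :=
    sum_add_sum_compl H _
  unfold IAN
  rw [sum_sub_distrib, sum_add_distrib, sum_const, nsmul_eq_mul, card_range]
  linarith

theorem kh_pt (y t : ℝ) (ht : 0 < t) : y ^ 2 / t - y ^ 4 / (4 * t ^ 3) ≤ |y| := by
  have h1 : y ^ 2 = |y| ^ 2 := (sq_abs y).symm
  have h2 : y ^ 4 = |y| ^ 4 := by
    have : y ^ 4 = (y ^ 2) ^ 2 := by ring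
    rw [this, h1]; ring
  rw [h1, h2]
  set s := |y| with hs
  have hs0 : 0 ≤ s := abs_nonneg y
  clear_value s
  have h3 : 0 ≤ 4 * t ^ 3 - 4 * t ^ 2 * s + s ^ 3 := by
    have e1 : 4 * t ^ 3 - 4 * t ^ 2 * s + s ^ 3
        = s * (s - 23 / 20 * t) ^ 2 + t * (23 / 10 * (s - 2129 / 1840 * t) ^ 2
          + (4 - 23 / 10 * (2129 / 1840) ^ 2) * t ^ 2) := by ring
    rw [e1]
    have h4 : (0 : ℝ) ≤ 4 - 23 / 10 * (2129 / 1840) ^ 2 := by norm_num
    positivity
  have h5 : s - (s ^ 2 / t - s ^ 4 / (4 * t ^ 3))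
      = s * (4 * t ^ 3 - 4 * t ^ 2 * s + s ^ 3) / (4 * t ^ 3) := by
    field_simp
    ring
  have h6 : 0 ≤ s - (s ^ 2 / t - s ^ 4 / (4 * t ^ 3)) := by
    rw [h5]
    exact div_nonneg (mul_nonneg hs0 h3) (by positivity)
  linarith

theorem rad (a : κ → ℝ) (K : Finset κ) :
    ∑ H ∈ K.powerset, (2 * ∑ k ∈ H, a k - ∑ k ∈ K, a k) ^ 2 = 2 ^ K.card * ∑ k ∈ K, a k ^ 2 ∧
    ∑ H ∈ K.powerset, (2 * ∑ k ∈ H, a k - ∑ k ∈ K, a k) ^ 4
      ≤ 3 * 2 ^ K.card * (∑ k ∈ K, a k ^ 2) ^ 2 := by
  induction K using Finset.induction_on with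
  | empty => simp
  | insert k K hk ih =>
    obtain ⟨ih1, ih2⟩ := ih
    have hins : ∀ H ∈ K.powerset, ∑ i ∈ insert k H, a i = a k + ∑ i ∈ H, a i := by
      intro H hH
      exact sum_insert (fun h => hk (mem_powerset.mp hH h))
    rw [sum_powerset_insert hk, sum_powerset_insert hk, sum_insert hk, sum_insert hk,
      card_insert_of_notMem hk]
    set W := ∑ k ∈ K, a k ^ 2 with hW
    have hW0 : 0 ≤ W := sum_nonneg (fun _ _ => sq_nonneg _)
    set x := a k with hx
    set Z := ∑ k ∈ K, a k with hZ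
    have e1 : ∑ H ∈ K.powerset, (2 * ∑ i ∈ insert k H, a i - (x + Z)) ^ 2
        = ∑ H ∈ K.powerset, ((2 * ∑ i ∈ H, a i - Z) + x) ^ 2 := by
      apply sum_congr rfl
      intro H hH
      rw [hins H hH]; ring
    have e2 : ∑ H ∈ K.powerset, (2 * ∑ i ∈ insert k H, a i - (x + Z)) ^ 4
        = ∑ H ∈ K.powerset, ((2 * ∑ i ∈ H, a i - Z) + x) ^ 4 := by
      apply sum_congr rfl
      intro H hH
      rw [hins H hH]; ring
    have hcard : (K.powerset.card : ℝ) = 2 ^ K.card := by
      rw [card_powerset]; push_cast; rfl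
    constructor
    · rw [e1, ← sum_add_distrib]
      have : ∀ H ∈ K.powerset, (2 * ∑ i ∈ H, a i - (x + Z)) ^ 2
          + ((2 * ∑ i ∈ H, a i - Z) + x) ^ 2
          = 2 * (2 * ∑ i ∈ H, a i - Z) ^ 2 + 2 * x ^ 2 := by
        intro H _; ring
      rw [sum_congr rfl this, sum_add_distrib, ← mul_sum, ih1, sum_const, nsmul_eq_mul, hcard,
        pow_succ]
      ring
    · rw [e2, ← sum_add_distrib]
      have : ∀ H ∈ K.powerset, (2 * ∑ i ∈ H, a i - (x + Z)) ^ 4
          + ((2 * ∑ i ∈ H, a i - Z) + x) ^ 4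
          = 2 * (2 * ∑ i ∈ H, a i - Z) ^ 4 + 12 * x ^ 2 * (2 * ∑ i ∈ H, a i - Z) ^ 2
            + 2 * x ^ 4 := by
        intro H _; ring
      have hp2 : (2 : ℝ) ^ (K.card + 1) = 2 ^ K.card * 2 := pow_succ _ _
      rw [sum_congr rfl this, sum_add_distrib, sum_add_distrib, ← mul_sum, ← mul_sum, ih1,
        sum_const, nsmul_eq_mul, hcard, hp2]
      have h1 : (0 : ℝ) ≤ 2 ^ K.card * x ^ 4 := by positivity
      have h2 : 3 * ((2 : ℝ) ^ K.card * 2) * (x ^ 2 + W) ^ 2
          = 2 * (3 * 2 ^ K.card * W ^ 2) + 12 * x ^ 2 * (2 ^ K.card * W)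
            + 6 * (2 ^ K.card * x ^ 4) := by ring
      rw [h2]
      linarith

/-- a Khintchine inequality -/
theorem khin (a : κ → ℝ) (ha : ∑ k, a k = 0) (W : ℝ) (hW : ∑ k, a k ^ 2 = W) (hW0 : 0 < W) :
    2 / 9 * Real.sqrt W * 2 ^ Fintype.card κ ≤ ∑ H : Finset κ, |∑ k ∈ H, a k| := by
  obtain ⟨h1, h2⟩ := rad a univ
  rw [powerset_univ, ha, hW, card_univ] at h1 h2
  simp only [sub_zero] at h1 h2
  set r := Real.sqrt W with hr
  have hr0 : 0 < r := Real.sqrt_pos.mpr hW0
  have hrr : r ^ 2 = W := Real.sq_sqrt hW0.le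
  set K : ℝ := 2 ^ Fintype.card κ with hK
  have hK0 : 0 < K := by rw [hK]; positivity
  set t : ℝ := 3 / 2 * r with ht
  have ht0 : 0 < t := by rw [ht]; positivity
  have h3 := sum_le_sum (fun H (_ : H ∈ (univ : Finset (Finset κ))) =>
    kh_pt (2 * ∑ k ∈ H, a k) t ht0)
  rw [sum_sub_distrib, ← sum_div, ← sum_div, h1] at h3
  have h4 : (∑ H : Finset κ, (2 * ∑ k ∈ H, a k) ^ 4) / (4 * t ^ 3)
      ≤ 3 * K * W ^ 2 / (4 * t ^ 3) := div_le_div_of_nonneg_right h2 (by positivity)
  have h5 : K * W / t - 3 * K * W ^ 2 / (4 * t ^ 3) = 4 / 9 * r * K := by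
    rw [← hrr, ht]
    field_simp
    ring
  have h6 : ∑ H : Finset κ, |2 * ∑ k ∈ H, a k| = 2 * ∑ H : Finset κ, |∑ k ∈ H, a k| := by
    rw [mul_sum]
    apply sum_congr rfl
    intro H _
    rw [abs_mul]; norm_num
  rw [h6] at h3
  linarith

theorem cnt_sep (m a b : ℕ) (ha : a ≤ m) (hb : b ≤ m) :
    |(a : ℝ) - b| ≤ ∑ j ∈ range m, if (j < a ↔ j < b) then (0 : ℝ) else 1 := by
  have h1 : ∀ a, a ≤ m → ∑ j ∈ range m, (if j < a then (1 : ℝ) else 0) = a := by
    intro a ha
    rw [← sum_filter, sum_const, nsmul_eq_mul, mul_one]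
    have : (range m).filter (fun j => j < a) = range a := by
      ext j; simp only [mem_filter, mem_range]; omega
    rw [this, card_range]
  rw [← h1 a ha, ← h1 b hb, ← sum_sub_distrib]
  refine (abs_sum_le_sum_abs _ _).trans (sum_le_sum (fun j _ => ?_))
  by_cases h2 : j < a <;> by_cases h3 : j < b <;> simp [h2, h3]

/-- the box theorem for uniform covers -/
theorem cover_box (hn : 2 ≤ n) (g : κ → Finset (Fin n)) (m s : ℕ) (hs0 : 0 < s) (hsm : s ≤ m)
    (hm : ∀ v, cn g univ v = m)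
    (hsep : ∀ i j : Fin n, i ≠ j → s ≤ (univ.filter (fun k => i ∈ g k ∧ j ∉ g k)).card)
    (S : Finset (Fin n → ℤ)) (hS : S.Nonempty) :
    ∃ B : Fin n → Finset ℤ, ((symmDiff S (Fintype.piFinset B)).card : ℝ)
      ≤ 7 * 10 ^ 13 * ((∑ k, hN S (g k) - m * hN S univ) / Real.sqrt s) := by
  classical
  have hsR : (0 : ℝ) < s := by exact_mod_cast hs0
  have hmR : (0 : ℝ) < m := by exact_mod_cast lt_of_lt_of_le hs0 hsm
  have hr0 : 0 < Real.sqrt s := Real.sqrt_pos.mpr hsR
  have hrs : Real.sqrt s ≤ m := by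
    have h1 : Real.sqrt s ≤ Real.sqrt ((m : ℝ) ^ 2) := by
      apply Real.sqrt_le_sqrt
      have h2 : (s : ℝ) ≤ m := by exact_mod_cast hsm
      have h3 : (1 : ℝ) ≤ m := by exact_mod_cast (lt_of_lt_of_le hs0 hsm)
      nlinarith
    rwa [Real.sqrt_sq hmR.le] at h1
  set K : ℝ := 2 ^ Fintype.card κ with hK
  have hK0 : 0 < K := by rw [hK]; positivity
  have hΩc : (Fintype.card (Finset κ × Fin m) : ℝ) = K * m := by
    rw [Fintype.card_prod, Fintype.card_finset, Fintype.card_fin]; push_cast; rfl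
  have hΩ : 0 < Fintype.card (Finset κ × Fin m) := by
    have : (0 : ℝ) < Fintype.card (Finset κ × Fin m) := by rw [hΩc]; positivity
    exact_mod_cast this
  set T : Finset κ × Fin m → Finset (Fin n) := fun ω => lv g ω.1 ω.2.val with hT
  have hsum : ∀ f : Finset (Fin n) → ℝ, ∑ ω, f (T ω)
      = ∑ H : Finset κ, ∑ j ∈ range m, f (lv g H j) := by
    intro f
    rw [Fintype.sum_prod_type]
    apply sum_congr rfl
    intro H _
    exact Fin.sum_univ_eq_sum_range (fun j => f (lv g H j)) m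
  set p : ℝ := 3 / 10 * Real.sqrt s / m with hp
  have hp0 : 0 < p := by rw [hp]; positivity
  have hp1 : p ≤ 1 := by
    rw [hp, div_le_one hmR]; linarith
  have hpΩ : p * (Fintype.card (Finset κ × Fin m) : ℝ) = 3 / 10 * Real.sqrt s * K := by
    rw [hΩc, hp]; field_simp
  obtain ⟨B, hB⟩ := xor_box hn T hΩ p hp0 hp1 (fun i j hij => by
    rw [hpΩ]
    have h1 := hsum (fun A => if (i ∈ A ↔ j ∈ A) then (0 : ℝ) else 1)
    rw [h1]
    set a : κ → ℝ := fun k => (if i ∈ g k then (1 : ℝ) else 0) - (if j ∈ g k then 1 else 0)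
      with ha
    have hcn : ∀ H : Finset κ, ∀ v, (cn g H v : ℝ) = ∑ k ∈ H, if v ∈ g k then (1 : ℝ) else 0 := by
      intro H v
      unfold cn
      rw [← sum_filter, sum_const, nsmul_eq_mul, mul_one]
    have haH : ∀ H : Finset κ, ∑ k ∈ H, a k = (cn g H i : ℝ) - cn g H j := by
      intro H
      simp only [ha]
      rw [sum_sub_distrib, hcn, hcn]
    have ha0 : ∑ k, a k = 0 := by
      rw [haH, hm i, hm j, sub_self]
    have haW : ∑ k, a k ^ 2 = ((univ.filter (fun k => i ∈ g k ∧ j ∉ g k)).card : ℝ)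
        + (univ.filter (fun k => j ∈ g k ∧ i ∉ g k)).card := by
      rw [card_filter, card_filter]
      push_cast
      rw [← sum_add_distrib]
      apply sum_congr rfl
      intro k _
      simp only [ha]
      by_cases hi : i ∈ g k <;> by_cases hj : j ∈ g k <;> simp [hi, hj]
    have hW2 : 2 * (s : ℝ) ≤ ∑ k, a k ^ 2 := by
      rw [haW]
      have h2 : (s : ℝ) ≤ (univ.filter (fun k => i ∈ g k ∧ j ∉ g k)).card := by
        exact_mod_cast hsep i j hij
      have h3 : (s : ℝ) ≤ (univ.filter (fun k => j ∈ g k ∧ i ∉ g k)).card := by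
        exact_mod_cast hsep j i hij.symm
      linarith
    have hkh := khin a ha0 _ rfl (by linarith)
    have hsq : 3 / 10 * Real.sqrt s ≤ 2 / 9 * Real.sqrt (∑ k, a k ^ 2) := by
      have h2 : Real.sqrt ((27 / 20) ^ 2 * s) ≤ Real.sqrt (∑ k, a k ^ 2) := by
        apply Real.sqrt_le_sqrt
        linarith
      rw [Real.sqrt_mul (by positivity), Real.sqrt_sq (by norm_num)] at h2
      linarith
    have h2 : 3 / 10 * Real.sqrt s * K ≤ ∑ H : Finset κ, |∑ k ∈ H, a k| := by
      refine le_trans ?_ hkh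
      exact mul_le_mul_of_nonneg_right hsq hK0.le
    refine h2.trans (sum_le_sum (fun H _ => ?_))
    rw [haH]
    have hle : ∀ v, cn g H v ≤ m := by
      intro v
      rw [← hm v]
      unfold cn
      exact card_le_card (filter_subset_filter _ (subset_univ _))
    refine (cnt_sep m _ _ (hle i) (hle j)).trans (le_of_eq ?_)
    apply sum_congr rfl
    intro j' _
    simp only [mem_lv]) S hS
  refine ⟨B, hB.trans ?_⟩
  rw [hpΩ, hsum (IAN S)]
  have h1 : ∑ H : Finset κ, ∑ j ∈ range m, IAN S (lv g H j)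
      ≤ K * (∑ k, hN S (g k) - m * hN S univ) := by
    refine (sum_le_sum (fun H _ => split_le S g m (fun v => (hm v).ge) H)).trans (le_of_eq ?_)
    rw [sum_const, nsmul_eq_mul, card_univ, Fintype.card_finset]
    push_cast
    rfl
  have h2 : (∑ H : Finset κ, ∑ j ∈ range m, IAN S (lv g H j)) / (3 / 10 * Real.sqrt s * K)
      ≤ K * (∑ k, hN S (g k) - m * hN S univ) / (3 / 10 * Real.sqrt s * K) :=
    div_le_div_of_nonneg_right h1 (by positivity)
  have h3 : 21 * 10 ^ 12 * (K * (∑ k, hN S (g k) - m * hN S univ)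
      / (3 / 10 * Real.sqrt s * K))
      = 7 * 10 ^ 13 * ((∑ k, hN S (g k) - m * hN S univ) / Real.sqrt s) := by
    field_simp
    norm_num
    ring
  rw [← h3]
  exact mul_le_mul_of_nonneg_left h2 (by positivity)

end Pool.Agent.H488R3.UC
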