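import Pool.Agent.H488R3.UC.GM7

/-!
Arbitrary covers: thin the family so that all degrees become `m`; two choices for each
coordinate suffice.
-/

namespace Pool.Agent.H488R3.UC

open Finset

set_option linter.unusedSectionVars false

variable {n : ℕ} {κ : Type*} [Fintype κ] [DecidableEq κ]

/-- two `m`-subsets of `A` whose union is all of `A` or has size `2m` -/
theorem two_sub (A : Finset κ) (m : ℕ) (hA : m ≤ A.card) :
    ∃ K : Bool → Finset κ, (∀ b, K b ⊆ A) ∧ (∀ b, (K b).card = m) ∧
      (A ⊆ K true ∪ K false ∨ (K true ∪ K false).card = 2 * m) := by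
  obtain ⟨K0, hK0, hc0⟩ := exists_subset_card_eq hA
  rcases le_or_gt (A \ K0).card m with h | h
  · obtain ⟨K1, h1, h2, h3⟩ := exists_subsuperset_card_eq (sdiff_subset : A \ K0 ⊆ A) h hA
    refine ⟨fun b => if b then K0 else K1, ?_, ?_, Or.inl ?_⟩
    · intro b; cases b <;> simp [hK0, h2]
    · intro b; cases b <;> simp [hc0, h3]
    · intro x hx
      by_cases hx0 : x ∈ K0
      · exact mem_union.mpr (Or.inl (by simpa using hx0))
      · exact mem_union.mpr (Or.inr (by simpa using h1 (mem_sdiff.mpr ⟨hx, hx0⟩)))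
  · obtain ⟨K1, hK1, hc1⟩ := exists_subset_card_eq h.le
    have hK1A : K1 ⊆ A := hK1.trans sdiff_subset
    refine ⟨fun b => if b then K0 else K1, ?_, ?_, Or.inr ?_⟩
    · intro b; cases b <;> simp [hK0, hK1A]
    · intro b; cases b <;> simp [hc0, hc1]
    · have hd : Disjoint K0 K1 := by
        rw [disjoint_left]
        intro x hx hx1
        exact (mem_sdiff.mp (hK1 hx1)).2 hx
      have : ((if true then K0 else K1) ∪ (if false then K0 else K1)).card = 2 * m := by
        simp only [if_true, Bool.false_eq_true, if_false]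
        rw [card_union_of_disjoint hd, hc0, hc1]; ring
      simpa using this

/-- the box theorem for all covers -/
theorem gen_box (hn : 2 ≤ n) (g : κ → Finset (Fin n)) (m s : ℕ) (hs0 : 0 < s) (hsm : s ≤ m)
    (hm : ∀ v, m ≤ cn g univ v)
    (hsep : ∀ i j : Fin n, i ≠ j → s ≤ (univ.filter (fun k => i ∈ g k ∧ j ∉ g k)).card)
    (S : Finset (Fin n → ℤ)) (hS : S.Nonempty) :
    ∃ B : Fin n → Finset ℤ, ((symmDiff S (Fintype.piFinset B)).card : ℝ)
      ≤ 189 * 10 ^ 12 * ((∑ k, hN S (g k) - m * hN S univ) / Real.sqrt s) := by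
  classical
  have hsR : (0 : ℝ) < s := by exact_mod_cast hs0
  have hmR : (0 : ℝ) < m := by exact_mod_cast lt_of_lt_of_le hs0 hsm
  have hr0 : 0 < Real.sqrt s := Real.sqrt_pos.mpr hsR
  have hrs : Real.sqrt s ≤ m := by
    have h1 : Real.sqrt s ≤ Real.sqrt ((m : ℝ) ^ 2) := by
      apply Real.sqrt_le_sqrt
      have h2 : (s : ℝ) ≤ m := by exact_mod_cast hsm
      have h3 : (1 : ℝ) ≤ m := by exact_mod_cast (lt_of_lt_of_le hs0 hsm)
      nlinarith
    rwa [Real.sqrt_sq hmR.le] at h1
  choose K hKsub hKcard hKun using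
    fun v : Fin n => two_sub (univ.filter (fun k => v ∈ g k)) m (hm v)
  set gq : (Fin n → Bool) → κ → Finset (Fin n) :=
    fun q k => univ.filter (fun v => k ∈ K v (q v)) with hgq
  have hmem : ∀ q k v, v ∈ gq q k ↔ k ∈ K v (q v) := by
    intro q k v; simp [hgq]
  have hsubg : ∀ q k, gq q k ⊆ g k := by
    intro q k v hv
    rw [hmem] at hv
    have := hKsub v (q v) hv
    simpa using this
  have hdeg : ∀ q v, cn (gq q) univ v = m := by
    intro q v
    unfold cn
    rw [← hKcard v (q v)]
    congr 1
    ext k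
    simp [hmem]
  -- separation of the thinned families
  set X : Fin n → Fin n → (Fin n → Bool) → ℕ := fun i j q => (K i (q i) \ K j (q j)).card with hX
  have hXs : ∀ i j, i ≠ j → ∀ q, s ≤ X i j q + X i j (Function.update q i (!q i)) := by
    intro i j hij q
    have e1 : Function.update q i (!q i) i = !q i := Function.update_self ..
    have e2 : Function.update q i (!q i) j = q j := Function.update_of_ne hij.symm ..
    simp only [hX]
    rw [e1, e2]
    have h1 : ((K i true ∪ K i false) \ K j (q j)).card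
        ≤ (K i (q i) \ K j (q j)).card + (K i (!q i) \ K j (q j)).card := by
      refine le_trans (card_le_card ?_) (card_union_le _ _)
      intro x hx
      rw [mem_sdiff, mem_union] at hx
      rw [mem_union, mem_sdiff, mem_sdiff]
      cases hq : q i <;> simp [hq] at hx ⊢ <;> tauto
    refine le_trans ?_ h1
    rcases hKun i with h | h
    · refine (hsep i j hij).trans (card_le_card ?_)
      intro k hk
      rw [mem_filter] at hk
      rw [mem_sdiff]
      refine ⟨h (by simpa using hk.2.1), fun hkj => ?_⟩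
      have := hKsub j (q j) hkj
      simp only [mem_filter, mem_univ, true_and] at this
      exact hk.2.2 this
    · have h2 := le_card_sdiff (K j (q j)) (K i true ∪ K i false)
      rw [h, hKcard] at h2
      omega
  set L : ℝ := 2 ^ Fintype.card κ with hL
  have hL0 : 0 < L := by rw [hL]; positivity
  set Q : ℝ := 2 ^ n with hQ
  have hQ0 : 0 < Q := by rw [hQ]; positivity
  have hQc : (Fintype.card (Fin n → Bool) : ℝ) = Q := by
    rw [Fintype.card_fun, Fintype.card_bool, Fintype.card_fin, hQ]; push_cast; rfl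
  have hΩc : (Fintype.card ((Fin n → Bool) × (Finset κ × Fin m)) : ℝ) = Q * (L * m) := by
    rw [Fintype.card_prod, Fintype.card_prod, Fintype.card_finset, Fintype.card_fin]
    push_cast
    rw [← hQc]
  have hΩ : 0 < Fintype.card ((Fin n → Bool) × (Finset κ × Fin m)) := by
    have : (0 : ℝ) < Fintype.card ((Fin n → Bool) × (Finset κ × Fin m)) := by
      rw [hΩc]; positivity
    exact_mod_cast this
  set T : (Fin n → Bool) × (Finset κ × Fin m) → Finset (Fin n) :=
    fun ω => lv (gq ω.1) ω.2.1 ω.2.2.val with hT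
  have hsum : ∀ f : Finset (Fin n) → ℝ, ∑ ω, f (T ω)
      = ∑ q : Fin n → Bool, ∑ H : Finset κ, ∑ j ∈ range m, f (lv (gq q) H j) := by
    intro f
    rw [Fintype.sum_prod_type]
    apply sum_congr rfl
    intro q _
    rw [Fintype.sum_prod_type]
    apply sum_congr rfl
    intro H _
    exact Fin.sum_univ_eq_sum_range (fun j => f (lv (gq q) H j)) m
  set p : ℝ := 1 / 9 * Real.sqrt s / m with hp
  have hp0 : 0 < p := by rw [hp]; positivity
  have hp1 : p ≤ 1 := by
    rw [hp, div_le_one hmR]; linarith
  have hpΩ : p * (Fintype.card ((Fin n → Bool) × (Finset κ × Fin m)) : ℝ)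
      = 1 / 9 * Real.sqrt s * (Q * L) := by
    rw [hΩc, hp]; field_simp
  obtain ⟨B, hB⟩ := xor_box hn T hΩ p hp0 hp1 (fun i j hij => by
    rw [hpΩ]
    have h1 := hsum (fun A => if (i ∈ A ↔ j ∈ A) then (0 : ℝ) else 1)
    rw [h1]
    -- one thinned family
    have hone : ∀ q : Fin n → Bool, 2 / 9 * Real.sqrt (X i j q) * L
        ≤ ∑ H : Finset κ, ∑ j' ∈ range m,
          if (i ∈ lv (gq q) H j' ↔ j ∈ lv (gq q) H j') then (0 : ℝ) else 1 := by
      intro q
      set a : κ → ℝ := fun k => (if i ∈ gq q k then (1 : ℝ) else 0)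
        - (if j ∈ gq q k then 1 else 0) with ha
      have hcn : ∀ H : Finset κ, ∀ v, (cn (gq q) H v : ℝ)
          = ∑ k ∈ H, if v ∈ gq q k then (1 : ℝ) else 0 := by
        intro H v
        unfold cn
        rw [← sum_filter, sum_const, nsmul_eq_mul, mul_one]
      have haH : ∀ H : Finset κ, ∑ k ∈ H, a k = (cn (gq q) H i : ℝ) - cn (gq q) H j := by
        intro H
        simp only [ha]
        rw [sum_sub_distrib, hcn, hcn]
      have ha0 : ∑ k, a k = 0 := by
        rw [haH, hdeg q i, hdeg q j, sub_self]
      have haW : (X i j q : ℝ) ≤ ∑ k, a k ^ 2 := by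
        have h2 : (X i j q : ℝ) = ∑ k, if (k ∈ K i (q i) \ K j (q j)) then (1 : ℝ) else 0 := by
          rw [← sum_filter, sum_const, nsmul_eq_mul, mul_one]
          simp only [hX]
          congr 2
          ext k
          simp
        rw [h2]
        apply sum_le_sum
        intro k _
        simp only [ha, hmem, mem_sdiff]
        by_cases hi : k ∈ K i (q i) <;> by_cases hj : k ∈ K j (q j) <;> simp [hi, hj]
      have habs : ∀ H : Finset κ, |∑ k ∈ H, a k| ≤ ∑ j' ∈ range m,
          if (i ∈ lv (gq q) H j' ↔ j ∈ lv (gq q) H j') then (0 : ℝ) else 1 := by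
        intro H
        rw [haH]
        have hle : ∀ v, cn (gq q) H v ≤ m := by
          intro v
          rw [← hdeg q v]
          unfold cn
          exact card_le_card (filter_subset_filter _ (subset_univ _))
        refine (cnt_sep m _ _ (hle i) (hle j)).trans (le_of_eq ?_)
        apply sum_congr rfl
        intro j' _
        simp only [mem_lv]
      refine le_trans ?_ (sum_le_sum (fun H _ => habs H))
      rcases Nat.eq_zero_or_pos (X i j q) with h0 | h0
      · rw [h0]
        simp only [Nat.cast_zero, Real.sqrt_zero, mul_zero, zero_mul]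
        exact sum_nonneg (fun H _ => abs_nonneg _)
      · have h0R : (0 : ℝ) < X i j q := by exact_mod_cast h0
        have hkh := khin a ha0 _ rfl (lt_of_lt_of_le h0R haW)
        refine le_trans ?_ hkh
        have h3 := Real.sqrt_le_sqrt haW
        apply mul_le_mul_of_nonneg_right _ hL0.le
        linarith
    refine le_trans ?_ (sum_le_sum (fun q _ => hone q))
    rw [← sum_mul, ← mul_sum]
    -- averaging over the two choices at `i`
    have hinv : Function.Involutive (fun q : Fin n → Bool => Function.update q i (!q i)) := by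
      intro q
      simp
    have h2 : ∑ q : Fin n → Bool, Real.sqrt (X i j (Function.update q i (!q i)))
        = ∑ q : Fin n → Bool, Real.sqrt (X i j q) :=
      Equiv.sum_comp hinv.toPerm (fun q => Real.sqrt (X i j q))
    have h3 : ∑ q : Fin n → Bool, Real.sqrt s
        ≤ ∑ q : Fin n → Bool, (Real.sqrt (X i j q)
          + Real.sqrt (X i j (Function.update q i (!q i)))) := by
      apply sum_le_sum
      intro q _
      have h4 : (s : ℝ) ≤ X i j q + X i j (Function.update q i (!q i)) := by
        exact_mod_cast hXs i j hij q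
      refine (Real.sqrt_le_sqrt h4).trans ?_
      have hx := Real.sqrt_nonneg (X i j q : ℝ)
      have hy := Real.sqrt_nonneg (X i j (Function.update q i (!q i)) : ℝ)
      rw [Real.sqrt_le_left (by positivity)]
      have hxx := Real.sq_sqrt (Nat.cast_nonneg (α := ℝ) (X i j q))
      have hyy := Real.sq_sqrt (Nat.cast_nonneg (α := ℝ) (X i j (Function.update q i (!q i))))
      nlinarith
    rw [sum_add_distrib, h2, sum_const, nsmul_eq_mul, card_univ, hQc] at h3
    have h5 : 1 / 9 * Real.sqrt s * (Q * L)
        = 1 / 9 * (Q * Real.sqrt s) * L := by ring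
    rw [h5]
    apply mul_le_mul_of_nonneg_right _ hL0.le
    linarith) S hS
  refine ⟨B, hB.trans ?_⟩
  rw [hpΩ, hsum (IAN S)]
  have h1 : ∑ q : Fin n → Bool, ∑ H : Finset κ, ∑ j ∈ range m, IAN S (lv (gq q) H j)
      ≤ Q * (L * (∑ k, hN S (g k) - m * hN S univ)) := by
    have h2 : ∀ q ∈ (univ : Finset (Fin n → Bool)),
        ∑ H : Finset κ, ∑ j ∈ range m, IAN S (lv (gq q) H j)
        ≤ L * (∑ k, hN S (g k) - m * hN S univ) := by
      intro q _
      refine (sum_le_sum (fun H _ =>
        split_le S (gq q) m (fun v => (hdeg q v).ge) H)).trans ?_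
      rw [sum_const, nsmul_eq_mul, card_univ, Fintype.card_finset]
      push_cast
      rw [← hL]
      apply mul_le_mul_of_nonneg_left _ hL0.le
      have : ∑ k, hN S (gq q k) ≤ ∑ k, hN S (g k) :=
        sum_le_sum (fun k _ => hN_mono S (hsubg q k))
      linarith
    refine (sum_le_sum h2).trans (le_of_eq ?_)
    rw [sum_const, nsmul_eq_mul, card_univ, hQc]
  have h2 := div_le_div_of_nonneg_right h1
    (show (0 : ℝ) ≤ 1 / 9 * Real.sqrt s * (Q * L) by positivity)
  have h3 : 21 * 10 ^ 12 * (Q * (L * (∑ k, hN S (g k) - m * hN S univ))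
      / (1 / 9 * Real.sqrt s * (Q * L)))
      = 189 * 10 ^ 12 * ((∑ k, hN S (g k) - m * hN S univ) / Real.sqrt s) := by
    field_simp
    ring
  rw [← h3]
  exact mul_le_mul_of_nonneg_left h2 (by positivity)

end Pool.Agent.H488R3.UC
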