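import Pool.Agent.H488R3.UC.GM8

/-!
Disjoint unions of uniform covers in which every pair of points is separated at most `K` times.
-/

namespace Pool.Agent.H488R3.UC

open Finset

set_option linter.unusedSectionVars false

variable {n : ℕ} {κ : Type*} [Fintype κ] [DecidableEq κ]

theorem dec_box {ι : Type*} [Fintype ι] [DecidableEq ι] (hn : 2 ≤ n) (g : κ → Finset (Fin n))
    (π : κ → ι) (M : ι → ℕ) (m s K : ℕ) (hs0 : 0 < s) (hsm : s ≤ m) (hK0 : 0 < K)
    (hMm : ∑ l, M l = m)
    (hm : ∀ l v, (univ.filter (fun k => π k = l ∧ v ∈ g k)).card = M l)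
    (hsep : ∀ i j : Fin n, i ≠ j → s ≤ (univ.filter (fun k => i ∈ g k ∧ j ∉ g k)).card)
    (hKb : ∀ l, ∀ i j : Fin n,
      (univ.filter (fun k => π k = l ∧ i ∈ g k ∧ j ∉ g k)).card ≤ K)
    (S : Finset (Fin n → ℤ)) (hS : S.Nonempty) :
    ∃ B : Fin n → Finset ℤ, ((symmDiff S (Fintype.piFinset B)).card : ℝ)
      ≤ 7 * 10 ^ 13 * (Real.sqrt K * (∑ k, hN S (g k) - m * hN S univ) / s) := by
  classical
  have hsR : (0 : ℝ) < s := by exact_mod_cast hs0
  have hmR : (0 : ℝ) < m := by exact_mod_cast lt_of_lt_of_le hs0 hsm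
  have hKR : (1 : ℝ) ≤ K := by exact_mod_cast hK0
  set R : ℝ := Real.sqrt K with hR
  have hR0 : 0 < R := Real.sqrt_pos.mpr (by linarith)
  have hRR : R ^ 2 = K := Real.sq_sqrt (by linarith)
  have hR1 : 1 ≤ R := by rw [hR, Real.one_le_sqrt]; exact hKR
  set gl : ι → κ → Finset (Fin n) := fun l k => if π k = l then g k else ∅ with hgl
  have hmem : ∀ l k v, v ∈ gl l k ↔ (π k = l ∧ v ∈ g k) := by
    intro l k v
    simp only [hgl]
    split_ifs with h <;> simp [h]
  have hdeg : ∀ l v, cn (gl l) univ v = M l := by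
    intro l v
    unfold cn
    rw [← hm l v]
    congr 1
    ext k
    simp [hmem]
  set L : ℝ := 2 ^ Fintype.card κ with hL
  have hL0 : 0 < L := by rw [hL]; positivity
  have hΩc : (Fintype.card (Σ l : ι, Finset κ × Fin (M l)) : ℝ) = L * m := by
    rw [Fintype.card_sigma, ← hMm]
    push_cast
    rw [mul_sum]
    apply sum_congr rfl
    intro l _
    rw [Fintype.card_prod, Fintype.card_finset, Fintype.card_fin]
    push_cast
    rfl
  have hΩ : 0 < Fintype.card (Σ l : ι, Finset κ × Fin (M l)) := by
    have : (0 : ℝ) < Fintype.card (Σ l : ι, Finset κ × Fin (M l)) := by rw [hΩc]; positivity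
    exact_mod_cast this
  set T : (Σ l : ι, Finset κ × Fin (M l)) → Finset (Fin n) :=
    fun ω => lv (gl ω.1) ω.2.1 ω.2.2.val with hT
  have hsum : ∀ f : Finset (Fin n) → ℝ, ∑ ω, f (T ω)
      = ∑ l, ∑ H : Finset κ, ∑ j ∈ range (M l), f (lv (gl l) H j) := by
    intro f
    rw [Fintype.sum_sigma]
    apply sum_congr rfl
    intro l _
    rw [Fintype.sum_prod_type]
    apply sum_congr rfl
    intro H _
    exact Fin.sum_univ_eq_sum_range (fun j => f (lv (gl l) H j)) (M l)
  set p : ℝ := 3 / 10 * (s / R) / m with hp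
  have hp0 : 0 < p := by rw [hp]; positivity
  have hp1 : p ≤ 1 := by
    rw [hp, div_le_one hmR]
    have h1 : (s : ℝ) / R ≤ s := div_le_self hsR.le hR1
    have h2 : (s : ℝ) ≤ m := by exact_mod_cast hsm
    linarith
  have hpΩ : p * (Fintype.card (Σ l : ι, Finset κ × Fin (M l)) : ℝ) = 3 / 10 * (s / R) * L := by
    rw [hΩc, hp]; field_simp
  obtain ⟨B, hB⟩ := xor_box hn T hΩ p hp0 hp1 (fun i j hij => by
    rw [hpΩ]
    have h1 := hsum (fun A => if (i ∈ A ↔ j ∈ A) then (0 : ℝ) else 1)
    rw [h1]
    set W : ι → ℝ := fun l => ((univ.filter (fun k => π k = l ∧ i ∈ g k ∧ j ∉ g k)).card : ℝ)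
        + (univ.filter (fun k => π k = l ∧ j ∈ g k ∧ i ∉ g k)).card with hW
    have hone : ∀ l, 3 / 20 * (W l / R) * L
        ≤ ∑ H : Finset κ, ∑ j' ∈ range (M l),
          if (i ∈ lv (gl l) H j' ↔ j ∈ lv (gl l) H j') then (0 : ℝ) else 1 := by
      intro l
      set a : κ → ℝ := fun k => (if i ∈ gl l k then (1 : ℝ) else 0)
        - (if j ∈ gl l k then 1 else 0) with ha
      have hcn : ∀ H : Finset κ, ∀ v, (cn (gl l) H v : ℝ)
          = ∑ k ∈ H, if v ∈ gl l k then (1 : ℝ) else 0 := by
        intro H v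
        unfold cn
        rw [← sum_filter, sum_const, nsmul_eq_mul, mul_one]
      have haH : ∀ H : Finset κ, ∑ k ∈ H, a k = (cn (gl l) H i : ℝ) - cn (gl l) H j := by
        intro H
        simp only [ha]
        rw [sum_sub_distrib, hcn, hcn]
      have ha0 : ∑ k, a k = 0 := by
        rw [haH, hdeg l i, hdeg l j, sub_self]
      have haW : ∑ k, a k ^ 2 = W l := by
        simp only [hW]
        rw [card_filter, card_filter]
        push_cast
        rw [← sum_add_distrib]
        apply sum_congr rfl
        intro k _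
        simp only [ha, hmem]
        by_cases hl : π k = l <;> by_cases hi : i ∈ g k <;> by_cases hj : j ∈ g k <;>
          simp [hl, hi, hj]
      have habs : ∀ H : Finset κ, |∑ k ∈ H, a k| ≤ ∑ j' ∈ range (M l),
          if (i ∈ lv (gl l) H j' ↔ j ∈ lv (gl l) H j') then (0 : ℝ) else 1 := by
        intro H
        rw [haH]
        have hle : ∀ v, cn (gl l) H v ≤ M l := by
          intro v
          rw [← hdeg l v]
          unfold cn
          exact card_le_card (filter_subset_filter _ (subset_univ _))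
        refine (cnt_sep (M l) _ _ (hle i) (hle j)).trans (le_of_eq ?_)
        apply sum_congr rfl
        intro j' _
        simp only [mem_lv]
      refine le_trans ?_ (sum_le_sum (fun H _ => habs H))
      have hW2 : W l ≤ 2 * K := by
        have h2 : ((univ.filter (fun k => π k = l ∧ i ∈ g k ∧ j ∉ g k)).card : ℝ) ≤ K := by
          exact_mod_cast hKb l i j
        have h3 : ((univ.filter (fun k => π k = l ∧ j ∈ g k ∧ i ∉ g k)).card : ℝ) ≤ K := by
          exact_mod_cast hKb l j i
        simp only [hW]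
        linarith
      have hWnn : 0 ≤ W l := by simp only [hW]; positivity
      rcases hWnn.eq_or_lt with h0 | h0
      · rw [← h0]
        simp only [zero_div, mul_zero, zero_mul]
        exact sum_nonneg (fun H _ => abs_nonneg _)
      · have hkh := khin a ha0 _ haW h0
        refine le_trans ?_ hkh
        apply mul_le_mul_of_nonneg_right _ hL0.le
        set w := Real.sqrt (W l) with hw
        have hw0 : 0 < w := Real.sqrt_pos.mpr h0
        have hww : w ^ 2 = W l := Real.sq_sqrt hWnn
        have hwR : w ≤ 71 / 50 * R := by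
          apply le_of_sq_le_sq _ (by positivity)
          rw [hww, mul_pow, hRR]
          linarith
        rw [← hww, ← mul_div_assoc, div_le_iff₀ hR0]
        nlinarith
    refine le_trans ?_ (sum_le_sum (fun l _ => hone l))
    rw [← sum_mul, ← mul_sum, ← sum_div]
    apply mul_le_mul_of_nonneg_right _ hL0.le
    have hpart : ∀ i j : Fin n, ∑ l, (univ.filter (fun k => π k = l ∧ i ∈ g k ∧ j ∉ g k)).card
        = (univ.filter (fun k => i ∈ g k ∧ j ∉ g k)).card := by
      intro i j
      rw [card_eq_sum_card_fiberwise (f := π) (t := univ) (fun _ _ => by simp)]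
      apply sum_congr rfl
      intro l _
      rw [filter_filter]
      congr 1
      ext k
      simp only [mem_filter, mem_univ, true_and]
      tauto
    have hWs : 2 * (s : ℝ) ≤ ∑ l, W l := by
      simp only [hW]
      rw [sum_add_distrib]
      have h2 : (s : ℝ) ≤ ∑ l, ((univ.filter (fun k => π k = l ∧ i ∈ g k ∧ j ∉ g k)).card : ℝ) := by
        have := hsep i j hij
        rw [← hpart i j] at this
        exact_mod_cast this
      have h3 : (s : ℝ) ≤ ∑ l, ((univ.filter (fun k => π k = l ∧ j ∈ g k ∧ i ∉ g k)).card : ℝ) := by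
        have := hsep j i hij.symm
        rw [← hpart j i] at this
        exact_mod_cast this
      linarith
    have h4 := div_le_div_of_nonneg_right hWs hR0.le
    have h5 : 2 * (s : ℝ) / R = 2 * (s / R) := by ring
    rw [h5] at h4
    linarith) S hS
  refine ⟨B, hB.trans ?_⟩
  rw [hpΩ, hsum (IAN S)]
  have h1 : ∑ l, ∑ H : Finset κ, ∑ j ∈ range (M l), IAN S (lv (gl l) H j)
      ≤ L * (∑ k, hN S (g k) - m * hN S univ) := by
    have h2 : ∀ l ∈ (univ : Finset ι),
        ∑ H : Finset κ, ∑ j ∈ range (M l), IAN S (lv (gl l) H j)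
        ≤ L * (∑ k, hN S (gl l k) - M l * hN S univ) := by
      intro l _
      refine (sum_le_sum (fun H _ =>
        split_le S (gl l) (M l) (fun v => (hdeg l v).ge) H)).trans (le_of_eq ?_)
      rw [sum_const, nsmul_eq_mul, card_univ, Fintype.card_finset]
      push_cast
      rfl
    refine (sum_le_sum h2).trans (le_of_eq ?_)
    rw [← mul_sum, sum_sub_distrib, ← sum_mul, sum_comm]
    have h3 : ∀ k, ∑ l, hN S (gl l k) = hN S (g k) := by
      intro k
      rw [sum_eq_single (π k)]
      · simp [hgl]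
      · intro l _ hl
        have : gl l k = ∅ := by simp only [hgl]; rw [if_neg (fun h => hl h.symm)]
        rw [this, hN_empty]
      · intro h; exact absurd (mem_univ _) h
    rw [sum_congr rfl (fun k _ => h3 k), ← hMm]
    push_cast
    rfl
  have h2 := div_le_div_of_nonneg_right h1
    (show (0 : ℝ) ≤ 3 / 10 * (s / R) * L by positivity)
  have h3 : 21 * 10 ^ 12 * (L * (∑ k, hN S (g k) - m * hN S univ) / (3 / 10 * (s / R) * L))
      = 7 * 10 ^ 13 * (R * (∑ k, hN S (g k) - m * hN S univ) / s) := by
    field_simp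
    ring
  rw [← h3]
  exact mul_le_mul_of_nonneg_left h2 (by positivity)

end Pool.Agent.H488R3.UC
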