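import Pool.Agent.H488R3.UC.Slice

/-!
The deficiency of a finite set in the cover inequality and its recursion over slices.
-/

namespace Pool.Agent.H488R3.UC

open Finset

variable {n : ℕ}

/-- the logarithmic deficiency in the cover inequality -/
noncomputable def D {ι : Type*} [Fintype ι] {n : ℕ} (g : ι → Finset (Fin n)) (m : ℕ)
    (S : Finset (Fin n → ℤ)) : ℝ :=
  ∑ k, Real.log (pc (g k) S) - m * Real.log S.card

theorem jensen {V : Finset ℤ} (N p : ℤ → ℝ) (hV : V.Nonempty) (hN : ∀ a ∈ V, 0 < N a)
    (hp : ∀ a ∈ V, 0 < p a) :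
    ∑ a ∈ V, N a * Real.log (p a) + ((∑ a ∈ V, N a) * Real.log (∑ a ∈ V, N a)
      - ∑ a ∈ V, N a * Real.log (N a)) ≤ (∑ a ∈ V, N a) * Real.log (∑ a ∈ V, p a) := by
  have hNs : 0 < ∑ a ∈ V, N a := sum_pos hN hV
  have hPs : 0 < ∑ a ∈ V, p a := sum_pos hp hV
  set NN := ∑ a ∈ V, N a with hNN
  set PP := ∑ a ∈ V, p a with hPP
  have key : ∀ a ∈ V, N a * (Real.log (p a) + Real.log NN - Real.log (N a) - Real.log PP)
      ≤ p a * (NN / PP) - N a := by
    intro a ha
    have h1 := hN a ha
    have h2 := hp a ha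
    have h3 : Real.log (p a * NN / (N a * PP)) ≤ p a * NN / (N a * PP) - 1 :=
      Real.log_le_sub_one_of_pos (by positivity)
    rw [Real.log_div (by positivity) (by positivity), Real.log_mul h2.ne' hNs.ne',
      Real.log_mul h1.ne' hPs.ne'] at h3
    calc N a * (Real.log (p a) + Real.log NN - Real.log (N a) - Real.log PP)
        = N a * (Real.log (p a) + Real.log NN - (Real.log (N a) + Real.log PP)) := by ring
      _ ≤ N a * (p a * NN / (N a * PP) - 1) := mul_le_mul_of_nonneg_left h3 h1.le
      _ = p a * (NN / PP) - N a := by field_simp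
  have hsum := sum_le_sum key
  rw [sum_sub_distrib, ← sum_mul, ← hPP, ← hNN] at hsum
  have h4 : PP * (NN / PP) = NN := by field_simp
  rw [h4] at hsum
  have h5 : ∑ a ∈ V, N a * (Real.log (p a) + Real.log NN - Real.log (N a) - Real.log PP)
      = ∑ a ∈ V, N a * Real.log (p a) + NN * Real.log NN - ∑ a ∈ V, N a * Real.log (N a)
        - NN * Real.log PP := by
    have : ∀ a ∈ V, N a * (Real.log (p a) + Real.log NN - Real.log (N a) - Real.log PP)
        = N a * Real.log (p a) + N a * Real.log NN - N a * Real.log (N a)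
          - N a * Real.log PP := by
      intro a _; ring
    rw [sum_congr rfl this, sum_sub_distrib, sum_sub_distrib, sum_add_distrib, ← sum_mul,
      ← sum_mul]
  rw [h5] at hsum
  linarith

theorem vals_nonempty {S : Finset (Fin (n + 1) → ℤ)} (hS : S.Nonempty) : (vals S).Nonempty :=
  hS.image _

theorem card_cast_eq_sum (S : Finset (Fin (n + 1) → ℤ)) :
    (S.card : ℝ) = ∑ a ∈ vals S, ((slice a S).card : ℝ) := by
  rw [card_eq_sum S]; push_cast; rfl

theorem recursion {ι : Type*} [Fintype ι] (g : ι → Finset (Fin (n + 1))) (m s : ℕ)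
    (S : Finset (Fin (n + 1) → ℤ)) (hS : S.Nonempty)
    (hm : m ≤ (univ.filter (fun k => Fin.last n ∈ g k)).card)
    (hs : s ≤ (univ.filter (fun k => Fin.last n ∉ g k ∧ ∀ j : Fin n, j.castSucc ∈ g k)).card) :
    ∑ a ∈ vals S, ((slice a S).card : ℝ) * D (fun k => tr (g k)) m (slice a S)
      + s * ∑ a ∈ vals S, ((slice a S).card : ℝ) *
        (Real.log (US S).card - Real.log (slice a S).card)
      ≤ (S.card : ℝ) * D g m S := by
  classical
  set V := vals S with hV
  have hVne : V.Nonempty := vals_nonempty hS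
  have hNpos : ∀ a ∈ V, (0 : ℝ) < ((slice a S).card : ℝ) := by
    intro a ha
    exact_mod_cast card_pos.mpr (slice_nonempty ha)
  have hNsum : (S.card : ℝ) = ∑ a ∈ V, ((slice a S).card : ℝ) := card_cast_eq_sum S
  set H : ℝ := (S.card : ℝ) * Real.log S.card
    - ∑ a ∈ V, ((slice a S).card : ℝ) * Real.log (slice a S).card with hH
  set β : ℝ := ∑ a ∈ V, ((slice a S).card : ℝ) *
    (Real.log (US S).card - Real.log (slice a S).card) with hβ
  have hH0 : 0 ≤ H := by
    have : ∑ a ∈ V, ((slice a S).card : ℝ) * Real.log (slice a S).card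
        ≤ ∑ a ∈ V, ((slice a S).card : ℝ) * Real.log S.card := by
      apply sum_le_sum
      intro a ha
      apply mul_le_mul_of_nonneg_left _ (hNpos a ha).le
      apply Real.log_le_log (hNpos a ha)
      rw [hNsum]
      exact single_le_sum (f := fun a => ((slice a S).card : ℝ)) (fun b _ => by positivity) ha
    rw [← sum_mul, ← hNsum] at this
    rw [hH]; linarith
  have hβ0 : 0 ≤ β := by
    apply sum_nonneg
    intro a ha
    apply mul_nonneg (hNpos a ha).le
    have : Real.log (slice a S).card ≤ Real.log (US S).card := by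
      apply Real.log_le_log (hNpos a ha)
      exact_mod_cast card_le_card (slice_subset a S)
    linarith
  have hk : ∀ k, (∑ a ∈ V, ((slice a S).card : ℝ) * Real.log (pc (tr (g k)) (slice a S)))
      + (if Fin.last n ∈ g k then H else 0)
      + (if Fin.last n ∉ g k ∧ ∀ j : Fin n, j.castSucc ∈ g k then β else 0)
      ≤ (S.card : ℝ) * Real.log (pc (g k) S) := by
    intro k
    by_cases hkl : Fin.last n ∈ g k
    · have hnot : ¬ (Fin.last n ∉ g k ∧ ∀ j : Fin n, j.castSucc ∈ g k) := fun h => h.1 hkl
      rw [if_pos hkl, if_neg hnot, add_zero]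
      have hj := jensen (V := V) (fun a => ((slice a S).card : ℝ))
        (fun a => (pc (tr (g k)) (slice a S) : ℝ)) hVne hNpos
        (fun a ha => by exact_mod_cast pc_pos (slice_nonempty ha))
      rw [← hNsum] at hj
      have hpc : (pc (g k) S : ℝ) = ∑ a ∈ V, (pc (tr (g k)) (slice a S) : ℝ) := by
        rw [pc_of_mem hkl S]; push_cast; rfl
      rw [hpc]
      exact hj
    · rw [if_neg hkl, add_zero, pc_of_not_mem hkl S, hNsum, sum_mul]
      by_cases hfull : ∀ j : Fin n, j.castSucc ∈ g k
      · rw [if_pos ⟨hkl, hfull⟩, hβ, ← sum_add_distrib]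
        have htr : tr (g k) = univ := by
          ext j; simp [mem_tr, hfull j]
        rw [htr]
        apply sum_le_sum
        intro a ha
        rw [pc_univ, pc_univ]
        apply le_of_eq; ring
      · rw [if_neg (fun h => hfull h.2), add_zero]
        apply sum_le_sum
        intro a ha
        apply mul_le_mul_of_nonneg_left _ (hNpos a ha).le
        apply Real.log_le_log
        · exact_mod_cast pc_pos (slice_nonempty ha)
        · exact_mod_cast pc_mono (slice_subset a S)
  have hsum := sum_le_sum (fun k (_ : k ∈ (univ : Finset ι)) => hk k)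
  rw [sum_add_distrib, sum_add_distrib, ← mul_sum] at hsum
  have e1 : ∑ k : ι, (if Fin.last n ∈ g k then H else 0)
      = (univ.filter (fun k => Fin.last n ∈ g k)).card * H := by
    rw [← sum_filter, sum_const, nsmul_eq_mul]
  have e2 : ∑ k : ι, (if Fin.last n ∉ g k ∧ ∀ j : Fin n, j.castSucc ∈ g k then β else 0)
      = (univ.filter (fun k => Fin.last n ∉ g k ∧ ∀ j : Fin n, j.castSucc ∈ g k)).card * β := by
    rw [← sum_filter, sum_const, nsmul_eq_mul]
  rw [e1, e2] at hsum
  have hm' : (m : ℝ) * H ≤ (univ.filter (fun k => Fin.last n ∈ g k)).card * H :=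
    mul_le_mul_of_nonneg_right (by exact_mod_cast hm) hH0
  have hs' : (s : ℝ) * β ≤
      (univ.filter (fun k => Fin.last n ∉ g k ∧ ∀ j : Fin n, j.castSucc ∈ g k)).card * β :=
    mul_le_mul_of_nonneg_right (by exact_mod_cast hs) hβ0
  have e3 : ∑ a ∈ V, ((slice a S).card : ℝ) * D (fun k => tr (g k)) m (slice a S)
      = ∑ k, (∑ a ∈ V, ((slice a S).card : ℝ) * Real.log (pc (tr (g k)) (slice a S)))
        - m * ∑ a ∈ V, ((slice a S).card : ℝ) * Real.log (slice a S).card := by
    rw [sum_comm, mul_sum, ← sum_sub_distrib]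
    apply sum_congr rfl
    intro a _
    unfold D
    rw [← mul_sum]; ring
  rw [e3]
  have e4 : (S.card : ℝ) * D g m S = (S.card : ℝ) * ∑ k, Real.log (pc (g k) S)
      - m * ((S.card : ℝ) * Real.log S.card) := by
    unfold D; ring
  rw [e4]
  have e5 : (m : ℝ) * H = m * ((S.card : ℝ) * Real.log S.card)
    - m * ∑ a ∈ V, ((slice a S).card : ℝ) * Real.log (slice a S).card := by
    rw [hH]; ring
  linarith

end Pool.Agent.H488R3.UC
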