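import Mathlib
import Pool.Agent.H488R3.UC.GM9

set_option autoImplicit false

namespace Pool.Agent.Results.MP_be7f84_co.ResolvableFamilies

open Finset
open Pool.Agent.H488R3.UC

/-- Families `G` that are disjoint unions of uniform covers `π⁻¹(l)` in each of which every ordered
pair of points is separated at most `K` times (`K = 1`: unions of partitions of `Fin d` and of
complements of partitions, in particular complement-closed families): stability of the uniform
cover inequality with constant `c √K`, `c` absolute. -/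
theorem result (d : ℕ) (hd : 2 ≤ d) (G : Finset (Finset (Fin d))) (m s : ℕ)
    (r : ℕ) (π : Finset (Fin d) → Fin r) (M : Fin r → ℕ) (K : ℕ)
    (hm : IsLeast (Set.range fun i : Fin d => (G.filter (fun g => i ∈ g)).card) m)
    (hs : IsLeast {c : ℕ | ∃ i j : Fin d, i ≠ j ∧
      c = (G.filter (fun g => i ∈ g ∧ j ∉ g)).card} s)
    (hm0 : 0 < m) (hs0 : 0 < s) (hK0 : 0 < K)
    (hM : ∀ l, ∀ i : Fin d, (G.filter (fun g => π g = l ∧ i ∈ g)).card = M l)
    (hK : ∀ l, ∀ i j : Fin d, (G.filter (fun g => π g = l ∧ i ∈ g ∧ j ∉ g)).card ≤ K)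
    (ε : ℝ) (hε : 0 ≤ ε) (S : Finset (Fin d → ℤ))
    (hS : (1 - ε) * (∏ g ∈ G,
        ((S.image (fun (x : Fin d → ℤ) (i : {i // i ∈ g}) => x i.1)).card : ℝ)) ^ ((1 : ℝ) / m)
      ≤ S.card) :
    ∃ B : Fin d → Finset ℤ,
      ((symmDiff S (Fintype.piFinset B)).card : ℝ) ≤ 14 * 10 ^ 13 * (Real.sqrt K * ((m : ℝ) / s)) * ε * S.card := by
  classical
  have hsdeg : ∀ i j : Fin d, i ≠ j → s ≤ (G.filter (fun g => i ∈ g ∧ j ∉ g)).card :=
    fun i j hij => hs.2 ⟨i, j, hij, rfl⟩
  have hmdeg : ∀ i : Fin d, m ≤ (G.filter (fun g => i ∈ g)).card := fun i => hm.2 ⟨i, rfl⟩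
  have hex : ∀ i : Fin d, ∃ j : Fin d, i ≠ j := by
    intro i
    have : Nontrivial (Fin d) := Fin.nontrivial_iff_two_le.mpr hd
    obtain ⟨j, hj⟩ := exists_ne i
    exact ⟨j, hj.symm⟩
  -- `s ≤ m`
  have hsm : s ≤ m := by
    obtain ⟨i, hi⟩ := hm.1
    obtain ⟨j, hij⟩ := hex i
    rw [← hi]
    refine (hsdeg i j hij).trans (card_le_card ?_)
    intro g hg
    rw [mem_filter] at hg ⊢
    exact ⟨hg.1, hg.2.1⟩
  have hmR : (0 : ℝ) < m := by exact_mod_cast hm0
  have hsR : (0 : ℝ) < s := by exact_mod_cast hs0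
  have hρ : (1 : ℝ) ≤ (m : ℝ) / s := by
    rw [le_div_iff₀ hsR, one_mul]; exact_mod_cast hsm
  have : Nonempty (Fin d) := ⟨⟨0, by omega⟩⟩
  rcases S.eq_empty_or_nonempty with hSe | hSne
  · refine ⟨fun _ => ∅, ?_⟩
    rw [Fintype.piFinset_empty, ← bot_eq_empty, symmDiff_bot, hSe]
    simp
  have hN0 : (0 : ℝ) < S.card := by exact_mod_cast card_pos.mpr hSne
  rcases le_or_gt (1 / 2) ε with hbig | hsmall
  · refine ⟨fun _ => ∅, ?_⟩
    rw [Fintype.piFinset_empty, ← bot_eq_empty, symmDiff_bot]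
    have h0 : (1 : ℝ) ≤ Real.sqrt K := by
      rw [Real.one_le_sqrt]; exact_mod_cast hK0
    have h1 : (1 : ℝ) ≤ Real.sqrt K * ((m : ℝ) / s) := by nlinarith
    have h2 : (1 : ℝ) ≤ 14 * 10 ^ 13 * (Real.sqrt K * ((m : ℝ) / s)) * ε := by nlinarith
    calc (S.card : ℝ) = 1 * S.card := (one_mul _).symm
      _ ≤ 14 * 10 ^ 13 * (Real.sqrt K * ((m : ℝ) / s)) * ε * S.card := mul_le_mul_of_nonneg_right h2 hN0.le
  -- the main case
  have hpos : ∀ g ∈ G, (0 : ℝ) < (proj g S).card := by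
    intro g _
    exact_mod_cast card_pos.mpr (hSne.image _)
  have hprod : (0 : ℝ) < ∏ g ∈ G, ((proj g S).card : ℝ) := prod_pos hpos
  have h1e : 0 < 1 - ε := by linarith
  have hlog : Real.log (1 - ε) + 1 / m * ∑ g ∈ G, Real.log (proj g S).card
      ≤ Real.log S.card := by
    have h1 := Real.log_le_log (mul_pos h1e (Real.rpow_pos_of_pos hprod _)) hS
    rw [Real.log_mul h1e.ne' (Real.rpow_pos_of_pos hprod _).ne'] at h1
    have h2 : Real.log ((∏ g ∈ G, ((proj g S).card : ℝ)) ^ ((1 : ℝ) / m))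
        = 1 / m * ∑ g ∈ G, Real.log (proj g S).card := by
      rw [Real.log_rpow hprod, Real.log_prod (fun g hg => (hpos g hg).ne')]
    rw [← h2]
    exact h1
  have hlog2 : -(2 * ε) ≤ Real.log (1 - ε) := by
    have h1 := Real.one_sub_inv_le_log_of_pos h1e
    have h2 : -(2 * ε) ≤ 1 - (1 - ε)⁻¹ := by
      rw [le_sub_iff_add_le, ← sub_nonneg]
      have : 1 - (-(2 * ε) + (1 - ε)⁻¹) = ε * (1 - 2 * ε) / (1 - ε) := by
        field_simp
        ring
      rw [this]
      apply div_nonneg _ h1e.le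
      apply mul_nonneg hε
      linarith
    linarith
  have hD : ∑ g ∈ G, Real.log (proj g S).card - m * Real.log S.card ≤ 2 * m * ε := by
    have h1 : (1 : ℝ) / m * ∑ g ∈ G, Real.log (proj g S).card ≤ Real.log S.card + 2 * ε := by
      linarith
    have h2 := mul_le_mul_of_nonneg_left h1 hmR.le
    have h3 : (m : ℝ) * (1 / m * ∑ g ∈ G, Real.log (proj g S).card)
        = ∑ g ∈ G, Real.log (proj g S).card := by field_simp
    rw [h3] at h2
    linarith
  have hle : ∑ g ∈ G, hN S g ≤ S.card * ∑ g ∈ G, Real.log (proj g S).card := by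
    rw [mul_sum]
    exact sum_le_sum (fun g _ => hN_le g S hSne)
  have hfin : ∑ g ∈ G, hN S g - m * (S.card * Real.log S.card) ≤ 2 * m * ε * S.card := by
    have h1 := mul_le_mul_of_nonneg_left hD hN0.le
    linarith
  have hcnt : ∀ (P : Finset (Fin d) → Prop) [DecidablePred P],
      (univ.filter (fun k : {g // g ∈ G} => P k.1)).card = (G.filter P).card := by
    intro P _
    rw [card_filter, card_filter]
    exact sum_coe_sort G (fun g => if P g then 1 else 0)
  have hpart : ∀ i : Fin d, ∑ l, M l = (G.filter (fun g => i ∈ g)).card := by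
    intro i
    rw [card_eq_sum_card_fiberwise (f := π) (t := univ) (fun _ _ => by simp)]
    apply sum_congr rfl
    intro l _
    rw [filter_filter, ← hM l i]
    congr 1
    ext g
    simp only [mem_filter]
    tauto
  have hMm : ∑ l, M l = m := by
    obtain ⟨i, hi⟩ := hm.1
    rw [hpart i]
    exact hi
  obtain ⟨B, hB⟩ := dec_box hd (fun k : {g // g ∈ G} => k.1) (fun k => π k.1) M m s K hs0 hsm hK0
    hMm
    (fun l v => by rw [hcnt (fun g => π g = l ∧ v ∈ g)]; exact hM l v)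
    (fun i j hij => by
      rw [hcnt (fun g => i ∈ g ∧ j ∉ g)]
      exact hsdeg i j hij)
    (fun l i j => by
      rw [hcnt (fun g => π g = l ∧ i ∈ g ∧ j ∉ g)]
      exact hK l i j) S hSne
  refine ⟨B, hB.trans ?_⟩
  have e1 : ∑ k : {g // g ∈ G}, hN S k.1 = ∑ g ∈ G, hN S g := sum_coe_sort G (hN S)
  rw [e1, hN_univ]
  have hr0 : 0 ≤ Real.sqrt K := Real.sqrt_nonneg _
  have h1 : Real.sqrt K * (∑ g ∈ G, hN S g - m * (S.card * Real.log S.card)) / s
      ≤ Real.sqrt K * (2 * m * ε * S.card) / s :=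
    div_le_div_of_nonneg_right (mul_le_mul_of_nonneg_left hfin hr0) hsR.le
  have h2 : Real.sqrt K * (2 * (m : ℝ) * ε * S.card) / s
      = 2 * ((Real.sqrt K * ((m : ℝ) / s)) * ε * S.card) := by
    ring
  rw [h2] at h1
  linarith

end Pool.Agent.Results.MP_be7f84_co.ResolvableFamilies
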