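import Mathlib

/-!
Slices of finite sets in `ℤ^(n+1)` along the last coordinate.
-/

namespace Pool.Agent.H488R3.UC

open Finset

variable {n : ℕ}

/-- keep the coordinates in `g`, put `0` elsewhere -/
def mask (g : Finset (Fin n)) (x : Fin n → ℤ) : Fin n → ℤ := fun i => if i ∈ g then x i else 0

/-- the number of points in the projection to the coordinates in `g` -/
def pc (g : Finset (Fin n)) (S : Finset (Fin n → ℤ)) : ℕ := (S.image (mask g)).card

/-- drop the last coordinate -/
def ini (x : Fin (n + 1) → ℤ) : Fin n → ℤ := fun i => x i.castSucc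

/-- the trace of `g` on the first `n` coordinates -/
def tr (g : Finset (Fin (n + 1))) : Finset (Fin n) := univ.filter (fun i => i.castSucc ∈ g)

def fib (a : ℤ) (S : Finset (Fin (n + 1) → ℤ)) : Finset (Fin (n + 1) → ℤ) :=
  S.filter (fun x => x (Fin.last n) = a)

def slice (a : ℤ) (S : Finset (Fin (n + 1) → ℤ)) : Finset (Fin n → ℤ) := (fib a S).image ini

def vals (S : Finset (Fin (n + 1) → ℤ)) : Finset ℤ := S.image (fun x => x (Fin.last n))

def US (S : Finset (Fin (n + 1) → ℤ)) : Finset (Fin n → ℤ) := S.image ini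

theorem ext_last {x y : Fin (n + 1) → ℤ} (h1 : ini x = ini y)
    (h2 : x (Fin.last n) = y (Fin.last n)) : x = y := by
  funext i
  refine Fin.lastCases h2 (fun j => ?_) i
  exact congrFun h1 j

theorem mem_slice {a : ℤ} {S : Finset (Fin (n + 1) → ℤ)} {y : Fin n → ℤ} :
    y ∈ slice a S ↔ ∃ x ∈ S, x (Fin.last n) = a ∧ ini x = y := by
  simp only [slice, fib, mem_image, mem_filter, and_assoc]

theorem card_slice (a : ℤ) (S : Finset (Fin (n + 1) → ℤ)) : (slice a S).card = (fib a S).card := by
  apply card_image_of_injOn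
  intro x hx y hy hxy
  simp only [fib, coe_filter, Set.mem_ofPred_eq] at hx hy
  exact ext_last hxy (hx.2.trans hy.2.symm)

theorem card_eq_sum (S : Finset (Fin (n + 1) → ℤ)) :
    S.card = ∑ a ∈ vals S, (slice a S).card := by
  simp only [card_slice]
  exact card_eq_sum_card_image (fun x => x (Fin.last n)) S

theorem slice_subset (a : ℤ) (S : Finset (Fin (n + 1) → ℤ)) : slice a S ⊆ US S := by
  intro y hy
  obtain ⟨x, hx, _, rfl⟩ := mem_slice.mp hy
  exact mem_image_of_mem _ hx

theorem slice_nonempty {a : ℤ} {S : Finset (Fin (n + 1) → ℤ)} (ha : a ∈ vals S) :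
    (slice a S).Nonempty := by
  obtain ⟨x, hx, hxa⟩ := mem_image.mp ha
  exact ⟨ini x, mem_slice.mpr ⟨x, hx, hxa, rfl⟩⟩

theorem pc_mono {g : Finset (Fin n)} {A B : Finset (Fin n → ℤ)} (h : A ⊆ B) : pc g A ≤ pc g B :=
  card_le_card (image_subset_image h)

theorem pc_pos {g : Finset (Fin n)} {A : Finset (Fin n → ℤ)} (h : A.Nonempty) : 0 < pc g A :=
  card_pos.mpr (h.image _)

theorem pc_univ (A : Finset (Fin n → ℤ)) : pc univ A = A.card := by
  unfold pc
  apply card_image_of_injective
  intro x y h
  funext i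
  have := congrFun h i
  simpa [mask] using this

theorem mask_ini (g : Finset (Fin (n + 1))) (x : Fin (n + 1) → ℤ) :
    ini (mask g x) = mask (tr g) (ini x) := by
  funext i
  simp [ini, mask, tr]

/-- if the last coordinate is kept, the projection splits into the projections of the slices -/
theorem pc_of_mem {g : Finset (Fin (n + 1))} (hg : Fin.last n ∈ g)
    (S : Finset (Fin (n + 1) → ℤ)) : pc g S = ∑ a ∈ vals S, pc (tr g) (slice a S) := by
  unfold pc
  have hlast : ∀ x : Fin (n + 1) → ℤ, mask g x (Fin.last n) = x (Fin.last n) := by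
    intro x; simp [mask, hg]
  have h1 : (S.image (mask g)).card = ∑ a ∈ (S.image (mask g)).image (fun x => x (Fin.last n)),
      ((S.image (mask g)).filter (fun x => x (Fin.last n) = a)).card :=
    card_eq_sum_card_image (fun x : Fin (n + 1) → ℤ => x (Fin.last n)) (S.image (mask g))
  have h2 : (S.image (mask g)).image (fun x => x (Fin.last n)) = vals S := by
    rw [image_image]
    unfold vals
    apply image_congr
    intro x _
    exact hlast x
  rw [h1, h2]
  apply sum_congr rfl
  intro a _
  have h3 : (slice a S).image (mask (tr g)) =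
      ((S.image (mask g)).filter (fun x => x (Fin.last n) = a)).image ini := by
    ext y
    simp only [mem_image, mem_filter, mem_slice]
    constructor
    · rintro ⟨z, ⟨x, hx, hxa, rfl⟩, rfl⟩
      exact ⟨mask g x, ⟨⟨x, hx, rfl⟩, by rw [hlast]; exact hxa⟩, mask_ini g x⟩
    · rintro ⟨z, ⟨⟨x, hx, rfl⟩, hz⟩, rfl⟩
      exact ⟨ini x, ⟨x, hx, (hlast x).symm.trans hz, rfl⟩, (mask_ini g x).symm⟩
  rw [h3]
  symm
  apply card_image_of_injOn
  intro x hx y hy hxy
  simp only [coe_filter, Set.mem_ofPred_eq] at hx hy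
  exact ext_last hxy (hx.2.trans hy.2.symm)

/-- if the last coordinate is dropped, only the union of the slices matters -/
theorem pc_of_not_mem {g : Finset (Fin (n + 1))} (hg : Fin.last n ∉ g)
    (S : Finset (Fin (n + 1) → ℤ)) : pc g S = pc (tr g) (US S) := by
  unfold pc US
  have hlast : ∀ x : Fin (n + 1) → ℤ, mask g x (Fin.last n) = 0 := by
    intro x; simp [mask, hg]
  have h3 : (S.image ini).image (mask (tr g)) = (S.image (mask g)).image ini := by
    rw [image_image, image_image]
    apply image_congr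
    intro x _
    exact (mask_ini g x).symm
  rw [h3]
  symm
  apply card_image_of_injOn
  intro x hx y hy hxy
  simp only [coe_image, Set.mem_image] at hx hy
  obtain ⟨x', _, rfl⟩ := hx
  obtain ⟨y', _, rfl⟩ := hy
  exact ext_last hxy ((hlast x').trans (hlast y').symm)

theorem mem_tr {g : Finset (Fin (n + 1))} {i : Fin n} : i ∈ tr g ↔ i.castSucc ∈ g := by
  simp [tr]

end Pool.Agent.H488R3.UC
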